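import Pool.Agent.EPH.NHf
import Pool.Agent.EPH.XCfgB

/-!
# EPH-NCod: the dimension of the null sets of half chords
-/

set_option autoImplicit false

open Finset
open scoped Classical

namespace Pool.Agent.EPH

open Pool.Agent.BEO hiding Cfg Frame

variable {k : ℕ} {Φ Vt Z : Type} [Fintype Φ] [Fintype Vt] [AddCommGroup Z] [Module F2 Z] [Module.Finite F2 Z]

/-- the vertices of a list of chords -/
private noncomputable def ncV {P : Cor Φ Vt} (l : List (Ch P)) : Finset Vt :=
  univ.filter fun v : Vt => ∃ e ∈ l, e.vx = v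

/-- the faces of a list of chords -/
private noncomputable def ncF (S : Sys k Φ Vt Z) (l : List (Ch S.P)) : Finset Φ :=
  univ.filter fun F : Φ => ∃ e ∈ l, S.D.s e = F ∨ S.D.t e = F

/-- sum at a vertex -/
private noncomputable def ncA {P : Cor Φ Vt} (l : List (Ch P)) (v : Vt) : (Fin l.length × Bool → F2) →ₗ[F2] F2 :=
  ∑ h, if hfV l h = v then LinearMap.proj h else 0

/-- sum at a face -/
private noncomputable def ncB (S : Sys k Φ Vt Z) (l : List (Ch S.P)) (F : Φ) : (Fin l.length × Bool → F2) →ₗ[F2] F2 :=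
  ∑ h, if hfF S l h = F then LinearMap.proj h else 0

private noncomputable def ncPsi (S : Sys k Φ Vt Z) (l : List (Ch S.P)) :
    (Fin l.length × Bool → F2) →ₗ[F2] (↥(ncV l) → F2) × (↥(ncF S l) → F2) :=
  LinearMap.prod (LinearMap.pi fun v => ncA l v.1) (LinearMap.pi fun F => ncB S l F.1)

private noncomputable def ncChi (S : Sys k Φ Vt Z) (l : List (Ch S.P)) :
    (Fin l.length × Bool → F2) →ₗ[F2] (Z →ₗ[F2] F2) :=
  ∑ h, (LinearMap.proj h : (Fin l.length × Bool → F2) →ₗ[F2] F2).smulRight (S.c (hfV l h) (hfC l h))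

omit [Fintype Vt] [Fintype Φ] in
private theorem ncA_apply {P : Cor Φ Vt} (l : List (Ch P)) (v : Vt) (x : Fin l.length × Bool → F2) :
    ncA l v x = ∑ h, if hfV l h = v then x h else 0 := by
  unfold ncA
  rw [LinearMap.sum_apply]
  refine sum_congr rfl fun h _ => ?_
  split_ifs <;> simp

omit [Module.Finite F2 Z] in
private theorem ncB_apply (S : Sys k Φ Vt Z) (l : List (Ch S.P)) (F : Φ) (x : Fin l.length × Bool → F2) :
    ncB S l F x = ∑ h, if hfF S l h = F then x h else 0 := by
  unfold ncB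
  rw [LinearMap.sum_apply]
  refine sum_congr rfl fun h _ => ?_
  split_ifs <;> simp

omit [Module.Finite F2 Z] in
private theorem ncChi_apply (S : Sys k Φ Vt Z) (l : List (Ch S.P)) (x : Fin l.length × Bool → F2) :
    ncChi S l x = ∑ h, x h • S.c (hfV l h) (hfC l h) := by
  unfold ncChi
  rw [LinearMap.sum_apply]
  refine sum_congr rfl fun h _ => ?_
  rw [LinearMap.smulRight_apply, LinearMap.proj_apply]

omit [Module.Finite F2 Z] in
private theorem nc_ker (S : Sys k Φ Vt Z) (l : List (Ch S.P)) (x : Fin l.length × Bool → F2)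
    (hx : x ∈ LinearMap.ker (ncPsi S l)) :
    (∀ v, ∑ h, (if hfV l h = v then x h else 0) = 0) ∧ (∀ F, ∑ h, (if hfF S l h = F then x h else 0) = 0) := by
  rw [LinearMap.mem_ker] at hx
  unfold ncPsi at hx
  rw [LinearMap.prod_apply] at hx
  have h1 := (Prod.ext_iff.1 hx).1
  have h2 := (Prod.ext_iff.1 hx).2
  constructor
  · intro v
    by_cases hv : v ∈ ncV l
    · have h3 := congrFun h1 ⟨v, hv⟩
      have h4 : ncA l v x = 0 := h3
      rwa [ncA_apply] at h4
    · refine sum_eq_zero fun h _ => ?_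
      rw [if_neg]
      intro h3
      exact hv (mem_filter.2 ⟨mem_univ _, l.get h.1, List.get_mem _ _, h3⟩)
  · intro F
    by_cases hF : F ∈ ncF S l
    · have h3 := congrFun h2 ⟨F, hF⟩
      have h4 : ncB S l F x = 0 := h3
      rwa [ncB_apply] at h4
    · refine sum_eq_zero fun h _ => ?_
      rw [if_neg]
      intro h3
      refine hF (mem_filter.2 ⟨mem_univ _, l.get h.1, List.get_mem _ _, ?_⟩)
      unfold hfF at h3
      split_ifs at h3
      · exact Or.inr h3
      · exact Or.inl h3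

omit [Module.Finite F2 Z] in
private theorem nc_hfF (S : Sys k Φ Vt Z) (l : List (Ch S.P)) (h : Fin l.length × Bool) :
    hfF S l h = S.P.fc (hfV l h) (hfC l h) := by
  unfold hfF hfV hfC
  split_ifs
  · exact S.ht _
  · exact S.hs _

omit [Fintype Vt] [Fintype Φ] in
private theorem nc_lt {P : Cor Φ Vt} (l : List (Ch P)) (h : Fin l.length × Bool) : hfC l h < P.d (hfV l h) := by
  unfold hfC hfV
  split_ifs
  · exact (l.get h.1).1.2.2.2
  · exact (l.get h.1).1.2.1.2

omit [Module.Finite F2 Z] in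
private theorem nc_val (S : Sys k Φ Vt Z) (v : Vt) (i : ℕ) (hi : i < S.P.d v) (F : Φ) :
    S.c v i (S.D.z F) = (if S.P.fc v i = F then 1 else 0) + ((if S.P.fc v 0 = F then 1 else 0) + S.c v 0 (S.D.z F)) := by
  rcases Nat.eq_zero_or_pos i with h0 | h0
  · subst h0
    rw [← add_assoc, CharTwo.add_self_eq_zero, zero_add]
  · let e : Ch S.P := ⟨⟨v, ⟨0, by omega⟩, ⟨i, hi⟩⟩, by
      show (⟨0, _⟩ : Fin (S.P.d v)) < ⟨i, hi⟩
      exact h0⟩
    have h1 := S.D.inc e F
    have h2 : S.D.a e = S.c v 0 + S.c v i := S.hc e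
    have h3 : S.D.s e = S.P.fc v 0 := S.hs e
    have h4 : S.D.t e = S.P.fc v i := S.ht e
    rw [h2, h3, h4, LinearMap.add_apply] at h1
    have h5 : S.c v i (S.D.z F) = S.c v 0 (S.D.z F) + (S.c v 0 (S.D.z F) + S.c v i (S.D.z F)) := by
      rw [← add_assoc, CharTwo.add_self_eq_zero, zero_add]
    rw [h5, h1]
    ring

omit [Module.Finite F2 Z] in
private theorem nc_H (S : Sys k Φ Vt Z) (l : List (Ch S.P)) (x : Fin l.length × Bool → F2)
    (hx : x ∈ LinearMap.ker (ncPsi S l)) : ncChi S l x ∈ S.D.H := by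
  obtain ⟨h1, h2⟩ := nc_ker S l x hx
  intro F
  rw [ncChi_apply, LinearMap.sum_apply]
  have h3 : ∀ h : Fin l.length × Bool, (x h • S.c (hfV l h) (hfC l h)) (S.D.z F) =
      (if hfF S l h = F then x h else 0) +
        x h * ((if S.P.fc (hfV l h) 0 = F then 1 else 0) + S.c (hfV l h) 0 (S.D.z F)) := by
    intro h
    rw [LinearMap.smul_apply, smul_eq_mul, nc_val S _ _ (nc_lt l h) F, nc_hfF, mul_add]
    congr 1
    split_ifs <;> simp
  simp only [h3, sum_add_distrib, h2 F, zero_add]
  have h4 : ∀ h : Fin l.length × Bool,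
      x h * ((if S.P.fc (hfV l h) 0 = F then 1 else 0) + S.c (hfV l h) 0 (S.D.z F)) =
      ∑ v, (if hfV l h = v then x h else 0) * ((if S.P.fc v 0 = F then 1 else 0) + S.c v 0 (S.D.z F)) := by
    intro h
    rw [sum_eq_single (hfV l h)]
    · rw [if_pos rfl]
    · intro b _ hb
      rw [if_neg (Ne.symm hb), zero_mul]
    · intro hb
      exact absurd (mem_univ _) hb
  simp only [h4]
  rw [sum_comm]
  refine sum_eq_zero fun v _ => ?_
  rw [← sum_mul, h1 v, zero_mul]

theorem dim_cd (S : Sys k Φ Vt Z) (l : List (Ch S.P)) :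
    2 * l.length ≤ Module.finrank F2 (Cd S l) + (univ.filter fun v : Vt => ∃ e ∈ l, e.vx = v).card +
      (univ.filter fun F : Φ => ∃ e ∈ l, S.D.s e = F ∨ S.D.t e = F).card + k := by
  have h2 : Module.finrank F2 (Fin l.length × Bool → F2) = 2 * l.length := by
    rw [Module.finrank_fintype_fun_eq_card, Fintype.card_prod, Fintype.card_fin, Fintype.card_bool, mul_comm]
  have h1 : Module.finrank F2 (LinearMap.range (ncPsi S l)) + Module.finrank F2 (LinearMap.ker (ncPsi S l)) =
      2 * l.length := by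
    rw [← h2]
    exact LinearMap.finrank_range_add_finrank_ker (ncPsi S l)
  have h3 : Module.finrank F2 (LinearMap.range (ncPsi S l)) ≤ (ncV l).card + (ncF S l).card := by
    refine (Submodule.finrank_le _).trans (le_of_eq ?_)
    rw [Module.finrank_prod, Module.finrank_fintype_fun_eq_card, Module.finrank_fintype_fun_eq_card,
      Fintype.card_coe, Fintype.card_coe]
  let g : ↥(LinearMap.ker (ncPsi S l)) →ₗ[F2] (Z →ₗ[F2] F2) := (ncChi S l).domRestrict _
  have h4 : Module.finrank F2 (LinearMap.range g) + Module.finrank F2 (LinearMap.ker g) =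
      Module.finrank F2 (LinearMap.ker (ncPsi S l)) := LinearMap.finrank_range_add_finrank_ker g
  have h5 : Module.finrank F2 (LinearMap.range g) ≤ k := by
    refine le_trans ?_ (le_of_eq S.D.finrank_H)
    refine Submodule.finrank_mono ?_
    rintro _ ⟨x, rfl⟩
    exact nc_H S l x.1 x.2
  have h6 : Module.finrank F2 (LinearMap.ker g) ≤ Module.finrank F2 (Cd S l) := by
    rw [← Submodule.finrank_map_subtype_eq]
    refine Submodule.finrank_mono ?_
    rintro _ ⟨x, hx, rfl⟩
    have hx2 : ncChi S l x.1 = 0 := hx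
    rw [ncChi_apply] at hx2
    obtain ⟨h7, h8⟩ := nc_ker S l x.1 x.2
    exact ⟨h7, h8, hx2⟩
  have h9 : (ncV l).card = (univ.filter fun v : Vt => ∃ e ∈ l, e.vx = v).card := rfl
  have h10 : (ncF S l).card = (univ.filter fun F : Φ => ∃ e ∈ l, S.D.s e = F ∨ S.D.t e = F).card := rfl
  rw [← h9, ← h10]
  omega

end Pool.Agent.EPH
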