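import Pool.Agent.EPH.YDef
import Pool.Agent.EPH.XCfgA
import Pool.Agent.EPH.ExtS

/-!
# EPH-YDec: an extremal set which is a union of members of `W`

`exists_dec`: every chord of an extremal set is replaced by the member of `W` with the same two faces; the long chords
are not changed.
-/

set_option autoImplicit false

open Finset
open scoped Classical

namespace Pool.Agent.EPH

open Pool.Agent.BEO

variable {k : ℕ} {Φ Vt Z : Type} [Fintype Φ] [Fintype Vt] [AddCommGroup Z] [Module F2 Z] [Module.Finite F2 Z]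

omit [Module.Finite F2 Z] in
/-- two different chords with the same faces are short -/
private theorem yd_short (S : Sys k Φ Vt Z) (e e' : Ch S.P) (h : s(S.D.s e, S.D.t e) = s(S.D.s e', S.D.t e'))
    (hl : e.Long) : e = e' := by
  by_contra hne
  have hvx : e.vx ≠ e'.vx := by
    intro hv
    apply hne
    rw [S.hs, S.ht, S.hs, S.ht] at h
    obtain ⟨⟨v, ⟨i, j⟩⟩, hij⟩ := e
    obtain ⟨⟨v', ⟨i', j'⟩⟩, hij'⟩ := e'
    have hv' : v = v' := hv
    subst hv'
    have hij1 : i < j := hij
    have hij2 : i' < j' := hij'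
    have h1 : s(S.P.fc v i, S.P.fc v j) = s(S.P.fc v i', S.P.fc v j') := h
    rcases Sym2.eq_iff.1 h1 with ⟨h3, h4⟩ | ⟨h3, h4⟩
    · have h5 : i = i' := Fin.ext (S.P.inj v _ _ i.2 i'.2 h3)
      have h6 : j = j' := Fin.ext (S.P.inj v _ _ j.2 j'.2 h4)
      subst h5 h6
      rfl
    · have h5 : i = j' := Fin.ext (S.P.inj v _ _ i.2 j'.2 h3)
      have h6 : j = i' := Fin.ext (S.P.inj v _ _ j.2 i'.2 h4)
      subst h5 h6
      exact absurd hij1 (not_lt_of_gt hij2)
  have h1 : On S.P e.vx (S.D.s e) := ⟨e.lo, e.1.2.1.2, (S.hs e).symm⟩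
  have h2 : On S.P e.vx (S.D.t e) := ⟨e.hi, e.1.2.2.2, (S.ht e).symm⟩
  have h3 : On S.P e'.vx (S.D.s e') := ⟨e'.lo, e'.1.2.1.2, (S.hs e').symm⟩
  have h4 : On S.P e'.vx (S.D.t e') := ⟨e'.hi, e'.1.2.2.2, (S.ht e').symm⟩
  apply hl
  rcases Sym2.eq_iff.1 h with ⟨h5, h6⟩ | ⟨h5, h6⟩
  · rw [← h5] at h3
    rw [← h6] at h4
    exact S.pol.two e.vx e'.vx _ _ hvx (s_ne_t S e) h1 h2 h3 h4 e.lo e.hi e.1.2.1.2 e.1.2.2.2 (S.hs e).symm
      (S.ht e).symm
  · rw [← h6] at h3
    rw [← h5] at h4
    exact S.pol.two e.vx e'.vx _ _ hvx (s_ne_t S e) h1 h2 h4 h3 e.lo e.hi e.1.2.1.2 e.1.2.2.2 (S.hs e).symm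
      (S.ht e).symm

omit [Module.Finite F2 Z] in
private theorem yd_dw (S : Sys k Φ Vt Z) (e : Ch S.P) : DW S.D.s S.D.t (S.D.s e) (S.D.t e) [e] :=
  DW.cons _ _ _ e [] (Or.inl ⟨rfl, rfl⟩) (DW.nil _)

private theorem yd_one {Φ' E : Type} (s t : E → Φ') (F G : Φ') (e : E) (h : DW s t F G [e]) :
    (s e = F ∧ t e = G) ∨ (s e = G ∧ t e = F) := by
  cases h with
  | cons _ G _ _ _ he hl =>
    cases hl with
    | nil => exact he

private theorem yd_flat {A : Type} (l : List A) : (l.map fun e => [e]).flatten = l := by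
  induction l with
  | nil => rfl
  | cons a l ih => rw [List.map_cons, List.flatten_cons, ih, List.singleton_append]

theorem exists_dec (S : Sys k Φ Vt Z) (W : Set (List (Ch S.P))) (hW : Canon S W) :
    ∃ lam mu ls, Ext S lam mu ∧ Dec S W lam ls := by
  obtain ⟨lam0, mu0, hx⟩ := exists_ext S
  obtain ⟨φ, hφW, hφ⟩ : ∃ φ : Ch S.P → Ch S.P, (∀ e, [φ e] ∈ W) ∧
      ∀ e, s(S.D.s (φ e), S.D.t (φ e)) = s(S.D.s e, S.D.t e) := by
    have h1 : ∀ e : Ch S.P, ∃ e' : Ch S.P, [e'] ∈ W ∧ s(S.D.s e', S.D.t e') = s(S.D.s e, S.D.t e) := by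
      intro e
      obtain ⟨w', h2, h3, h4, h5, -, -⟩ := hW _ _ [e] (yd_dw S e) (List.cons_ne_nil _ _)
      match w', h2, h3, h4, h5 with
      | [], _, _, h4, _ => exact absurd rfl h4
      | [e'], h2, h3, _, _ =>
        refine ⟨e', h2, ?_⟩
        exact Sym2.eq_iff.2 (yd_one _ _ _ _ _ h3)
      | _ :: _ :: _, _, _, _, h5 => simp at h5
    choose φ h2 h3 using h1
    exact ⟨φ, h2, h3⟩
  have hpar := noPar hx
  have hinj : ∀ e ∈ lam0, ∀ e' ∈ lam0, φ e = φ e' → e = e' := by
    intro e he e' he' h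
    apply hpar e he e' he'
    rw [← hφ e, ← hφ e', h]
  have ha : ∀ e, S.D.a (φ e) = S.D.a e := by
    intro e
    rw [← cl_eq, hφ, cl_eq]
  have hl1 : ∀ e, e.Long → φ e = e := fun e he => (yd_short S e (φ e) (hφ e).symm he).symm
  have hl2 : ∀ e, (φ e).Long → φ e = e := fun e he => yd_short S (φ e) e (hφ e) he
  have hN : ∀ T : Finset (Ch S.P), T ⊆ lam0 → S.D.N (T.image φ) = S.D.N T := by
    intro T hT
    unfold Dat.N
    rw [Finset.sum_image (fun e he e' he' h => hinj e (hT he) e' (hT he') h)]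
    congr 1
    exact Finset.sum_congr rfl fun e _ => by rw [ha]
  have hcard : ∀ T : Finset (Ch S.P), T ⊆ lam0 → (T.image φ).card = T.card := by
    intro T hT
    exact Finset.card_image_of_injOn (fun e he e' he' h => hinj e (hT he) e' (hT he') h)
  have hadm : ∀ T : Finset (Ch S.P), T ⊆ lam0 → (S.D.Adm (T.image φ) ↔ S.D.Adm T) := by
    intro T hT
    unfold Dat.Adm
    rw [hN T hT]
  have hrk : S.D.rkN (lam0.image φ) = S.D.rkN lam0 := by
    unfold Dat.rkN
    rw [hN lam0 (Finset.Subset.refl _)]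
  have hgr : S.D.gr (lam0.image φ) = S.D.gr lam0 := by
    ext F G
    rw [← SimpleGraph.mem_edgeSet, ← SimpleGraph.mem_edgeSet, gr_mem, gr_mem]
    constructor
    · rintro ⟨e, he, h⟩
      obtain ⟨e0, he0, rfl⟩ := Finset.mem_image.1 he
      exact ⟨e0, he0, by rw [← h, hφ]⟩
    · rintro ⟨e, he, h⟩
      exact ⟨φ e, Finset.mem_image_of_mem φ he, by rw [← h, hφ]⟩
  have hact : act S (lam0.image φ) = act S lam0 := by
    unfold act
    rw [hgr]
  have hreal : Real S.P (lam0.image φ) := by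
    intro v
    refine realAt_congr (lam := lam0) ?_ (hx.real v)
    intro e _ hlong
    constructor
    · intro he
      rw [← hl1 e hlong]
      exact Finset.mem_image_of_mem φ he
    · intro he
      obtain ⟨e0, he0, rfl⟩ := Finset.mem_image.1 he
      rw [hl2 e0 hlong]
      exact he0
  refine ⟨lam0.image φ, mu0.image φ, (lam0.image φ).toList.map (fun e => [e]), ?_, ?_⟩
  · refine
      { real := hreal
        adm := (hadm lam0 (Finset.Subset.refl _)).2 hx.adm
        opt := ?_
        few := ?_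
        small := ?_
        sub := Finset.image_subset_image hx.sub
        admM := (hadm mu0 hx.sub).2 hx.admM
        smallM := ?_ }
    · intro lam' h1 h2
      rw [hrk]
      exact hx.opt lam' h1 h2
    · intro lam' h1 h2 h3
      rw [hrk] at h3
      rw [hact]
      exact hx.few lam' h1 h2 h3
    · intro lam' h1 h2 h3 h4
      rw [hrk] at h3
      rw [hact] at h4
      rw [hcard lam0 (Finset.Subset.refl _)]
      exact hx.small lam' h1 h2 h3 h4
    · intro mu' h1 h2
      have h3 : (lam0.filter fun e => φ e ∈ mu').image φ = mu' := by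
        ext e
        rw [Finset.mem_image]
        constructor
        · rintro ⟨e0, he0, rfl⟩
          exact (Finset.mem_filter.1 he0).2
        · intro he
          obtain ⟨e0, he0, rfl⟩ := Finset.mem_image.1 (h1 he)
          exact ⟨e0, Finset.mem_filter.2 ⟨he0, he⟩, rfl⟩
      have h4 : (lam0.filter fun e => φ e ∈ mu') ⊆ lam0 := Finset.filter_subset _ _
      have h5 : S.D.Adm (lam0.filter fun e => φ e ∈ mu') := by
        rw [← hadm _ h4, h3]
        exact h2
      have h6 := hx.smallM _ h4 h5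
      rw [hcard mu0 hx.sub]
      calc mu0.card ≤ (lam0.filter fun e => φ e ∈ mu').card := h6
        _ = ((lam0.filter fun e => φ e ∈ mu').image φ).card := (hcard _ h4).symm
        _ = mu'.card := by rw [h3]
  · refine
      { mem := ?_
        walk := ?_
        ne := ?_
        nodup := ?_
        cov := ?_ }
    · intro w hw
      obtain ⟨e, he, rfl⟩ := List.mem_map.1 hw
      obtain ⟨e0, -, rfl⟩ := Finset.mem_image.1 (Finset.mem_toList.1 he)
      exact hφW e0
    · intro w hw
      obtain ⟨e, he, rfl⟩ := List.mem_map.1 hw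
      exact ⟨_, _, yd_dw S e⟩
    · intro w hw
      obtain ⟨e, he, rfl⟩ := List.mem_map.1 hw
      exact List.cons_ne_nil _ _
    · rw [yd_flat]
      exact Finset.nodup_toList _
    · intro e
      rw [yd_flat, Finset.mem_toList]

end Pool.Agent.EPH
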