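import Pool.Agent.EPH.YPc

/-!
# EPH-YJoin: joining two neighbouring good pieces

Let `X` be the common face. The number of chords of a piece at `X` is one, so `X` is an end of the piece (`ends_par`), and
the piece or its reverse ends (starts) at `X`. The two walks are joined at `X`.
-/

set_option autoImplicit false
set_option linter.unusedSectionVars false

open Finset
open scoped Classical

namespace Pool.Agent.EPH

open Pool.Agent.BEO

variable {k : ℕ} {Φ Vt Z : Type} [Fintype Φ] [Fintype Vt] [AddCommGroup Z] [Module F2 Z] [Module.Finite F2 Z]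

variable {S : Sys k Φ Vt Z} {W : Set (List (Ch S.P))} {lam mu : Finset (Ch S.P)} {ls : List (List (Ch S.P))}

private theorem end_of {F G X : Φ} {w : List (Ch S.P)} (h : DW S.D.s S.D.t F G w)
    (hX : (w.countP fun e => decide (S.D.s e = X ∨ S.D.t e = X)) = 1) : F = X ∨ G = X := by
  have h1 := ends_par (S := S) h X
  rw [hX] at h1
  by_contra hc
  rw [if_neg (fun h2 => hc (Or.inl h2)), if_neg (fun h2 => hc (Or.inr h2)), Nat.cast_one, add_zero] at h1
  exact one_ne_zero h1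

private theorem orient_r {X : Φ} {w : List (Ch S.P)} (h : ∃ F G, DW S.D.s S.D.t F G w)
    (hX : (w.countP fun e => decide (S.D.s e = X ∨ S.D.t e = X)) = 1) :
    ∃ F w', w'.Perm w ∧ DW S.D.s S.D.t F X w' := by
  obtain ⟨F, G, h⟩ := h
  rcases end_of h hX with rfl | rfl
  · exact ⟨G, w.reverse, w.reverse_perm, h.reverse⟩
  · exact ⟨F, w, List.Perm.refl w, h⟩

private theorem orient_l {X : Φ} {w : List (Ch S.P)} (h : ∃ F G, DW S.D.s S.D.t F G w)
    (hX : (w.countP fun e => decide (S.D.s e = X ∨ S.D.t e = X)) = 1) :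
    ∃ G w', w'.Perm w ∧ DW S.D.s S.D.t X G w' := by
  obtain ⟨F, w', h1, h2⟩ := orient_r h hX
  exact ⟨F, w'.reverse, w'.reverse_perm.trans h1, h2.reverse⟩

private theorem get_disj (hn : ls.flatten.Nodup) (i j : Fin ls.length) (hij : i ≠ j) :
    (ls.get i ++ ls.get j).Nodup := by
  rw [List.nodup_flatten] at hn
  obtain ⟨h1, h2⟩ := hn
  rw [List.pairwise_iff_get] at h2
  refine List.Nodup.append (h1 _ (ls.get_mem i)) (h1 _ (ls.get_mem j)) ?_
  rcases lt_or_gt_of_ne hij with h | h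
  · exact h2 i j h
  · exact (h2 j i h).symm

theorem join_leg (hd : Dec S W lam ls) (i j : Fin ls.length) (hij : i ≠ j) (hi : GdP S lam mu (ls.get i))
    (hj : GdP S lam mu (ls.get j)) (hJ : Jn S lam (ls.get i) (ls.get j)) :
    ∃ F G P, Leg S lam mu F G P ∧ P.Perm (ls.get i ++ ls.get j) := by
  obtain ⟨X, -, h1, h2⟩ := hJ
  obtain ⟨F, w1, p1, d1⟩ := orient_r (hd.walk _ (ls.get_mem i)) h1
  obtain ⟨G, w2, p2, d2⟩ := orient_l (hd.walk _ (ls.get_mem j)) h2
  have hp : (w1 ++ w2).Perm (ls.get i ++ ls.get j) := p1.append p2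
  have hm : ∀ e ∈ w1 ++ w2, e ∈ lam ∧ e ∉ badC S lam mu ∧
      (dgF S lam (S.D.s e) = 2 ∧ dgF S lam (S.D.t e) = 2) := by
    intro e he
    rcases List.mem_append.1 (hp.mem_iff.1 he) with h | h
    · exact ⟨(hd.cov e).2 (List.mem_flatten.2 ⟨_, ls.get_mem i, h⟩), hi.nb e h, hi.deg e h⟩
    · exact ⟨(hd.cov e).2 (List.mem_flatten.2 ⟨_, ls.get_mem j, h⟩), hj.nb e h, hj.deg e h⟩
  refine ⟨F, G, w1 ++ w2, ⟨d1.append d2, ?_, ?_, fun e he => (hm e he).1, ?_, fun e he => (hm e he).2.2, ?_⟩, hp⟩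
  · intro h
    have h3 : w1 = [] := (List.append_eq_nil_iff.1 h).1
    rw [h3] at p1
    exact hd.ne _ (ls.get_mem i) p1.symm.eq_nil
  · exact hp.nodup_iff.2 (get_disj hd.nodup i j hij)
  · intro e he
    by_contra hc
    exact (hm e he).2.1 (mem_filter.2 ⟨(hm e he).1, Or.inl hc⟩)
  · intro e he e' he' hv
    by_contra hc
    exact (hm e he).2.1 (mem_filter.2 ⟨(hm e he).1, Or.inr ⟨e', he', hc, hv⟩⟩)

end Pool.Agent.EPH
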