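import Pool.Agent.EPH.DtB
import Pool.Agent.BEO.DWB
import Pool.Agent.BEO.RcB

/-!
# EPH-DtL: replacing the legs

PLAN. `rank_cmp` with `I := {e // e ∈ lam}`, `a e := D.a e`; `I' := Σ i : Fin m, Fin (w' i).length`,
`a' ⟨i, j⟩ := D.a ((w' i).get j)`; `R := span (range z)` (`hR` from `D.rad`); `N := D.N lam` (`N_apply`,
`Finset.sum_coe_sort`), `N' := D.N (oddE (List.ofFn w').flatten)`: `∑ i', a' i' x * a' i' y` is the sum over the list
`(List.ofFn w').flatten` of `D.a e x * D.a e y`, and terms occurring an even number of times cancel.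
`θ ν ⟨i, j⟩ := ν (first edge of L.w i)` (`L.ne`, `L.cov`), linear in `ν`. For `ν` with `∑ e, ν e * a e r = 0` on `R`
the support `{e | ν e = 1}` is even (`ev_iff` with `r = z F`), so by `L.un` it is a union of legs: `ν e` is constant on
each leg. `hinj`: if `θ ν = 0` then `ν` is 0 on every leg (`w' i` is not empty). `hcls`: both sides are
`∑ i with ν = 1 on leg i` of `((w' i).map D.a).sum x = ((L.w i).map D.a).sum x` (`L.nd`, `L.dj`, `L.cov`: `lam` is the
disjoint union of the legs). `hdot`: both sides are `∑ i` over the legs in both supports of `(w' i).length` resp.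
`(L.w i).length`, equal modulo 2. The result is `lam.card + rank N' ≤ card I' + rank N` and
`card I' = ∑ (w' i).length ≤ ∑ (L.w i).length = lam.card`. Admissible: `adm_iff`:
`∑ e ∈ oddE .., D.a e = ∑ i, ((w' i).map D.a).sum = ∑ i, ((L.w i).map D.a).sum = ∑ e ∈ lam, D.a e` (`sum_cls`).
-/

set_option autoImplicit false

open Finset
open scoped Classical

namespace Pool.Agent.EPH

open Pool.Agent.BEO hiding Dat

namespace Dat

section prelim

private theorem f2_cases (x : F2) : x = 0 ∨ x = 1 := by
  fin_cases x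
  · left; rfl
  · right; rfl

private theorem nsmul_f2 (n : ℕ) (y : F2) : n • y = if n % 2 = 1 then y else 0 := by
  rw [nsmul_eq_mul]
  have h1 : ((n : ℕ) : F2) = ((n % 2 : ℕ) : F2) := (ZMod.natCast_mod n 2).symm
  rw [h1]
  rcases Nat.mod_two_eq_zero_or_one n with h | h
  · rw [h]
    simp
  · rw [h]
    simp

private theorem sum_odd {E : Type} [Fintype E] (l : List E) (f : E → F2) :
    ∑ e ∈ oddE l, f e = (l.map f).sum := by
  unfold oddE
  rw [Finset.sum_filter, Finset.sum_list_map_count]
  have h1 : ∑ e ∈ l.toFinset, l.count e • f e = ∑ e, l.count e • f e := by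
    apply Finset.sum_subset (Finset.subset_univ _)
    intro e _ he
    have : l.count e = 0 := List.count_eq_zero_of_not_mem fun h => he (List.mem_toFinset.2 h)
    rw [this, zero_nsmul]
  rw [h1]
  apply Finset.sum_congr rfl
  intro e _
  rw [nsmul_f2]

private theorem sum_flat {E M : Type} [AddCommMonoid M] {m : ℕ} (w : Fin m → List E) (f : E → M) :
    ((List.ofFn w).flatten.map f).sum = ∑ i, ((w i).map f).sum := by
  rw [List.map_flatten, List.sum_flatten, List.map_map, List.map_ofFn, List.sum_ofFn]
  rfl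

private theorem sum_get {E M : Type} [AddCommMonoid M] (l : List E) (f : E → M) :
    ∑ j : Fin l.length, f (l.get j) = (l.map f).sum := by
  rw [← Fin.sum_univ_fun_getElem]
  rfl

private theorem sum_sig {E M : Type} [AddCommMonoid M] {m : ℕ} (w : Fin m → List E) (f : Fin m → E → M) :
    ∑ p : (Σ i : Fin m, Fin (w i).length), f p.1 ((w p.1).get p.2) = ∑ i, ((w i).map (f i)).sum := by
  rw [Fintype.sum_sigma]
  apply Finset.sum_congr rfl
  intro i _
  exact sum_get (w i) (f i)

private theorem sum_legs {Φ E M : Type} [AddCommMonoid M] {s t : E → Φ} {lam : Finset E} {m : ℕ}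
    (L : LegSys s t lam m) (f : E → M) : ∑ e ∈ lam, f e = ∑ i, ((L.w i).map f).sum := by
  have h1 : lam = univ.biUnion fun i => (L.w i).toFinset := by
    ext e
    rw [L.cov e]
    simp
  refine (Finset.sum_congr h1 fun _ _ => rfl).trans ?_
  rw [Finset.sum_biUnion]
  · apply Finset.sum_congr rfl
    intro i _
    exact List.sum_toFinset f (L.nd i)
  · intro i _ j _ hij
    rw [Function.onFun, Finset.disjoint_left]
    intro e he he'
    rw [List.mem_toFinset] at he he'
    exact L.dj i j hij e he he'

private theorem sum_map_apply {E Z : Type} [AddCommGroup Z] [Module F2 Z] (a : E → Z →ₗ[F2] F2) (l : List E)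
    (x : Z) : ((l.map a).sum) x = (l.map fun e => a e x).sum := by
  induction l with
  | nil => rfl
  | cons e l ih =>
    rw [List.map_cons, List.sum_cons, LinearMap.add_apply, ih, List.map_cons, List.sum_cons]

private theorem sum_map_const {E : Type} (l : List E) (f : E → F2) (c : F2) (h : ∀ e ∈ l, f e = c) :
    (l.map f).sum = l.length • c := by
  have h1 : l.map f = List.replicate l.length c := by
    rw [List.eq_replicate_iff]
    refine ⟨List.length_map _, ?_⟩
    intro b hb
    rw [List.mem_map] at hb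
    obtain ⟨e, he, rfl⟩ := hb
    exact h e he
  rw [h1, List.sum_replicate]

private theorem sum_map_mul {E : Type} (l : List E) (f g : E → F2) (c : F2) (h : ∀ e ∈ l, f e = c) :
    (l.map fun e => f e * g e).sum = c * (l.map g).sum := by
  induction l with
  | nil => simp
  | cons e l ih =>
    rw [List.map_cons, List.sum_cons, List.map_cons, List.sum_cons, mul_add,
      ih fun e' he' => h e' (List.mem_cons_of_mem _ he'), h e List.mem_cons_self]

end prelim

variable {k : ℕ} {Φ E Z : Type} [Fintype Φ] [Fintype E] [AddCommGroup Z] [Module F2 Z] [Module.Finite F2 Z]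
  (D : Dat k Φ E Z)

/-- the extension by zero -/
private noncomputable def ext0 (lam : Finset E) (ν : {e // e ∈ lam} → F2) (e : E) : F2 :=
  if h : e ∈ lam then ν ⟨e, h⟩ else 0

omit [Fintype E] in
private theorem ext0_coe (lam : Finset E) (ν : {e // e ∈ lam} → F2) (e : {e // e ∈ lam}) :
    ext0 lam ν e.1 = ν e := by
  unfold ext0
  rw [dif_pos e.2]

omit [Fintype E] in
private theorem sum_ext0 (lam : Finset E) (ν : {e // e ∈ lam} → F2) (g : E → F2) :
    ∑ i : {e // e ∈ lam}, ν i * g i.1 = ∑ e ∈ lam, ext0 lam ν e * g e := by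
  rw [← Finset.sum_coe_sort lam (fun e => ext0 lam ν e * g e)]
  apply Finset.sum_congr rfl
  intro i _
  rw [ext0_coe]

omit [Module.Finite F2 Z] in
private theorem const_leg (lam : Finset E) (m : ℕ) (L : LegSys D.s D.t lam m) (ν : {e // e ∈ lam} → F2)
    (hν : ∀ r ∈ Submodule.span F2 (Set.range D.z), ∑ i : {e // e ∈ lam}, ν i * D.a i.1 r = 0) (i : Fin m)
    (e e' : E) (he : e ∈ L.w i) (he' : e' ∈ L.w i) : ext0 lam ν e = ext0 lam ν e' := by
  set S : Finset E := lam.filter fun e => ext0 lam ν e = 1 with hS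
  have hev : Ev D.s D.t S := by
    rw [D.ev_iff]
    intro F
    have h1 := hν (D.z F) (Submodule.subset_span ⟨F, rfl⟩)
    rw [sum_ext0 lam ν (fun e => D.a e (D.z F))] at h1
    rw [← h1, hS, Finset.sum_filter]
    apply Finset.sum_congr rfl
    intro e _
    rcases f2_cases (ext0 lam ν e) with h | h
    · rw [h, zero_mul, if_neg]
      decide
    · rw [h, one_mul, if_pos rfl]
  have hlam : e ∈ lam := (L.cov e).2 ⟨i, he⟩
  have hlam' : e' ∈ lam := (L.cov e').2 ⟨i, he'⟩
  rcases L.un S (Finset.filter_subset _ _) hev i with h | h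
  · have h1 := (Finset.mem_filter.1 (h e he)).2
    have h2 := (Finset.mem_filter.1 (h e' he')).2
    rw [h1, h2]
  · have h1 : ext0 lam ν e ≠ 1 := fun hc => h e he (Finset.mem_filter.2 ⟨hlam, hc⟩)
    have h2 : ext0 lam ν e' ≠ 1 := fun hc => h e' he' (Finset.mem_filter.2 ⟨hlam', hc⟩)
    rcases f2_cases (ext0 lam ν e) with h3 | h3
    · rcases f2_cases (ext0 lam ν e') with h4 | h4
      · rw [h3, h4]
      · exact absurd h4 h2
    · exact absurd h3 h1

theorem repl_legs (lam : Finset E) (hadm : D.Adm lam) (m : ℕ) (L : LegSys D.s D.t lam m) (w' : Fin m → List E)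
    (hne : ∀ i, w' i ≠ []) (hlen : ∀ i, (w' i).length ≤ (L.w i).length)
    (hpar : ∀ i, ((w' i).length + (L.w i).length) % 2 = 0)
    (hcls : ∀ i, ((w' i).map D.a).sum = ((L.w i).map D.a).sum) :
    D.Adm (oddE (List.ofFn w').flatten) ∧ D.rkN (oddE (List.ofFn w').flatten) ≤ D.rkN lam := by
  have hhd : ∀ i : Fin m, ∃ e, e ∈ L.w i := fun i => List.exists_mem_of_ne_nil _ (L.ne i)
  choose hd hhd using hhd
  have hhl : ∀ i, hd i ∈ lam := fun i => (L.cov _).2 ⟨i, hhd i⟩
  constructor
  · refine (D.adm_iff lam _ ?_).1 hadm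
    rw [← D.sum_cls, sum_flat, sum_legs L]
    exact Finset.sum_congr rfl fun i _ => (hcls i).symm
  · have key := rank_cmp (I := {e // e ∈ lam}) (I' := Σ i : Fin m, Fin (w' i).length) D.J (D.N lam)
      (D.N (oddE (List.ofFn w').flatten)) D.symm (Submodule.span F2 (Set.range D.z))
      (fun r hr x => (D.rad r).2 hr x) (fun e => D.a e.1) (fun p => D.a ((w' p.1).get p.2))
      (by
        intro x y
        rw [D.N_apply, ← Finset.sum_coe_sort lam (fun e => D.a e x * D.a e y)])
      (by
        intro x y
        rw [D.N_apply, sum_odd, sum_flat, ← sum_sig w' (fun _ e => D.a e x * D.a e y)])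
      (LinearMap.funLeft F2 F2 (fun p : (Σ i : Fin m, Fin (w' i).length) =>
        (⟨hd p.1, hhl p.1⟩ : {e // e ∈ lam})))
      (by
        intro ν hν h0
        ext e
        obtain ⟨i, hi⟩ := (L.cov e.1).1 e.2
        have hpos : 0 < (w' i).length := List.length_pos_iff.2 (hne i)
        have h1 := congrFun h0 ⟨i, ⟨0, hpos⟩⟩
        have h2 : ν ⟨hd i, hhl i⟩ = 0 := h1
        have h3 := const_leg D lam m L ν hν i e.1 (hd i) hi (hhd i)
        rw [ext0_coe, ext0_coe lam ν ⟨hd i, hhl i⟩] at h3
        rw [h3, h2]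
        rfl)
      (by
        intro ν hν x
        have h1 := sum_sig w' (fun i e => ν ⟨hd i, hhl i⟩ * D.a e x)
        have h2 : ∀ i, ((w' i).map (fun e => ν ⟨hd i, hhl i⟩ * D.a e x)).sum =
            ν ⟨hd i, hhl i⟩ * ((w' i).map D.a).sum x := by
          intro i
          rw [sum_map_apply, sum_map_mul (w' i) (fun _ => ν ⟨hd i, hhl i⟩) (fun e => D.a e x)
            (ν ⟨hd i, hhl i⟩) fun _ _ => rfl]
        have h3 : ∑ i : {e // e ∈ lam}, ν i * D.a i.1 x =
            ∑ i, ν ⟨hd i, hhl i⟩ * ((L.w i).map D.a).sum x := by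
          rw [sum_ext0 lam ν (fun e => D.a e x), sum_legs L]
          apply Finset.sum_congr rfl
          intro i _
          rw [sum_map_apply, sum_map_mul (L.w i) (ext0 lam ν) (fun e => D.a e x)
            (ν ⟨hd i, hhl i⟩)]
          intro e he
          rw [const_leg D lam m L ν hν i e (hd i) he (hhd i), ext0_coe lam ν ⟨hd i, hhl i⟩]
        rw [h3]
        refine Eq.trans h1 ?_
        apply Finset.sum_congr rfl
        intro i _
        rw [h2 i, hcls i])
      (by
        intro ν ρ hν hρ
        have h1 := sum_sig w' (fun i _ => ν ⟨hd i, hhl i⟩ * ρ ⟨hd i, hhl i⟩)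
        have h3 : ∑ i : {e // e ∈ lam}, ν i * ρ i =
            ∑ i, (L.w i).length • (ν ⟨hd i, hhl i⟩ * ρ ⟨hd i, hhl i⟩) := by
          have h4 : ∑ i : {e // e ∈ lam}, ν i * ρ i = ∑ i : {e // e ∈ lam}, ν i * ext0 lam ρ i.1 := by
            apply Finset.sum_congr rfl
            intro i _
            rw [ext0_coe]
          rw [h4, sum_ext0 lam ν (ext0 lam ρ), sum_legs L]
          apply Finset.sum_congr rfl
          intro i _
          apply sum_map_const
          intro e he
          rw [const_leg D lam m L ν hν i e (hd i) he (hhd i), ext0_coe lam ν ⟨hd i, hhl i⟩,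
            const_leg D lam m L ρ hρ i e (hd i) he (hhd i), ext0_coe lam ρ ⟨hd i, hhl i⟩]
        rw [h3]
        refine Eq.trans h1 ?_
        apply Finset.sum_congr rfl
        intro i _
        rw [sum_map_const (w' i) _ (ν ⟨hd i, hhl i⟩ * ρ ⟨hd i, hhl i⟩) fun _ _ => rfl,
          nsmul_f2, nsmul_f2]
        have h5 := hpar i
        have h6 : (w' i).length % 2 = 1 ↔ (L.w i).length % 2 = 1 := by omega
        simp only [h6])
    have hcI : Fintype.card {e // e ∈ lam} = lam.card := Fintype.card_coe lam
    have hcI' : Fintype.card (Σ i : Fin m, Fin (w' i).length) = ∑ i, (w' i).length := by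
      rw [Fintype.card_sigma]
      apply Finset.sum_congr rfl
      intro i _
      exact Fintype.card_fin _
    have hlam : lam.card = ∑ i, (L.w i).length := by
      rw [Finset.card_eq_sum_ones, sum_legs L (fun _ => 1)]
      apply Finset.sum_congr rfl
      intro i _
      simp
    have hle : ∑ i, (w' i).length ≤ ∑ i, (L.w i).length := Finset.sum_le_sum fun i _ => hlen i
    unfold rkN
    have key' : Fintype.card {e // e ∈ lam} +
        Module.finrank F2 (LinearMap.range (D.N (oddE (List.ofFn w').flatten))) ≤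
        Fintype.card (Σ i : Fin m, Fin (w' i).length) +
        Module.finrank F2 (LinearMap.range (D.N lam)) := key
    omega

end Dat

end Pool.Agent.EPH
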