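import Pool.Agent.EPH.XCfgB
import Pool.Agent.EPH.ExtS

/-!
# EPH-XTch: the touching rule for walks through faces
-/

set_option autoImplicit false

open Finset
open scoped Classical

namespace Pool.Agent.EPH

open Pool.Agent.BEO hiding Cfg Frame

variable {k : ℕ} {Φ Vt Z : Type} [Fintype Φ] [Fintype Vt] [AddCommGroup Z] [Module F2 Z] [Module.Finite F2 Z]

variable {S : Sys k Φ Vt Z} {lam mu : Finset (Ch S.P)}

private theorem xt_walk (S : Sys k Φ Vt Z) {F G : Φ} (w : (RG S.P).Walk F G) :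
    ∃ l : List (Ch S.P), DW S.D.s S.D.t F G l ∧ l.length = w.length ∧
      (l.map S.D.a).sum = (w.edges.map (cl S)).sum ∧
      (∀ g ∈ l, S.D.s g ∈ w.support ∧ S.D.t g ∈ w.support) ∧
      (l ≠ [] → ∀ x ∈ w.support, ∃ g ∈ l, S.D.s g = x ∨ S.D.t g = x) := by
  induction w with
  | nil => exact ⟨[], DW.nil _, rfl, rfl, fun g hg => absurd hg List.not_mem_nil, fun h => absurd rfl h⟩
  | @cons a b c h w ih =>
    obtain ⟨l, h1, h2, h3, h4, h5⟩ := ih
    obtain ⟨e, he⟩ := (RG_iff S a b).1 h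
    have he' := Sym2.eq_iff.1 he
    refine ⟨e :: l, DW.cons a b c e l he' h1, ?_, ?_, ?_, ?_⟩
    · rw [List.length_cons, SimpleGraph.Walk.length_cons, h2]
    · rw [SimpleGraph.Walk.edges_cons, List.map_cons, List.map_cons, List.sum_cons, List.sum_cons,
        ← he, cl_eq, h3]
    · intro g hg
      rw [SimpleGraph.Walk.support_cons]
      rcases List.mem_cons.1 hg with rfl | hg
      · have hb : b ∈ w.support := w.start_mem_support
        rcases he' with ⟨h6, h7⟩ | ⟨h6, h7⟩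
        · rw [h6, h7]
          exact ⟨List.mem_cons_self, List.mem_cons_of_mem _ hb⟩
        · rw [h6, h7]
          exact ⟨List.mem_cons_of_mem _ hb, List.mem_cons_self⟩
      · exact ⟨List.mem_cons_of_mem _ (h4 g hg).1, List.mem_cons_of_mem _ (h4 g hg).2⟩
    · intro _ x hx
      rw [SimpleGraph.Walk.support_cons] at hx
      have ha : S.D.s e = a ∨ S.D.t e = a := by
        rcases he' with ⟨h6, h7⟩ | ⟨h6, h7⟩
        · exact Or.inl h6
        · exact Or.inr h7
      have hb : S.D.s e = b ∨ S.D.t e = b := by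
        rcases he' with ⟨h6, h7⟩ | ⟨h6, h7⟩
        · exact Or.inr h7
        · exact Or.inl h6
      rcases List.mem_cons.1 hx with rfl | hx
      · exact ⟨e, List.mem_cons_self, ha⟩
      · by_cases hl : l = []
        · have h8 : w.length = 0 := by rw [← h2, hl, List.length_nil]
          have h9 : x = b := by
            cases w with
            | nil =>
              rw [SimpleGraph.Walk.support_nil] at hx
              exact List.mem_singleton.1 hx
            | cons h' w' =>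
              rw [SimpleGraph.Walk.length_cons] at h8
              omega
          exact ⟨e, List.mem_cons_self, by rw [h9]; exact hb⟩
        · obtain ⟨g, hg, hgx⟩ := h5 hl x hx
          exact ⟨g, List.mem_cons_of_mem _ hg, hgx⟩

private theorem xt_on (S : Sys k Φ Vt Z) (e : Ch S.P) :
    On S.P e.vx (S.D.s e) ∧ On S.P e.vx (S.D.t e) :=
  ⟨⟨e.lo, e.1.2.1.2, (S.hs e).symm⟩, ⟨e.hi, e.1.2.2.2, (S.ht e).symm⟩⟩

private theorem xt_adj (S : Sys k Φ Vt Z) {v : Vt} {F G : Φ} (h1 : On S.P v F) (h2 : On S.P v G) :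
    F = G ∨ (RG S.P).Adj F G := by
  by_cases h : F = G
  · exact Or.inl h
  · exact Or.inr ⟨h, v, h1, h2⟩

/-- the faces of a chord which meets `g` are equal or adjacent to a face of `g` -/
private theorem xt_near (S : Sys k Φ Vt Z) (g h' : Ch S.P)
    (h : S.D.s h' = S.D.s g ∨ S.D.s h' = S.D.t g ∨ S.D.t h' = S.D.s g ∨ S.D.t h' = S.D.t g ∨
      h'.vx = g.vx) (X : Φ) (hX : X = S.D.s h' ∨ X = S.D.t h') :
    ∃ Y, (Y = S.D.s g ∨ Y = S.D.t g) ∧ (X = Y ∨ (RG S.P).Adj X Y) := by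
  have hon : On S.P h'.vx X := by
    rcases hX with rfl | rfl
    · exact (xt_on S h').1
    · exact (xt_on S h').2
  rcases h with h | h | h | h | h
  · exact ⟨S.D.s g, Or.inl rfl, xt_adj S hon (h ▸ (xt_on S h').1)⟩
  · exact ⟨S.D.t g, Or.inr rfl, xt_adj S hon (h ▸ (xt_on S h').1)⟩
  · exact ⟨S.D.s g, Or.inl rfl, xt_adj S hon (h ▸ (xt_on S h').2)⟩
  · exact ⟨S.D.t g, Or.inr rfl, xt_adj S hon (h ▸ (xt_on S h').2)⟩
  · rw [h] at hon
    exact ⟨S.D.s g, Or.inl rfl, xt_adj S hon (xt_on S g).1⟩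

theorem touchR (h : Ext S lam mu) (N : ℕ) (q : ℕ → Φ) (v : Fin 3 → Φ) (w : ∀ i, (RG S.P).Walk (v i) (v i))
    (α β : Fin 3 → ℕ) (h1 : ∀ t, t < N → (S.D.gr mu).Adj (q t) (q (t + 1)))
    (h2 : ∀ t t', t ≤ N → t' ≤ N → q t = q t' → t = t') (h3 : β 0 ≤ α 1) (h4 : β 1 ≤ α 2) (h5 : β 2 ≤ N)
    (h6 : ∀ i, ∃ t, α i < t ∧ t < β i ∧ q t ∈ (w i).support)
    (h7 : ∀ i t, α i < t → t < β i → ∀ u, (S.D.gr mu).Adj (q t) u → u = q (t - 1) ∨ u = q (t + 1))
    (h8 : ∀ i, ∀ F ∈ vs (S.D.gr mu), ∀ F' ∈ (w i).support, F = F' ∨ (RG S.P).Adj F F' →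
      ∃ t, α i < t ∧ t < β i ∧ F = q t)
    (h9 : ∀ i j, i ≠ j → ∀ F ∈ (w i).support, ∀ F' ∈ (w j).support, F ≠ F' ∧ ¬ (RG S.P).Adj F F')
    (h10 : ((w 0).edges.map (cl S)).sum = ((w 1).edges.map (cl S)).sum)
    (h11 : ((w 1).edges.map (cl S)).sum = ((w 2).edges.map (cl S)).sum) :
    ((w 0).edges.map (cl S)).sum = 0 := by
  have hp : NoPar S lam := noPar h
  obtain ⟨t₀, ht₀, ht₀', -⟩ := h6 0
  obtain ⟨t₁, ht₁, ht₁', -⟩ := h6 1
  obtain ⟨t₂, ht₂, ht₂', -⟩ := h6 2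
  have hN : 0 < N := by omega
  have hβ : ∀ i, β i ≤ N := by
    intro i
    fin_cases i
    · show β 0 ≤ N
      omega
    · show β 1 ≤ N
      omega
    · exact h5
  have hex : ∀ t, ∃ e : Ch S.P, t < N → e ∈ mu ∧ s(S.D.s e, S.D.t e) = s(q t, q (t + 1)) := by
    intro t
    by_cases ht : t < N
    · obtain ⟨-, e, he, h12⟩ := h1 t ht
      exact ⟨e, fun _ => ⟨he, Sym2.eq_iff.2 h12⟩⟩
    · obtain ⟨-, e, -, -⟩ := h1 0 hN
      exact ⟨e, fun h => absurd h ht⟩
  choose e he using hex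
  choose l hl1 hl2 hl3 hl4 hl5 using fun i => xt_walk S (w i)
  by_cases hnil : ∃ i, l i = []
  · obtain ⟨i, hi⟩ := hnil
    have h12 := hl3 i
    rw [hi, List.map_nil, List.sum_nil] at h12
    fin_cases i
    · exact h12.symm
    · exact h10.trans h12.symm
    · exact h10.trans (h11.trans h12.symm)
  have hnn : ∀ i, l i ≠ [] := fun i hi => hnil ⟨i, hi⟩
  have hvs : ∀ t, t ≤ N → q t ∈ vs (S.D.gr mu) := by
    intro t ht
    unfold vs
    rw [mem_filter]
    refine ⟨mem_univ _, ?_⟩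
    by_cases h12 : t < N
    · exact ⟨_, h1 t h12⟩
    · have h13 : t = N - 1 + 1 := by omega
      exact ⟨q (N - 1), h13 ▸ (h1 (N - 1) (by omega)).symm⟩
  have hwin : ∀ i t, t ≤ N → (t ≤ α i ∨ β i ≤ t) → q t ∉ (w i).support := by
    intro i t ht ht' hm
    obtain ⟨t', h12, h13, h14⟩ := h8 i (q t) (hvs t ht) (q t) hm (Or.inl rfl)
    have h15 := h2 t t' ht (by have := hβ i; omega) h14
    omega
  have key := S.touch mu h.admM N q e v l α β he ?_ hl1 h3 h4 h5 ?_ ?_ ?_ ?_ ?_ ?_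
  · rw [hl3 0] at key
    exact key
  · intro t t' ht ht' hee
    have h12 := (he t ht).2
    rw [hee, (he t' ht').2] at h12
    rcases Sym2.eq_iff.1 h12 with ⟨h13, -⟩ | ⟨h13, h14⟩
    · exact h2 t t' ht.le ht'.le h13.symm
    · have h15 := h2 _ _ (by omega) (by omega) h13
      have h16 := h2 _ _ (by omega) (by omega) h14
      omega
  · intro i
    obtain ⟨t, h12, h13, h14⟩ := h6 i
    exact ⟨t, h12, h13, hl5 i (hnn i) (q t) h14⟩
  · intro i g hg t ht ht'
    have h12 := hl4 i g hg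
    exact ⟨fun h13 => hwin i t ht ht' (h13 ▸ h12.1), fun h13 => hwin i t ht ht' (h13 ▸ h12.2)⟩
  · intro i g hg h' hh' hnear
    have hadj : (S.D.gr mu).Adj (S.D.s h') (S.D.t h') :=
      ⟨s_ne_t S h', h', hh', Or.inl ⟨rfl, rfl⟩⟩
    have hf : ∀ X, (X = S.D.s h' ∨ X = S.D.t h') → X ∈ vs (S.D.gr mu) →
        ∃ t, α i < t ∧ t < β i ∧ X = q t := by
      intro X hX hXv
      obtain ⟨Y, hY, hXY⟩ := xt_near S g h' hnear X hX
      have hYs : Y ∈ (w i).support := by
        rcases hY with rfl | rfl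
        · exact (hl4 i g hg).1
        · exact (hl4 i g hg).2
      exact h8 i X hXv Y hYs hXY
    obtain ⟨t, ht1, ht2, ht3⟩ := hf (S.D.s h') (Or.inl rfl) (by
      unfold vs
      exact mem_filter.2 ⟨mem_univ _, _, hadj⟩)
    obtain ⟨t', ht1', ht2', ht3'⟩ := hf (S.D.t h') (Or.inr rfl) (by
      unfold vs
      exact mem_filter.2 ⟨mem_univ _, _, hadj.symm⟩)
    rw [ht3, ht3'] at hadj
    have hb := hβ i
    rcases h7 i t ht1 ht2 (q t') hadj with h12 | h12
    · have h13 : t' = t - 1 := h2 _ _ (by omega) (by omega) h12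
      refine ⟨t', by omega, by omega, ?_⟩
      have h14 := he t' (by omega)
      refine hp h' (h.sub hh') (e t') (h.sub h14.1) ?_
      have h15 : t' + 1 = t := by omega
      rw [h14.2, h15, ht3, ht3', Sym2.eq_swap]
    · have h13 : t' = t + 1 := h2 _ _ (by omega) (by omega) h12
      refine ⟨t, by omega, by omega, ?_⟩
      have h14 := he t (by omega)
      refine hp h' (h.sub hh') (e t) (h.sub h14.1) ?_
      rw [h14.2, ht3, ht3', h13]
  · intro i j hij g hg g' hg'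
    have h12 := hl4 i g hg
    have h13 := hl4 j g' hg'
    refine ⟨?_, (h9 i j hij _ h12.1 _ h13.1).1, (h9 i j hij _ h12.1 _ h13.2).1,
      (h9 i j hij _ h12.2 _ h13.1).1, (h9 i j hij _ h12.2 _ h13.2).1⟩
    intro hv
    have h14 := h9 i j hij _ h12.1 _ h13.1
    rcases xt_adj S (xt_on S g).1 (by rw [hv]; exact (xt_on S g').1) with h15 | h15
    · exact h14.1 h15
    · exact h14.2 h15
  · rw [hl3 0, hl3 1]
    exact h10
  · rw [hl3 1, hl3 2]
    exact h11

end Pool.Agent.EPH
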