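import Pool.Agent.EPH.XCfgC
import Pool.Agent.EPH.XTch

/-!
# EPH-XCfg: the configuration of an extremal set

The fields are the statements of EPH-XCfgA, EPH-XCfgB, EPH-XCfgC and of the linear part.
-/

set_option autoImplicit false

open Finset
open scoped Classical

namespace Pool.Agent.EPH

open Pool.Agent.BEO hiding Cfg Frame

variable {k : ℕ} {Φ Vt Z : Type} [Fintype Φ] [Fintype Vt] [AddCommGroup Z] [Module F2 Z] [Module.Finite F2 Z]

variable {S : Sys k Φ Vt Z} {lam mu : Finset (Ch S.P)}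

theorem exists_cfg (h : Ext S lam mu) : ∃ c : Cfg k Φ (Z →ₗ[F2] F2), c.L = S.D.gr lam ∧ c.M = S.D.gr mu ∧
    c.R = RG S.P ∧ c.a = cl S := by
  have hp : NoPar S lam := noPar h
  have hpm : NoPar S mu := fun e he e' he' hee => hp e (h.sub he) e' (h.sub he') hee
  have hle : S.D.gr mu ≤ S.D.gr lam := by
    rintro F G ⟨hne, e, he, h1⟩
    exact ⟨hne, e, h.sub he, h1⟩
  refine ⟨{
    L := S.D.gr lam
    M := S.D.gr mu
    R := RG S.P
    le := hle
    leR := gr_le S lam
    a := cl S
    H := S.D.H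
    evL := fun v => ev_gr S lam hp (S.D.ev_of_adm lam h.adm) v
    evM := fun v => ev_gr S mu hpm (S.D.ev_of_adm mu h.admM) v
    touch := touchR h
    clsR := fun χ h1 h2 => clsR S χ h1 h2
    finH := inferInstance
    dimH := S.D.finrank_H.le
    mn := fun χ h1 h2 h3 => mnL h χ h1 h2 h3
    mnR := fun χ h1 h2 h3 => mnR h χ h1 h2 h3
    clLM := classes h
    rk := by
      rw [card_gr S mu hpm]
      exact rk_row h
    lb := fun L' h1 h2 h3 => lbG h L' h1 h2 h3 }, rfl, rfl, rfl, rfl⟩

end Pool.Agent.EPH
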