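import Pool.Agent.EPH.XCol
import Pool.Agent.EPH.XCfg
import Pool.Agent.EPH.CFrame

/-!
# EPH-XE2: the exceptional faces of an extremal set have few different rows

PLAN. `c` from `exists_cfg h`, `f : Frame C c` from `exists_frame k`. Call a position `i` of the segment `j` fine if `Good j l`
and `Priv j l` hold for all `l` with `i ≤ l + 2`, `l ≤ i + 2`. `E2 :=` the active faces which are not `x j i` with `i` fine.
For `i` fine `tw j l = {x j l}` for `l = i - 1, i, i + 1` (`tw_single`), so the neighbours of `x j i` are `x j (i - 1)`,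
`x j (i + 1)` (`nb_good`). `card`: the number of positions in `range (f.n j + 1)` which are not fine is at most
`N' := 5 * (N_good + N_priv) + 10` (`card_good`, `card_priv`; `Priv j l` is only bounded for `Good j l`, `Good j (l+1)`);
a face of `E2` is in no `tw j i` with `i` good (`card_rows`), or in `tw j i` with `i` good and not fine (it has the row of
`x j i`: at most `C * N'` rows; `i` fine would give `w = x j i`). `nbr`: a neighbour `u` of `y` with `u ∉ E2` is `x j i`
with `i` fine (it is active), and then `y ∈ {x j (i - 1), x j (i + 1)} ⊆ vs (gr mu)`. `priv`: if `p ∉ E2` then `p = x j i`,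
`i` fine, and `q = x j (i - 1)` or `x j (i + 1)`; `y` is on `v`, so equal or `RG`-adjacent to `p` and to `q`: `Priv j i`
resp. `Priv j (i - 1)` gives `y ∈ tw j i ∪ tw j (i ± 1)`, so `y` is one of the `x`, which are in `vs (gr mu)`.
-/

set_option autoImplicit false

open Finset
open scoped Classical

namespace Pool.Agent.EPH

open Pool.Agent.BEO hiding Cfg Frame

/-- the exceptional faces -/
structure E2S {k : ℕ} {Φ Vt Z : Type} [Fintype Φ] [Fintype Vt] [AddCommGroup Z] [Module F2 Z] (S : Sys k Φ Vt Z)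
    (lam mu : Finset (Ch S.P)) (N : ℕ) (E2 : Finset Φ) : Prop where
  card : (E2.image (row (S.D.gr lam))).card ≤ N
  act : ∀ y ∈ E2, y ∈ vs (S.D.gr lam)
  sub : Yf S lam mu ⊆ E2
  nbr : ∀ y ∈ Yf S lam mu, ∀ u, (S.D.gr lam).Adj y u → u ∈ E2
  priv : ∀ v, ∀ y ∈ Yf S lam mu, On S.P v y → ∀ p q, On S.P v p → On S.P v q → (S.D.gr lam).Adj p q → p ∈ E2

section

variable {k C : ℕ} {V Q : Type} [Fintype V] [AddCommGroup Q] [Module F2 Q] {c : Cfg k V Q} (f : Frame C c)

/-- all positions near `i` are good and private -/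
private def xfine (j : Fin f.m) (i : ℕ) : Prop :=
  ∀ l, i ≤ l + 2 → l ≤ i + 2 → f.Good j l ∧ f.Priv j l

private theorem xgood_ok {j : Fin f.m} {i : ℕ} (h : f.Good j i) : 25 ≤ i ∧ i + 25 ≤ f.n j := by
  have h1 := h i (by omega) (by omega)
  exact ⟨h1.ok.lo, h1.ok.hi⟩

private theorem xrow_tw {j : Fin f.m} {i : ℕ} {w : V} (h : w ∈ f.tw j i) :
    row c.L w = row c.L (f.x j i) := by
  funext u
  unfold row
  exact if_congr ((mem_filter.1 h).2 u) rfl rfl

private theorem xcard (Ng Np : ℕ) (j : Fin f.m)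
    (hg : ((range (f.n j + 1)).filter fun i => ¬ f.Good j i).card ≤ Ng)
    (hp : ((range (f.n j + 1)).filter fun i => f.Good j i ∧ f.Good j (i + 1) ∧ ¬ f.Priv j i).card ≤ Np) :
    ((range (f.n j + 1)).filter fun i => f.Good j i ∧ ¬ xfine f j i).card ≤ Ng * 7 + Np * 5 := by
  have hsub : ((range (f.n j + 1)).filter fun i => f.Good j i ∧ ¬ xfine f j i) ⊆
      (((range (f.n j + 1)).filter fun i => ¬ f.Good j i).biUnion fun l => Icc (l - 3) (l + 3)) ∪
      (((range (f.n j + 1)).filter fun i => f.Good j i ∧ f.Good j (i + 1) ∧ ¬ f.Priv j i).biUnion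
        fun l => Icc (l - 2) (l + 2)) := by
    intro i hi
    obtain ⟨hir, hig, hif⟩ := mem_filter.1 hi
    obtain ⟨h1, h2⟩ := xgood_ok f hig
    unfold xfine at hif
    push Not at hif
    obtain ⟨l, hl1, hl2, hl3⟩ := hif
    by_cases hgl : f.Good j l
    · have hpl := hl3 hgl
      by_cases hgl1 : f.Good j (l + 1)
      · refine mem_union_right _ (mem_biUnion.2 ⟨l, mem_filter.2 ⟨mem_range.2 (by omega), hgl, hgl1, hpl⟩,
          mem_Icc.2 ⟨by omega, by omega⟩⟩)
      · refine mem_union_left _ (mem_biUnion.2 ⟨l + 1, mem_filter.2 ⟨mem_range.2 (by omega), hgl1⟩,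
          mem_Icc.2 ⟨by omega, by omega⟩⟩)
    · refine mem_union_left _ (mem_biUnion.2 ⟨l, mem_filter.2 ⟨mem_range.2 (by omega), hgl⟩,
        mem_Icc.2 ⟨by omega, by omega⟩⟩)
  refine (card_le_card hsub).trans ((card_union_le _ _).trans (Nat.add_le_add ?_ ?_))
  · refine (card_biUnion_le_card_mul _ _ 7 ?_).trans (Nat.mul_le_mul_right _ hg)
    intro l _
    rw [Nat.card_Icc]
    omega
  · refine (card_biUnion_le_card_mul _ _ 5 ?_).trans (Nat.mul_le_mul_right _ hp)
    intro l _
    rw [Nat.card_Icc]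
    omega

private theorem xvsM {j : Fin f.m} {l : ℕ} (h1 : 1 ≤ l) (h2 : l ≤ f.n j) : f.x j l ∈ vs c.M := by
  unfold vs
  rw [mem_filter]
  exact ⟨mem_univ _, _, (f.adj j l h1 h2 _).2 (Or.inr rfl)⟩

private theorem xrows (Nr M : ℕ) (E : Finset V) (hE : E ⊆ vs c.L)
    (hr : (((vs c.L).filter fun w => ∀ j i, f.Good j i → w ∉ f.tw j i).image (row c.L)).card ≤ Nr)
    (hM : ∀ j : Fin f.m, ((range (f.n j + 1)).filter fun i => f.Good j i ∧ ¬ xfine f j i).card ≤ M)
    (hfine : ∀ w ∈ E, ∀ j i, w ∈ f.tw j i → ¬ xfine f j i) :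
    (E.image (row c.L)).card ≤ Nr + C * M := by
  have hsub : E.image (row c.L) ⊆
      (((vs c.L).filter fun w => ∀ j i, f.Good j i → w ∉ f.tw j i).image (row c.L)) ∪
      ((univ : Finset (Fin f.m)).biUnion fun j =>
        ((range (f.n j + 1)).filter fun i => f.Good j i ∧ ¬ xfine f j i).image
          fun i => row c.L (f.x j i)) := by
    intro r hr
    obtain ⟨w, hw, rfl⟩ := mem_image.1 hr
    by_cases h1 : ∀ j i, f.Good j i → w ∉ f.tw j i
    · exact mem_union_left _ (mem_image_of_mem _ (mem_filter.2 ⟨hE hw, h1⟩))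
    · push Not at h1
      obtain ⟨j, i, h2, h3⟩ := h1
      obtain ⟨h4, h5⟩ := xgood_ok f h2
      refine mem_union_right _ (mem_biUnion.2 ⟨j, mem_univ _, mem_image.2 ⟨i, mem_filter.2
        ⟨mem_range.2 (by omega), h2, hfine w hw j i h3⟩, (xrow_tw f h3).symm⟩⟩)
  refine (card_le_card hsub).trans ((card_union_le _ _).trans (Nat.add_le_add hr ?_))
  refine (card_biUnion_le_card_mul _ _ M fun j _ => card_image_le.trans (hM j)).trans ?_
  rw [card_univ, Fintype.card_fin]
  exact Nat.mul_le_mul_right _ f.hm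

end

section

variable {k C : ℕ} {Φ Vt Z : Type} [Fintype Φ] [Fintype Vt] [AddCommGroup Z] [Module F2 Z] [Module.Finite F2 Z]

variable {S : Sys k Φ Vt Z} {lam mu : Finset (Ch S.P)}

private theorem xtw (h : Ext S lam mu) (c : Cfg k Φ (Z →ₗ[F2] F2)) (hL : c.L = S.D.gr lam)
    (hM : c.M = S.D.gr mu) (hR : c.R = RG S.P) (hca : c.a = cl S) (f : Frame C c) {j : Fin f.m} {i : ℕ} (hf : xfine f j i)
    {l : ℕ} (h1 : i ≤ l + 1) (h2 : l ≤ i + 1) : f.tw j l = {f.x j l} :=
  tw_single h c hL hM hR hca f j l (hf (l - 1) (by omega) (by omega)).1 (hf l (by omega) (by omega)).1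
    (hf (l + 1) (by omega) (by omega)).1 (hf (l - 1) (by omega) (by omega)).2
    (hf l (by omega) (by omega)).2

private theorem xnb (h : Ext S lam mu) (c : Cfg k Φ (Z →ₗ[F2] F2)) (hL : c.L = S.D.gr lam)
    (hM : c.M = S.D.gr mu) (hR : c.R = RG S.P) (hca : c.a = cl S) (f : Frame C c) {j : Fin f.m} {i : ℕ} (hf : xfine f j i)
    {u : Φ} (hu : c.L.Adj (f.x j i) u) : u = f.x j (i - 1) ∨ u = f.x j (i + 1) := by
  have hg := (hf i (by omega) (by omega)).1
  rcases (nb_good f j i hg i (by omega) (by omega) u).1 hu with h1 | h1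
  · rw [xtw h c hL hM hR hca f hf (by omega) (by omega), mem_singleton] at h1
    exact Or.inl h1
  · rw [xtw h c hL hM hR hca f hf (by omega) (by omega), mem_singleton] at h1
    exact Or.inr h1

end

theorem exists_E2 (k : ℕ) : ∃ N : ℕ, ∀ (Φ Vt Z : Type) [Fintype Φ] [Fintype Vt] [AddCommGroup Z] [Module F2 Z]
    [Module.Finite F2 Z] (S : Sys k Φ Vt Z) (lam mu : Finset (Ch S.P)), Ext S lam mu →
    ∃ E2 : Finset Φ, E2S S lam mu N E2 := by
  obtain ⟨C, hC⟩ := exists_frame k
  obtain ⟨Ng, hNg⟩ := card_good k C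
  obtain ⟨Np, hNp⟩ := card_priv k C
  obtain ⟨Nr, hNr⟩ := card_rows k C
  refine ⟨Nr + C * (Ng * 7 + Np * 5), ?_⟩
  intro Φ Vt Z _ _ _ _ _ S lam mu h
  obtain ⟨c, hL, hM, hR, hca⟩ := exists_cfg h
  obtain ⟨f⟩ := hC Φ (Z →ₗ[F2] F2) c
  have hvM : ∀ {j : Fin f.m} {l : ℕ}, 1 ≤ l → l ≤ f.n j → f.x j l ∈ vs (S.D.gr mu) := by
    intro j l h1 h2
    rw [← hM]
    exact xvsM f h1 h2
  have hY : ∀ y, y ∈ Yf S lam mu ↔ y ∈ vs (S.D.gr lam) ∧ y ∉ vs (S.D.gr mu) := by
    intro y
    unfold Yf
    rw [mem_filter]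
    exact ⟨fun h => h.2, fun h => ⟨mem_univ _, h⟩⟩
  have hok : ∀ {j : Fin f.m} {i : ℕ}, xfine f j i → 25 ≤ i ∧ i + 25 ≤ f.n j := fun {j i} hf =>
    xgood_ok f (hf i (by omega) (by omega)).1
  obtain ⟨E, hE⟩ : ∃ E : Finset Φ, ∀ w, w ∈ E ↔ w ∈ vs (S.D.gr lam) ∧ ¬ ∃ j i, xfine f j i ∧ w = f.x j i :=
    ⟨(vs (S.D.gr lam)).filter fun w => ¬ ∃ j i, xfine f j i ∧ w = f.x j i, fun w => mem_filter⟩
  refine ⟨E, ?_, fun y hy => ((hE y).1 hy).1, ?_, ?_, ?_⟩
  · rw [← hL]
    refine xrows f Nr (Ng * 7 + Np * 5) E ?_ (hNr Φ _ c f)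
      (fun j => xcard f Ng Np j (hNg Φ _ c f j) (hNp Φ _ c f j)) ?_
    · intro w hw
      rw [hL]
      exact ((hE w).1 hw).1
    · intro w hw j i hwt hfi
      rw [xtw h c hL hM hR hca f hfi (by omega) (by omega), mem_singleton] at hwt
      exact ((hE w).1 hw).2 ⟨j, i, hfi, hwt⟩
  · intro y hy
    rw [hY] at hy
    rw [hE]
    refine ⟨hy.1, ?_⟩
    rintro ⟨j, i, hfi, rfl⟩
    have := hok hfi
    exact hy.2 (hvM (by omega) (by omega))
  · intro y hy u hu
    rw [hY] at hy
    rw [hE]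
    refine ⟨?_, ?_⟩
    · unfold vs
      rw [mem_filter]
      exact ⟨mem_univ _, y, hu.symm⟩
    · rintro ⟨j, i, hfi, rfl⟩
      have hi := hok hfi
      have hu' : c.L.Adj (f.x j i) y := by
        rw [hL]
        exact hu.symm
      rcases xnb h c hL hM hR hca f hfi hu' with h1 | h1
      · rw [h1] at hy
        exact hy.2 (hvM (by omega) (by omega))
      · rw [h1] at hy
        exact hy.2 (hvM (by omega) (by omega))
  · intro v y hy hvy p q hvp hvq hpq
    rw [hY] at hy
    rw [hE]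
    refine ⟨?_, ?_⟩
    · unfold vs
      rw [mem_filter]
      exact ⟨mem_univ _, q, hpq⟩
    · rintro ⟨j, i, hfi, rfl⟩
      have hi := hok hfi
      have hpq' : c.L.Adj (f.x j i) q := by
        rw [hL]
        exact hpq
      have hyL : y ∈ vs c.L := by
        rw [hL]
        exact hy.1
      have hadj : ∀ z, On S.P v z → y = z ∨ c.R.Adj y z := by
        intro z hz
        by_cases hyz : y = z
        · exact Or.inl hyz
        · right
          rw [hR]
          exact ⟨hyz, v, hvy, hz⟩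
      rcases xnb h c hL hM hR hca f hfi hpq' with h1 | h1
      · rw [h1] at hvq
        have hpr := (hfi (i - 1) (by omega) (by omega)).2
        have ei : i - 1 + 1 = i := by omega
        have h2 := hpr (f.x j (i - 1)) (mem_tw_self f j (i - 1)) (f.x j i)
          (by rw [ei]; exact mem_tw_self f j i) y hyL (hadj _ hvq) (hadj _ hvp)
        rw [ei, xtw h c hL hM hR hca f hfi (l := i - 1) (by omega) (by omega),
          xtw h c hL hM hR hca f hfi (l := i) (by omega) (by omega), mem_singleton, mem_singleton] at h2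
        rcases h2 with h2 | h2
        · rw [h2] at hy
          exact hy.2 (hvM (by omega) (by omega))
        · rw [h2] at hy
          exact hy.2 (hvM (by omega) (by omega))
      · rw [h1] at hvq
        have hpr := (hfi i (by omega) (by omega)).2
        have h2 := hpr (f.x j i) (mem_tw_self f j i) (f.x j (i + 1)) (mem_tw_self f j (i + 1)) y hyL
          (hadj _ hvp) (hadj _ hvq)
        rw [xtw h c hL hM hR hca f hfi (l := i) (by omega) (by omega),
          xtw h c hL hM hR hca f hfi (l := i + 1) (by omega) (by omega), mem_singleton, mem_singleton] at h2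
        rcases h2 with h2 | h2
        · rw [h2] at hy
          exact hy.2 (hvM (by omega) (by omega))
        · rw [h2] at hy
          exact hy.2 (hvM (by omega) (by omega))

end Pool.Agent.EPH
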