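import Pool.Agent.EPH.KLab
import Pool.Agent.EPH.XE2

/-! EPH-KCol: a colouring of the faces outside mu. -/

set_option autoImplicit false

open Finset
open scoped Classical

namespace Pool.Agent.EPH

open Pool.Agent.BEO hiding Cfg Frame

theorem lab_col (k N1 : ℕ) : ∃ M : ℕ, ∀ (Φ Vt Z : Type) [Fintype Φ] [Fintype Vt] [AddCommGroup Z] [Module F2 Z]
    [Module.Finite F2 Z] (S : Sys k Φ Vt Z) (lam mu : Finset (Ch S.P)) (_ : Ext S lam mu) (N : ℕ) (E2 : Finset Φ)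
    (_ : E2S S lam mu N E2) (Hb : Finset Φ) (VH X0 : Finset Vt), Hb.card ≤ N1 → VH ⊆ X0 →
    (∀ p ∈ E2, ∀ q ∈ E2, (S.D.gr lam).Adj p q → ∀ v, On S.P v p → On S.P v q →
      (∀ v', On S.P v' p → On S.P v' q → v' = v) → p ∈ Hb ∨ q ∈ Hb ∨ v ∈ VH) →
    ∃ col : Φ → Fin M, ∀ y ∈ Yf S lam mu, ∀ y' ∈ Yf S lam mu, y ∉ Hb → y' ∉ Hb →
      (∀ v ∈ X0, ∀ v' ∈ X0, On S.P v y → On S.P v' y → v = v') → (∀ v ∈ X0, (On S.P v y ↔ On S.P v y')) →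
      row (S.D.gr lam) y = row (S.D.gr lam) y' → col y = col y' → LC S lam y y' := by
  obtain ⟨M, hM⟩ := lab_classes k N1
  refine ⟨M, ?_⟩
  intro Φ Vt Z _ _ _ _ _ S lam mu hext N E2 hE Hb VH X0 hHb hVH hub
  obtain ⟨col0, -⟩ := hM Φ Vt Z S lam mu hext ∅ Hb ∅ hHb (by simp) (by simp) (by simp) (by simp)
  obtain ⟨C, hC⟩ : ∃ C : Finset Φ → Φ → Fin M, ∀ Y : Finset Φ,
      (∃ col : Φ → Fin M, ∀ y ∈ Y, ∀ y' ∈ Y, col y = col y' → LC S lam y y') →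
      ∀ y ∈ Y, ∀ y' ∈ Y, C Y y = C Y y' → LC S lam y y' := by
    have h1 : ∀ Y : Finset Φ, ∃ c : Φ → Fin M,
        (∃ col : Φ → Fin M, ∀ y ∈ Y, ∀ y' ∈ Y, col y = col y' → LC S lam y y') →
        ∀ y ∈ Y, ∀ y' ∈ Y, c y = c y' → LC S lam y y' := by
      intro Y
      by_cases h : ∃ col : Φ → Fin M, ∀ y ∈ Y, ∀ y' ∈ Y, col y = col y' → LC S lam y y'
      · obtain ⟨c, hc⟩ := h
        exact ⟨c, fun _ => hc⟩
      · exact ⟨col0, fun h' => absurd h' h⟩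
    choose C hC using h1
    exact ⟨C, hC⟩
  obtain ⟨Y1, hY1⟩ : ∃ Y1 : Φ → Finset Φ, ∀ y z, z ∈ Y1 y ↔ z ∈ Yf S lam mu ∧ z ∉ Hb ∧
      row (S.D.gr lam) z = row (S.D.gr lam) y ∧ ∀ v ∈ X0, (On S.P v z ↔ On S.P v y) :=
    ⟨fun y => (Yf S lam mu).filter fun z => z ∉ Hb ∧ row (S.D.gr lam) z = row (S.D.gr lam) y ∧
      ∀ v ∈ X0, (On S.P v z ↔ On S.P v y), fun y z => mem_filter⟩
  refine ⟨fun y => C (Y1 y) y, ?_⟩
  intro y hy y' hy' hyH hy'H hX hXX hrow hcol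
  have hYY : Y1 y' = Y1 y := by
    ext z
    rw [hY1, hY1, hrow]
    have h2 : (∀ v ∈ X0, (On S.P v z ↔ On S.P v y')) ↔ ∀ v ∈ X0, (On S.P v z ↔ On S.P v y) :=
      forall₂_congr fun v hv => by rw [hXX v hv]
    rw [h2]
  have hcol' : C (Y1 y) y = C (Y1 y) y' := by
    have h2 : C (Y1 y) y = C (Y1 y') y' := hcol
    rwa [hYY] at h2
  have hyY : y ∈ Y1 y := (hY1 y y).2 ⟨hy, hyH, rfl, fun _ _ => Iff.rfl⟩
  have hy'Y : y' ∈ Y1 y := (hY1 y y').2 ⟨hy', hy'H, hrow.symm, fun v hv => (hXX v hv).symm⟩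
  refine hC (Y1 y) ?_ y hyY y' hy'Y hcol'
  refine hM Φ Vt Z S lam mu hext (Y1 y) Hb (X0.filter fun v => On S.P v y) hHb ?_ ?_ ?_ ?_
  · rw [card_le_one]
    intro a ha b hb
    rw [mem_filter] at ha hb
    exact hX a ha.1 b hb.1 ha.2 hb.2
  · intro z hz v hv
    rw [mem_filter] at hv
    exact (((hY1 y z).1 hz).2.2.2 v hv.1).2 hv.2
  · intro z hz z' hz'
    rw [((hY1 y z).1 hz).2.2.1, ((hY1 y z').1 hz').2.2.1]
  · intro z hz u hzu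
    obtain ⟨hz1, hz2, hz3, hz4⟩ := (hY1 y z).1 hz
    have hzE := hE.sub hz1
    have huE := hE.nbr z hz1 u hzu
    obtain ⟨-, v, hvz, hvu⟩ := gr_le S lam hzu
    by_cases hone : ∀ v', On S.P v' z → On S.P v' u → v' = v
    · rcases hub z hzE u huE hzu v hvz hvu hone with h | h | h
      · exact absurd h hz2
      · exact Or.inl h
      · exact Or.inr (Or.inl ⟨v, mem_filter.2 ⟨hVH h, (hz4 v (hVH h)).1 hvz⟩, hvu⟩)
    · push Not at hone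
      obtain ⟨v', h1, h2, h3⟩ := hone
      exact Or.inr (Or.inr ⟨v', v, h3, h1, h2, hvz, hvu⟩)

end Pool.Agent.EPH
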