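import Pool.Agent.EPH.KMat
import Pool.Agent.EPH.XDef

/-!
# EPH-KHub: hubs

For every pair of rows a maximal family of disjoint adjacent pairs with private common vertices; its size is bounded by
`matching_bound`.
-/

set_option autoImplicit false

open Finset
open scoped Classical

namespace Pool.Agent.EPH

open Pool.Agent.BEO hiding Cfg Frame

variable {Φ Vt : Type}

private def Cond (P : Cor Φ Vt) (L : SimpleGraph Φ) (E : Finset Φ) (r r' : Φ → F2)
    (T : Finset (Φ × Φ × Vt)) : Prop :=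
  (∀ x ∈ T, x.1 ∈ E ∧ x.2.1 ∈ E ∧ row L x.1 = r ∧ row L x.2.1 = r' ∧ L.Adj x.1 x.2.1 ∧
    On P x.2.2 x.1 ∧ On P x.2.2 x.2.1 ∧ ∀ v', On P v' x.1 → On P v' x.2.1 → v' = x.2.2) ∧
  ∀ x ∈ T, ∀ y ∈ T, (x.1 = y.1 → x = y) ∧ (x.2.1 = y.2.1 → x = y) ∧ (x.2.2 = y.2.2 → x = y)

private theorem row_adj {L : SimpleGraph Φ} {a b c : Φ} (h : row L a = row L b) (hb : L.Adj b c) :
    L.Adj a c := by
  have h1 := congrFun h c
  unfold row at h1
  rw [if_pos hb] at h1
  by_contra hn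
  rw [if_neg hn] at h1
  exact zero_ne_one h1

private theorem cond_card {m0 : ℕ} (P : Cor Φ Vt) (hm0 : ∀ (m : ℕ) (f g : Fin m → Φ)
    (v : Fin m → Vt), (∀ i j, f i = f j → i = j) → (∀ i j, g i = g j → i = j) → (∀ i j, f i ≠ g j) →
    (∀ i j, v i = v j → i = j) → (∀ i, On P (v i) (f i) ∧ On P (v i) (g i)) →
    (∀ i x, On P x (f i) → On P x (g i) → x = v i) → (∀ i j, ∃ x, On P x (f i) ∧ On P x (g j)) → m ≤ m0)
    (L : SimpleGraph Φ)
    (hL : ∀ a b, L.Adj a b → a ≠ b ∧ ∃ v, On P v a ∧ On P v b) (E : Finset Φ) (r r' : Φ → F2)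
    (T : Finset (Φ × Φ × Vt)) (hT : Cond P L E r r' T) : T.card ≤ m0 := by
  obtain ⟨h1, h2⟩ := hT
  let e := T.equivFin.symm
  have hadj : ∀ i j : Fin T.card, L.Adj (e i).1.1 (e j).1.2.1 := by
    intro i j
    have hi := h1 _ (e i).2
    have hj := h1 _ (e j).2
    exact row_adj (hi.2.2.1.trans hj.2.2.1.symm) hj.2.2.2.2.1
  refine hm0 T.card (fun i => (e i).1.1) (fun i => (e i).1.2.1) (fun i => (e i).1.2.2)
    ?_ ?_ ?_ ?_ ?_ ?_ ?_
  · intro i j hij
    exact e.injective (Subtype.ext ((h2 _ (e i).2 _ (e j).2).1 hij))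
  · intro i j hij
    exact e.injective (Subtype.ext ((h2 _ (e i).2 _ (e j).2).2.1 hij))
  · intro i j
    exact (hL _ _ (hadj i j)).1
  · intro i j hij
    exact e.injective (Subtype.ext ((h2 _ (e i).2 _ (e j).2).2.2 hij))
  · intro i
    have hi := h1 _ (e i).2
    exact ⟨hi.2.2.2.2.2.1, hi.2.2.2.2.2.2.1⟩
  · intro i x hx hx'
    exact (h1 _ (e i).2).2.2.2.2.2.2.2 x hx hx'
  · intro i j
    exact (hL _ _ (hadj i j)).2

private theorem hub_pair [Fintype Φ] [Fintype Vt] {m0 : ℕ} (P : Cor Φ Vt) (hm0 : ∀ (m : ℕ) (f g : Fin m → Φ)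
    (v : Fin m → Vt), (∀ i j, f i = f j → i = j) → (∀ i j, g i = g j → i = j) → (∀ i j, f i ≠ g j) →
    (∀ i j, v i = v j → i = j) → (∀ i, On P (v i) (f i) ∧ On P (v i) (g i)) →
    (∀ i x, On P x (f i) → On P x (g i) → x = v i) → (∀ i j, ∃ x, On P x (f i) ∧ On P x (g j)) → m ≤ m0)
    (L : SimpleGraph Φ)
    (hL : ∀ a b, L.Adj a b → a ≠ b ∧ ∃ v, On P v a ∧ On P v b) (E : Finset Φ) (r r' : Φ → F2) :
    ∃ (Hb : Finset Φ) (VH : Finset Vt), Hb.card ≤ 2 * m0 ∧ VH.card ≤ m0 ∧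
      ∀ p ∈ E, ∀ q ∈ E, row L p = r → row L q = r' → L.Adj p q → ∀ v, On P v p → On P v q →
        (∀ v', On P v' p → On P v' q → v' = v) → p ∈ Hb ∨ q ∈ Hb ∨ v ∈ VH := by
  obtain ⟨T, hT, hmax⟩ := Finset.exists_max_image
    ((univ : Finset (Finset (Φ × Φ × Vt))).filter (Cond P L E r r')) Finset.card
    ⟨∅, by
      rw [mem_filter]
      refine ⟨mem_univ _, ?_, ?_⟩
      · intro x hx; simp at hx
      · intro x hx; simp at hx⟩
  rw [mem_filter] at hT
  have hc := cond_card P hm0 L hL E r r' T hT.2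
  refine ⟨T.image (fun x => x.1) ∪ T.image (fun x => x.2.1), T.image (fun x => x.2.2), ?_,
    card_image_le.trans hc, ?_⟩
  · refine (card_union_le _ _).trans ?_
    have h1 := (card_image_le (s := T) (f := fun x => x.1)).trans hc
    have h2 := (card_image_le (s := T) (f := fun x => x.2.1)).trans hc
    omega
  · intro p hp q hq hpr hqr hpq v hvp hvq hv
    by_contra hcon
    push Not at hcon
    obtain ⟨c1, c2, c3⟩ := hcon
    rw [mem_union, not_or] at c1 c2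
    have d1 : ∀ x ∈ T, x.1 ≠ p := fun x hx h => c1.1 (mem_image.2 ⟨x, hx, h⟩)
    have d2 : ∀ x ∈ T, x.2.1 ≠ q := fun x hx h => c2.2 (mem_image.2 ⟨x, hx, h⟩)
    have d3 : ∀ x ∈ T, x.2.2 ≠ v := fun x hx h => c3 (mem_image.2 ⟨x, hx, h⟩)
    have hnew : (p, q, v) ∉ T := fun h => d1 _ h rfl
    have hcond : Cond P L E r r' (insert (p, q, v) T) := by
      refine ⟨?_, ?_⟩
      · intro x hx
        rcases mem_insert.1 hx with rfl | hx
        · exact ⟨hp, hq, hpr, hqr, hpq, hvp, hvq, hv⟩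
        · exact hT.2.1 x hx
      · intro x hx y hy
        rcases mem_insert.1 hx with rfl | hx
        · rcases mem_insert.1 hy with rfl | hy
          · exact ⟨fun _ => rfl, fun _ => rfl, fun _ => rfl⟩
          · exact ⟨fun h => (d1 y hy h.symm).elim, fun h => (d2 y hy h.symm).elim,
              fun h => (d3 y hy h.symm).elim⟩
        · rcases mem_insert.1 hy with rfl | hy
          · exact ⟨fun h => (d1 x hx h).elim, fun h => (d2 x hx h).elim,
              fun h => (d3 x hx h).elim⟩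
          · exact hT.2.2 x hx y hy
    have h3 := hmax (insert (p, q, v) T) (mem_filter.2 ⟨mem_univ _, hcond⟩)
    rw [card_insert_of_notMem hnew] at h3
    omega

theorem exists_hubs (k N : ℕ) : ∃ N' : ℕ, ∀ (Φ Vt Z : Type) [Fintype Φ] [Fintype Vt] [AddCommGroup Z] [Module F2 Z]
    [Module.Finite F2 Z] (S : Sys k Φ Vt Z) (L : SimpleGraph Φ), L ≤ RG S.P → ∀ E : Finset Φ,
    (E.image (row L)).card ≤ N → ∃ (Hb : Finset Φ) (VH : Finset Vt), Hb.card ≤ N' ∧ VH.card ≤ N' ∧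
      ∀ p ∈ E, ∀ q ∈ E, L.Adj p q → ∀ v, On S.P v p → On S.P v q → (∀ v', On S.P v' p → On S.P v' q → v' = v) →
        p ∈ Hb ∨ q ∈ Hb ∨ v ∈ VH := by
  obtain ⟨m0, hm0⟩ := matching_bound k
  refine ⟨N * N * (2 * m0), ?_⟩
  intro Φ Vt Z _ _ _ _ _ S L hL E hE
  choose H V hH hV h using hub_pair S.P (hm0 Φ Vt Z S) L (fun a b h => hL h) E
  have hb : ∀ (α : Type) (F : (Φ → F2) → (Φ → F2) → Finset α), (∀ r r', (F r r').card ≤ 2 * m0) →
      (((E.image (row L)) ×ˢ (E.image (row L))).biUnion fun x => F x.1 x.2).card ≤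
        N * N * (2 * m0) := by
    intro α F hF
    refine card_biUnion_le.trans ?_
    refine (sum_le_card_nsmul _ _ (2 * m0) fun x _ => hF x.1 x.2).trans ?_
    rw [smul_eq_mul, card_product]
    exact Nat.mul_le_mul_right _ (Nat.mul_le_mul hE hE)
  refine ⟨((E.image (row L)) ×ˢ (E.image (row L))).biUnion fun x => H x.1 x.2,
    ((E.image (row L)) ×ˢ (E.image (row L))).biUnion fun x => V x.1 x.2,
    hb Φ H hH, hb Vt V (fun r r' => (hV r r').trans (by omega)), ?_⟩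
  intro p hp q hq hpq v hvp hvq hv
  have hmem : (row L p, row L q) ∈ (E.image (row L)) ×ˢ (E.image (row L)) :=
    mem_product.2 ⟨mem_image_of_mem _ hp, mem_image_of_mem _ hq⟩
  rcases h (row L p) (row L q) p hp q hq rfl rfl hpq v hvp hvq hv with h1 | h1 | h1
  · exact Or.inl (mem_biUnion.2 ⟨_, hmem, h1⟩)
  · exact Or.inr (Or.inl (mem_biUnion.2 ⟨_, hmem, h1⟩))
  · exact Or.inr (Or.inr (mem_biUnion.2 ⟨_, hmem, h1⟩))

end Pool.Agent.EPH
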