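import Pool.Agent.EPH.ExtS
import Pool.Agent.EPH.XDef

/-!
# EPH-XDel: no even set of twins can be deleted from an extremal set
-/

set_option autoImplicit false

open Finset
open scoped Classical

namespace Pool.Agent.EPH

open Pool.Agent.BEO hiding Cfg Frame

variable {k : ℕ} {Φ Vt Z : Type} [Fintype Φ] [Fintype Vt] [AddCommGroup Z] [Module F2 Z] [Module.Finite F2 Z]

variable {S : Sys k Φ Vt Z} {lam mu : Finset (Ch S.P)}

theorem del_contra (h : Ext S lam mu) (x : Φ) (T : Finset Φ) (hT : Even T.card)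
    (hne : ∃ y ∈ T, y ∈ vs (S.D.gr lam)) (htw : ∀ y ∈ T, ∀ u, (S.D.gr lam).Adj y u ↔ (S.D.gr lam).Adj x u)
    (hlc : ∀ y ∈ T, LC S lam y x)
    (hreal : ∀ v, (∃ y ∈ T, On S.P v y) → RealAt S.P (delF S lam T) v) : False := by
  obtain ⟨hA, hR⟩ := twin_del h.adm (noPar h) x T hT htw hlc
  have hreal' : Real S.P (delF S lam T) := by
    rw [real_iff]
    intro v
    by_cases hv : ∃ y ∈ T, On S.P v y
    · exact hreal v hv
    · push Not at hv
      refine realAt_congr (fun e he _ => ?_) ((real_iff S.P lam).1 h.real v)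
      have h1 : On S.P v (S.D.s e) := by
        rw [S.hs e, ← he]
        exact ⟨e.lo, e.1.2.1.isLt, rfl⟩
      have h2 : On S.P v (S.D.t e) := by
        rw [S.ht e, ← he]
        exact ⟨e.hi, e.1.2.2.isLt, rfl⟩
      have h3 : S.D.s e ∉ T := fun h' => hv _ h' h1
      have h4 : S.D.t e ∉ T := fun h' => hv _ h' h2
      unfold delF
      rw [mem_filter]
      exact ⟨fun h' => ⟨h', h3, h4⟩, fun h' => h'.1⟩
  have hle := h.few _ hreal' hA hR
  obtain ⟨y, hyT, hy⟩ := hne
  have hsub : vs (S.D.gr (delF S lam T)) ⊂ vs (S.D.gr lam) := by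
    rw [ssubset_iff_of_subset]
    · refine ⟨y, hy, fun hy' => ?_⟩
      unfold vs at hy'
      obtain ⟨u, -, e, he, h1⟩ := (mem_filter.1 hy').2
      unfold delF at he
      obtain ⟨-, h2, h3⟩ := mem_filter.1 he
      rcases h1 with ⟨h1, -⟩ | ⟨-, h1⟩
      · exact h2 (h1 ▸ hyT)
      · exact h3 (h1 ▸ hyT)
    · intro w hw
      unfold vs at hw ⊢
      obtain ⟨u, hne, e, he, h1⟩ := (mem_filter.1 hw).2
      unfold delF at he
      exact mem_filter.2 ⟨mem_univ _, u, hne, e, (mem_filter.1 he).1, h1⟩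
  have h5 := card_lt_card hsub
  unfold act at hle
  omega

end Pool.Agent.EPH
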