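import Pool.Agent.EPH.YEdg
import Pool.Agent.EPH.KOut
import Pool.Agent.EPH.XCfg
import Pool.Agent.EPH.CFrame

/-!
# EPH-YRest: few chords outside `mu`

The chords outside `mu` inject into the edges outside the graph of `mu`.
-/

set_option autoImplicit false

open Finset
open scoped Classical

namespace Pool.Agent.EPH

open Pool.Agent.BEO hiding Cfg Frame

theorem card_rest (k : ℕ) : ∃ C : ℕ, ∀ (Φ Vt Z : Type) [Fintype Φ] [Fintype Vt] [AddCommGroup Z] [Module F2 Z]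
    [Module.Finite F2 Z] (S : Sys k Φ Vt Z) (lam mu : Finset (Ch S.P)), Ext S lam mu → (lam \ mu).card ≤ C := by
  obtain ⟨C, hC⟩ := exists_frame k
  obtain ⟨C1, hC1⟩ := card_Y k
  obtain ⟨C2, hC2⟩ := card_edges_out k C C1
  refine ⟨C2, ?_⟩
  intro Φ Vt Z _ _ _ _ _ S lam mu h
  obtain ⟨c, hcL, hcM, _, _⟩ := exists_cfg h
  obtain ⟨f⟩ := hC Φ (Z →ₗ[F2] F2) c
  have h1 : (univ.filter fun y => y ∈ vs c.L ∧ y ∉ vs c.M).card ≤ C1 := by
    rw [hcL, hcM]
    exact hC1 Φ Vt Z S lam mu h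
  have h2 := hC2 Φ (Z →ₗ[F2] F2) c f h1
  refine le_trans ?_ h2
  rw [hcL, hcM]
  refine card_le_card_of_injOn (fun e => s(S.D.s e, S.D.t e)) ?_ ?_
  · intro e he
    obtain ⟨he1, he2⟩ := mem_sdiff.1 (mem_coe.1 he)
    refine mem_coe.2 (mem_filter.2 ⟨?_, ?_⟩)
    · unfold es
      exact mem_filter.2 ⟨mem_univ _, (gr_mem S lam _).2 ⟨e, he1, rfl⟩⟩
    · intro h3
      obtain ⟨e', he', h4⟩ := (gr_mem S mu _).1 h3
      rw [noPar h e he1 e' (h.sub he') h4.symm] at he2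
      exact he2 he'
  · intro e he e' he' hh
    exact noPar h e (mem_sdiff.1 (mem_coe.1 he)).1 e' (mem_sdiff.1 (mem_coe.1 he')).1 hh

end Pool.Agent.EPH
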