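import Pool.Agent.EPH.AWlk
import Pool.Agent.EPH.AArc
import Pool.Agent.EPH.Opt
import Pool.Agent.BEO.TupL
import Pool.Agent.EPH.DtB

/-!
# EPH-ACls: for a suitable tuple the canonical walks have the right classes

`exists_tupleC`: coordinates of the classes of walks are given by a tuple of `k` edges, so that two walks with the same
ends and the same labels have the same class.
-/

set_option autoImplicit false

open Finset
open scoped Classical

namespace Pool.Agent.EPH

open Pool.Agent.BEO
open Pool.Agent.Helper35.OG hiding F2 dg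

variable {n : ℕ} {G : SimpleGraph (Fin n)}

private theorem fold_sum (L : List Bool) : ∀ a : Bool, (if L.foldl xor a = true then (1 : F2) else 0) =
    (if a = true then 1 else 0) + (L.map fun b : Bool => if b = true then (1 : F2) else 0).sum := by
  induction L with
  | nil =>
    intro a
    cases a <;> simp
  | cons b L ih =>
    intro a
    rw [List.foldl_cons, ih, List.map_cons, List.sum_cons, ← add_assoc]
    congr 1
    revert a b
    decide

private theorem sum_app {E Z : Type} [AddCommGroup Z] [Module F2 Z] (a : E → Z →ₗ[F2] F2) (w : List E) (x : Z) :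
    (w.map a).sum x = (w.map fun e => a e x).sum := by
  induction w with
  | nil => rfl
  | cons e w ih =>
    rw [List.map_cons, List.sum_cons, List.map_cons, List.sum_cons, LinearMap.add_apply, ih]

private theorem lab_sum {I E : Type} (k : ℕ) (es : List I) (hk : es.length = k) (f : I → E → Bool) (w w' : List E)
    (h : lbX k (fun e => es.map fun x => f x e) w' = lbX k (fun e => es.map fun x => f x e) w) (x : I)
    (hx : x ∈ es) : (w'.map fun e => if f x e = true then (1 : F2) else 0).sum =
      (w.map fun e => if f x e = true then (1 : F2) else 0).sum := by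
  subst hk
  rw [lbX_map, lbX_map] at h
  have h1 := List.map_inj_left.1 h x hx
  have key : ∀ v : List E, (v.map fun e => if f x e = true then (1 : F2) else 0).sum =
      if (v.map (f x)).foldl xor false = true then (1 : F2) else 0 := by
    intro v
    rw [fold_sum]
    simp only [List.map_map, Bool.false_eq_true, if_false, zero_add]
    rfl
  rw [key, key, h1]

theorem exists_tupleC [Nontrivial (Fin n)] {S : GMap G} {l : Inp} (h : Codes S l) (hG : G.Connected) (hn : 2 ≤ n)
    {b : Fin n → Flag G} (hb : IsBase b) (hbc : ∀ v : Fin n, bsc l v = cod (b v)) (k : ℕ)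
    (Y : Sys k S.Face (Fin n) (cyc G)) (hd : ∀ v, Y.P.d v = (nb G v).card)
    (hf : ∀ v i, i < Y.P.d v → Y.P.fc v i = S.face (cf S b v i)) (hc : ∀ v i, Y.c v i = cc S b v i) :
    ∃ es : List Ec, es ∈ tup ((fl l).map ek) k ∧ Canon Y {w | w.map ccd ∈ wkX k (arC l es)} := by
  let zc : G.edgeSet → cyc G := fun e => ⟨pc (zl l (ec e)), zc_mem h hG hn e⟩
  have hspan : ∀ φ : cyc G →ₗ[ZMod 2] ZMod 2, (∀ e, φ (zc e) = 0) → φ = 0 := by
    intro φ hφ
    apply LinearMap.ext
    intro z
    have hz : z = ∑ e, z.1 e • zc e := by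
      apply Subtype.ext
      funext e'
      rw [zc_span h hG hn z.1 z.2 e', Submodule.coe_sum, Finset.sum_apply]
      rfl
    rw [hz, map_sum]
    simp only [map_smul, hφ, smul_zero, Finset.sum_const_zero]
    rfl
  obtain ⟨es0, hlen, hes0⟩ := exists_coords zc hspan k Y.D.H Y.D.finrank_H
  obtain ⟨φ, hφ, hinj⟩ := exists_phi h
  refine ⟨es0.map ec, ?_, ?_⟩
  · rw [mem_tup]
    refine ⟨by rw [List.length_map, hlen], ?_⟩
    intro x hx
    obtain ⟨e, -, rfl⟩ := List.mem_map.1 hx
    exact List.mem_map.2 ⟨cod (rp e), (mem_fl h _).2 ⟨_, rfl⟩, rfl⟩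
  · intro F F' w hw hne
    have hlab : ∀ e : Ch Y.P, lbc l (es0.map ec) (ccd e) = es0.map fun x => lbf l (ec x) (ccd e) := by
      intro e
      rw [lbc_eq, List.map_map]
      rfl
    have hk : ∀ e : Ch Y.P, (lbc l (es0.map ec) (ccd e)).length = k := by
      intro e
      rw [hlab, List.length_map, hlen]
    have hA : ∀ x, x ∈ arC l (es0.map ec) ↔ ∃ e : Ch Y.P,
        x = ((φ (Y.D.s e), φ (Y.D.t e)), (ccd e, lbc l (es0.map ec) (ccd e))) ∨
        x = ((φ (Y.D.t e), φ (Y.D.s e)), (ccd e, lbc l (es0.map ec) (ccd e))) := by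
      intro x
      rw [mem_arC h hG hn hbc hd hf φ hφ (es0.map ec) x]
      refine exists_congr fun e => ?_
      rw [Y.hs, Y.ht]
    obtain ⟨w', h1, h2, h3, h4, h5, h6⟩ := wkX_complete φ hinj Y.D.s Y.D.t ccd
      (fun e => lbc l (es0.map ec) (ccd e)) k hk (arC l (es0.map ec)) hA F F' w hw hne
    refine ⟨w', h1, h5, h2, h3, h4, ?_⟩
    rw [← sub_eq_zero]
    apply hes0
    · intro X
      have e1 : ∀ v : List (Ch Y.P), DW Y.D.s Y.D.t F F' v → (v.map Y.D.a).sum (Y.D.z X) =
          (if F = X then 1 else 0) + (if F' = X then 1 else 0) := by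
        intro v hv
        rw [sum_app, ← hv.bd X]
        congr 1
        apply List.map_congr_left
        intro e _
        exact Y.D.inc e X
      rw [LinearMap.sub_apply, e1 w' h5, e1 w hw, sub_self]
    · intro e he
      have h7 : lbX k (fun a : Ch Y.P => es0.map fun x => lbf l (ec x) (ccd a)) w' =
          lbX k (fun a : Ch Y.P => es0.map fun x => lbf l (ec x) (ccd a)) w := by
        have h8 : (fun a : Ch Y.P => lbc l (es0.map ec) (ccd a)) =
            fun a : Ch Y.P => es0.map fun x => lbf l (ec x) (ccd a) := funext hlab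
        rw [← h8]
        exact h6
      have h9 := lab_sum k es0 hlen (fun (x : G.edgeSet) (a : Ch Y.P) => lbf l (ec x) (ccd a)) w w' h7 e he
      have key : ∀ a : Ch Y.P, Y.D.a a (zc e) = if lbf l (ec e) (ccd a) = true then (1 : F2) else 0 := by
        intro a
        rw [lbf_eq h hG hn hbc hd a e, Y.hc, hc, hc]
      rw [LinearMap.sub_apply, sum_app, sum_app, sub_eq_zero]
      have key2 : (fun a : Ch Y.P => Y.D.a a (zc e)) =
          fun a : Ch Y.P => if lbf l (ec e) (ccd a) = true then (1 : F2) else 0 := funext key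
      rw [key2]
      exact h9

end Pool.Agent.EPH
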