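import Pool.Agent.EPH.Map
import Pool.Agent.EPH.Opt
import Pool.Agent.BEO.GenB

/-!
# EPH-AGen: the genus of an optimal candidate

`adm_of_frm`: `frm_alt`. `gen_eqC`: as `gen_eq` in BEO/GenB, by `frm_rank` and `gen_le`.
-/

set_option autoImplicit false

open Finset
open scoped Classical

namespace Pool.Agent.EPH

open Pool.Agent.BEO
open Pool.Agent.Helper35.OG hiding F2 dg

variable {V : Type} {G : SimpleGraph V}

theorem adm_of_frm [Fintype V] {k : ℕ} {S : GMap G} (Y : Sys k S.Face V (cyc G)) (lam : Finset (Ch Y.P)) (T : GMap G)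
    (hT : frm T = Y.D.N lam) : Y.D.Adm lam ↔ T.Orientable := by
  rw [frm_alt]
  unfold Dat.Adm
  rw [← hT]

private theorem rkN_of_frm [Fintype V] [Nontrivial V] (hG : G.Connected) {k : ℕ} {S : GMap G}
    (Y : Sys k S.Face V (cyc G)) (lam : Finset (Ch Y.P)) (T : GMap G) (hT : frm T = Y.D.N lam) :
    ((Y.D.rkN lam : ℕ) : ℤ) = T.eg := by
  unfold Dat.rkN
  rw [← hT]
  exact frm_rank hG T

theorem gen_eqC [Fintype V] [Nontrivial V] (hG : G.Connected) {k : ℕ} {S : GMap G} (Y : Sys k S.Face V (cyc G))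
    (lam : Finset (Ch Y.P)) (hadm : Y.D.Adm lam)
    (hmin : ∀ lam', Y.D.Adm lam' → Real Y.P lam' → Y.D.rkN lam ≤ Y.D.rkN lam') (T : GMap G) (hT : frm T = Y.D.N lam)
    (hall : ∀ M : GMap G, ∃ lam', Real Y.P lam' ∧ frm M = Y.D.N lam') :
    T.Orientable ∧ T.eg = 2 * (orientableGenus G : ℤ) := by
  have ho := (adm_of_frm Y lam T hT).1 hadm
  refine ⟨ho, ?_⟩
  obtain ⟨g, hg1, hg2⟩ := gen_le hG T ho
  have hmem : orientableGenus G ∈ {g : ℕ | ∃ M : GMap G, M.Orientable ∧ M.eg = 2 * (g : ℤ)} :=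
    Nat.sInf_mem ⟨g, T, ho, hg1⟩
  obtain ⟨M, hM, hMeg⟩ := hmem
  obtain ⟨lam', h1, h2⟩ := hall M
  have h3 := hmin lam' ((adm_of_frm Y lam' M h2).2 hM) h1
  have h4 := rkN_of_frm hG Y lam T hT
  have h5 := rkN_of_frm hG Y lam' M h2
  omega

end Pool.Agent.EPH
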