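import Pool.Agent.EPH.AFpR

/-!
# EPH-AFpN: the new map in polynomial time

PLAN. `fp_filt`, `fp_flat`, `fp_odl`, `FP.natLe`, `FP.natEq`, `FP.natAdd`, `FP.length`, `FP.ite`, `fp_sd`, `FP.isEmpty`; `cvr` is
`natLe` and `and`; `xor a b`: `FP.ite ha hb.not hb` or `!(a == b)`.
-/

set_option autoImplicit false

namespace Pool.Agent.EPH

open Pool.Agent.BEO
open Turing Function N487b59b3 N68a2faeb Pool.Agent.Helper22 Pool.Agent.Helper6.WB Pool.Agent.Helper47.TR Computability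

section

variable {α β γ δ : Type} [N487b59b3 α] [N487b59b3 β] [N487b59b3 γ] [N487b59b3 δ]

private theorem fp_cvr {x : α → Cc} {i : α → ℕ} (hx : FP x) (hi : FP i) : FP fun a => cvr (x a) (i a) :=
  FP.and (FP.natLe (FP.natAdd hx.snd'.fst' (FP.const 1)) hi) (FP.natLe hi hx.snd'.snd')

private theorem fp_bxor {c d : α → Bool} (hc : FP c) (hd : FP d) : FP fun a => xor (c a) (d a) := by
  refine (congrArg FP (funext fun a => ?_)).mp (FP.not (FP.beq hc hd))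
  cases c a <;> cases d a <;> rfl

theorem fp_ivc {c : α → List Cc} {v i j : α → ℕ} (hc : FP c) (hv : FP v) (hi : FP i) (hj : FP j) :
    FP fun a => ivc (c a) (v a) (i a) (j a) := by
  have h2 : FP fun q : α × Cc => q.2 := FP.snd
  have h : FP fun q : α × Cc => decide (q.2.1 = v q.1) && (cvr q.2 (i q.1) && cvr q.2 (j q.1)) :=
    FP.and (FP.natEq h2.fst' (hv.comp FP.fst)) (FP.and (fp_cvr h2 (hi.comp FP.fst)) (fp_cvr h2 (hj.comp FP.fst)))
  exact fp_odl (fp_filt h hc)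

theorem fp_psc {f : α → Inp} {c : α → List Cc} {v i : α → ℕ} (hf : FP f) (hc : FP c) (hv : FP v) (hi : FP i) :
    FP fun a => psc (f a) (c a) (v a) (i a) := by
  have h2 : FP fun q : α × (ℕ × Pt) => q.2 := FP.snd
  have hi' : FP fun q : α × (ℕ × Pt) => i q.1 := hi.comp FP.fst
  have hv' : FP fun q : α × (ℕ × Pt) => v q.1 := hv.comp FP.fst
  have hc' : FP fun q : α × (ℕ × Pt) => c q.1 := hc.comp FP.fst
  have h : FP fun q : α × (ℕ × Pt) =>
      !decide (q.2.1 = i q.1) && xor (decide (q.2.1 + 1 ≤ i q.1)) (ivc (c q.1) (v q.1) q.2.1 (i q.1)) :=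
    FP.and (FP.not (FP.natEq h2.fst' hi')) (fp_bxor (FP.natLe (FP.natAdd h2.fst' (FP.const 1)) hi')
      (fp_ivc hc' hv' h2.fst' hi'))
  exact FP.length (fp_filt h (fp_rlc hf hv))

private theorem fp_ofc {c : α → List Cc} {v : α → ℕ} {q : α → ℕ × Pt} (hc : FP c) (hv : FP v) (hq : FP q) :
    FP fun a => ofc (c a) (v a) (q a) :=
  FP.ite (fp_ivc hc hv hq.fst' hq.fst') (fp_sd hq.snd') hq.snd'

private theorem fp_nwv {f : α → Inp} {c : α → List Cc} {v : α → ℕ} (hf : FP f) (hc : FP c) (hv : FP v) :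
    FP fun a => nwv (f a) (c a) (v a) := by
  have h1 : FP fun r : (α × (ℕ × Pt)) × (ℕ × Pt) => r.1.2 := FP.fst.snd'
  have h2 : FP fun r : (α × (ℕ × Pt)) × (ℕ × Pt) => r.2 := FP.snd
  have h0 : FP fun r : (α × (ℕ × Pt)) × (ℕ × Pt) => r.1.1 := FP.fst.fst'
  have hf' : FP fun r : (α × (ℕ × Pt)) × (ℕ × Pt) => f r.1.1 := hf.comp h0
  have hc' : FP fun r : (α × (ℕ × Pt)) × (ℕ × Pt) => c r.1.1 := hc.comp h0
  have hv' : FP fun r : (α × (ℕ × Pt)) × (ℕ × Pt) => v r.1.1 := hv.comp h0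
  have hp1 := fp_psc hf' hc' hv' h1.fst'
  have hp2 := fp_psc hf' hc' hv' h2.fst'
  have ho1 := fp_ofc hc' hv' h1
  have ho2 := fp_sd (fp_ofc hc' hv' h2)
  have h3 : FP fun r : (α × (ℕ × Pt)) × (ℕ × Pt) =>
      if decide (psc (f r.1.1) (c r.1.1) (v r.1.1) r.2.1 = psc (f r.1.1) (c r.1.1) (v r.1.1) r.1.2.1 + 1) ||
        (decide (psc (f r.1.1) (c r.1.1) (v r.1.1) r.2.1 = 0) &&
          decide (psc (f r.1.1) (c r.1.1) (v r.1.1) r.1.2.1 + 1 = dgc (f r.1.1) (v r.1.1))) then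
        [(ofc (c r.1.1) (v r.1.1) r.1.2, sd (ofc (c r.1.1) (v r.1.1) r.2)),
          (sd (ofc (c r.1.1) (v r.1.1) r.2), ofc (c r.1.1) (v r.1.1) r.1.2)]
      else [] :=
    FP.ite (FP.or (FP.natEq hp2 (FP.natAdd hp1 (FP.const 1)))
      (FP.and (FP.natEq hp2 (FP.const 0)) (FP.natEq (FP.natAdd hp1 (FP.const 1)) (fp_dgc hf' hv'))))
      (FP.cons (FP.pair ho1 ho2) (FP.cons (FP.pair ho2 ho1) (FP.const []))) (FP.const [])
  have h4 := fp_flat h3 (l := fun r : α × (ℕ × Pt) => rlc (f r.1) (v r.1)) (fp_rlc (hf.comp FP.fst) (hv.comp FP.fst))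
  exact fp_flat h4 (fp_rlc hf hv)

theorem fp_nwi {f : α → Inp} {c : α → List Cc} (hf : FP f) (hc : FP c) : FP fun a => nwi (f a) (c a) := by
  have h : FP fun q : α × ℕ => nwv (f q.1) (c q.1) q.2 := fp_nwv (hf.comp FP.fst) (hc.comp FP.fst) FP.snd
  exact fp_flat h (fp_vtc hf)

private theorem fp_bdv {f : α → Inp} {c : α → List Cc} {v : α → ℕ} (hf : FP f) (hc : FP c) (hv : FP v) :
    FP fun a => bdv (f a) (c a) (v a) := by
  have h1 : FP fun r : (α × (ℕ × Pt)) × (ℕ × Pt) => r.1.2 := FP.fst.snd'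
  have h2 : FP fun r : (α × (ℕ × Pt)) × (ℕ × Pt) => r.2 := FP.snd
  have h0 : FP fun r : (α × (ℕ × Pt)) × (ℕ × Pt) => r.1.1 := FP.fst.fst'
  have hf' : FP fun r : (α × (ℕ × Pt)) × (ℕ × Pt) => f r.1.1 := hf.comp h0
  have hc' : FP fun r : (α × (ℕ × Pt)) × (ℕ × Pt) => c r.1.1 := hc.comp h0
  have hv' : FP fun r : (α × (ℕ × Pt)) × (ℕ × Pt) => v r.1.1 := hv.comp h0
  have hp1 := fp_psc hf' hc' hv' h1.fst'
  have hp2 := fp_psc hf' hc' hv' h2.fst'
  have h3 : FP fun r : (α × (ℕ × Pt)) × (ℕ × Pt) => !decide (r.2.1 = r.1.2.1) &&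
      decide (psc (f r.1.1) (c r.1.1) (v r.1.1) r.2.1 = psc (f r.1.1) (c r.1.1) (v r.1.1) r.1.2.1) :=
    FP.and (FP.not (FP.natEq h2.fst' h1.fst')) (FP.natEq hp2 hp1)
  have h4 := fp_filt h3 (l := fun r : α × (ℕ × Pt) => rlc (f r.1) (v r.1)) (fp_rlc (hf.comp FP.fst) (hv.comp FP.fst))
  exact fp_flat h4 (fp_rlc hf hv)

theorem fp_vld {f : α → Inp} {c : α → List Cc} (hf : FP f) (hc : FP c) : FP fun a => vld (f a) (c a) := by
  have h : FP fun q : α × ℕ => bdv (f q.1) (c q.1) q.2 := fp_bdv (hf.comp FP.fst) (hc.comp FP.fst) FP.snd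
  exact FP.isEmpty (fp_flat h (fp_vtc hf))

end

end Pool.Agent.EPH
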