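import Pool.Agent.EPH.AAlg
import Pool.Agent.BEO.FpW

/-!
# EPH-AFpX: the canonical walks in polynomial time
-/

set_option autoImplicit false

namespace Pool.Agent.EPH

open Pool.Agent.BEO
open Turing Function N487b59b3 N68a2faeb Pool.Agent.Helper22 Pool.Agent.Helper6.WB Pool.Agent.Helper47.TR Computability

section

variable {α β γ δ : Type} [N487b59b3 α] [N487b59b3 β] [N487b59b3 γ] [N487b59b3 δ]

private theorem fp_arX (k : ℕ) [Inhabited β] [Inhabited γ] {A : α → List ((β × β) × (γ × List Bool))}
    (hA : FP A) : FP fun a => arX k (A a) := by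
  have h0 : ∀ b : Bool, FP fun q : (α × ((β × β) × (γ × List Bool))) × List Bool =>
      (((q.1.2.1.1, (q.2, b)), (q.1.2.1.2, (xo q.2 q.1.2.2.2, !b))), q.1.2.2.1) := by
    intro b
    have hv : FP fun q : (α × ((β × β) × (γ × List Bool))) × List Bool => q.2 := by fun_prop
    have hl : FP fun q : (α × ((β × β) × (γ × List Bool))) × List Bool => q.1.2.2.2 := by fun_prop
    exact FP.pair (FP.pair (FP.pair (by fun_prop) (FP.pair hv (FP.const b)))
      (FP.pair (by fun_prop) (FP.pair (fp_xo hv hl) (FP.const (!b))))) (by fun_prop)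
  have h1 : FP fun q : (α × ((β × β) × (γ × List Bool))) × List Bool => [false, true].map fun b =>
      (((q.1.2.1.1, (q.2, b)), (q.1.2.1.2, (xo q.2 q.1.2.2.2, !b))), q.1.2.2.1) :=
    FP.cons (h0 false) (FP.cons (h0 true) (FP.const []))
  have h2 := fp_flat h1 (l := fun _ : α × ((β × β) × (γ × List Bool)) => bvs k) (FP.const (bvs k))
  exact fp_flat h2 hA

private theorem fp_inX [DecidableEq β] [Inhabited β] [Inhabited γ] {A : α → List ((β × β) × (γ × List Bool))}
    (hA : FP A) {x : α → β} (hx : FP x) : FP fun a => inX (A a) (x a) := by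
  have hx' : FP fun q : α × ((β × β) × (γ × List Bool)) => x q.1 := hx.comp (by fun_prop)
  have h1 : FP fun q : α × ((β × β) × (γ × List Bool)) => decide (q.2.1.1 = x q.1) :=
    fp_eq (by fun_prop) hx'
  have h2 : FP fun q : α × ((β × β) × (γ × List Bool)) => ((q.2.1.2, (q.2.2.2, true)), [q.2.2.1]) :=
    FP.pair (FP.pair (by fun_prop) (FP.pair (by fun_prop) (FP.const true)))
      (FP.cons (by fun_prop) (FP.const []))
  exact fp_mapc h2 (fp_filt h1 hA)

theorem fp_wkX (k : ℕ) [DecidableEq β] [Inhabited β] [Inhabited γ] {A : α → List ((β × β) × (γ × List Bool))}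
    (hA : FP A) : FP fun a => wkX k (A a) := by
  have hA' : FP fun q : α × ((β × β) × (γ × List Bool)) => A q.1 := hA.comp (by fun_prop)
  have h1 : FP fun q : α × ((β × β) × (γ × List Bool)) =>
      (bfs (arX k (A q.1)) (inX (A q.1) q.2.1.1)).map Prod.snd :=
    FP.map FP.snd (fp_bfs (fp_arX k hA') (fp_inX hA' (by fun_prop)))
  exact fp_flat h1 hA

end

end Pool.Agent.EPH
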