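import Pool.Agent.EPH.AFpR
import Pool.Agent.BEO.FpL

/-!
# EPH-AFpC: the arcs in polynomial time
-/

set_option autoImplicit false

namespace Pool.Agent.EPH

open Pool.Agent.BEO
open Turing Function N487b59b3 N68a2faeb Pool.Agent.Helper22 Pool.Agent.Helper6.WB Pool.Agent.Helper47.TR Computability

section

variable {α β γ δ : Type} [N487b59b3 α] [N487b59b3 β] [N487b59b3 γ] [N487b59b3 δ]

private theorem ac_zl {f : α → Inp} {e : α → Ec} (hf : FP f) (he : FP e) :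
    FP fun a => zl (f a) (e a) :=
  FP.append (fp_look (fp_tbG hf) he.fst' (FP.const []))
    (FP.cons he (fp_look (fp_tbG hf) he.snd' (FP.const [])))

private theorem ac_chv {f : α → Inp} {v : α → ℕ} (hf : FP f) (hv : FP v) :
    FP fun a => chv (f a) (v a) := by
  have h1 : FP fun s : (α × (ℕ × Pt)) × (ℕ × Pt) => decide (s.1.2.1 + 1 ≤ s.2.1) :=
    FP.natLe (FP.natAdd FP.fst.snd'.fst' (FP.const 1)) FP.snd.fst'
  have h2 : FP fun s : α × (ℕ × Pt) => (rlc (f s.1) (v s.1)).filter fun q' =>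
      decide (s.2.1 + 1 ≤ q'.1) :=
    fp_filt h1 (fp_rlc (hf.comp FP.fst) (hv.comp FP.fst))
  have h3 : FP fun s : (α × (ℕ × Pt)) × (ℕ × Pt) =>
      ((v s.1.1, (s.1.2.1, s.2.1)), (s.1.2.2, s.2.2)) :=
    FP.pair (FP.pair (hv.comp FP.fst.fst') (FP.pair FP.fst.snd'.fst' FP.snd.fst'))
      (FP.pair FP.fst.snd'.snd' FP.snd.snd')
  have h4 := fp_mapc h3 h2
  exact fp_flat h4 (fp_rlc hf hv)

theorem fp_cvr {x : α → Cc} {i : α → ℕ} (hx : FP x) (hi : FP i) : FP fun a => cvr (x a) (i a) := by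
  exact FP.and (FP.natLe (FP.natAdd hx.snd'.fst' (FP.const 1)) hi) (FP.natLe hi hx.snd'.snd')

theorem fp_lbc {f : α → Inp} {e : α → List Ec} {x : α → Cc} (hf : FP f) (he : FP e) (hx : FP x) :
    FP fun a => lbc (f a) (e a) (x a) := by
  have h1 : FP fun q : (α × Ec) × (ℕ × Pt) =>
      cvr (x q.1.1) q.2.1 && par (zl (f q.1.1) q.1.2) (ek q.2.2) :=
    FP.and (fp_cvr (hx.comp FP.fst.fst') FP.snd.fst')
      (fp_par (ac_zl (hf.comp FP.fst.fst') FP.fst.snd') (fp_ek FP.snd.snd'))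
  have h2 : FP fun q : α × Ec => (rlc (f q.1) (x q.1).1).filter fun r =>
      cvr (x q.1) r.1 && par (zl (f q.1) q.2) (ek r.2) :=
    fp_filt h1 (fp_rlc (hf.comp FP.fst) (hx.comp FP.fst).fst')
  exact fp_mapc (fp_odl h2) he

theorem fp_arC {f : α → Inp} {e : α → List Ec} (hf : FP f) (he : FP e) : FP fun a => arC (f a) (e a) := by
  have hl : FP fun s : (α × ℕ) × (Cc × (Pt × Pt)) => f s.1.1 := hf.comp FP.fst.fst'
  have hl2 : FP fun s : (α × ℕ) × (Cc × (Pt × Pt)) => e s.1.1 := he.comp FP.fst.fst'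
  have hA : FP fun s : (α × ℕ) × (Cc × (Pt × Pt)) => fcl (f s.1.1) s.2.2.1 :=
    fp_fcl hl FP.snd.snd'.fst'
  have hB : FP fun s : (α × ℕ) × (Cc × (Pt × Pt)) => fcl (f s.1.1) s.2.2.2 :=
    fp_fcl hl FP.snd.snd'.snd'
  have hC : FP fun s : (α × ℕ) × (Cc × (Pt × Pt)) => (s.2.1, lbc (f s.1.1) (e s.1.1) s.2.1) :=
    FP.pair FP.snd.fst' (fp_lbc hl hl2 FP.snd.fst')
  have h1 : FP fun s : (α × ℕ) × (Cc × (Pt × Pt)) =>
      [((fcl (f s.1.1) s.2.2.1, fcl (f s.1.1) s.2.2.2), (s.2.1, lbc (f s.1.1) (e s.1.1) s.2.1)),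
        ((fcl (f s.1.1) s.2.2.2, fcl (f s.1.1) s.2.2.1),
          (s.2.1, lbc (f s.1.1) (e s.1.1) s.2.1))] :=
    FP.cons (FP.pair (FP.pair hA hB) hC) (FP.cons (FP.pair (FP.pair hB hA) hC) (FP.const []))
  have h2 := fp_flat h1 (ac_chv (hf.comp FP.fst) FP.snd)
  exact fp_flat h2 (fp_vtc hf)

end

end Pool.Agent.EPH
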