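import Pool.Agent.EPH.AOrb
import Pool.Agent.BEO.FpG

/-!
# EPH-AFpR: the rotation in polynomial time

`fp_orb`: `FP.iterate` for `ost`; the sizes of the states are bounded with `ar_iter` and `ar_sz`.
-/

set_option autoImplicit false

namespace Pool.Agent.EPH

open Pool.Agent.BEO
open Turing Function N487b59b3 N68a2faeb Pool.Agent.Helper22 Pool.Agent.Helper6.WB Pool.Agent.Helper47.TR Computability

section

variable {α β γ δ : Type} [N487b59b3 α] [N487b59b3 β] [N487b59b3 γ] [N487b59b3 δ]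

theorem fp_odl [Inhabited β] {f : α → List β} (hf : FP f) : FP fun a => odl (f a) := FP.odd hf

omit [N487b59b3 α] [N487b59b3 β] [N487b59b3 γ] [N487b59b3 δ] in
private theorem ar_look (l : Inp) (p : Pt) (C : ℕ) (hl : sz l ≤ C) (hp : sz p ≤ C) : sz (rtc l p) ≤ C := by
  have h1 : sz (rtc l p) = sz (look l p p) := by
    unfold rtc sd
    obtain ⟨a, b, c⟩ := look l p p
    simp only [sz_pair, sz_bool]
  rw [h1]
  unfold look
  rcases hl' : l.filter fun q => decide (q.1 = p) with _ | ⟨q, l'⟩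
  · rw [hl', List.headD_nil]
    exact hp
  · rw [hl', List.headD_cons]
    have h2 : q ∈ l.filter fun q => decide (q.1 = p) := by
      rw [hl']
      exact List.mem_cons_self
    have h3 := sz_mem_le (List.mem_of_mem_filter h2)
    obtain ⟨a, b⟩ := q
    rw [sz_pair] at h3
    show sz b ≤ _
    omega

omit [N487b59b3 α] [N487b59b3 β] [N487b59b3 γ] [N487b59b3 δ] in
private theorem ar_sz (l : Inp) (p : Pt) (j : ℕ) : sz ((rtc l)^[j] p) ≤ sz l + sz p := by
  induction j with
  | zero =>
    show sz p ≤ _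
    omega
  | succ j ih =>
    rw [Function.iterate_succ_apply']
    exact ar_look l _ _ (by omega) ih

omit [N487b59b3 α] [N487b59b3 β] [N487b59b3 γ] [N487b59b3 δ] in
private theorem ar_iter (l : Inp) (i : ℕ) (p : Pt) (acc : List (ℕ × Pt)) (k : ℕ) : ost^[k] ((l, (i, p)), acc) =
    ((l, (i + k, (rtc l)^[k] p)), acc ++ (List.range k).map fun j => (i + j, (rtc l)^[j] p)) := by
  induction k with
  | zero =>
    rw [List.range_zero, List.map_nil, List.append_nil]
    rfl
  | succ k ih =>
    rw [Function.iterate_succ_apply', ih, Function.iterate_succ_apply', List.range_succ, List.map_append,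
      ← List.append_assoc]
    rfl

theorem fp_rtc {f : α → Inp} {p : α → Pt} (hf : FP f) (hp : FP p) : FP fun a => rtc (f a) (p a) :=
  fp_sd (fp_look hf hp hp)

omit [N487b59b3 α] [N487b59b3 β] [N487b59b3 γ] [N487b59b3 δ] in
private theorem fp_ost : FP ost := by
  have h1 : FP fun s : (Inp × (ℕ × Pt)) × List (ℕ × Pt) => s.1.1 := FP.fst'  (FP.fst' FP.id)
  have h2 : FP fun s : (Inp × (ℕ × Pt)) × List (ℕ × Pt) => s.1.2 := FP.snd' (FP.fst' FP.id)
  have h3 : FP fun s : (Inp × (ℕ × Pt)) × List (ℕ × Pt) => s.2 := FP.snd' FP.id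
  exact FP.pair (FP.pair h1 (FP.pair (FP.natAdd h2.fst' (FP.const 1)) (fp_rtc h1 h2.snd')))
    (FP.append h3 (FP.cons h2 (FP.const [])))

theorem fp_orb {f : α → Inp} {m : α → List Pt} {p : α → Pt} (hf : FP f) (hm : FP m) (hp : FP p) :
    FP fun a => orb (f a) (m a) (p a) := by
  have h := FP.iterate (β := Pt) fp_ost
    (B := fun n => 2 * (2 * n + 1 + (2 * (2 * n) + 1 + 2 * n)) + 1 + (n + n * (2 * (6 * n + 1) + 1)))
    (by fun_prop) (by
      rintro l0 ⟨⟨l, i, q⟩, acc⟩ j hj
      rw [ar_iter]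
      have h1 := ar_sz l q
      have h2 := size_add_le i j
      have h3 : sz ((List.range j).map fun k => (i + k, (rtc l)^[k] q)) ≤
          (List.range j).length * (2 * (2 * (sz i + j) + 1 + (sz l + sz q)) + 1) := by
        refine sz_map_le _ _ _ ?_
        intro k hk
        have hk' := List.mem_range.1 hk
        have h4 := size_add_le i k
        rw [sz_pair, sz_nat, sz_nat]
        have h5 := h1 k
        omega
      rw [List.length_range] at h3
      have h0 := length_le_sz l0
      simp only [sz_pair, sz_append, sz_nat] at h3 ⊢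
      obtain ⟨N, hN⟩ : ∃ N, N = sz l0 + (2 * (2 * sz l + 1 + (2 * i.size + 1 + sz q)) + 1 + sz acc) := ⟨_, rfl⟩
      rw [← hN]
      have h6 : j * (2 * (2 * (i.size + j) + 1 + (sz l + sz q)) + 1) ≤ N * (2 * (6 * N + 1) + 1) :=
        Nat.mul_le_mul (by omega) (by omega)
      have h7 := h1 j
      omega)
  have h2 := (h.comp (hm.pair (FP.pair (FP.pair hf (FP.pair (FP.const 0) hp)) (FP.const ([] : List (ℕ × Pt)))))).snd'
  exact h2

theorem fp_vtc {f : α → Inp} (hf : FP f) : FP fun a => vtc (f a) :=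
  fp_ddp (FP.map FP.fst (fp_fl hf))

theorem fp_drt {f : α → Inp} {v : α → ℕ} (hf : FP f) (hv : FP v) : FP fun a => drt (f a) (v a) := by
  have h1 : FP fun q : α × Pt => decide (q.2.1 = v q.1) && q.2.2.2 :=
    FP.and (fp_eq (FP.fst' FP.snd) (hv.comp FP.fst)) (FP.snd' (FP.snd' FP.snd))
  exact fp_filt h1 (fp_fl hf)

theorem fp_dgc {f : α → Inp} {v : α → ℕ} (hf : FP f) (hv : FP v) : FP fun a => dgc (f a) (v a) :=
  FP.length (fp_drt hf hv)

theorem fp_rlc {f : α → Inp} {v : α → ℕ} (hf : FP f) (hv : FP v) : FP fun a => rlc (f a) (v a) :=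
  fp_orb hf (fp_drt hf hv) (FP.headD (fp_drt hf hv) (0, (0, false)))

end

end Pool.Agent.EPH
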