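import Mathlib

/-!
# EPH-LTour: tournaments and their scores (Mathlib only)

`r l m` means that `m` comes before `l`; `sc d r l` is the number of elements before `l`.
-/

set_option autoImplicit false

open Finset
open scoped Classical

namespace Pool.Agent.EPH

/-- the number of elements before `l` -/
noncomputable def sc (d : ℕ) (r : ℕ → ℕ → Prop) (l : ℕ) : ℕ := ((range d).filter fun m => m ≠ l ∧ r l m).card

private theorem mem_sc {d : ℕ} {r : ℕ → ℕ → Prop} {l m : ℕ} :
    m ∈ (range d).filter (fun m => m ≠ l ∧ r l m) ↔ m < d ∧ m ≠ l ∧ r l m := by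
  rw [mem_filter, mem_range]

theorem sc_lt (d : ℕ) (r : ℕ → ℕ → Prop) (l : ℕ) (hl : l < d) : sc d r l < d := by
  have h1 : (range d).filter (fun m => m ≠ l ∧ r l m) ⊆ (range d).erase l := by
    intro m hm
    obtain ⟨h2, h3, -⟩ := mem_sc.1 hm
    exact mem_erase.2 ⟨h3, mem_range.2 h2⟩
  have h2 := card_le_card h1
  rw [card_erase_of_mem (mem_range.2 hl), card_range] at h2
  unfold sc
  omega

private theorem lt_of_r (d : ℕ) (r : ℕ → ℕ → Prop) (hr : ∀ l m, l < d → m < d → l ≠ m → (r l m ↔ ¬ r m l))
    (ht : ∀ l m n, l < d → m < d → n < d → l ≠ m → m ≠ n → l ≠ n → r l m → r m n → r l n) (l m : ℕ) (hl : l < d)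
    (hm : m < d) (hlm : l ≠ m) (h : r l m) : sc d r m < sc d r l := by
  unfold sc
  refine card_lt_card ?_
  rw [Finset.ssubset_iff_of_subset]
  · exact ⟨m, mem_sc.2 ⟨hm, hlm.symm, h⟩, fun h1 => (mem_sc.1 h1).2.1 rfl⟩
  · intro n hn
    obtain ⟨h1, h2, h3⟩ := mem_sc.1 hn
    have h4 : n ≠ l := by
      intro h5
      rw [h5] at h3
      exact ((hr l m hl hm hlm).1 h) h3
    exact mem_sc.2 ⟨h1, h4, ht l m n hl hm h1 hlm h2.symm h4.symm h h3⟩

theorem tour_trans (d : ℕ) (r : ℕ → ℕ → Prop) (hr : ∀ l m, l < d → m < d → l ≠ m → (r l m ↔ ¬ r m l))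
    (ht : ∀ l m n, l < d → m < d → n < d → l ≠ m → m ≠ n → l ≠ n → r l m → r m n → r l n) (l m : ℕ) (hl : l < d)
    (hm : m < d) (hlm : l ≠ m) : r l m ↔ sc d r m < sc d r l := by
  constructor
  · exact lt_of_r d r hr ht l m hl hm hlm
  · intro h
    by_contra h1
    have h2 : r m l := (hr m l hm hl hlm.symm).2 h1
    have h3 := lt_of_r d r hr ht m l hm hl hlm.symm h2
    omega

private theorem card_sc (d : ℕ) (r : ℕ → ℕ → Prop) (hi : ∀ l m, l < d → m < d → sc d r l = sc d r m → l = m)
    (s : ℕ) (hs : s ≤ d) : ((range d).filter fun l => sc d r l < s).card = s := by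
  have h1 : (range d).image (sc d r) = range d := by
    refine eq_of_subset_of_card_le ?_ ?_
    · intro i h
      obtain ⟨l, hl, rfl⟩ := mem_image.1 h
      exact mem_range.2 (sc_lt d r l (mem_range.1 hl))
    · rw [card_image_of_injOn]
      intro l hl m hm h
      exact hi l m (mem_range.1 (mem_coe.1 hl)) (mem_range.1 (mem_coe.1 hm)) h
  have h2 : ((range d).filter fun l => sc d r l < s).image (sc d r) = range s := by
    ext i
    rw [mem_image, mem_range]
    constructor
    · rintro ⟨l, hl, rfl⟩
      exact (mem_filter.1 hl).2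
    · intro h
      have h3 : i ∈ (range d).image (sc d r) := by
        rw [h1, mem_range]
        omega
      obtain ⟨l, hl, rfl⟩ := mem_image.1 h3
      exact ⟨l, mem_filter.2 ⟨hl, h⟩, rfl⟩
  have h3 : (((range d).filter fun l => sc d r l < s).image (sc d r)).card =
      ((range d).filter fun l => sc d r l < s).card := by
    refine card_image_of_injOn ?_
    intro l hl m hm h
    exact hi l m (mem_range.1 (mem_filter.1 (mem_coe.1 hl)).1) (mem_range.1 (mem_filter.1 (mem_coe.1 hm)).1) h
  rw [← h3, h2, card_range]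

theorem tour_inj (d : ℕ) (r : ℕ → ℕ → Prop) (hr : ∀ l m, l < d → m < d → l ≠ m → (r l m ↔ ¬ r m l))
    (hi : ∀ l m, l < d → m < d → sc d r l = sc d r m → l = m) (l m : ℕ) (hl : l < d)
    (hm : m < d) (hlm : l ≠ m) : r l m ↔ sc d r m < sc d r l := by
  have key : ∀ s l m, l < d → m < d → sc d r l = s → s < sc d r m → r m l := by
    intro s
    induction s using Nat.strong_induction_on with
    | _ s ih =>
      intro l m hl hm hs hlt
      have hne : m ≠ l := by
        rintro rfl
        omega
      have h1 : (range d).filter (fun l' => sc d r l' < s) ⊆ (range d).filter (fun m => m ≠ l ∧ r l m) := by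
        intro l' hl'
        obtain ⟨h2, h3⟩ := mem_filter.1 hl'
        have h2' := mem_range.1 h2
        refine mem_sc.2 ⟨h2', ?_, ih _ h3 l' l h2' hl rfl (by omega)⟩
        rintro rfl
        omega
      have h2 : (range d).filter (fun l' => sc d r l' < s) = (range d).filter (fun m => m ≠ l ∧ r l m) := by
        refine eq_of_subset_of_card_le h1 ?_
        have h3 : ((range d).filter (fun m => m ≠ l ∧ r l m)).card = s := hs
        rw [h3, card_sc d r hi s]
        have := sc_lt d r l hl
        omega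
      refine (hr m l hm hl hne).2 fun h3 => ?_
      have h4 : m ∈ (range d).filter (fun m => m ≠ l ∧ r l m) := mem_sc.2 ⟨hm, hne, h3⟩
      rw [← h2] at h4
      have h5 := (mem_filter.1 h4).2
      omega
  constructor
  · intro h
    by_contra h1
    have h2 : sc d r l ≠ sc d r m := fun h3 => hlm (hi l m hl hm h3)
    have h3 := key _ l m hl hm rfl (by omega)
    exact (hr l m hl hm hlm).1 h h3
  · intro h
    exact key _ m l hm hl rfl h

end Pool.Agent.EPH
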