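import Pool.Agent.EPH.LDef
import Pool.Agent.EPH.LTour

/-!
# EPH-LCmp: the order of the darts defined by a set of chords

The parities of the numbers `ovr` of three darts `l < m < n` are those of `a + f`, `f + c`, `f` (`lc_sum`); the three darts
are a cyclic triple of `bef` iff `a` and `c` are odd (`lc_cyc`).
-/

set_option autoImplicit false

open Finset
open scoped Classical

namespace Pool.Agent.EPH

open Pool.Agent.BEO

variable {Φ Vt : Type} {P : Cor Φ Vt}

private theorem lc_lt (e : Ch P) : e.lo < e.hi := e.2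

private theorem lc_hi (e : Ch P) : e.hi < P.d e.vx := e.1.2.2.2

theorem ovr_comm (lam : Finset (Ch P)) (v : Vt) (l m : ℕ) : ovr lam v l m = ovr lam v m l := by
  unfold ovr
  refine congrArg Finset.card (Finset.filter_congr fun e _ => ?_)
  tauto

theorem ovr_zero (lam : Finset (Ch P)) (v : Vt) (m : ℕ) : ovr lam v 0 m = 0 := by
  unfold ovr
  rw [Finset.card_eq_zero, Finset.filter_eq_empty_iff]
  rintro e _ ⟨_, h, _⟩
  exact absurd h (Nat.not_lt_zero _)

theorem bef_iff (lam : Finset (Ch P)) (v : Vt) (l m : ℕ) (h : l ≠ m) : bef lam v l m ↔ ¬ bef lam v m l := by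
  unfold bef
  rw [ovr_comm lam v m l]
  have h1 : m < l ↔ ¬ l < m := by omega
  by_cases h2 : l < m <;> by_cases h3 : Odd (ovr lam v l m) <;> simp [h1, h2, h3]

/-- three darts `l < m < n` -/
private theorem lc_sum (lam : Finset (Ch P)) (v : Vt) {l m n : ℕ} (h1 : l < m) (h2 : m < n) :
    ovr lam v l m = cnt lam v 0 l m n + cnt lam v 0 l n (P.d v) ∧
      ovr lam v m n = cnt lam v 0 l n (P.d v) + cnt lam v l m n (P.d v) ∧
      ovr lam v l n = cnt lam v 0 l n (P.d v) := by
  refine ⟨?_, ?_, ?_⟩
  · unfold ovr cnt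
    rw [← Finset.card_union_of_disjoint, ← Finset.filter_or]
    · refine congrArg Finset.card (Finset.filter_congr fun e _ => ?_)
      constructor
      · rintro ⟨rfl, a1, a2, a3, a4⟩
        have h3 := lc_hi e
        by_cases h4 : e.hi < n
        · exact Or.inl ⟨rfl, Nat.zero_le _, a1, a4, h4⟩
        · exact Or.inr ⟨rfl, Nat.zero_le _, a1, not_lt.1 h4, h3⟩
      · rintro (⟨a0, _, a1, a2, a3⟩ | ⟨a0, _, a1, a2, a3⟩)
        · exact ⟨a0, a1, by omega, by omega, a2⟩
        · exact ⟨a0, a1, by omega, by omega, by omega⟩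
    · rw [Finset.disjoint_left]
      intro e he he'
      obtain ⟨_, _, _, _, _, a⟩ := Finset.mem_filter.1 he
      obtain ⟨_, _, _, _, b, _⟩ := Finset.mem_filter.1 he'
      omega
  · unfold ovr cnt
    rw [← Finset.card_union_of_disjoint, ← Finset.filter_or]
    · refine congrArg Finset.card (Finset.filter_congr fun e _ => ?_)
      constructor
      · rintro ⟨rfl, a1, a2, a3, a4⟩
        have h3 := lc_hi e
        by_cases h4 : e.lo < l
        · exact Or.inl ⟨rfl, Nat.zero_le _, h4, a4, h3⟩
        · exact Or.inr ⟨rfl, not_lt.1 h4, a1, a4, h3⟩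
      · rintro (⟨a0, _, a1, a2, a3⟩ | ⟨a0, _, a1, a2, a3⟩)
        · exact ⟨a0, by omega, by omega, by omega, a2⟩
        · exact ⟨a0, a1, by omega, by omega, a2⟩
    · rw [Finset.disjoint_left]
      intro e he he'
      obtain ⟨_, _, _, a, _, _⟩ := Finset.mem_filter.1 he
      obtain ⟨_, _, b, _, _, _⟩ := Finset.mem_filter.1 he'
      omega
  · unfold ovr cnt
    refine congrArg Finset.card (Finset.filter_congr fun e _ => ?_)
    constructor
    · rintro ⟨rfl, a1, a2, a3, a4⟩
      exact ⟨rfl, Nat.zero_le _, a1, a4, lc_hi e⟩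
    · rintro ⟨a0, _, a1, a2, a3⟩
      exact ⟨a0, a1, by omega, by omega, a2⟩

/-- the cyclic triples -/
private theorem lc_cyc (lam : Finset (Ch P)) (v : Vt) {l m n : ℕ} (h1 : l < m) (h2 : m < n) :
    ((bef lam v l m ∧ bef lam v m n ∧ bef lam v n l) ∨ (bef lam v m l ∧ bef lam v n m ∧ bef lam v l n)) ↔
      (Odd (cnt lam v 0 l m n) ∧ Odd (cnt lam v l m n (P.d v))) := by
  obtain ⟨e1, e2, e3⟩ := lc_sum lam v h1 h2
  have b1 : bef lam v l m ↔ Odd (ovr lam v l m) := by
    unfold bef
    have h3 : ¬ m < l := by omega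
    simp [h3]
  have b2 : bef lam v m n ↔ Odd (ovr lam v m n) := by
    unfold bef
    have h3 : ¬ n < m := by omega
    simp [h3]
  have b3 : bef lam v l n ↔ Odd (ovr lam v l n) := by
    unfold bef
    have h3 : ¬ n < l := by omega
    simp [h3]
  have ho : ∀ a f : ℕ, Odd (a + f) ↔ ¬ (Odd a ↔ Odd f) := by
    intro a f
    rw [Nat.odd_add, ← Nat.not_odd_iff_even]
    tauto
  rw [bef_iff lam v n l (by omega), bef_iff lam v m l (by omega), bef_iff lam v n m (by omega), b1, b2, b3, e1, e2, e3,
    ho, ho]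
  tauto

private theorem lc_rot {lam : Finset (Ch P)} {v : Vt} (hR : Real P lam) {x y z : ℕ} (h1 : x < y) (h2 : y < z) (h3 : z < P.d v)
    (h : (bef lam v x y ∧ bef lam v y z ∧ bef lam v z x) ∨ (bef lam v y x ∧ bef lam v z y ∧ bef lam v x z)) : False := by
  have h4 := (lc_cyc lam v h1 h2).1 h
  rcases Nat.eq_zero_or_pos x with h5 | h5
  · have h6 : cnt lam v 0 x y z = 0 := by
      unfold cnt
      rw [Finset.card_eq_zero, Finset.filter_eq_empty_iff]
      rintro e _ ⟨_, _, h7, _⟩
      omega
    rw [h6] at h4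
    exact absurd h4.1 (by decide)
  · exact hR v x y z h5 h1 h2 h3 h4

private theorem lc_cast (n : ℕ) : (n : F2) = if Odd n then 1 else 0 := by
  split_ifs with h
  · exact ZMod.natCast_eq_one_iff_odd.2 h
  · rw [Nat.not_odd_iff_even] at h
    exact (ZMod.natCast_eq_zero_iff_even).2 h

/-- The four arc condition at `v` is transitivity of the new order. -/
theorem real_iff_tr (lam : Finset (Ch P)) : Real P lam ↔ ∀ v l m n, l < P.d v → m < P.d v → n < P.d v → l ≠ m →
    m ≠ n → l ≠ n → bef lam v l m → bef lam v m n → bef lam v l n := by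
  constructor
  · intro hR v l m n hl hm hn hlm hmn hln h1 h2
    by_contra h3
    have h4 : bef lam v n l := (bef_iff lam v n l (Ne.symm hln)).2 h3
    rcases lt_or_gt_of_ne hlm with a | a <;> rcases lt_or_gt_of_ne hmn with b | b <;>
      rcases lt_or_gt_of_ne hln with d | d
    · exact lc_rot hR a b hn (Or.inl ⟨h1, h2, h4⟩)
    · omega
    · exact lc_rot hR d b hm (Or.inr ⟨h4, h2, h1⟩)
    · exact lc_rot hR d a hm (Or.inl ⟨h4, h1, h2⟩)
    · exact lc_rot hR a d hn (Or.inr ⟨h1, h4, h2⟩)
    · exact lc_rot hR b d hl (Or.inl ⟨h2, h4, h1⟩)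
    · omega
    · exact lc_rot hR b a hl (Or.inr ⟨h2, h1, h4⟩)
  · intro h v l m n _ h1 h2 h3 h4
    rcases (lc_cyc lam v h1 h2).2 h4 with ⟨a, b, d⟩ | ⟨a, b, d⟩
    · exact ((bef_iff lam v n l (by omega)).1 d) (h v l m n (by omega) (by omega) h3 (by omega) (by omega) (by omega) a b)
    · exact ((bef_iff lam v l n (by omega)).1 d) (h v n m l h3 (by omega) (by omega) (by omega) (by omega) (by omega) b a)

theorem posN_lt (lam : Finset (Ch P)) (v : Vt) (l : ℕ) (hl : l < P.d v) : posN lam v l < P.d v :=
  sc_lt (P.d v) (bef lam v) l hl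

theorem real_iff_inj (lam : Finset (Ch P)) : Real P lam ↔ ∀ v i j, i < P.d v → j < P.d v →
    posN lam v i = posN lam v j → i = j := by
  rw [real_iff_tr]
  constructor
  · intro h v i j hi hj hij
    by_contra hne
    have hr : ∀ l m, l < P.d v → m < P.d v → l ≠ m → (bef lam v l m ↔ ¬ bef lam v m l) :=
      fun l m _ _ hlm => bef_iff lam v l m hlm
    have h1 := tour_trans (P.d v) (bef lam v) hr (h v) i j hi hj hne
    have h2 := tour_trans (P.d v) (bef lam v) hr (h v) j i hj hi (Ne.symm hne)
    have h3 : sc (P.d v) (bef lam v) i = sc (P.d v) (bef lam v) j := hij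
    by_cases h4 : bef lam v i j
    · have := h1.1 h4
      omega
    · have := h2.1 ((hr j i hj hi (Ne.symm hne)).2 h4)
      omega
  · intro h v l m n hl hm hn hlm hmn hln h1 h2
    have hr : ∀ l m, l < P.d v → m < P.d v → l ≠ m → (bef lam v l m ↔ ¬ bef lam v m l) :=
      fun l m _ _ hlm => bef_iff lam v l m hlm
    have h3 := (tour_inj (P.d v) (bef lam v) hr (h v) l m hl hm hlm).1 h1
    have h4 := (tour_inj (P.d v) (bef lam v) hr (h v) m n hm hn hmn).1 h2
    exact (tour_inj (P.d v) (bef lam v) hr (h v) l n hl hn hln).2 (h4.trans h3)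

theorem cmp_posN (lam : Finset (Ch P)) (v : Vt) (hi : ∀ i j, i < P.d v → j < P.d v →
    posN lam v i = posN lam v j → i = j) (l m : ℕ) (hl : l < P.d v) (hm : m < P.d v) :
    cmp (posN lam v) (sgN lam v) l m = (ovr lam v l m : F2) := by
  rw [lc_cast]
  unfold cmp
  by_cases hlm : l = m
  · subst hlm
    rw [if_pos rfl]
    unfold sgN
    by_cases h : Odd (ovr lam v l l) <;> simp [h]
  · rw [if_neg hlm]
    have hr : ∀ l m, l < P.d v → m < P.d v → l ≠ m → (bef lam v l m ↔ ¬ bef lam v m l) :=
      fun l m _ _ hlm => bef_iff lam v l m hlm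
    have h1 : bef lam v l m ↔ posN lam v m < posN lam v l := tour_inj (P.d v) (bef lam v) hr hi l m hl hm hlm
    unfold bef at h1
    by_cases h2 : m < l <;> by_cases h3 : Odd (ovr lam v l m)
    · have h4 : ¬ posN lam v m < posN lam v l := fun h5 => h1.2 h5 (iff_of_true h2 h3)
      rw [if_pos h2, if_neg h4, if_pos h3, add_zero]
    · have h4 : posN lam v m < posN lam v l := h1.1 fun h5 => h3 (h5.1 h2)
      rw [if_pos h2, if_pos h4, if_neg h3]
      decide
    · have h4 : posN lam v m < posN lam v l := h1.1 fun h5 => h2 (h5.2 h3)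
      rw [if_neg h2, if_pos h4, if_pos h3, zero_add]
    · have h4 : ¬ posN lam v m < posN lam v l := fun h5 => h1.2 h5 (iff_of_false h2 h3)
      rw [if_neg h2, if_neg h4, if_neg h3, add_zero]

/-- positions and signs are determined by their comparison with `S` -/
theorem posN_of_cmp (lam : Finset (Ch P)) (v : Vt) (pos : ℕ → ℕ) (sg : ℕ → Bool)
    (h1 : ∀ i, i < P.d v → pos i < P.d v) (h2 : ∀ i j, i < P.d v → j < P.d v → pos i = pos j → i = j)
    (h : ∀ l m, l < P.d v → m < P.d v → (ovr lam v l m : F2) = cmp pos sg l m) (l : ℕ) (hl : l < P.d v) :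
    posN lam v l = pos l ∧ sgN lam v l = sg l := by
  have hb : ∀ m, m < P.d v → m ≠ l → (bef lam v l m ↔ pos m < pos l) := by
    intro m hm hne
    have h3 := h l m hl hm
    rw [lc_cast] at h3
    unfold cmp at h3
    rw [if_neg (Ne.symm hne)] at h3
    unfold bef
    by_cases h4 : m < l <;> by_cases h5 : Odd (ovr lam v l m) <;> by_cases h6 : pos m < pos l
    · rw [if_pos h4, if_pos h5, if_pos h6] at h3
      exact absurd h3 (by decide)
    · exact iff_of_false (fun h7 => h7 (iff_of_true h4 h5)) h6
    · exact iff_of_true (fun h7 => h5 (h7.1 h4)) h6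
    · rw [if_pos h4, if_neg h5, if_neg h6] at h3
      exact absurd h3 (by decide)
    · exact iff_of_true (fun h7 => h4 (h7.2 h5)) h6
    · rw [if_neg h4, if_pos h5, if_neg h6] at h3
      exact absurd h3 (by decide)
    · rw [if_neg h4, if_neg h5, if_pos h6] at h3
      exact absurd h3 (by decide)
    · exact iff_of_false (fun h7 => h7 (iff_of_false h4 h5)) h6
  constructor
  · have h3 : (range (P.d v)).filter (fun m => m ≠ l ∧ bef lam v l m) = (range (P.d v)).filter fun m => pos m < pos l := by
      refine Finset.filter_congr fun m hm => ?_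
      rw [Finset.mem_range] at hm
      constructor
      · rintro ⟨a, b⟩
        exact (hb m hm a).1 b
      · intro a
        have hne : m ≠ l := by
          rintro rfl
          exact lt_irrefl _ a
        exact ⟨hne, (hb m hm hne).2 a⟩
    have hinj : Set.InjOn pos ((range (P.d v) : Finset ℕ) : Set ℕ) := by
      intro a ha b hb' hab
      rw [Finset.mem_coe, Finset.mem_range] at ha hb'
      exact h2 a b ha hb' hab
    have himg : (range (P.d v)).image pos = range (P.d v) := by
      refine Finset.eq_of_subset_of_card_le ?_ ?_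
      · intro k hk
        obtain ⟨m, hm, rfl⟩ := Finset.mem_image.1 hk
        rw [Finset.mem_range] at hm ⊢
        exact h1 m hm
      · rw [Finset.card_image_of_injOn hinj]
    have h4 : ((range (P.d v)).filter fun m => pos m < pos l).image pos = range (pos l) := by
      ext k
      rw [Finset.mem_image, Finset.mem_range]
      constructor
      · rintro ⟨m, hm, rfl⟩
        exact (Finset.mem_filter.1 hm).2
      · intro hk
        have h5 : k ∈ (range (P.d v)).image pos := by
          rw [himg, Finset.mem_range]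
          exact hk.trans (h1 l hl)
        obtain ⟨m, hm, rfl⟩ := Finset.mem_image.1 h5
        exact ⟨m, Finset.mem_filter.2 ⟨hm, hk⟩, rfl⟩
    unfold posN
    rw [h3, ← Finset.card_image_of_injOn (hinj.mono (Finset.coe_subset.2 (Finset.filter_subset _ _))), h4,
      Finset.card_range]
  · have h3 := h l l hl hl
    rw [lc_cast] at h3
    unfold cmp at h3
    rw [if_pos rfl] at h3
    unfold sgN
    by_cases h4 : Odd (ovr lam v l l)
    · rw [if_pos h4] at h3
      cases h5 : sg l
      · rw [h5] at h3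
        exact absurd h3 (by decide)
      · exact decide_eq_true h4
    · rw [if_neg h4] at h3
      cases h5 : sg l
      · exact decide_eq_false h4
      · rw [h5] at h3
        exact absurd h3 (by decide)

end Pool.Agent.EPH
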