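import Pool.Agent.EPH.LDef

/-!
# EPH-LDif: every symmetric function with first row 0 is a number of chords modulo 2
-/

set_option autoImplicit false

open Finset
open scoped Classical

namespace Pool.Agent.EPH

open Pool.Agent.BEO

variable {Φ Vt : Type} [Fintype Vt]

private theorem f2_ite (x : F2) : (if x = 1 then (1 : F2) else 0) = x := by
  have h : ∀ x : ZMod 2, x = 0 ∨ x = 1 := by decide
  rcases h x with h0 | h1
  · rw [if_neg (by rw [h0]; decide), h0]
  · rw [if_pos h1, h1]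

private theorem f2_add_self (x : F2) : x + x = 0 := by
  have h : ∀ x : ZMod 2, x + x = 0 := by decide
  exact h x

private theorem tel (B : ℕ → F2) (m : ℕ) : ∀ n, m ≤ n → ∑ j ∈ Ico m n, (B j + B (j + 1)) = B m + B n := by
  intro n hn
  induction n, hn using Nat.le_induction with
  | base => rw [Ico_self, sum_empty, f2_add_self]
  | succ n hn ih =>
    rw [sum_Ico_succ_top hn, ih]
    calc B m + B n + (B n + B (n + 1)) = B m + B (n + 1) + (B n + B n) := by ring
      _ = B m + B (n + 1) := by rw [f2_add_self, add_zero]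

private theorem tel2 (A : ℕ → ℕ → F2) (d : ℕ) (h0 : ∀ j, A 0 j = 0) (hd : ∀ i, A i d = 0) (l m : ℕ)
    (hm : m ≤ d) :
    ∑ i ∈ range l, ∑ j ∈ Ico m d, (A (i + 1) j + A i j + A (i + 1) (j + 1) + A i (j + 1)) = A l m := by
  have h1 : ∀ i ∈ range l, ∑ j ∈ Ico m d, (A (i + 1) j + A i j + A (i + 1) (j + 1) + A i (j + 1)) =
      A i m + A (i + 1) m := by
    intro i _
    have h2 := tel (fun j => A (i + 1) j + A i j) m d hm
    rw [hd, hd, add_zero, add_zero, add_comm (A (i + 1) m)] at h2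
    rw [← h2]
    exact sum_congr rfl fun j _ => by ring
  rw [sum_congr rfl h1, range_eq_Ico, tel (fun i => A i m) 0 l (Nat.zero_le _), h0, zero_add]

omit [Fintype Vt] in
private theorem ovr_comm {P : Cor Φ Vt} (lam : Finset (Ch P)) (v : Vt) (l m : ℕ) :
    ovr lam v l m = ovr lam v m l := by
  unfold ovr
  congr 1
  ext e
  simp only [mem_filter]
  tauto

private theorem ovr_sum {P : Cor Φ Vt} (D : Vt → ℕ → ℕ → F2) (v : Vt) (l m : ℕ) (hlm : l ≤ m) :
    (ovr (univ.filter fun e : Ch P => D e.vx e.lo e.hi = 1) v l m : F2) =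
      ∑ i ∈ range l, ∑ j ∈ Ico m (P.d v), D v i j := by
  unfold ovr
  rw [filter_filter, ← sum_product', card_filter, Nat.cast_sum]
  have h1 : ∀ e : Ch P, (((if D e.vx e.lo e.hi = 1 ∧ e.vx = v ∧ e.lo < l ∧ l ≤ e.hi ∧ e.lo < m ∧ m ≤ e.hi
      then 1 else 0 : ℕ)) : F2) = if e.vx = v ∧ e.lo < l ∧ l ≤ e.hi ∧ e.lo < m ∧ m ≤ e.hi
      then D e.vx e.lo e.hi else 0 := by
    intro e
    by_cases hc : e.vx = v ∧ e.lo < l ∧ l ≤ e.hi ∧ e.lo < m ∧ m ≤ e.hi
    · rw [if_pos hc]
      conv_rhs => rw [← f2_ite (D e.vx e.lo e.hi)]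
      by_cases hD : D e.vx e.lo e.hi = 1
      · rw [if_pos ⟨hD, hc⟩, if_pos hD, Nat.cast_one]
      · rw [if_neg fun h => hD h.1, if_neg hD, Nat.cast_zero]
    · rw [if_neg hc, if_neg fun h => hc h.2, Nat.cast_zero]
  rw [sum_congr rfl fun e _ => h1 e, ← sum_filter]
  refine sum_bij (fun e _ => (e.lo, e.hi)) ?_ ?_ ?_ ?_
  · intro e he
    obtain ⟨hv, ha, hb, hc, hd⟩ := (mem_filter.1 he).2
    rw [mem_product, mem_range, mem_Ico]
    refine ⟨ha, hd, ?_⟩
    rw [← hv]
    exact e.1.2.2.2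
  · intro e he e' he' hee
    obtain ⟨hv, -⟩ := (mem_filter.1 he).2
    obtain ⟨hv', -⟩ := (mem_filter.1 he').2
    obtain ⟨⟨w, i, j⟩, h⟩ := e
    obtain ⟨⟨w', i', j'⟩, h'⟩ := e'
    obtain rfl : w = v := hv
    obtain rfl : w' = w := hv'
    obtain ⟨h1, h2⟩ := Prod.mk.inj hee
    obtain rfl : i = i' := Fin.ext h1
    obtain rfl : j = j' := Fin.ext h2
    rfl
  · rintro ⟨i, j⟩ hij
    rw [mem_product, mem_range, mem_Ico] at hij
    obtain ⟨hi, hj, hjd⟩ := hij
    change i < l at hi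
    change m ≤ j at hj
    change j < P.d v at hjd
    refine ⟨(⟨⟨v, (⟨i, by omega⟩, ⟨j, hjd⟩)⟩, by show i < j; omega⟩ : Ch P), ?_, rfl⟩
    refine mem_filter.2 ⟨mem_univ _, rfl, hi, ?_, ?_, hj⟩
    · show l ≤ j
      omega
    · show i < m
      omega
  · intro e he
    obtain ⟨hv, -⟩ := (mem_filter.1 he).2
    rw [hv]

theorem exists_lam (P : Cor Φ Vt) (A : Vt → ℕ → ℕ → F2) (h0 : ∀ v m, A v 0 m = 0)
    (h1 : ∀ v l m, A v l m = A v m l) :
    ∃ lam : Finset (Ch P), ∀ v l m, l < P.d v → m < P.d v → (ovr lam v l m : F2) = A v l m := by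
  let A' : Vt → ℕ → ℕ → F2 := fun v l m => if m < P.d v then A v l m else 0
  let D : Vt → ℕ → ℕ → F2 := fun v i j => A' v (i + 1) j + A' v i j + A' v (i + 1) (j + 1) + A' v i (j + 1)
  have key : ∀ v l m, l ≤ m → m < P.d v →
      (ovr (univ.filter fun e : Ch P => D e.vx e.lo e.hi = 1) v l m : F2) = A v l m := by
    intro v l m hlm hm
    rw [ovr_sum D v l m hlm, tel2 (A' v) (P.d v) ?_ ?_ l m hm.le]
    · exact if_pos hm
    · intro j
      by_cases hj : j < P.d v
      · exact (if_pos hj).trans (h0 v j)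
      · exact if_neg hj
    · intro i
      exact if_neg (lt_irrefl _)
  refine ⟨univ.filter fun e : Ch P => D e.vx e.lo e.hi = 1, fun v l m hl hm => ?_⟩
  rcases le_total l m with h | h
  · exact key v l m h hm
  · rw [ovr_comm, h1]
    exact key v m l h hl

end Pool.Agent.EPH
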