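import Pool.Agent.EPH.LRot
import Pool.Agent.EPH.LDef
import Pool.Agent.EPH.LCol
import Pool.Agent.BEO.Frm

/-!
# EPH-LFrm: the form of a map given by positions and signs

PLAN. Fix `z : cyc G`, `d v := (nb G v).card`, `ζ v m := z.1 (ed (cf S b v m))`. `∑ m ∈ range (d v), ζ v m = 0` (`z.2 v`: the
sum over the darts at `v`; group with `sum_darts` (LCol) applied to `g x := if x.fst = v then z.1 (ed (x, true)) else 0`).
(1) `LS : Flag G → F2` with `LS (cf v x) = ∑ m ∈ range (x + 1), ζ v m` and `LS (side (cf v x)) = ∑ m ∈ range x, ζ v m` for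
`x < d v` (every flag has exactly one of these forms: `cf_cover`, `cf_inj`, `cf_ne_side`); `IsL S z.1 LS`: `nxt (cf x) =
side (cf (x + 1))` for `x + 1 < d` (both `∑ range (x + 1)`), and `nxt (cf (d - 1)) = side (cf d) = side (cf 0)`
(`cf_period`): total sum 0 and empty sum; the flags `side (cf x)` by `nxt_side_cf`; sides differ by `ζ v x`.
(2) `LT : Flag G → F2` with `LT (outF v x) = ∑ m ∈ (range (d v)).filter (fun m => pos v m ≤ pos v x), ζ v m`,
`LT (side (outF v x)) = ∑ m ∈ (range (d v)).filter (fun m => pos v m < pos v x), ζ v m`; `IsL T z.1 LT`: `hT` for `y`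
with `pos v y = pos v x + 1` (if this is `< d`), or `pos v x = d - 1`, `pos v y = 0` (all `m`: sum 0; no `m`: 0);
sides: the two sums differ by the term `m = x` (`hp.inj`). So for every flag `q` at `v` with dart `x`: `LS q + LT q =
∑ m ∈ range (d v), cmp (pos v) (sg v) x m * ζ v m` =: `D v x` (the cases `sg v x = true/false`; for `m ≠ x`
`pos v m ≤ pos v x` iff `pos v m < pos v x`; the terms `m = x` cancel or leave `ζ v x`; the same for both sides `q` and
`side q` since both potentials change by `ζ v x`).
(3) `frm_eq` for `S` with `LS` and for `T` with `LT`: `frm T z z' + frm S z z' = ∑ e, (dL LT e + dL LS e) * z'.1 e`, and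
`dL L e = L (rp e) + L (across (rp e))`; with `h q := LS q + LT q` (which depends only on the dart of `q`) this is
`∑ e, (h (rp e).1 + h (rp e).1.symm) * z' e = ∑ x : G.Dart, h x * z'.1 (ed (x, true))` (`sum_edges` of BEO/DLf) `=
∑ v, ∑ l ∈ range (d v), D v l * z'.1 (ed (cf v l))` (`sum_darts`).
-/

set_option autoImplicit false

open Finset
open scoped Classical

namespace Pool.Agent.EPH

open Pool.Agent.BEO
open Pool.Agent.Helper35.OG hiding F2 dg

variable {V : Type} {G : SimpleGraph V} [Fintype V]

private theorem two0 (a : F2) : a + a = 0 := CharTwo.add_self_eq_zero a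

/-- the sum of the coordinates of a cycle at the darts of a vertex -/
private theorem sum_zero (S : GMap G) {b : V → Flag G} (hb : IsBase b) (z : cyc G) (v : V) :
    ∑ m ∈ range (nb G v).card, z.1 (ed (cf S b v m)) = 0 := by
  have h1 := sum_darts S hb (fun x => if x.fst = v then z.1 (ed (x, true)) else 0)
  rw [← Finset.sum_filter] at h1
  have h2 : ∑ x ∈ univ.filter (fun x : G.Dart => x.fst = v), z.1 (ed (x, true)) = 0 := z.2 v
  rw [h2, Finset.sum_eq_single v] at h1
  · rw [h1]
    refine Finset.sum_congr rfl fun t _ => ?_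
    rw [if_pos (cf_fst S hb v t)]
    rfl
  · intro w _ hw
    refine Finset.sum_eq_zero fun t _ => ?_
    rw [if_neg]
    rw [cf_fst S hb w t]
    exact hw
  · intro h
    exact absurd (mem_univ v) h

/-- a function on the flags with given values -/
private theorem exists_fun (S : GMap G) {b : V → Flag G} (hb : IsBase b) (A B : V → ℕ → F2) :
    ∃ L : Flag G → F2, ∀ v x, x < (nb G v).card → L (cf S b v x) = A v x ∧ L (side (cf S b v x)) = B v x := by
  refine ⟨fun q => if h : ∃ x, x < (nb G q.1.fst).card ∧ q = cf S b q.1.fst x then A q.1.fst h.choose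
    else if h' : ∃ x, x < (nb G q.1.fst).card ∧ q = side (cf S b q.1.fst x) then B q.1.fst h'.choose else 0,
    fun v x hx => ⟨?_, ?_⟩⟩
  · have hf : (cf S b v x).1.fst = v := cf_fst S hb v x
    have h : ∃ y, y < (nb G (cf S b v x).1.fst).card ∧ cf S b v x = cf S b (cf S b v x).1.fst y := by
      rw [hf]
      exact ⟨x, hx, rfl⟩
    beta_reduce
    rw [dif_pos h]
    have h1 := h.choose_spec
    generalize h.choose = y at h1 ⊢
    rw [hf] at h1 ⊢
    rw [cf_inj S hb v h1.1 hx h1.2.symm]
  · have hf : (side (cf S b v x)).1.fst = v := cf_fst S hb v x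
    have h : ¬ ∃ y, y < (nb G (side (cf S b v x)).1.fst).card ∧
        side (cf S b v x) = cf S b (side (cf S b v x)).1.fst y := by
      rw [hf]
      rintro ⟨y, -, h1⟩
      exact cf_ne_side S b v y x h1.symm
    have h' : ∃ y, y < (nb G (side (cf S b v x)).1.fst).card ∧
        side (cf S b v x) = side (cf S b (side (cf S b v x)).1.fst y) := by
      rw [hf]
      exact ⟨x, hx, rfl⟩
    beta_reduce
    rw [dif_neg h, dif_pos h']
    have h1 := h'.choose_spec
    generalize h'.choose = y at h1 ⊢
    rw [hf] at h1 ⊢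
    have h2 := congrArg side h1.2
    rw [side_side, side_side] at h2
    rw [cf_inj S hb v h1.1 hx h2.symm]

/-- the potential of the old map -/
private theorem old (S : GMap G) {b : V → Flag G} (hb : IsBase b) (z : cyc G) : ∃ L : Flag G → F2, IsL S z.1 L ∧
    ∀ v x, x < (nb G v).card → L (cf S b v x) = ∑ m ∈ range (x + 1), z.1 (ed (cf S b v m)) ∧
      L (side (cf S b v x)) = ∑ m ∈ range x, z.1 (ed (cf S b v m)) := by
  obtain ⟨L, hL⟩ := exists_fun S hb (fun v x => ∑ m ∈ range (x + 1), z.1 (ed (cf S b v m)))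
    (fun v x => ∑ m ∈ range x, z.1 (ed (cf S b v m)))
  have key : ∀ v x, x < (nb G v).card → L (S.nxt (cf S b v x)) = L (cf S b v x) := by
    intro v x hx
    rw [nxt_cf, (hL v x hx).1]
    rcases Nat.lt_or_ge (x + 1) (nb G v).card with h | h
    · rw [(hL v (x + 1) h).2]
    · have h1 : x + 1 = 0 + (nb G v).card := by omega
      have h2 : 0 < (nb G v).card := by omega
      have h3 : x + 1 = (nb G v).card := by omega
      rw [h1, cf_period S hb, (hL v 0 h2).2, ← h1, h3, sum_zero S hb]
      rfl
  refine ⟨L, ⟨fun p => ?_, fun p => ?_⟩, hL⟩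
  · obtain ⟨x, hx, h | h⟩ := cf_cover S hb p.1.fst p rfl
    · rw [h]
      have hf := cf_fst S hb p.1.fst x
      exact key _ _ hx
    · obtain ⟨y, hy, h1⟩ : ∃ y, y < (nb G p.1.fst).card ∧ p = S.nxt (cf S b p.1.fst y) := by
        rcases Nat.eq_zero_or_pos x with h0 | h0
        · refine ⟨(nb G p.1.fst).card - 1, by omega, ?_⟩
          rw [nxt_cf]
          have h2 : (nb G p.1.fst).card - 1 + 1 = 0 + (nb G p.1.fst).card := by omega
          rw [h2, cf_period S hb]
          rw [h0] at h
          exact h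
        · refine ⟨x - 1, by omega, ?_⟩
          rw [nxt_cf]
          have h2 : x - 1 + 1 = x := by omega
          rw [h2]
          exact h
      rw [h1, S.nxt_nxt, key _ _ hy]
  · have key2 : ∀ v x, x < (nb G v).card →
        L (cf S b v x) + L (side (cf S b v x)) = z.1 (ed (cf S b v x)) := by
      intro v x hx
      rw [(hL v x hx).1, (hL v x hx).2, Finset.sum_range_succ]
      linear_combination two0 (∑ m ∈ range x, z.1 (ed (cf S b v m)))
    obtain ⟨x, hx, h | h⟩ := cf_cover S hb p.1.fst p rfl
    · rw [h]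
      exact key2 _ _ hx
    · rw [h, side_side, ed_side, add_comm]
      exact key2 _ _ hx

private theorem outF_cover (S : GMap G) {b : V → Flag G} (hb : IsBase b) (sg : V → ℕ → Bool) (v : V)
    (q : Flag G) (hq : q.1.fst = v) :
    ∃ i, i < (nb G v).card ∧ (q = outF S b sg v i ∨ q = side (outF S b sg v i)) := by
  obtain ⟨x, hx, h⟩ := cf_cover S hb v q hq
  refine ⟨x, hx, ?_⟩
  unfold outF
  split_ifs with hs
  · rw [side_side]
    exact h.symm
  · exact h

private theorem pos_surj {pos : V → ℕ → ℕ} (hp : PS G pos) (v : V) {j : ℕ} (hj : j < (nb G v).card) :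
    ∃ y, y < (nb G v).card ∧ pos v y = j := by
  have h1 : (range (nb G v).card).image (pos v) = range (nb G v).card := by
    refine Finset.eq_of_subset_of_card_le ?_ ?_
    · intro i hi
      obtain ⟨y, hy, rfl⟩ := mem_image.1 hi
      exact mem_range.2 (hp.lt v y (mem_range.1 hy))
    · rw [Finset.card_image_of_injOn]
      intro x hx y hy h
      exact hp.inj v x y (mem_range.1 (mem_coe.1 hx)) (mem_range.1 (mem_coe.1 hy)) h
  have h2 : j ∈ (range (nb G v).card).image (pos v) := by
    rw [h1]
    exact mem_range.2 hj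
  obtain ⟨y, hy, h3⟩ := mem_image.1 h2
  exact ⟨y, mem_range.1 hy, h3⟩

/-- the potential of the new map -/
private theorem new (S : GMap G) {b : V → Flag G} (hb : IsBase b) {pos : V → ℕ → ℕ} (hp : PS G pos)
    (sg : V → ℕ → Bool) (T : GMap G) (hT : IsMk S b pos sg T) (z : cyc G) : ∃ L : Flag G → F2, IsL T z.1 L ∧
    ∀ v x, x < (nb G v).card →
      L (outF S b sg v x) = ∑ m ∈ (range (nb G v).card).filter (fun m => pos v m ≤ pos v x),
        z.1 (ed (cf S b v m)) ∧
      L (side (outF S b sg v x)) = ∑ m ∈ (range (nb G v).card).filter (fun m => pos v m < pos v x),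
        z.1 (ed (cf S b v m)) := by
  obtain ⟨C, hC⟩ : ∃ C : V → ℕ → F2, C = fun v x => ∑ m ∈ (range (nb G v).card).filter
    (fun m => pos v m ≤ pos v x), z.1 (ed (cf S b v m)) := ⟨_, rfl⟩
  obtain ⟨D, hD⟩ : ∃ D : V → ℕ → F2, D = fun v x => ∑ m ∈ (range (nb G v).card).filter
    (fun m => pos v m < pos v x), z.1 (ed (cf S b v m)) := ⟨_, rfl⟩
  obtain ⟨L, hL0⟩ := exists_fun S hb (fun v x => if sg v x then D v x else C v x)
    (fun v x => if sg v x then C v x else D v x)
  have hL : ∀ v x, x < (nb G v).card → L (outF S b sg v x) = C v x ∧ L (side (outF S b sg v x)) = D v x := by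
    intro v x hx
    have h1 := hL0 v x hx
    unfold outF
    beta_reduce at h1
    split_ifs at h1 ⊢
    · rw [side_side]
      exact ⟨h1.2, h1.1⟩
    · exact h1
  have hCD : ∀ v x, x < (nb G v).card → C v x + D v x = z.1 (ed (cf S b v x)) := by
    intro v x hx
    have h1 : (range (nb G v).card).filter (fun m => pos v m ≤ pos v x) =
        insert x ((range (nb G v).card).filter (fun m => pos v m < pos v x)) := by
      ext m
      rw [mem_insert, mem_filter, mem_filter, mem_range]
      constructor
      · rintro ⟨h2, h3⟩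
        rcases h3.lt_or_eq with h4 | h4
        · exact Or.inr ⟨h2, h4⟩
        · exact Or.inl (hp.inj v m x h2 hx h4)
      · rintro (h2 | ⟨h2, h3⟩)
        · rw [h2]
          exact ⟨hx, le_rfl⟩
        · exact ⟨h2, h3.le⟩
    rw [hC, hD]
    beta_reduce
    rw [h1, Finset.sum_insert]
    · linear_combination two0 (∑ m ∈ (range (nb G v).card).filter (fun m => pos v m < pos v x),
        z.1 (ed (cf S b v m)))
    · rw [mem_filter]
      rintro ⟨-, h2⟩
      exact lt_irrefl _ h2
  have hstep : ∀ v x y, x < (nb G v).card → y < (nb G v).card → pos v y = (pos v x + 1) % (nb G v).card →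
      L (T.nxt (outF S b sg v x)) = L (outF S b sg v x) := by
    intro v x y hx hy hxy
    rw [hT v x y hx hy hxy, (hL v y hy).2, (hL v x hx).1, hC, hD]
    beta_reduce
    rcases Nat.lt_or_ge (pos v x + 1) (nb G v).card with h | h
    · rw [Nat.mod_eq_of_lt h] at hxy
      refine Finset.sum_congr ?_ fun _ _ => rfl
      refine Finset.filter_congr fun m _ => ?_
      omega
    · have h1 := hp.lt v x hx
      have h2 : pos v x + 1 = (nb G v).card := by omega
      rw [h2, Nat.mod_self] at hxy
      have h3 : (range (nb G v).card).filter (fun m => pos v m < pos v y) = ∅ := by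
        rw [Finset.filter_eq_empty_iff]
        intro m _
        omega
      have h4 : (range (nb G v).card).filter (fun m => pos v m ≤ pos v x) = range (nb G v).card := by
        rw [Finset.filter_eq_self]
        intro m hm
        have := hp.lt v m (mem_range.1 hm)
        omega
      rw [h3, h4, sum_zero S hb]
      rfl
  refine ⟨L, ⟨fun p => ?_, fun p => ?_⟩, fun v x hx => ?_⟩
  · obtain ⟨x, hx, h | h⟩ := outF_cover S hb sg p.1.fst p rfl
    · obtain ⟨y, hy, hxy⟩ := pos_surj hp p.1.fst (Nat.mod_lt (pos p.1.fst x + 1) (by omega))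
      rw [h]
      exact hstep _ x y hx hy hxy
    · have h0 := hp.lt p.1.fst x hx
      obtain ⟨y, hy, hxy⟩ := pos_surj hp p.1.fst
        (j := if pos p.1.fst x = 0 then (nb G p.1.fst).card - 1 else pos p.1.fst x - 1) (by
          split_ifs <;> omega)
      have h1 : pos p.1.fst x = (pos p.1.fst y + 1) % (nb G p.1.fst).card := by
        rw [hxy]
        split_ifs with h2
        · have h3 : (nb G p.1.fst).card - 1 + 1 = (nb G p.1.fst).card := by omega
          rw [h3, Nat.mod_self, h2]
        · have h3 : pos p.1.fst x - 1 + 1 = pos p.1.fst x := by omega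
          rw [h3, Nat.mod_eq_of_lt h0]
      have h2 : p = T.nxt (outF S b sg p.1.fst y) := by
        rw [hT _ y x hy hx h1]
        exact h
      rw [h2, T.nxt_nxt, hstep _ y x hy hx h1]
  · have key2 : ∀ v x, x < (nb G v).card →
        L (outF S b sg v x) + L (side (outF S b sg v x)) = z.1 (ed (cf S b v x)) := by
      intro v x hx
      rw [(hL v x hx).1, (hL v x hx).2, hCD v x hx]
    have hed : ∀ v x, ed (outF S b sg v x) = ed (cf S b v x) := by
      intro v x
      unfold outF
      split_ifs
      · exact ed_side _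
      · rfl
    obtain ⟨x, hx, h | h⟩ := outF_cover S hb sg p.1.fst p rfl
    · rw [h, hed]
      exact key2 _ _ hx
    · rw [h, side_side, ed_side, add_comm, hed]
      exact key2 _ _ hx
  · have h1 := hL v x hx
    rw [hC, hD] at h1
    exact h1

/-- the sum of the two potentials at a flag depends only on the dart -/
private theorem sum_eq (S : GMap G) {b : V → Flag G} {pos : V → ℕ → ℕ} (hp : PS G pos)
    (sg : V → ℕ → Bool) (z : cyc G) {LS LT : Flag G → F2}
    (hS : ∀ v x, x < (nb G v).card → LS (cf S b v x) = ∑ m ∈ range (x + 1), z.1 (ed (cf S b v m)) ∧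
      LS (side (cf S b v x)) = ∑ m ∈ range x, z.1 (ed (cf S b v m)))
    (hT : ∀ v x, x < (nb G v).card →
      LT (outF S b sg v x) = ∑ m ∈ (range (nb G v).card).filter (fun m => pos v m ≤ pos v x),
        z.1 (ed (cf S b v m)) ∧
      LT (side (outF S b sg v x)) = ∑ m ∈ (range (nb G v).card).filter (fun m => pos v m < pos v x),
        z.1 (ed (cf S b v m)))
    (v : V) (x : ℕ) (hx : x < (nb G v).card) :
    LS (cf S b v x) + LT (cf S b v x) =
      ∑ m ∈ range (nb G v).card, cmp (pos v) (sg v) x m * z.1 (ed (cf S b v m)) ∧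
    LS (side (cf S b v x)) + LT (side (cf S b v x)) =
      ∑ m ∈ range (nb G v).card, cmp (pos v) (sg v) x m * z.1 (ed (cf S b v m)) := by
  have e1 : ∀ n, n ≤ (nb G v).card → ∑ m ∈ range n, z.1 (ed (cf S b v m)) =
      ∑ m ∈ range (nb G v).card, (if m < n then (1 : F2) else 0) * z.1 (ed (cf S b v m)) := by
    intro n hn
    have h1 : range n = (range (nb G v).card).filter (fun m => m < n) := by
      ext m
      rw [mem_filter, mem_range, mem_range]
      omega
    rw [h1, Finset.sum_filter]
    refine Finset.sum_congr rfl fun m _ => ?_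
    split_ifs
    · rw [one_mul]
    · rw [zero_mul]
  have e2 : ∀ (q : ℕ → Prop) [DecidablePred q], ∑ m ∈ (range (nb G v).card).filter q, z.1 (ed (cf S b v m)) =
      ∑ m ∈ range (nb G v).card, (if q m then (1 : F2) else 0) * z.1 (ed (cf S b v m)) := by
    intro q _
    rw [Finset.sum_filter]
    refine Finset.sum_congr rfl fun m _ => ?_
    split_ifs
    · rw [one_mul]
    · rw [zero_mul]
  have hne : ∀ m, m < (nb G v).card → m ≠ x → (pos v m ≤ pos v x ↔ pos v m < pos v x) := by
    intro m hm hmx
    refine ⟨fun h => lt_of_le_of_ne h fun h1 => hmx (hp.inj v m x hm hx h1), fun h => h.le⟩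
  obtain ⟨s1, s2⟩ := hS v x hx
  obtain ⟨t1, t2⟩ := hT v x hx
  rw [e1 _ (by omega)] at s1
  rw [e1 _ hx.le] at s2
  rw [e2] at t1 t2
  unfold outF at t1 t2
  by_cases hs : sg v x = true
  · rw [if_pos hs] at t1 t2
    rw [side_side] at t2
    rw [s1, s2, t1, t2, ← Finset.sum_add_distrib, ← Finset.sum_add_distrib]
    constructor
    · refine Finset.sum_congr rfl fun m hm => ?_
      rw [← add_mul]
      congr 1
      unfold cmp
      by_cases hmx : m = x
      · subst hmx
        rw [if_pos (by omega), if_neg (lt_irrefl _), if_pos rfl, if_pos hs, add_zero]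
      · rw [if_neg (fun h : x = m => hmx h.symm)]
        have h1 : m < x + 1 ↔ m < x := by omega
        simp only [h1]
    · refine Finset.sum_congr rfl fun m hm => ?_
      rw [← add_mul]
      congr 1
      unfold cmp
      by_cases hmx : m = x
      · subst hmx
        rw [if_neg (lt_irrefl _), if_pos le_rfl, if_pos rfl, if_pos hs, zero_add]
      · rw [if_neg (fun h : x = m => hmx h.symm)]
        simp only [hne m (mem_range.1 hm) hmx]
  · rw [if_neg hs] at t1 t2
    rw [s1, s2, t1, t2, ← Finset.sum_add_distrib, ← Finset.sum_add_distrib]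
    constructor
    · refine Finset.sum_congr rfl fun m hm => ?_
      rw [← add_mul]
      congr 1
      unfold cmp
      by_cases hmx : m = x
      · subst hmx
        rw [if_pos (by omega), if_pos le_rfl, if_pos rfl, if_neg hs]
        exact two0 1
      · rw [if_neg (fun h : x = m => hmx h.symm)]
        have h1 : m < x + 1 ↔ m < x := by omega
        simp only [h1, hne m (mem_range.1 hm) hmx]
    · refine Finset.sum_congr rfl fun m hm => ?_
      rw [← add_mul]
      congr 1
      unfold cmp
      by_cases hmx : m = x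
      · subst hmx
        rw [if_neg (lt_irrefl _), if_neg (lt_irrefl _), if_pos rfl, if_neg hs, add_zero]
      · rw [if_neg (fun h : x = m => hmx h.symm)]

theorem frm_isMk (S : GMap G) (b : V → Flag G) (hb : IsBase b) (pos : V → ℕ → ℕ) (hp : PS G pos)
    (sg : V → ℕ → Bool) (T : GMap G) (hT : IsMk S b pos sg T) (z z' : cyc G) :
    frm T z z' = frm S z z' + ∑ v, ∑ l ∈ range (nb G v).card, ∑ m ∈ range (nb G v).card,
      cmp (pos v) (sg v) l m * z.1 (ed (cf S b v m)) * z'.1 (ed (cf S b v l)) := by
  obtain ⟨LS, hLS, hS⟩ := old S hb z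
  obtain ⟨LT, hLT, hT'⟩ := new S hb hp sg T hT z
  rw [frm_eq T z z' hLT, frm_eq S z z' hLS]
  obtain ⟨h, hh⟩ : ∃ h : Flag G → F2, h = fun q => LS q + LT q := ⟨_, rfl⟩
  have hcf : ∀ v x, x < (nb G v).card → h (cf S b v x) =
      ∑ m ∈ range (nb G v).card, cmp (pos v) (sg v) x m * z.1 (ed (cf S b v m)) ∧ h (side (cf S b v x)) =
      ∑ m ∈ range (nb G v).card, cmp (pos v) (sg v) x m * z.1 (ed (cf S b v m)) := by
    intro v x hx
    rw [hh]
    exact sum_eq S hp sg z hS hT' v x hx
  have hside : ∀ q, h (side q) = h q := by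
    intro q
    obtain ⟨x, hx, h1 | h1⟩ := cf_cover S hb q.1.fst q rfl
    · rw [h1, (hcf _ x hx).1, (hcf _ x hx).2]
    · rw [h1, side_side, (hcf _ x hx).1, (hcf _ x hx).2]
  have hdart : ∀ q : Flag G, h (q.1, true) = h q := by
    rintro ⟨d, s⟩
    cases s
    · exact hside (d, false)
    · rfl
  have hedd : ∀ q : Flag G, ed (q.1, true) = ed q := by
    rintro ⟨d, s⟩
    rfl
  have h1 := sum_darts S hb (fun x => h (x, true) * z'.1 (ed (x, true)))
  rw [sum_edges] at h1
  have h2 : ∑ e : G.edgeSet, (h ((rp e).1, true) * z'.1 (ed ((rp e).1, true)) +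
      h ((rp e).1.symm, true) * z'.1 (ed ((rp e).1.symm, true))) =
      ∑ e : G.edgeSet, dL LT e * z'.1 e + ∑ e : G.edgeSet, dL LS e * z'.1 e := by
    rw [← Finset.sum_add_distrib]
    refine Finset.sum_congr rfl fun e _ => ?_
    have e1 : h ((rp e).1, true) = h (rp e) := hdart _
    have e2 : h ((rp e).1.symm, true) = h (across (rp e)) := hdart (across (rp e))
    have e3 : ed ((rp e).1, true) = e := (hedd _).trans (ed_rp e)
    have e4 : ed ((rp e).1.symm, true) = e := ((hedd (across (rp e))).trans (ed_across _)).trans (ed_rp e)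
    rw [e1, e2, e3, e4, hh]
    unfold dL
    ring
  have h3 : ∑ v, ∑ t ∈ range (nb G v).card, h ((cf S b v t).1, true) * z'.1 (ed ((cf S b v t).1, true)) =
      ∑ v, ∑ l ∈ range (nb G v).card, ∑ m ∈ range (nb G v).card,
        cmp (pos v) (sg v) l m * z.1 (ed (cf S b v m)) * z'.1 (ed (cf S b v l)) := by
    refine Finset.sum_congr rfl fun v _ => Finset.sum_congr rfl fun l hl => ?_
    rw [hdart, hedd, (hcf v l (mem_range.1 hl)).1, Finset.sum_mul]
  have h4 : ∑ e : G.edgeSet, dL LT e * z'.1 e + ∑ e : G.edgeSet, dL LS e * z'.1 e =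
      ∑ v, ∑ l ∈ range (nb G v).card, ∑ m ∈ range (nb G v).card,
        cmp (pos v) (sg v) l m * z.1 (ed (cf S b v m)) * z'.1 (ed (cf S b v l)) :=
    (h2.symm.trans h1).trans h3
  rw [← h4]
  linear_combination - two0 (∑ e : G.edgeSet, dL LS e * z'.1 e)

end Pool.Agent.EPH
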