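import Pool.Agent.EPH.LRot
import Pool.Agent.EPH.LDef

/-!
# EPH-LMk: the map with given positions and signs

PLAN. `d v := (nb G v).card`. Facts: every flag `q` at `v` is `outF S b sg v x` or `side (outF S b sg v x)` for exactly one
`x < d v` (`cf_cover`, `side_side`; uniqueness: `cf_inj`, `cf_ne_side`; the two cases exclude each other: `side_ne`), and
`(outF S b sg v x).1.fst = v`. `pos v` is a bijection of `range (d v)` with itself (injective self-map of a finite set:
`Finset.surj_on_of_inj_on_of_card_le` or `Finset.surjOn_of_injOn_of_card_le`), so for every `x < d v` there is exactly one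
`y = sc v x < d v` with `pos v y = (pos v x + 1) % d v`, and for every `y` exactly one `x = pr v y` with that
property (`(p + 1) % d` is a bijection of `range d`: for `pos v y = 0` take `pos v x = d - 1`, otherwise `pos v y - 1`).
`exists_mk`: define `nxt q := side (outF v (sc v x))` if `q = outF v x` (`v = q.1.fst`) and `nxt q := outF v (pr v x)` if
`q = side (outF v x)`. `nxt_nxt`: `pr (sc x) = x`, `sc (pr y) = y`. `nxt_ne`: a flag `outF` is never a flag `side (outF)`.
`conn`: `outF v x` is related to `side (outF v (sc v x))` (nxt) and this to `outF v (sc v x)` (side): so all `outF v x` are in one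
class (induction on `pos v x`: the class of the `x0` with `pos v x0 = 0`), and `side`.
A convenient way: prove first that the function on flags is well defined by choosing for every flag `q` the pair `(x, s)`.
`isMk_unique`: both maps have the same `nxt` at `outF v x`, and at `side (outF v y) = T.nxt (outF v (pr v y))` by `nxt_nxt`; the
other fields of `GMap` are propositions (`cases`, `congr`).
-/

set_option autoImplicit false

open Finset
open scoped Classical

namespace Pool.Agent.EPH

open Pool.Agent.BEO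
open Pool.Agent.Helper35.OG hiding F2 dg

variable {V : Type} {G : SimpleGraph V} [Fintype V]

private theorem outF_fst (S : GMap G) {b : V → Flag G} (hb : IsBase b) (sg : V → ℕ → Bool) (v : V) (x : ℕ) :
    (outF S b sg v x).1.fst = v := by
  unfold outF
  split_ifs
  · rw [side_fst, cf_fst S hb]
  · exact cf_fst S hb v x

private theorem outF_cover (S : GMap G) {b : V → Flag G} (hb : IsBase b) (sg : V → ℕ → Bool) (v : V) (q : Flag G)
    (hq : q.1.fst = v) :
    ∃ x, x < (nb G v).card ∧ (q = outF S b sg v x ∨ q = side (outF S b sg v x)) := by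
  obtain ⟨x, hx, h⟩ := cf_cover S hb v q hq
  refine ⟨x, hx, ?_⟩
  unfold outF
  split_ifs
  · rw [side_side]
    exact h.symm
  · exact h

private theorem outF_inj (S : GMap G) {b : V → Flag G} (hb : IsBase b) (sg : V → ℕ → Bool) (v : V) {x y : ℕ}
    (hx : x < (nb G v).card) (hy : y < (nb G v).card) (h : outF S b sg v x = outF S b sg v y) : x = y := by
  unfold outF at h
  split_ifs at h
  · have h2 := congrArg side h
    rw [side_side, side_side] at h2
    exact cf_inj S hb v hx hy h2
  · exact (cf_ne_side S b v y x h.symm).elim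
  · exact (cf_ne_side S b v x y h).elim
  · exact cf_inj S hb v hx hy h

private theorem outF_ne (S : GMap G) {b : V → Flag G} (hb : IsBase b) (sg : V → ℕ → Bool) (v : V) {x y : ℕ}
    (hx : x < (nb G v).card) (hy : y < (nb G v).card) : outF S b sg v x ≠ side (outF S b sg v y) := by
  intro h
  unfold outF at h
  split_ifs at h with h1 h2 h2
  · rw [side_side] at h
    exact cf_ne_side S b v y x h.symm
  · have h3 := congrArg side h
    rw [side_side, side_side] at h3
    have h4 := cf_inj S hb v hx hy h3
    rw [h4] at h1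
    exact h2 h1
  · rw [side_side] at h
    have h4 := cf_inj S hb v hx hy h
    rw [h4] at h1
    exact h1 h2
  · exact cf_ne_side S b v x y h

private theorem pos_surj {pos : V → ℕ → ℕ} (hp : PS G pos) (v : V) (n : ℕ) (hn : n < (nb G v).card) :
    ∃ x, x < (nb G v).card ∧ pos v x = n := by
  have h1 : (range (nb G v).card).image (pos v) = range (nb G v).card := by
    apply Finset.eq_of_subset_of_card_le
    · intro y hy
      obtain ⟨x, hx, rfl⟩ := Finset.mem_image.1 hy
      exact mem_range.2 (hp.lt v x (mem_range.1 hx))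
    · rw [Finset.card_image_of_injOn]
      intro x hx y hy hxy
      exact hp.inj v x y (mem_range.1 hx) (mem_range.1 hy) hxy
  have h2 : n ∈ (range (nb G v).card).image (pos v) := by
    rw [h1]
    exact mem_range.2 hn
  obtain ⟨x, hx, hxn⟩ := Finset.mem_image.1 h2
  exact ⟨x, mem_range.1 hx, hxn⟩

private theorem succ_mod_inj {d a b : ℕ} (ha : a < d) (hb : b < d) (h : (a + 1) % d = (b + 1) % d) : a = b := by
  have h1 : a + 1 ≡ b + 1 [MOD d] := h
  have h2 : a ≡ b [MOD d] := Nat.ModEq.add_right_cancel' 1 h1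
  have h3 : a % d = b % d := h2
  rwa [Nat.mod_eq_of_lt ha, Nat.mod_eq_of_lt hb] at h3

private theorem exists_sc {pos : V → ℕ → ℕ} (hp : PS G pos) :
    ∃ sc : V → ℕ → ℕ, ∀ v x, x < (nb G v).card → sc v x < (nb G v).card ∧
      pos v (sc v x) = (pos v x + 1) % (nb G v).card := by
  have h : ∀ v x, ∃ y, x < (nb G v).card → y < (nb G v).card ∧ pos v y = (pos v x + 1) % (nb G v).card := by
    intro v x
    by_cases hx : x < (nb G v).card
    · obtain ⟨y, hy, h⟩ := pos_surj hp v ((pos v x + 1) % (nb G v).card) (Nat.mod_lt _ (by omega))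
      exact ⟨y, fun _ => ⟨hy, h⟩⟩
    · exact ⟨0, fun h => (hx h).elim⟩
  choose sc hsc using h
  exact ⟨sc, hsc⟩

private theorem exists_pr {pos : V → ℕ → ℕ} (hp : PS G pos) :
    ∃ pr : V → ℕ → ℕ, ∀ v y, y < (nb G v).card → pr v y < (nb G v).card ∧
      pos v y = (pos v (pr v y) + 1) % (nb G v).card := by
  have h : ∀ v y, ∃ x, y < (nb G v).card → x < (nb G v).card ∧ pos v y = (pos v x + 1) % (nb G v).card := by
    intro v y
    by_cases hy : y < (nb G v).card
    · have hlt := hp.lt v y hy
      by_cases h0 : pos v y = 0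
      · obtain ⟨x, hx, h⟩ := pos_surj hp v ((nb G v).card - 1) (by omega)
        refine ⟨x, fun _ => ⟨hx, ?_⟩⟩
        rw [h, h0, Nat.sub_add_cancel (by omega), Nat.mod_self]
      · obtain ⟨x, hx, h⟩ := pos_surj hp v (pos v y - 1) (by omega)
        refine ⟨x, fun _ => ⟨hx, ?_⟩⟩
        rw [h, Nat.sub_add_cancel (by omega), Nat.mod_eq_of_lt hlt]
    · exact ⟨0, fun h => (hy h).elim⟩
  choose pr hpr using h
  exact ⟨pr, hpr⟩

theorem exists_mk (S : GMap G) (b : V → Flag G) (hb : IsBase b) (pos : V → ℕ → ℕ) (hp : PS G pos)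
    (sg : V → ℕ → Bool) : ∃ T : GMap G, IsMk S b pos sg T := by
  obtain ⟨sc, hsc⟩ := exists_sc hp
  obtain ⟨pr, hpr⟩ := exists_pr hp
  have scpr : ∀ v y, y < (nb G v).card → sc v (pr v y) = y := by
    intro v y hy
    obtain ⟨h1, h2⟩ := hpr v y hy
    obtain ⟨h3, h4⟩ := hsc v _ h1
    exact hp.inj v _ _ h3 hy (h4.trans h2.symm)
  have prsc : ∀ v x, x < (nb G v).card → pr v (sc v x) = x := by
    intro v x hx
    obtain ⟨h1, h2⟩ := hsc v x hx
    obtain ⟨h3, h4⟩ := hpr v _ h1
    exact hp.inj v _ _ h3 hx (succ_mod_inj (hp.lt v _ h3) (hp.lt v _ hx) (h4.symm.trans h2))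
  have hcov : ∀ q : Flag G, ∃ x, x < (nb G q.1.fst).card ∧
      (q = outF S b sg q.1.fst x ∨ q = side (outF S b sg q.1.fst x)) := fun q => outF_cover S hb sg _ q rfl
  choose ix hix using hcov
  obtain ⟨nx, hnx⟩ : ∃ nx : Flag G → Flag G, ∀ q, nx q = if q = outF S b sg q.1.fst (ix q) then
      side (outF S b sg q.1.fst (sc q.1.fst (ix q))) else outF S b sg q.1.fst (pr q.1.fst (ix q)) := ⟨_, fun _ => rfl⟩
  have nA : ∀ v x, x < (nb G v).card → nx (outF S b sg v x) = side (outF S b sg v (sc v x)) := by
    have key : ∀ (q : Flag G) (v : V) (x : ℕ), q.1.fst = v → x < (nb G v).card → q = outF S b sg v x →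
        nx q = side (outF S b sg v (sc v x)) := by
      intro q v x hv hx hq
      subst hv
      obtain ⟨h1, h2⟩ := hix q
      have h3 : q = outF S b sg q.1.fst (ix q) := by
        rcases h2 with h2 | h2
        · exact h2
        · exact (outF_ne S hb sg _ hx h1 (hq.symm.trans h2)).elim
      have h4 : x = ix q := outF_inj S hb sg _ hx h1 (hq.symm.trans h3)
      rw [hnx, if_pos h3, ← h4]
    intro v x hx
    exact key _ v x (outF_fst S hb sg v x) hx rfl
  have nB : ∀ v y, y < (nb G v).card → nx (side (outF S b sg v y)) = outF S b sg v (pr v y) := by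
    have key : ∀ (q : Flag G) (v : V) (y : ℕ), q.1.fst = v → y < (nb G v).card → q = side (outF S b sg v y) →
        nx q = outF S b sg v (pr v y) := by
      intro q v y hv hy hq
      subst hv
      obtain ⟨h1, h2⟩ := hix q
      have h0 : ¬ q = outF S b sg q.1.fst (ix q) := fun h => outF_ne S hb sg _ h1 hy (h.symm.trans hq)
      have h3 : q = side (outF S b sg q.1.fst (ix q)) := h2.resolve_left h0
      have h4 : y = ix q := by
        apply outF_inj S hb sg _ hy h1
        have h5 := congrArg side (hq.symm.trans h3)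
        rwa [side_side, side_side] at h5
      rw [hnx, if_neg h0, ← h4]
    intro v y hy
    exact key _ v y (by rw [side_fst, outF_fst S hb sg v y]) hy rfl
  have hnn : ∀ q, nx (nx q) = q := by
    intro q
    obtain ⟨x, hx, h | h⟩ := outF_cover S hb sg _ q rfl
    · rw [h, nA _ x hx, nB _ _ (hsc _ x hx).1, prsc _ x hx]
    · rw [h, nB _ x hx, nA _ _ (hpr _ x hx).1, scpr _ x hx]
  have hne : ∀ q, nx q ≠ q := by
    intro q
    obtain ⟨x, hx, h | h⟩ := outF_cover S hb sg _ q rfl
    · rw [h, nA _ x hx]
      exact fun h' => outF_ne S hb sg _ hx (hsc _ x hx).1 h'.symm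
    · rw [h, nB _ x hx]
      exact outF_ne S hb sg _ (hpr _ x hx).1 hx
  have hfs : ∀ q, (nx q).1.fst = q.1.fst := by
    intro q
    obtain ⟨x, hx, h | h⟩ := outF_cover S hb sg _ q rfl
    · have h1 : nx q = side (outF S b sg q.1.fst (sc q.1.fst x)) := by
        conv_lhs => rw [h]
        exact nA _ x hx
      rw [h1, side_fst, outF_fst S hb]
    · have h1 : nx q = outF S b sg q.1.fst (pr q.1.fst x) := by
        conv_lhs => rw [h]
        exact nB _ x hx
      rw [h1, outF_fst S hb]
  have hconn : ∀ p q : Flag G, p.1.fst = q.1.fst → Relation.EqvGen (fun x y => y = nx x ∨ y = side x) p q := by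
    intro p q hpq
    obtain ⟨v, hv⟩ : ∃ v, v = q.1.fst := ⟨_, rfl⟩
    rw [← hv] at hpq
    obtain ⟨x0, hx0, h0⟩ := pos_surj hp v 0 (deg_pos hb v)
    have hcl : ∀ n x, x < (nb G v).card → pos v x = n →
        Relation.EqvGen (fun x y => y = nx x ∨ y = side x) (outF S b sg v x) (outF S b sg v x0) := by
      intro n
      induction n with
      | zero =>
        intro x hx h
        rw [hp.inj v x x0 hx hx0 (h.trans h0.symm)]
        exact Relation.EqvGen.refl _
      | succ n ih =>
        intro x hx h
        obtain ⟨h1, h2⟩ := hpr v x hx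
        have h3 := hp.lt v _ h1
        have h4 : pos v (pr v x) = n := by
          rcases Nat.lt_or_ge (pos v (pr v x) + 1) (nb G v).card with h5 | h5
          · rw [Nat.mod_eq_of_lt h5] at h2
            omega
          · have h6 : pos v (pr v x) + 1 = (nb G v).card := by omega
            rw [h6, Nat.mod_self] at h2
            omega
        have h5 := ih (pr v x) h1 h4
        have h6 : nx (outF S b sg v (pr v x)) = side (outF S b sg v x) := by
          rw [nA v _ h1, scpr v x hx]
        have e1 : Relation.EqvGen (fun x y => y = nx x ∨ y = side x) (outF S b sg v x) (side (outF S b sg v x)) :=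
          Relation.EqvGen.rel _ _ (Or.inr rfl)
        have e2 : Relation.EqvGen (fun x y => y = nx x ∨ y = side x) (outF S b sg v (pr v x))
            (side (outF S b sg v x)) := Relation.EqvGen.rel _ _ (Or.inl h6.symm)
        exact e1.trans _ _ _ ((e2.symm _ _).trans _ _ _ h5)
    have hall : ∀ q : Flag G, q.1.fst = v →
        Relation.EqvGen (fun x y => y = nx x ∨ y = side x) q (outF S b sg v x0) := by
      intro q hq
      obtain ⟨x, hx, h | h⟩ := outF_cover S hb sg v q hq
      · rw [h]
        exact hcl _ x hx rfl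
      · have e1 : Relation.EqvGen (fun x y => y = nx x ∨ y = side x) (outF S b sg v x)
            (side (outF S b sg v x)) := Relation.EqvGen.rel _ _ (Or.inr rfl)
        rw [h]
        exact (e1.symm _ _).trans _ _ _ (hcl _ x hx rfl)
    exact (hall p hpq).trans _ _ _ ((hall q hv.symm).symm _ _)
  refine ⟨⟨nx, hnn, hne, hfs, hconn⟩, ?_⟩
  intro v x y hx hy h
  show nx (outF S b sg v x) = side (outF S b sg v y)
  obtain ⟨h1, h2⟩ := hsc v x hx
  rw [nA v x hx, hp.inj v _ _ h1 hy (h2.trans h.symm)]

theorem isMk_unique (S : GMap G) (b : V → Flag G) (hb : IsBase b) (pos : V → ℕ → ℕ) (hp : PS G pos)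
    (sg : V → ℕ → Bool) (T T' : GMap G) (h : IsMk S b pos sg T) (h' : IsMk S b pos sg T') : T = T' := by
  have key : ∀ q, T.nxt q = T'.nxt q := by
    intro q
    obtain ⟨x, hx, hq | hq⟩ := outF_cover S hb sg _ q rfl
    · obtain ⟨sc, hsc⟩ := exists_sc hp
      obtain ⟨h1, h2⟩ := hsc q.1.fst x hx
      rw [hq, h _ x _ hx h1 h2, h' _ x _ hx h1 h2]
    · obtain ⟨pr, hpr⟩ := exists_pr hp
      obtain ⟨h1, h2⟩ := hpr q.1.fst x hx
      rw [hq]
      have e1 := h _ _ x h1 hx h2
      have e2 := h' _ _ x h1 hx h2
      have e3 : T.nxt (side (outF S b sg q.1.fst x)) = outF S b sg q.1.fst (pr q.1.fst x) := by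
        rw [← e1, T.nxt_nxt]
      have e4 : T'.nxt (side (outF S b sg q.1.fst x)) = outF S b sg q.1.fst (pr q.1.fst x) := by
        rw [← e2, T'.nxt_nxt]
      rw [e3, e4]
  have k2 : T.nxt = T'.nxt := funext key
  obtain ⟨n1, a1, a2, a3, a4⟩ := T
  obtain ⟨n2, b1, b2, b3, b4⟩ := T'
  simp only at k2
  subst k2
  rfl

/-- the map with the positions `pos` and the signs `sg` -/
noncomputable def mkT (S : GMap G) (b : V → Flag G) (hb : IsBase b) (pos : V → ℕ → ℕ) (hp : PS G pos)
    (sg : V → ℕ → Bool) : GMap G := Classical.choose (exists_mk S b hb pos hp sg)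

theorem mkT_isMk (S : GMap G) (b : V → Flag G) (hb : IsBase b) (pos : V → ℕ → ℕ) (hp : PS G pos)
    (sg : V → ℕ → Bool) : IsMk S b pos sg (mkT S b hb pos hp sg) := Classical.choose_spec (exists_mk S b hb pos hp sg)

theorem mkT_nxt (S : GMap G) (b : V → Flag G) (hb : IsBase b) (pos : V → ℕ → ℕ) (hp : PS G pos)
    (sg : V → ℕ → Bool) (v : V) (x y : ℕ) (hx : x < (nb G v).card) (hy : y < (nb G v).card)
    (h : pos v y = (pos v x + 1) % (nb G v).card) :
    (mkT S b hb pos hp sg).nxt (outF S b sg v x) = side (outF S b sg v y) :=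
  mkT_isMk S b hb pos hp sg v x y hx hy h

theorem eq_mkT (S : GMap G) (b : V → Flag G) (hb : IsBase b) (pos : V → ℕ → ℕ) (hp : PS G pos)
    (sg : V → ℕ → Bool) (T : GMap G) (h : IsMk S b pos sg T) : T = mkT S b hb pos hp sg :=
  isMk_unique S b hb pos hp sg _ _ h (mkT_isMk S b hb pos hp sg)

end Pool.Agent.EPH
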