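import Pool.Agent.EPH.ACor
import Pool.Agent.EPH.AFpA
import Pool.Agent.EPH.LMain

/-!
# EPH-AMain: the orientable genus of polyhedral maps in polynomial time
-/

set_option autoImplicit false

open Finset
open scoped Classical

namespace Pool.Agent.EPH

open Pool.Agent.BEO
open Pool.Agent.Helper35.OG hiding F2 dg
open N68a2faeb

theorem algC_correct (k : ℕ) : ∃ T : ℕ, ∀ (n : ℕ) (G : SimpleGraph (Fin n)), G.Connected → 2 ≤ n →
    ∀ S : GMap G, S.eg = k → Poly S → ∀ l : Inp, Codes S l → algC k T l = orientableGenus G := by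
  obtain ⟨T, hT⟩ := exists_optW k
  refine ⟨T, fun n G hG hn S hk hP l hl => ?_⟩
  have hnt : Nontrivial (Fin n) := Fin.nontrivial_iff_two_le.2 hn
  obtain ⟨b, hb, hbc⟩ := exists_base hl hG hn
  refine algC_core hl hG hn hb hbc k T (mkSys S hG k hk hP b hb) (fun v => rfl) (fun v i _ => rfl)
    (fun v i => rfl) (fun W hc => hT _ _ _ _ W hc) (fun pos sg hp => exists_mk S b hb pos hp sg)
    (fun lam h => ps_of_real S hP b hb lam h) (fun lam M h hM => frm_of_ps S hG k hk hP b hb lam h M hM)
    (fun M => ?_)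
  obtain ⟨lam, h1, -, -, h2⟩ := real_of_map S hG k hk hP b hb M
  exact ⟨lam, h1, h2⟩

/-- For every `k` the orientable genus of a connected graph with a polyhedral map of Euler genus `k`, given by such a
map, is computed in polynomial time. -/
theorem main (k : ℕ) : ∃ f : Inp → ℕ, IsPolyTime f ∧ ∀ (n : ℕ) (G : SimpleGraph (Fin n)), G.Connected → 2 ≤ n →
    ∀ S : GMap G, S.eg = k → Poly S → ∀ l : Inp, Codes S l → f l = orientableGenus G := by
  obtain ⟨T, hT⟩ := algC_correct k
  exact ⟨algC k T, fp_algC k T, hT⟩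

end Pool.Agent.EPH
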