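import Pool.Agent.EPH.AAlg

/-!
# EPH-AOrb: the rotation as a list

PLAN. By induction on `k`: `ost^[k] ((l, (i, p)), acc) = ((l, (i + k, (rtc l)^[k] p)), acc ++ (List.range k).map
fun j => (i + j, (rtc l)^[j] p))` (`Function.iterate_succ_apply'`, `List.range_succ`).
-/

set_option autoImplicit false

namespace Pool.Agent.EPH

open Pool.Agent.BEO

/-- the state after `k` steps -/
theorem ost_iter (l : Inp) (p : Pt) (k : ℕ) : ost^[k] ((l, (0, p)), []) =
    ((l, (k, (rtc l)^[k] p)), (List.range k).map fun j => (j, (rtc l)^[j] p)) := by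
  induction k with
  | zero => rfl
  | succ k ih =>
    rw [Function.iterate_succ_apply', ih, Function.iterate_succ_apply', List.range_succ, List.map_append]
    rfl

theorem orb_eq (l : Inp) (m : List Pt) (p : Pt) :
    orb l m p = (List.range m.length).map fun i => (i, (rtc l)^[i] p) := by
  unfold orb
  rw [ost_iter]

end Pool.Agent.EPH
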