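import Pool.Agent.EPH.AAlg
import Pool.Agent.BEO.BfsS
import Pool.Agent.BEO.DWB

/-!
# EPH-AWlk: the canonical walks are complete

`s`, `t` the ends of the elements of `E`, `φ` and `ce` their codes.

PLAN. As BEO/WlkS (`wlk_complete`), which is the special case of the flags: the state of a walk `u` ending at `F` is
`(φ F, (lbX k lab u, decide (u.length % 2 = 1)))`. Walks are walks of `arX k A` (induction on `DW`, `AW.snoc`), walks
of `arX k A` starting with an element of `inX A x` are walks (induction on `AW`, `DW.snoc`); `bfs_complete`,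
`bfs_sound`. The labels are in `bvs k` (`mem_tup`). `xo (List.replicate k false) v = v` for `v.length = k`.
`lbX_map`: induction on `w` from the right.
-/

set_option autoImplicit false

namespace Pool.Agent.EPH

open Pool.Agent.BEO

/-- the sum of the labels of a list -/
def lbX {E : Type} (k : ℕ) (lab : E → List Bool) (w : List E) : List Bool :=
  w.foldl (fun v e => xo v (lab e)) (List.replicate k false)

private theorem aw_rep (v : List Bool) : ∀ k, v.length = k → xo (List.replicate k false) v = v := by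
  intro k hk
  subst hk
  induction v with
  | nil => rfl
  | cons a v ih =>
    rw [List.length_cons, List.replicate_succ]
    unfold xo at ih ⊢
    rw [List.zipWith_cons_cons, ih, Bool.false_xor]

private theorem aw_snoc {E : Type} (k : ℕ) (lab : E → List Bool) (w : List E) (e : E) :
    lbX k lab (w ++ [e]) = xo (lbX k lab w) (lab e) := by
  unfold lbX
  rw [List.foldl_append]
  rfl

private theorem aw_len {E : Type} (k : ℕ) (lab : E → List Bool) (hk : ∀ e, (lab e).length = k) (w : List E) :
    (lbX k lab w).length = k := by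
  induction w using List.reverseRecOn with
  | nil => exact List.length_replicate
  | append_singleton w e ih =>
    rw [aw_snoc]
    unfold xo
    rw [List.length_zipWith, ih, hk, min_self]

private theorem aw_bvs {E : Type} (k : ℕ) (lab : E → List Bool) (hk : ∀ e, (lab e).length = k) (w : List E) :
    lbX k lab w ∈ bvs k := by
  unfold bvs
  rw [mem_tup]
  refine ⟨aw_len k lab hk w, fun x _ => ?_⟩
  cases x <;> simp

private theorem aw_single {E : Type} (k : ℕ) (lab : E → List Bool) (hk : ∀ e, (lab e).length = k) (e : E) :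
    lbX k lab [e] = lab e :=
  aw_rep _ _ (hk e)

theorem lbX_map {E I : Type} (es : List I) (f : I → E → Bool) (w : List E) :
    lbX es.length (fun e => es.map fun x => f x e) w = es.map fun x => (w.map (f x)).foldl xor false := by
  induction w using List.reverseRecOn with
  | nil =>
    change List.replicate es.length false = es.map fun _ => false
    rw [List.map_const']
  | append_singleton w e ih =>
    rw [aw_snoc, ih]
    unfold xo
    rw [List.zipWith_map, List.zipWith_self]
    refine List.map_congr_left fun x _ => ?_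
    rw [List.map_append, List.foldl_append]
    rfl

/-- the state of a walk -/
private def aw_st {Φ E X : Type} (φ : Φ → X) (lab : E → List Bool) (k : ℕ) (F : Φ) (u : List E) :
    X × (List Bool × Bool) := (φ F, (lbX k lab u, decide (u.length % 2 = 1)))

private theorem aw_st_snoc {Φ E X : Type} (φ : Φ → X) (lab : E → List Bool) (k : ℕ) (F : Φ) (u : List E) (e : E) :
    aw_st φ lab k F (u ++ [e]) = (φ F, (xo (lbX k lab u) (lab e), !decide (u.length % 2 = 1))) := by
  unfold aw_st
  rw [aw_snoc, List.length_append, List.length_singleton]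
  have h : decide ((u.length + 1) % 2 = 1) = !decide (u.length % 2 = 1) := by
    by_cases h1 : u.length % 2 = 1
    · have h2 : ¬ (u.length + 1) % 2 = 1 := by omega
      rw [decide_eq_true h1, decide_eq_false h2]
      rfl
    · have h2 : (u.length + 1) % 2 = 1 := by omega
      rw [decide_eq_false h1, decide_eq_true h2]
      rfl
  rw [h]

/-- an arc -/
private theorem aw_arc {Φ E X C : Type} (φ : Φ → X) (s t : E → Φ) (ce : E → C) (lab : E → List Bool) (k : ℕ)
    (hk : ∀ e, (lab e).length = k) (A : List ((X × X) × (C × List Bool)))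
    (hA : ∀ x, x ∈ A ↔ ∃ e, x = ((φ (s e), φ (t e)), (ce e, lab e)) ∨ x = ((φ (t e), φ (s e)), (ce e, lab e)))
    (F G : Φ) (e : E) (he : (s e = F ∧ t e = G) ∨ (s e = G ∧ t e = F)) (u : List E) :
    ((aw_st φ lab k F u, aw_st φ lab k G (u ++ [e])), ce e) ∈ arX k A := by
  unfold arX
  rw [List.mem_flatMap]
  refine ⟨((φ F, φ G), (ce e, lab e)), ?_, ?_⟩
  · rw [hA]
    refine ⟨e, ?_⟩
    rcases he with ⟨h1, h2⟩ | ⟨h1, h2⟩
    · left
      rw [h1, h2]
    · right
      rw [h1, h2]
  · rw [List.mem_flatMap]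
    refine ⟨lbX k lab u, aw_bvs k lab hk u, ?_⟩
    rw [List.mem_map]
    refine ⟨decide (u.length % 2 = 1), ?_, ?_⟩
    · cases decide (u.length % 2 = 1) <;> simp
    · rw [aw_st_snoc]
      rfl

/-- walks are walks of `arX` -/
private theorem aw_aw {Φ E X C : Type} (φ : Φ → X) (s t : E → Φ) (ce : E → C) (lab : E → List Bool) (k : ℕ)
    (hk : ∀ e, (lab e).length = k) (A : List ((X × X) × (C × List Bool)))
    (hA : ∀ x, x ∈ A ↔ ∃ e, x = ((φ (s e), φ (t e)), (ce e, lab e)) ∨ x = ((φ (t e), φ (s e)), (ce e, lab e)))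
    {F F' : Φ} {w : List E} (hw : DW s t F F' w) :
    ∀ (u : List E) (x0 : X × (List Bool × Bool)) (l0 : List C), AW (arX k A) x0 (aw_st φ lab k F u) l0 →
      AW (arX k A) x0 (aw_st φ lab k F' (u ++ w)) (l0 ++ w.map ce) := by
  induction hw with
  | nil F =>
    intro u x0 l0 h
    rw [List.append_nil, List.map_nil, List.append_nil]
    exact h
  | cons F G H e w1 he _ ih =>
    intro u x0 l0 h
    have h2 := AW.snoc _ _ _ _ _ h (aw_arc φ s t ce lab k hk A hA F G e he u)
    have h3 := ih (u ++ [e]) x0 (l0 ++ [ce e]) h2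
    rw [List.append_assoc, List.append_assoc] at h3
    exact h3

/-- walks of `arX` are walks -/
private theorem aw_dw {Φ E X C : Type} (φ : Φ → X) (hφ : ∀ F F', φ F = φ F' → F = F') (s t : E → Φ)
    (ce : E → C) (lab : E → List Bool) (k : ℕ) (A : List ((X × X) × (C × List Bool)))
    (hA : ∀ x, x ∈ A ↔ ∃ e, x = ((φ (s e), φ (t e)), (ce e, lab e)) ∨ x = ((φ (t e), φ (s e)), (ce e, lab e)))
    (F : Φ) (u : List E) {x y : X × (List Bool × Bool)} {l1 : List C} (h : AW (arX k A) x y l1) :
    x = aw_st φ lab k F u → ∃ (w1 : List E) (F2 : Φ), l1 = w1.map ce ∧ DW s t F F2 w1 ∧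
      y = aw_st φ lab k F2 (u ++ w1) := by
  induction h with
  | nil =>
    intro hx
    refine ⟨[], F, rfl, DW.nil _, ?_⟩
    rw [List.append_nil]
    exact hx
  | snoc y z i l0 _ hi ih =>
    intro hx
    obtain ⟨w1, F2, e1, hD, hy⟩ := ih hx
    unfold arX at hi
    rw [List.mem_flatMap] at hi
    obtain ⟨a, ha, hi⟩ := hi
    rw [List.mem_flatMap] at hi
    obtain ⟨v, -, hi⟩ := hi
    rw [List.mem_map] at hi
    obtain ⟨b, -, hi⟩ := hi
    have h1 : (a.1.1, (v, b)) = y := congrArg (fun t => t.1.1) hi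
    have h2 : (a.1.2, (xo v a.2.2, !b)) = z := congrArg (fun t => t.1.2) hi
    have h3 : a.2.1 = i := congrArg (fun t => t.2) hi
    rw [hy] at h1
    have h4 : a.1.1 = φ F2 := congrArg (fun t => t.1) h1
    have h5 : v = lbX k lab (u ++ w1) := congrArg (fun t => t.2.1) h1
    have h6 : b = decide ((u ++ w1).length % 2 = 1) := congrArg (fun t => t.2.2) h1
    have key : ∃ (e : E) (G : Φ), ((s e = F2 ∧ t e = G) ∨ (s e = G ∧ t e = F2)) ∧ a.1.2 = φ G ∧
        a.2.1 = ce e ∧ a.2.2 = lab e := by
      obtain ⟨e, he | he⟩ := (hA a).1 ha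
      · rw [he] at h4 ⊢
        exact ⟨e, t e, Or.inl ⟨hφ _ _ h4, rfl⟩, rfl, rfl, rfl⟩
      · rw [he] at h4 ⊢
        exact ⟨e, s e, Or.inr ⟨rfl, hφ _ _ h4⟩, rfl, rfl, rfl⟩
    obtain ⟨e, G, he, k1, k2, k3⟩ := key
    refine ⟨w1 ++ [e], G, ?_, hD.snoc he, ?_⟩
    · rw [List.map_append, ← e1, ← h3, k2]
      rfl
    · rw [← List.append_assoc, aw_st_snoc, ← h5, ← h6, ← k1, ← k3, h2]

theorem wkX_complete {Φ E X C : Type} [DecidableEq X] (φ : Φ → X) (hφ : ∀ F F', φ F = φ F' → F = F') (s t : E → Φ)
    (ce : E → C) (lab : E → List Bool) (k : ℕ) (hk : ∀ e, (lab e).length = k) (A : List ((X × X) × (C × List Bool)))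
    (hA : ∀ x, x ∈ A ↔ ∃ e, x = ((φ (s e), φ (t e)), (ce e, lab e)) ∨ x = ((φ (t e), φ (s e)), (ce e, lab e)))
    (F F' : Φ) (w : List E) (hw : DW s t F F' w) (hne : w ≠ []) :
    ∃ w' : List E, w'.map ce ∈ wkX k A ∧ w' ≠ [] ∧ w'.length ≤ w.length ∧ (w'.length + w.length) % 2 = 0 ∧
      DW s t F F' w' ∧ lbX k lab w' = lbX k lab w := by
  cases hw with
  | nil => exact absurd rfl hne
  | cons _ G1 _ e rest he hrest =>
    have hst : aw_st φ lab k G1 [e] = (φ G1, (lab e, true)) := by
      unfold aw_st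
      rw [aw_single k lab hk]
      rfl
    have hAe : ((φ F, φ G1), (ce e, lab e)) ∈ A := by
      rw [hA]
      refine ⟨e, ?_⟩
      rcases he with ⟨h1, h2⟩ | ⟨h1, h2⟩
      · left
        rw [h1, h2]
      · right
        rw [h1, h2]
    have hin : (aw_st φ lab k G1 [e], [ce e]) ∈ inX A (φ F) := by
      unfold inX
      rw [List.mem_map]
      refine ⟨((φ F, φ G1), (ce e, lab e)), ?_, ?_⟩
      · rw [List.mem_filter]
        exact ⟨hAe, decide_eq_true rfl⟩
      · rw [hst]
    have hL : ∀ x ∈ inX A (φ F), x.2.length = 1 := by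
      intro x hx
      unfold inX at hx
      rw [List.mem_map] at hx
      obtain ⟨a, -, ha⟩ := hx
      rw [← ha]
      rfl
    have hAW := aw_aw φ s t ce lab k hk A hA hrest [e] (aw_st φ lab k G1 [e]) [] (AW.nil _)
    rw [List.nil_append] at hAW
    obtain ⟨l', hl', hlen⟩ := bfs_complete (arX k A) (inX A (φ F)) 1 hL _ _ _ _ hin hAW
    obtain ⟨x, l0', l1', hx, hA1, hl1⟩ := bfs_sound _ _ _ _ hl'
    unfold inX at hx
    rw [List.mem_map] at hx
    obtain ⟨a, ha, hax⟩ := hx
    rw [List.mem_filter] at ha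
    have ha1 : a.1.1 = φ F := of_decide_eq_true ha.2
    have key : ∃ (r : E) (G : Φ), ((s r = F ∧ t r = G) ∨ (s r = G ∧ t r = F)) ∧ a.1.2 = φ G ∧
        a.2.1 = ce r ∧ a.2.2 = lab r := by
      obtain ⟨r, hr | hr⟩ := (hA a).1 ha.1
      · rw [hr] at ha1 ⊢
        exact ⟨r, t r, Or.inl ⟨hφ _ _ ha1, rfl⟩, rfl, rfl, rfl⟩
      · rw [hr] at ha1 ⊢
        exact ⟨r, s r, Or.inr ⟨rfl, hφ _ _ ha1⟩, rfl, rfl, rfl⟩
    obtain ⟨r, G, hr, k1, k2, k3⟩ := key
    have hx1 : x = aw_st φ lab k G [r] := by
      have h1 : (a.1.2, (a.2.2, true)) = x := congrArg Prod.fst hax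
      rw [← h1, k1, k3]
      unfold aw_st
      rw [aw_single k lab hk]
      rfl
    have hl0 : [ce r] = l0' := by
      rw [← k2]
      exact congrArg Prod.snd hax
    obtain ⟨w1, F2, e1, hD, hy⟩ := aw_dw φ hφ s t ce lab k A hA G [r] hA1 hx1
    have hmap : (r :: w1).map ce = l' := by
      rw [hl1, ← hl0, e1]
      rfl
    have h4 : φ F' = φ F2 := congrArg (fun t => t.1) hy
    have h5 : lbX k lab ([e] ++ rest) = lbX k lab ([r] ++ w1) := congrArg (fun t => t.2.1) hy
    have h6 : decide (([e] ++ rest).length % 2 = 1) = decide (([r] ++ w1).length % 2 = 1) :=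
      congrArg (fun t => t.2.2) hy
    have h7 : F' = F2 := hφ _ _ h4
    refine ⟨r :: w1, ?_, List.cons_ne_nil _ _, ?_, ?_, ?_, ?_⟩
    · rw [hmap]
      unfold wkX
      rw [List.mem_flatMap]
      refine ⟨((φ F, φ G1), (ce e, lab e)), hAe, ?_⟩
      rw [List.mem_map]
      exact ⟨_, hl', rfl⟩
    · have h8 : (r :: w1).length = l'.length := by
        rw [← hmap, List.length_map]
      rw [h8, List.length_cons]
      rw [List.length_map] at hlen
      omega
    · have h8 : ([e] ++ rest).length % 2 = 1 ↔ ([r] ++ w1).length % 2 = 1 := by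
        rw [← decide_eq_true_iff (p := ([e] ++ rest).length % 2 = 1), h6, decide_eq_true_iff]
      have h9 : ([e] ++ rest).length = (e :: rest).length := rfl
      have h10 : ([r] ++ w1).length = (r :: w1).length := rfl
      rw [h9, h10] at h8
      omega
    · rw [h7]
      exact DW.cons _ _ _ _ _ hr hD
    · exact h5.symm

end Pool.Agent.EPH
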