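import Pool.Agent.EPH.CJump
import Pool.Agent.EPH.CBase

/-!
# EPH-CBallB: a bounded set meeting all jumps

The balls of radius 7 around the ends of a maximal family of separated jumps.
-/

set_option autoImplicit false

open Finset
open scoped Classical

namespace Pool.Agent.EPH

open Pool.Agent.BEO hiding Cfg Frame

theorem exists_B (k : ℕ) : ∃ C : ℕ, ∀ (V Q : Type) [Fintype V] [AddCommGroup Q] [Module F2 Q] (c : Cfg k V Q),
    ∃ B : Finset V, B.card ≤ C ∧ ∀ u v, u ∈ vs c.M → v ∈ vs c.M → u ∉ B → v ∉ B →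
      ∀ w : c.R.Walk u v, w.length ≤ 6 → Near c.M w.length u v := by
  refine ⟨2 * (27 * k) * (2 * k + 3) ^ 7, ?_⟩
  intro V Q _ _ _ c
  have hmax : ∃ m, m ≤ 27 * k ∧ (∃ J : Fin m → Jmp c, ∀ i j, i ≠ j → (J i).Sep (J j)) ∧
      ¬ ∃ J : Fin (m + 1) → Jmp c, ∀ i j, i ≠ j → (J i).Sep (J j) := by
    by_contra hcon
    have h1 : ∀ m, m ≤ 27 * k + 1 → ∃ J : Fin m → Jmp c, ∀ i j, i ≠ j → (J i).Sep (J j) := by
      intro m
      induction m with
      | zero => exact fun _ => ⟨fun i => i.elim0, fun i => i.elim0⟩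
      | succ m ih =>
        intro hm
        by_contra h
        exact hcon ⟨m, by omega, ih (by omega), h⟩
    obtain ⟨J, hJ⟩ := h1 (27 * k + 1) le_rfl
    exact no_family c J hJ
  obtain ⟨m, hm, ⟨J, hJ⟩, hno⟩ := hmax
  obtain ⟨B, hB⟩ : ∃ B : Finset V, B = univ.biUnion fun i : Fin m =>
      (univ.filter fun v => Near c.M 7 (J i).p v) ∪ (univ.filter fun v => Near c.M 7 (J i).q v) := ⟨_, rfl⟩
  have hmem : ∀ v, v ∉ B → ∀ i, ¬ Near c.M 7 (J i).p v ∧ ¬ Near c.M 7 (J i).q v := by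
    intro v hv i
    constructor
    · intro h
      apply hv
      rw [hB, mem_biUnion]
      exact ⟨i, mem_univ i, mem_union_left _ (mem_filter.2 ⟨mem_univ v, h⟩)⟩
    · intro h
      apply hv
      rw [hB, mem_biUnion]
      exact ⟨i, mem_univ i, mem_union_right _ (mem_filter.2 ⟨mem_univ v, h⟩)⟩
  refine ⟨B, ?_, ?_⟩
  · have hball : ∀ u : V, (univ.filter fun v => Near c.M 7 u v).card ≤ (2 * k + 3) ^ 7 := fun u =>
      card_ball (d := 2 * k + 2) (deg_le c) 7 u
    have h1 : B.card ≤ (univ : Finset (Fin m)).card * (2 * (2 * k + 3) ^ 7) := by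
      rw [hB]
      refine card_biUnion_le_card_mul _ _ _ fun i _ => (card_union_le _ _).trans ?_
      have h2 := hball (J i).p
      have h3 := hball (J i).q
      omega
    rw [card_univ, Fintype.card_fin] at h1
    refine h1.trans ?_
    calc m * (2 * (2 * k + 3) ^ 7) ≤ 27 * k * (2 * (2 * k + 3) ^ 7) := Nat.mul_le_mul_right _ hm
      _ = 2 * (27 * k) * (2 * k + 3) ^ 7 := by ring
  · intro u v hu hv huB hvB w hw
    by_contra hfar
    apply hno
    obtain ⟨s, hs⟩ : ∃ s : Jmp c, s = ⟨u, v, w, hw, hfar, hu, hv⟩ := ⟨_, rfl⟩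
    have hsp : s.p = u := by rw [hs]
    have hsq : s.q = v := by rw [hs]
    have hS1 : ∀ i, (J i).Sep s := by
      intro i
      unfold Jmp.Sep
      rw [hsp, hsq]
      exact ⟨(hmem u huB i).1, (hmem v hvB i).1, (hmem u huB i).2, (hmem v hvB i).2⟩
    have hS2 : ∀ i, s.Sep (J i) := by
      intro i
      obtain ⟨h1, h2, h3, h4⟩ := hS1 i
      exact ⟨fun h => h1 h.symm, fun h => h3 h.symm, fun h => h2 h.symm, fun h => h4 h.symm⟩
    refine ⟨Fin.cons s J, ?_⟩
    intro i j
    refine Fin.cases ?_ (fun i => ?_) i <;> refine Fin.cases ?_ (fun j => ?_) j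
    · intro h
      exact absurd rfl h
    · intro _
      rw [Fin.cons_zero, Fin.cons_succ]
      exact hS2 j
    · intro _
      rw [Fin.cons_zero, Fin.cons_succ]
      exact hS1 i
    · intro h
      rw [Fin.cons_succ, Fin.cons_succ]
      exact hJ i j fun h' => h (by rw [h'])

end Pool.Agent.EPH
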