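import Pool.Agent.EPH.CSeg
import Pool.Agent.EPH.CDeg
import Pool.Agent.EPH.CBase

/-!
# EPH-CKB: the space `K` is bounded
-/

set_option autoImplicit false

open Finset
open scoped Classical

namespace Pool.Agent.EPH

open Pool.Agent.BEO hiding Cfg Frame

variable {k C : ℕ} {V Q : Type} [Fintype V] [AddCommGroup Q] [Module F2 Q] {c : Cfg k V Q} (f : Frame C c)

private theorem adj_iff (j j' : Fin f.m) (l l' : ℕ) (h1 : 2 ≤ l) (h2 : l ≤ f.n j) (h3 : 2 ≤ l')
    (h4 : l' ≤ f.n j') :
    c.L.Adj (f.x j (l - 1)) (f.x j' l') ↔ j' = j ∧ (l' = l ∨ l' + 2 = l) := by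
  constructor
  · intro h
    obtain ⟨h5, h6⟩ := adj_inner f j j' (l - 1) l' (by omega) (by omega) (by omega) h4 h
    exact ⟨h5, by omega⟩
  · rintro ⟨rfl, h | h⟩
    · have h5 := adj_next f j' (l - 1) (by omega) (by omega)
      have h6 : l - 1 + 1 = l' := by omega
      rw [h6] at h5
      exact h5
    · have h5 := adj_next f j' l' (by omega) (by omega)
      have h6 : l' + 1 = l - 1 := by omega
      rw [h6] at h5
      exact h5.symm

private theorem ind (j : Fin f.m) (l : ℕ) (h1 : 2 ≤ l) (h2 : l ≤ f.n j) :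
    ∃ r ∈ rowSp c.L, ∀ (j' : Fin f.m) (l' : ℕ), 2 ≤ l' → l' ≤ f.n j' →
      r (f.x j' l') = if j' = j ∧ l' = l then 1 else 0 := by
  induction l using Nat.strong_induction_on with
  | _ l ih =>
    have hrow : row c.L (f.x j (l - 1)) ∈ rowSp c.L := Submodule.subset_span ⟨_, rfl⟩
    by_cases hl : 4 ≤ l
    · obtain ⟨r, hr, hr'⟩ := ih (l - 2) (by omega) (by omega) (by omega)
      refine ⟨row c.L (f.x j (l - 1)) + r, Submodule.add_mem _ hrow hr, ?_⟩
      intro j' l' h3 h4
      have h5 := adj_iff f j j' l l' h1 h2 h3 h4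
      rw [Pi.add_apply, hr' j' l' h3 h4, row]
      by_cases hj : j' = j
      · by_cases hl1 : l' = l
        · rw [if_pos (h5.2 ⟨hj, Or.inl hl1⟩), if_neg (by omega), if_pos ⟨hj, hl1⟩, add_zero]
        · by_cases hl2 : l' + 2 = l
          · rw [if_pos (h5.2 ⟨hj, Or.inr hl2⟩), if_pos ⟨hj, by omega⟩, if_neg (fun h => hl1 h.2)]
            decide
          · rw [if_neg (fun h => by rcases (h5.1 h).2 with h6 | h6 <;> contradiction),
              if_neg (by omega), if_neg (fun h => hl1 h.2), add_zero]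
      · rw [if_neg (fun h => hj (h5.1 h).1), if_neg (fun h => hj h.1), if_neg (fun h => hj h.1),
          add_zero]
    · refine ⟨row c.L (f.x j (l - 1)), hrow, ?_⟩
      intro j' l' h3 h4
      have h5 := adj_iff f j j' l l' h1 h2 h3 h4
      rw [row]
      by_cases h6 : j' = j ∧ l' = l
      · rw [if_pos h6, if_pos (h5.2 ⟨h6.1, Or.inl h6.2⟩)]
      · rw [if_neg h6, if_neg]
        intro h7
        obtain ⟨h8, h9⟩ := h5.1 h7
        rcases h9 with h9 | h9
        · exact h6 ⟨h8, h9⟩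
        · omega

private noncomputable def Xc : Finset V := univ.filter fun v => ∃ j l, 2 ≤ l ∧ l ≤ f.n j ∧ v = f.x j l

private noncomputable def res : rowSp c.L →ₗ[F2] ({v // v ∈ Xc f} → F2) :=
  (LinearMap.funLeft F2 F2 (Subtype.val : {v // v ∈ Xc f} → V)).domRestrict (rowSp c.L)

private theorem res_apply (r : rowSp c.L) (v : {v // v ∈ Xc f}) : res f r v = r.1 v.1 := rfl

private theorem res_surj : LinearMap.range (res f) = ⊤ := by
  rw [eq_top_iff, ← (Pi.basisFun F2 {v // v ∈ Xc f}).span_eq, Submodule.span_le]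
  rintro _ ⟨⟨v, hv⟩, rfl⟩
  have hv' := hv
  rw [Xc, mem_filter] at hv'
  obtain ⟨_, j, l, h1, h2, rfl⟩ := hv'
  obtain ⟨r, hr, hr'⟩ := ind f j l h1 h2
  refine ⟨⟨r, hr⟩, ?_⟩
  ext ⟨w, hw⟩
  have hw' := hw
  rw [Xc, mem_filter] at hw'
  obtain ⟨_, j', l', h3, h4, rfl⟩ := hw'
  rw [res_apply, Pi.basisFun_apply, Pi.single_apply]
  simp only [Subtype.mk.injEq]
  rw [hr' j' l' h3 h4]
  by_cases h5 : j' = j ∧ l' = l
  · rw [if_pos h5, if_pos (by rw [h5.1, h5.2])]
  · rw [if_neg h5, if_neg (fun h => h5 (f.inj j' l' j l (by omega) h4 (by omega) h2 h))]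

private theorem K_le : f.K ≤ rowSp c.L := fun _ h => h.1

private theorem ker_res : LinearMap.ker (res f) = f.K.comap (rowSp c.L).subtype := by
  ext ⟨r, hr⟩
  rw [LinearMap.mem_ker, Submodule.mem_comap]
  constructor
  · intro h
    refine ⟨hr, fun j l h1 h2 => ?_⟩
    have hv : f.x j l ∈ Xc f := by
      rw [Xc, mem_filter]
      exact ⟨mem_univ _, j, l, h1, h2, rfl⟩
    exact congrFun h ⟨f.x j l, hv⟩
  · intro h
    ext ⟨w, hw⟩
    have hw' := hw
    rw [Xc, mem_filter] at hw'
    obtain ⟨_, j, l, h1, h2, rfl⟩ := hw'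
    exact h.2 j l h1 h2

private theorem finrank_eq :
    (Xc f).card + Module.finrank F2 f.K = Module.finrank F2 (rowSp c.L) := by
  have h1 := LinearMap.finrank_range_add_finrank_ker (res f)
  rw [res_surj, ker_res, finrank_top, Module.finrank_fintype_fun_eq_card, Fintype.card_coe,
    LinearEquiv.finrank_eq (Submodule.comapSubtypeEquivOfLe (K_le f))] at h1
  exact h1

private theorem vs_card : (vs c.M).card ≤ C + (Xc f).card + C := by
  have h1 : vs c.M ⊆ (f.B ∪ Xc f) ∪ univ.image (fun j : Fin f.m => f.x j 1) := by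
    intro v hv
    rcases f.cov v hv with h | ⟨j, l, h1, h2, rfl⟩
    · exact mem_union_left _ (mem_union_left _ h)
    · by_cases hl : l = 1
      · subst hl
        exact mem_union_right _ (mem_image.mpr ⟨j, mem_univ _, rfl⟩)
      · refine mem_union_left _ (mem_union_right _ ?_)
        rw [Xc, mem_filter]
        exact ⟨mem_univ _, j, l, by omega, h2, rfl⟩
  have h2 := card_le_card h1
  have h3 := card_union_le (f.B ∪ Xc f) (univ.image (fun j : Fin f.m => f.x j 1))
  have h4 := card_union_le f.B (Xc f)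
  have h5 : (univ.image (fun j : Fin f.m => f.x j 1)).card ≤ f.m :=
    card_image_le.trans (by rw [card_univ, Fintype.card_fin])
  have h6 := f.hm
  have h7 := f.hB
  omega

theorem card_K : Nat.card f.K ≤ 2 ^ (2 * k + 2 * C) := by
  have h1 := finrank_eq f
  have h2 := c.rk
  have h3 := es_le c
  have h4 := vs_card f
  have h5 : Nat.card f.K = 2 ^ Module.finrank F2 f.K := by
    rw [Module.natCard_eq_pow_finrank (K := F2), Nat.card_eq_fintype_card, ZMod.card]
  rw [h5]
  exact Nat.pow_le_pow_right (by norm_num) (by omega)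

end Pool.Agent.EPH
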