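import Pool.Agent.EPH.CNbr
import Pool.Agent.EPH.CBase

/-!
# EPH-CTyp: a vertex outside `M` with a neighbour deep inside a segment has one of the four types

Let `a` be the smallest position of a neighbour; by `nbr_out` all positions are in `{a, a + 1, a + 2}`.
-/

set_option autoImplicit false

open Finset
open scoped Classical

namespace Pool.Agent.EPH

open Pool.Agent.BEO hiding Cfg Frame

variable {k C : ℕ} {V Q : Type} [Fintype V] [AddCommGroup Q] [Module F2 Q] {c : Cfg k V Q} (f : Frame C c)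

theorem exists_type (y : V) (hy : y ∉ vs c.M) (j : Fin f.m) (l : ℕ) (h1 : 20 ≤ l) (h2 : l + 20 ≤ f.n j)
    (h : c.L.Adj y (f.x j l)) : ∃ τ i, f.Tr τ j i y := by
  have hex : ∃ p, 1 ≤ p ∧ p ≤ f.n j ∧ c.L.Adj y (f.x j p) := ⟨l, by omega, by omega, h⟩
  obtain ⟨ha1, ha2, ha3⟩ := Nat.find_spec hex
  have hmin : ∀ p, 1 ≤ p → p ≤ f.n j → c.L.Adj y (f.x j p) → Nat.find hex ≤ p :=
    fun p hp1 hp2 hp => Nat.find_min' hex ⟨hp1, hp2, hp⟩
  generalize Nat.find hex = a at ha1 ha2 ha3 hmin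
  have hal : a ≤ l := hmin l (by omega) (by omega) h
  have hla : l ≤ a + 2 := (nbr_out f y hy j j l a (by omega) (by omega) ha1 ha2 h ha3).2.2
  have key : ∀ j' p, 1 ≤ p → p ≤ f.n j' → c.L.Adj y (f.x j' p) → j' = j ∧ a ≤ p ∧ p ≤ a + 2 := by
    intro j' p hp1 hp2 hp
    obtain ⟨e1, e2, e3⟩ := nbr_out f y hy j j' a p (by omega) (by omega) hp1 hp2 ha3 hp
    refine ⟨e1, ?_, e2⟩
    rw [e1] at hp2 hp
    exact hmin p hp1 hp2 hp
  by_cases p1 : c.L.Adj y (f.x j (a + 1)) <;> by_cases p2 : c.L.Adj y (f.x j (a + 2))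
  · refine ⟨3, a + 1, hy, by omega, by omega, fun j' p hp1 hp2 => ⟨fun hp => ?_, fun hp => ?_⟩⟩
    · obtain ⟨e1, e2, e3⟩ := key j' p hp1 hp2 hp
      refine ⟨e1, ?_⟩
      unfold Frame.Ty
      refine Or.inr (Or.inr (Or.inr ⟨rfl, ?_⟩))
      omega
    · obtain ⟨e1, e2⟩ := hp
      unfold Frame.Ty at e2
      rw [e1]
      rcases e2 with ⟨h0, _⟩ | ⟨h0, _⟩ | ⟨h0, _⟩ | ⟨_, e⟩
      · exact absurd h0 (by decide)
      · exact absurd h0 (by decide)
      · exact absurd h0 (by decide)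
      · rcases e with e | e | e
        · have : p = a := by omega
          rw [this]; exact ha3
        · rw [e]; exact p1
        · rw [e]; exact p2
  · refine ⟨1, a, hy, by omega, by omega, fun j' p hp1 hp2 => ⟨fun hp => ?_, fun hp => ?_⟩⟩
    · obtain ⟨e1, e2, e3⟩ := key j' p hp1 hp2 hp
      refine ⟨e1, ?_⟩
      unfold Frame.Ty
      refine Or.inr (Or.inl ⟨rfl, ?_⟩)
      have : p ≠ a + 2 := by
        intro e; rw [e1, e] at hp; exact p2 hp
      omega
    · obtain ⟨e1, e2⟩ := hp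
      unfold Frame.Ty at e2
      rw [e1]
      rcases e2 with ⟨h0, _⟩ | ⟨_, e⟩ | ⟨h0, _⟩ | ⟨h0, _⟩
      · exact absurd h0 (by decide)
      · rcases e with e | e
        · rw [e]; exact ha3
        · rw [e]; exact p1
      · exact absurd h0 (by decide)
      · exact absurd h0 (by decide)
  · refine ⟨2, a + 1, hy, by omega, by omega, fun j' p hp1 hp2 => ⟨fun hp => ?_, fun hp => ?_⟩⟩
    · obtain ⟨e1, e2, e3⟩ := key j' p hp1 hp2 hp
      refine ⟨e1, ?_⟩
      unfold Frame.Ty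
      refine Or.inr (Or.inr (Or.inl ⟨rfl, ?_⟩))
      have : p ≠ a + 1 := by
        intro e; rw [e1, e] at hp; exact p1 hp
      omega
    · obtain ⟨e1, e2⟩ := hp
      unfold Frame.Ty at e2
      rw [e1]
      rcases e2 with ⟨h0, _⟩ | ⟨h0, _⟩ | ⟨_, e⟩ | ⟨h0, _⟩
      · exact absurd h0 (by decide)
      · exact absurd h0 (by decide)
      · rcases e with e | e
        · have : p = a := by omega
          rw [this]; exact ha3
        · rw [e]; exact p2
      · exact absurd h0 (by decide)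
  · refine ⟨0, a, hy, by omega, by omega, fun j' p hp1 hp2 => ⟨fun hp => ?_, fun hp => ?_⟩⟩
    · obtain ⟨e1, e2, e3⟩ := key j' p hp1 hp2 hp
      refine ⟨e1, ?_⟩
      unfold Frame.Ty
      refine Or.inl ⟨rfl, ?_⟩
      have q1 : p ≠ a + 1 := by
        intro e; rw [e1, e] at hp; exact p1 hp
      have q2 : p ≠ a + 2 := by
        intro e; rw [e1, e] at hp; exact p2 hp
      omega
    · obtain ⟨e1, e2⟩ := hp
      unfold Frame.Ty at e2
      rw [e1]
      rcases e2 with ⟨_, e⟩ | ⟨h0, _⟩ | ⟨h0, _⟩ | ⟨h0, _⟩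
      · rw [e]; exact ha3
      · exact absurd h0 (by decide)
      · exact absurd h0 (by decide)
      · exact absurd h0 (by decide)

end Pool.Agent.EPH
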