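import Pool.Agent.EPH.CT1
import Pool.Agent.EPH.CT2
import Pool.Agent.EPH.CRvK
import Pool.Agent.EPH.CKB
import Pool.Agent.BEO.CntG

/-!
# EPH-DBad1: few positions which are not `Ok0`
-/

set_option autoImplicit false

open Finset
open scoped Classical

namespace Pool.Agent.EPH

open Pool.Agent.BEO hiding Cfg Frame

private theorem db_win {k C : ℕ} {V Q : Type} [Fintype V] [AddCommGroup Q] [Module F2 Q] {c : Cfg k V Q} (f : Frame C c)
    (S : Finset ℕ) (P : ℕ → V → Prop) (key : ℕ → V → (V → F2)) (hK : ∀ i y, P i y → key i y ∈ f.K)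
    (hS : ∀ i ∈ S, ∃ y, P i y) (hne : ∀ i y i' y', P i y → P i' y' → i + 40 ≤ i' → key i y ≠ key i' y') :
    S.card ≤ 2 ^ (2 * k + 2 * C) * 40 := by
  have : Fintype f.K := Fintype.ofFinite _
  have h1 := count_windows (A := f.K) S (fun i => if h : ∃ y, P i y then ⟨key i h.choose, hK i _ h.choose_spec⟩ else 0)
    (fun i => i) 1 ?_ ?_
  · refine h1.trans ?_
    rw [Nat.mul_one]
    refine Nat.mul_le_mul_right _ ?_
    rw [← Nat.card_eq_fintype_card]
    exact card_K f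
  · intro i hi i' hi' hk hw
    have e1 := hS i hi
    have e2 := hS i' hi'
    rw [dif_pos e1, dif_pos e2] at hk
    exact hne i _ i' _ e1.choose_spec e2.choose_spec hw (congrArg Subtype.val hk)
  · intro i
    refine card_le_one.2 ?_
    intro a ha b hb
    exact (mem_filter.1 ha).2.trans (mem_filter.1 hb).2.symm

private theorem db_B {k C : ℕ} {V Q : Type} [Fintype V] [AddCommGroup Q] [Module F2 Q] {c : Cfg k V Q} (f : Frame C c)
    (j : Fin f.m) (b : V) :
    ((range (f.n j + 1)).filter fun i => 25 ≤ i ∧ i + 25 ≤ f.n j ∧ c.L.Adj b (f.x j i)).card ≤ 5 := by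
  rcases ((range (f.n j + 1)).filter fun i => 25 ≤ i ∧ i + 25 ≤ f.n j ∧ c.L.Adj b (f.x j i)).eq_empty_or_nonempty with h | ⟨i0, h0⟩
  · rw [h]
    simp
  · have h1 : ((range (f.n j + 1)).filter fun i => 25 ≤ i ∧ i + 25 ≤ f.n j ∧ c.L.Adj b (f.x j i)) ⊆ Icc (i0 - 2) (i0 + 2) := by
      intro i hi
      obtain ⟨-, a1, a2, a3⟩ := mem_filter.1 hi
      obtain ⟨-, b1, b2, b3⟩ := mem_filter.1 h0
      obtain ⟨-, c1, c2⟩ := nbr_two f b j j i0 i (by omega) (by omega) (by omega) (by omega) b3 a3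
      rw [mem_Icc]
      omega
    refine (card_le_card h1).trans ?_
    rw [Nat.card_Icc]
    omega

theorem card_bad0 (k C : ℕ) : ∃ N1 : ℕ, ∀ (V Q : Type) [Fintype V] [AddCommGroup Q] [Module F2 Q] (c : Cfg k V Q)
    (f : Frame C c) (j : Fin f.m), ((range (f.n j + 1)).filter fun i => ¬ f.Ok0 j i).card ≤ N1 := by
  refine ⟨50 + C * 5 + 2 ^ (2 * k + 2 * C) * 40 + 2 ^ (2 * k + 2 * C) * 40, ?_⟩
  intro V Q _ _ _ c f j
  have hsub : ((range (f.n j + 1)).filter fun i => ¬ f.Ok0 j i) ⊆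
      ((range 25 ∪ Ioc (f.n j - 25) (f.n j)) ∪
        (f.B.biUnion fun b => (range (f.n j + 1)).filter fun i => 25 ≤ i ∧ i + 25 ≤ f.n j ∧ c.L.Adj b (f.x j i)) ∪
        ((range (f.n j + 1)).filter fun i => ∃ y, f.Tr 1 j i y)) ∪
        ((range (f.n j + 1)).filter fun i => ∃ y, f.Tr 2 j i y ∧ y ∉ f.tw j i) := by
    intro i hi
    obtain ⟨h1, h2⟩ := mem_filter.1 hi
    have h1' := mem_range.1 h1
    rw [mem_union, mem_union, mem_union, mem_union, mem_range, mem_Ioc, mem_biUnion, mem_filter, mem_filter]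
    by_contra hc
    apply h2
    have hc1 : ¬ i < 25 := fun h => hc (Or.inl (Or.inl (Or.inl (Or.inl h))))
    have hc2 : ¬ (f.n j - 25 < i ∧ i ≤ f.n j) := fun h => hc (Or.inl (Or.inl (Or.inl (Or.inr h))))
    refine ⟨by omega, by omega, ?_, ?_, ?_⟩
    · intro b hb hadj
      exact hc (Or.inl (Or.inl (Or.inr ⟨b, hb, mem_filter.2 ⟨h1, by omega, by omega, hadj⟩⟩)))
    · intro y hy
      exact hc (Or.inl (Or.inr ⟨h1, y, hy⟩))
    · intro y hy
      by_contra hn
      exact hc (Or.inr ⟨h1, y, hy, hn⟩)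
  have c1 : (range 25 ∪ Ioc (f.n j - 25) (f.n j)).card ≤ 50 := by
    refine (card_union_le _ _).trans ?_
    rw [card_range, Nat.card_Ioc]
    omega
  have c2 : (f.B.biUnion fun b => (range (f.n j + 1)).filter fun i => 25 ≤ i ∧ i + 25 ≤ f.n j ∧ c.L.Adj b (f.x j i)).card ≤
      C * 5 := by
    refine (card_biUnion_le_card_mul _ _ 5 fun b _ => db_B f j b).trans ?_
    exact Nat.mul_le_mul_right _ f.hB
  have c3 : ((range (f.n j + 1)).filter fun i => ∃ y, f.Tr 1 j i y).card ≤ 2 ^ (2 * k + 2 * C) * 40 :=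
    db_win f _ (fun i y => f.Tr 1 j i y) (fun i y => f.rv 1 j i y) (fun i y h => rv_mem f 1 j i y h)
      (fun i hi => (mem_filter.1 hi).2) (fun i y i' y' h h' hw => ne_type1 f j i i' y y' h h' hw)
  have c4 : ((range (f.n j + 1)).filter fun i => ∃ y, f.Tr 2 j i y ∧ y ∉ f.tw j i).card ≤ 2 ^ (2 * k + 2 * C) * 40 :=
    db_win f _ (fun i y => f.Tr 2 j i y ∧ y ∉ f.tw j i) (fun i y => f.rv 2 j i y) (fun i y h => rv_mem f 2 j i y h.1)
      (fun i hi => (mem_filter.1 hi).2)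
      (fun i y i' y' h h' hw he => h.2 (type2_tw f j i i' y y' h.1 h'.1 hw he).1)
  refine (card_le_card hsub).trans ?_
  refine (card_union_le _ _).trans (add_le_add ?_ c4)
  refine (card_union_le _ _).trans (add_le_add ?_ c3)
  exact (card_union_le _ _).trans (add_le_add c1 c2)

end Pool.Agent.EPH
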