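import Pool.Agent.EPH.DBad1
import Pool.Agent.EPH.DNul

/-!
# EPH-DBad2: few positions which are not `Ok1`
-/

set_option autoImplicit false

open Finset
open scoped Classical

namespace Pool.Agent.EPH

open Pool.Agent.BEO hiding Cfg Frame

theorem card_bad1 (k C : ℕ) : ∃ N1 : ℕ, ∀ (V Q : Type) [Fintype V] [AddCommGroup Q] [Module F2 Q] (c : Cfg k V Q)
    (f : Frame C c) (j : Fin f.m), ((range (f.n j + 1)).filter fun i => ¬ f.Ok1 j i).card ≤ N1 := by
  obtain ⟨N, hN⟩ := card_bad0 k C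
  obtain ⟨N', hN'⟩ := card_nul k C
  refine ⟨N + N', fun V Q _ _ _ c f j => ?_⟩
  have hsub : ((range (f.n j + 1)).filter fun i => ¬ f.Ok1 j i) ⊆
      ((range (f.n j + 1)).filter fun i => ¬ f.Ok0 j i) ∪ ((range (f.n j + 1)).filter fun i => ¬ f.Nul j i) := by
    intro i hi
    rw [mem_filter] at hi
    rw [mem_union, mem_filter, mem_filter]
    by_cases h : f.Ok0 j i
    · by_cases h' : f.Nul j i
      · exact absurd ⟨h.lo, h.hi, h.nB, h.t1, h.t2, h'⟩ hi.2
      · exact Or.inr ⟨hi.1, h'⟩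
    · exact Or.inl ⟨hi.1, h⟩
  exact (card_le_card hsub).trans ((card_union_le _ _).trans (Nat.add_le_add (hN V Q c f j) (hN' V Q c f j)))

end Pool.Agent.EPH
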