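import Pool.Agent.EPH.DFlowB

/-!
# EPH-DFlowC: a flow has bounded length
-/

set_option autoImplicit false

open Finset
open scoped Classical

namespace Pool.Agent.EPH

open Pool.Agent.BEO hiding Cfg Frame

variable {k C : ℕ} {V Q : Type} [Fintype V] [AddCommGroup Q] [Module F2 Q] {c : Cfg k V Q} (f : Frame C c)

theorem flow_bound {j : Fin f.m} {s t : ℕ} {U A T X : ℕ → Finset V} (h : f.Flow j s t U A T X) : t ≤ s + 13 * k + 8 := by
  by_cases hts : t ≤ s + 4
  · omega
  push Not at hts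
  have hlo := h.lo
  have hhi := h.hi
  have hpar := h.par
  obtain ⟨P1, hP1⟩ : ∃ P1 : Finset V, ∀ u, u ∈ P1 ↔ ∃ i, s < i ∧ i < t ∧ (s + i) % 2 = 0 ∧ u ∈ U i :=
    ⟨univ.filter fun u => ∃ i, s < i ∧ i < t ∧ (s + i) % 2 = 0 ∧ u ∈ U i, fun u => by simp⟩
  obtain ⟨P2, hP2⟩ : ∃ P2 : Finset V, ∀ w, w ∈ P2 ↔ (w ∈ P1 ∨ ∀ u, c.L.Adj w u → u ∈ P1) :=
    ⟨univ.filter fun w => w ∈ P1 ∨ ∀ u, c.L.Adj w u → u ∈ P1, fun u => by simp⟩
  obtain ⟨m, hm⟩ : ∃ m, t = s + 4 + m := ⟨t - s - 4, by omega⟩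
  have hUP : ∀ i, s < i → i < t → (s + i) % 2 = 0 → ∀ u ∈ U i, u ∈ P1 := fun i h1 h2 h3 u hu =>
    (hP1 u).2 ⟨i, h1, h2, h3, hu⟩
  -- even positions
  have hev : ∀ i, i ≤ m → i % 2 = 0 → f.x j (s + 2 + i) ∈ P1 := by
    intro i hi hi2
    refine hUP (s + 2 + i) (by omega) (by omega) (by omega) _ ?_
    rw [(h.split (s + 2 + i) (by omega) (by omega) (by omega)).1]
    exact mem_union_left _ (h.mem (s + 2 + i) (by omega) (by omega) (by omega))
  -- odd positions
  have hodd : ∀ i, i ≤ m → i % 2 = 1 → ∀ u, c.L.Adj (f.x j (s + 2 + i)) u → u ∈ P1 := by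
    intro i hi hi2 u hu
    rcases (h.nbx (s + 2 + i) (by omega) (by omega) (by omega) u).1 hu with h1 | h1
    · exact hUP (s + 2 + i - 1) (by omega) (by omega) (by omega) u h1
    · exact hUP (s + 2 + i + 1) (by omega) (by omega) (by omega) u h1
  have h1 := rank_out c.L P1 P2 (fun w hw => (hP2 w).2 (Or.inl hw))
    (fun w hw hw1 u hu => ((hP2 w).1 hw).resolve_left hw1 u hu) m (fun i => f.x j (s + 2 + i)) ?_ ?_ ?_ ?_
  · have h2 := flow_lb f h P1 hP1
    have h3 := c.rk
    omega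
  · intro i i' hi hi' he
    have h2 := (f.inj j (s + 2 + i) j (s + 2 + i') (by omega) (by omega) (by omega) (by omega) he).2
    omega
  · intro i hi
    rcases Nat.mod_two_eq_zero_or_one i with h2 | h2
    · exact (hP2 _).2 (Or.inl (hev i hi h2))
    · exact (hP2 _).2 (Or.inr (hodd i hi h2))
  · intro i i' hi hi'
    constructor
    · intro h2
      have h3 := (adj_inner f j j (s + 2 + i) (s + 2 + i') (by omega) (by omega) (by omega) (by omega) h2).2
      omega
    · rintro (h2 | h2)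
      · subst h2
        exact adj_next f j (s + 2 + i) (by omega) (by omega)
      · subst h2
        exact (adj_next f j (s + 2 + i') (by omega) (by omega)).symm
  · intro i hi hi' w hw hadj
    rcases Nat.mod_two_eq_zero_or_one i with h2 | h2
    · have h3 := h.mem (s + 2 + i) (by omega) (by omega) (by omega)
      rcases (h.nbA (s + 2 + i) (by omega) (by omega) (by omega) _ h3 w).1 hadj with h4 | h4
      · refine hw ((hP2 w).2 (Or.inr fun u hu => ?_))
        obtain ⟨i', k1, k2, k3, k4⟩ := h.nbX (s + 2 + i) (by omega) (by omega) (by omega) w h4 u hu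
        exact hUP i' k1 k2 k3 u k4
      · refine hw ((hP2 w).2 (Or.inl (hUP (s + 2 + i) (by omega) (by omega) (by omega) w ?_)))
        rw [(h.split (s + 2 + i) (by omega) (by omega) (by omega)).1]
        exact mem_union_right _ h4
    · exact hw ((hP2 w).2 (Or.inl (hodd i hi'.le h2 w hadj)))

end Pool.Agent.EPH
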