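import Mathlib

/-!
# EPH-DPick: choosing positions (Mathlib only)

`pick3`: three elements of a large finite set, far apart, with equal keys and no element of `D` between them.
`pick_int`: an interval of given length and parity of the first element that avoids a finite set.
-/

set_option autoImplicit false

open Finset
open scoped Classical

namespace Pool.Agent.EPH

private lemma emb_add (C : Finset ℕ) (i : ℕ) : ∀ j, ∀ h : i + j < C.card,
    C.orderEmbOfFin rfl ⟨i, by omega⟩ + j ≤ C.orderEmbOfFin rfl ⟨i + j, h⟩ := by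
  intro j
  induction j with
  | zero => intro h; exact le_refl _
  | succ j ih =>
    intro h
    have h1 := ih (by omega)
    have h2 : C.orderEmbOfFin rfl ⟨i + j, by omega⟩ < C.orderEmbOfFin rfl ⟨i + (j + 1), h⟩ := by
      apply (C.orderEmbOfFin rfl).strictMono
      rw [Fin.mk_lt_mk]
      omega
    omega

theorem pick3 {A : Type} [Fintype A] (E D : Finset ℕ) (key : ℕ → A) (g : ℕ) (hED : ∀ e ∈ E, e ∉ D)
    (h : (D.card + 1) * Fintype.card A * (2 * g + 1) < E.card) :
    ∃ i1 ∈ E, ∃ i2 ∈ E, ∃ i3 ∈ E, i1 + g ≤ i2 ∧ i2 + g ≤ i3 ∧ key i1 = key i2 ∧ key i2 = key i3 ∧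
      ∀ l, i1 ≤ l → l ≤ i3 → l ∉ D := by
  have hmaps : ∀ e ∈ E, ((D.filter (fun x => x < e)).card, key e) ∈
      (Finset.range (D.card + 1)) ×ˢ (Finset.univ : Finset A) := by
    intro e _
    rw [Finset.mem_product, Finset.mem_range]
    exact ⟨Nat.lt_succ_of_le (Finset.card_filter_le _ _), Finset.mem_univ _⟩
  have hcard : ((Finset.range (D.card + 1)) ×ˢ (Finset.univ : Finset A)).card * (2 * g + 1) < E.card := by
    rw [Finset.card_product, Finset.card_range, Finset.card_univ]
    exact h
  obtain ⟨y, _, hy⟩ := Finset.exists_lt_card_fiber_of_mul_lt_card_of_maps_to hmaps hcard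
  obtain ⟨C, hC, hCm⟩ : ∃ C : Finset ℕ, 2 * g + 1 < C.card ∧
      ∀ e ∈ C, e ∈ E ∧ ((D.filter (fun x => x < e)).card, key e) = y :=
    ⟨_, hy, fun e he => by
      rw [Finset.mem_filter] at he
      exact he⟩
  have m0 := hCm _ (Finset.orderEmbOfFin_mem C rfl ⟨0, by omega⟩)
  have m1 := hCm _ (Finset.orderEmbOfFin_mem C rfl ⟨0 + g, by omega⟩)
  have m2 := hCm _ (Finset.orderEmbOfFin_mem C rfl ⟨0 + g + g, by omega⟩)
  have k1 := emb_add C 0 g (by omega)
  have k2 := emb_add C (0 + g) g (by omega)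
  refine ⟨_, m0.1, _, m1.1, _, m2.1, k1, k2, ?_, ?_, ?_⟩
  · have := m0.2.trans m1.2.symm
    exact (Prod.mk.inj this).2
  · have := m1.2.trans m2.2.symm
    exact (Prod.mk.inj this).2
  · intro l hl1 hl2 hlD
    have e02 := (Prod.mk.inj (m0.2.trans m2.2.symm)).1
    have n0 := hED _ m0.1
    have n2 := hED _ m2.1
    have hl1' : C.orderEmbOfFin rfl ⟨0, by omega⟩ < l := by
      rcases lt_or_eq_of_le hl1 with h3 | h3
      · exact h3
      · exact absurd (h3 ▸ hlD) n0
    have hl2' : l < C.orderEmbOfFin rfl ⟨0 + g + g, by omega⟩ := by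
      rcases lt_or_eq_of_le hl2 with h3 | h3
      · exact h3
      · exact absurd (h3 ▸ hlD) n2
    have hss : D.filter (fun x => x < C.orderEmbOfFin rfl ⟨0, by omega⟩) ⊂
        D.filter (fun x => x < C.orderEmbOfFin rfl ⟨0 + g + g, by omega⟩) := by
      rw [Finset.ssubset_iff_of_subset]
      · refine ⟨l, Finset.mem_filter.2 ⟨hlD, hl2'⟩, ?_⟩
        intro hc
        have := (Finset.mem_filter.1 hc).2
        omega
      · intro x hx
        rw [Finset.mem_filter] at hx ⊢
        exact ⟨hx.1, by omega⟩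
    have := Finset.card_lt_card hss
    omega

theorem pick_int (D : Finset ℕ) (a b L p : ℕ) (h : a + (D.card + 1) * (L + 2) ≤ b) :
    ∃ s, a ≤ s ∧ s + L ≤ b ∧ (s + p) % 2 = 0 ∧ ∀ l, s ≤ l → l ≤ s + L → l ∉ D := by
  obtain ⟨i, hi, hD⟩ : ∃ i, i ≤ D.card ∧ ∀ l, a + i * (L + 2) ≤ l → l ≤ a + i * (L + 2) + L + 1 → l ∉ D := by
    by_contra hcon
    push Not at hcon
    have hch : ∀ i, ∃ l, i ≤ D.card → (a + i * (L + 2) ≤ l ∧ l ≤ a + i * (L + 2) + L + 1 ∧ l ∈ D) := by
      intro i
      by_cases hi : i ≤ D.card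
      · obtain ⟨l, h1, h2, h3⟩ := hcon i hi
        exact ⟨l, fun _ => ⟨h1, h2, h3⟩⟩
      · exact ⟨0, fun h => absurd h hi⟩
    choose f hf using hch
    have hcard : (Finset.range (D.card + 1)).card ≤ D.card := by
      apply Finset.card_le_card_of_injOn f
      · intro i hi
        have hi' : i < D.card + 1 := Finset.mem_range.1 hi
        exact (hf i (by omega)).2.2
      · intro i hi j hj hij
        have hi' : i < D.card + 1 := Finset.mem_range.1 hi
        have hj' : j < D.card + 1 := Finset.mem_range.1 hj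
        have h1 := hf i (by omega)
        have h2 := hf j (by omega)
        rw [hij] at h1
        rcases lt_trichotomy i j with h3 | h3 | h3
        · have : (i + 1) * (L + 2) ≤ j * (L + 2) := Nat.mul_le_mul_right _ h3
          rw [Nat.add_mul, Nat.one_mul] at this
          omega
        · exact h3
        · have : (j + 1) * (L + 2) ≤ i * (L + 2) := Nat.mul_le_mul_right _ h3
          rw [Nat.add_mul, Nat.one_mul] at this
          omega
    rw [Finset.card_range] at hcard
    omega
  have hb : a + i * (L + 2) + L + 1 ≤ b := by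
    have : (i + 1) * (L + 2) ≤ (D.card + 1) * (L + 2) := Nat.mul_le_mul_right _ (by omega)
    rw [Nat.add_mul i 1, Nat.one_mul] at this
    omega
  by_cases hp : (a + i * (L + 2) + p) % 2 = 0
  · refine ⟨a + i * (L + 2), by omega, by omega, hp, ?_⟩
    intro l h1 h2
    exact hD l h1 (by omega)
  · refine ⟨a + i * (L + 2) + 1, by omega, by omega, by omega, ?_⟩
    intro l h1 h2
    exact hD l (by omega) (by omega)

end Pool.Agent.EPH
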