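import Pool.Agent.EPH.DRho

/-!
# EPH-DEven: the sets of common neighbours in the middle of a triple are even

The sum of `trp_rho2` over all faces gives the position `i2`; for `l` of the other parity the degree of `x j l` is the sum
of the sizes of `cmn j (l - 1)` and `cmn j (l + 1)` (`trp_nbx`, `trp_dj`), so the parity is the same at all positions.
-/

set_option autoImplicit false

open Finset
open scoped Classical

namespace Pool.Agent.EPH

open Pool.Agent.BEO hiding Cfg Frame

variable {k C : ℕ} {V Q : Type} [Fintype V] [AddCommGroup Q] [Module F2 Q] {c : Cfg k V Q} (f : Frame C c)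

variable {f} {j : Fin f.m} {τ : Fin 4} {i1 i2 i3 : ℕ} {y1 y2 y3 : V}

private theorem sum_row (L : SimpleGraph V) (v : V) : ∑ u, row L v u = ((nb L v).card : F2) := by
  unfold row nb
  rw [Finset.sum_boole]

private theorem nb_even (v : V) : ((nb c.L v).card : F2) = 0 := by
  rw [ZMod.natCast_eq_zero_iff_even]
  exact c.evL v

private theorem even_mid (h : f.Trp j τ i1 i2 i3 y1 y2 y3) : Even (f.cmn j i2).card := by
  have h1 : ∑ u, f.rho τ j i2 y2 u = ((f.cmn j i2).card : F2) := by
    simp only [trp_rho2 h]
    rw [Finset.sum_boole]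
    congr 2
    ext u
    simp
  have h2 : ∑ u, f.rho τ j i2 y2 u = 0 := by
    unfold Frame.rho
    rw [Finset.sum_add_distrib, sum_row, nb_even, zero_add]
    by_cases hτ : τ = 3
    · simp only [if_pos hτ]
      rw [sum_row, nb_even]
    · simp only [if_neg hτ]
      exact Finset.sum_const_zero
  rw [h2] at h1
  exact (ZMod.natCast_eq_zero_iff_even).1 h1.symm

private theorem even_step (h : f.Trp j τ i1 i2 i3 y1 y2 y3) (l : ℕ) (h1 : i1 + 5 ≤ l) (h2 : l + 5 ≤ i3)
    (hp : (i1 + l) % 2 = 1) : Even (f.cmn j (l - 1)).card ↔ Even (f.cmn j (l + 1)).card := by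
  have h3 : nb c.L (f.x j l) = f.cmn j (l - 1) ∪ f.cmn j (l + 1) := by
    ext u
    unfold nb
    rw [Finset.mem_filter, Finset.mem_union, trp_nbx h l h1 h2 hp u]
    simp
  have h4 := c.evL (f.x j l)
  rw [h3, Finset.card_union_of_disjoint (trp_dj h l h1 h2 hp), Nat.even_add] at h4
  exact h4

theorem trp_even (h : f.Trp j τ i1 i2 i3 y1 y2 y3) (i : ℕ) (h1 : i1 + 6 ≤ i) (h2 : i + 6 ≤ i3)
    (hp : (i1 + i) % 2 = 0) : Even (f.cmn j i).card := by
  have h12 := h.p12
  have g12 := h.g12
  have g23 := h.g23
  have hmid := even_mid h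
  rcases le_total i2 i with hi | hi
  · have key : ∀ d, i2 + 2 * d + 6 ≤ i3 → Even (f.cmn j (i2 + 2 * d)).card := by
      intro d
      induction d with
      | zero => intro _; exact hmid
      | succ d ih =>
        intro hd
        have h3 := ih (by omega)
        have h4 := even_step h (i2 + 2 * d + 1) (by omega) (by omega) (by omega)
        rw [Nat.add_sub_cancel] at h4
        exact h4.1 h3
    obtain ⟨d, hd⟩ : ∃ d, i = i2 + 2 * d := ⟨(i - i2) / 2, by omega⟩
    rw [hd]
    exact key d (by omega)
  · have key : ∀ d, i1 + 6 + 2 * d ≤ i2 → Even (f.cmn j (i2 - 2 * d)).card := by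
      intro d
      induction d with
      | zero => intro _; exact hmid
      | succ d ih =>
        intro hd
        have h3 := ih (by omega)
        have h4 := even_step h (i2 - 2 * d - 1) (by omega) (by omega) (by omega)
        have e1 : i2 - 2 * d - 1 - 1 = i2 - 2 * (d + 1) := by omega
        have e2 : i2 - 2 * d - 1 + 1 = i2 - 2 * d := by omega
        rw [e1, e2] at h4
        exact h4.2 h3
    obtain ⟨d, hd, hd'⟩ : ∃ d, i = i2 - 2 * d ∧ 2 * d ≤ i2 := ⟨(i2 - i) / 2, by omega, by omega⟩
    rw [hd]
    exact key d (by omega)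

end Pool.Agent.EPH
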