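import Pool.Agent.EPH.DDef
import Pool.Agent.BEO.Par

/-!
# EPH-DRel: the relation given by two equal vectors

Calculations modulo 2.
-/

set_option autoImplicit false

open Finset
open scoped Classical

namespace Pool.Agent.EPH

open Pool.Agent.BEO hiding Cfg Frame

variable {k C : ℕ} {V Q : Type} [Fintype V] [AddCommGroup Q] [Module F2 Q] {c : Cfg k V Q} (f : Frame C c)

/-- the row of `y`, for type 3 plus the row of `x j i` -/
noncomputable def Frame.rho (τ : Fin 4) (j : Fin f.m) (i : ℕ) (y : V) (u : V) : F2 :=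
  row c.L y u + if τ = 3 then row c.L (f.x j i) u else 0

theorem rv_rho (τ : Fin 4) (hτ : τ = 0 ∨ τ = 3) (j : Fin f.m) (i : ℕ) (y u : V) :
    f.rv τ j i y u = f.rho τ j i y u + f.alt j i u := by
  unfold Frame.rv Frame.rho
  rcases hτ with rfl | rfl
  · rw [if_pos (Or.inl rfl), if_neg (by decide), if_neg (by decide), if_neg (by decide)]
    ring
  · rw [if_pos (Or.inr rfl), if_neg (by decide), if_pos (Or.inr rfl), if_pos rfl]
    ring

theorem alt_sub (j : Fin f.m) (i i' : ℕ) (hi : i ≤ i') (hp : (i + i') % 2 = 0) (u : V) :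
    f.alt j i u + f.alt j i' u = ∑ l ∈ (Ioo i i').filter (fun l => (i + l) % 2 = 1), row c.L (f.x j l) u := by
  unfold Frame.alt
  have h1 : (range i').filter (fun l => 1 ≤ l ∧ (l + i') % 2 = 1) =
      (range i).filter (fun l => 1 ≤ l ∧ (l + i) % 2 = 1) ∪
        (Ioo i i').filter (fun l => (i + l) % 2 = 1) := by
    ext l
    simp only [mem_filter, mem_range, mem_union, mem_Ioo]
    omega
  have h2 : Disjoint ((range i).filter (fun l => 1 ≤ l ∧ (l + i) % 2 = 1))
      ((Ioo i i').filter (fun l => (i + l) % 2 = 1)) := by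
    rw [Finset.disjoint_left]
    intro l hl hl'
    rw [mem_filter, mem_range] at hl
    rw [mem_filter, mem_Ioo] at hl'
    omega
  rw [h1, sum_union h2, ← add_assoc, CharTwo.add_self_eq_zero, zero_add]

private theorem dr_f2 : ∀ a b a' b' : F2, a + b = a' + b' → a + a' = b + b' := by decide

theorem rel (τ : Fin 4) (hτ : τ = 0 ∨ τ = 3) (j : Fin f.m) (i i' : ℕ) (y y' : V) (hi : i ≤ i')
    (hp : (i + i') % 2 = 0) (h : f.rv τ j i y = f.rv τ j i' y') (u : V) :
    f.rho τ j i y u + f.rho τ j i' y' u =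
      ∑ l ∈ (Ioo i i').filter (fun l => (i + l) % 2 = 1), row c.L (f.x j l) u := by
  have h1 := congrFun h u
  rw [rv_rho f τ hτ, rv_rho f τ hτ] at h1
  rw [← alt_sub f j i i' hi hp u]
  exact dr_f2 _ _ _ _ h1

end Pool.Agent.EPH
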