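import Pool.Agent.EPH.Dt

/-!
# EPH: chords at the vertices of a polyhedral embedding

`Φ` faces, `Vt` vertices, `fc v i` the face of the `i`-th corner at the vertex `v` (`i < d v`, in cyclic order). A chord
joins two corners of a vertex.
-/

set_option autoImplicit false

open Finset
open scoped Classical

namespace Pool.Agent.EPH

open Pool.Agent.BEO

/-- The corners of the faces at the vertices. -/
structure Cor (Φ Vt : Type) where
  /-- degree -/
  d : Vt → ℕ
  /-- face of a corner -/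
  fc : Vt → ℕ → Φ
  inj : ∀ v i j, i < d v → j < d v → fc v i = fc v j → i = j

variable {Φ Vt : Type}

/-- A chord: a vertex and two of its corners. -/
def Ch (P : Cor Φ Vt) : Type := {x : (v : Vt) × (Fin (P.d v) × Fin (P.d v)) // x.2.1 < x.2.2}

noncomputable instance (P : Cor Φ Vt) [Fintype Vt] : Fintype (Ch P) := by
  unfold Ch
  infer_instance

/-- the vertex of a chord -/
def Ch.vx {P : Cor Φ Vt} (e : Ch P) : Vt := e.1.1

/-- the first corner of a chord -/
def Ch.lo {P : Cor Φ Vt} (e : Ch P) : ℕ := e.1.2.1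

/-- the second corner of a chord -/
def Ch.hi {P : Cor Φ Vt} (e : Ch P) : ℕ := e.1.2.2

/-- the face `F` has a corner at `v` -/
def On (P : Cor Φ Vt) (v : Vt) (F : Φ) : Prop := ∃ i, i < P.d v ∧ P.fc v i = F

/-- neighbouring corners -/
def Nxt (P : Cor Φ Vt) (v : Vt) (i j : ℕ) : Prop :=
  i + 1 = j ∨ j + 1 = i ∨ (i = 0 ∧ j + 1 = P.d v) ∨ (j = 0 ∧ i + 1 = P.d v)

/-- two corners which are not neighbours -/
def Ch.Long {P : Cor Φ Vt} (e : Ch P) : Prop := ¬ Nxt P e.vx e.lo e.hi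

/-- number of chords of `lam` at `v` from the corners `a, ..., b - 1` to the corners `c, ..., f - 1` -/
noncomputable def cnt {P : Cor Φ Vt} (lam : Finset (Ch P)) (v : Vt) (a b c f : ℕ) : ℕ :=
  (lam.filter fun e => e.vx = v ∧ a ≤ e.lo ∧ e.lo < b ∧ c ≤ e.hi ∧ e.hi < f).card

/-- The four arc condition: `lam` comes from a map. -/
def Real (P : Cor Φ Vt) (lam : Finset (Ch P)) : Prop :=
  ∀ v l m n, 0 < l → l < m → m < n → n < P.d v → ¬ (Odd (cnt lam v 0 l m n) ∧ Odd (cnt lam v l m n (P.d v)))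

/-- The corners of a polyhedral embedding. -/
structure Pol (P : Cor Φ Vt) : Prop where
  /-- two faces with two common vertices are neighbours at each of them -/
  two : ∀ v v' F G, v ≠ v' → F ≠ G → On P v F → On P v G → On P v' F → On P v' G →
    ∀ i j, i < P.d v → j < P.d v → P.fc v i = F → P.fc v j = G → Nxt P v i j
  /-- two faces have at most two common vertices -/
  three : ∀ v v' v'' F G, v ≠ v' → v ≠ v'' → v' ≠ v'' → F ≠ G → On P v F → On P v G → On P v' F → On P v' G →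
    On P v'' F → On P v'' G → False
  /-- two neighbouring faces have two common vertices -/
  nbr : ∀ v i j, i < P.d v → j < P.d v → i ≠ j → Nxt P v i j →
    ∃ v', v' ≠ v ∧ On P v' (P.fc v i) ∧ On P v' (P.fc v j)
  /-- two vertices have at most two common faces -/
  faces : ∀ v v' F G K, v ≠ v' → F ≠ G → F ≠ K → G ≠ K → On P v F → On P v G → On P v K → On P v' F →
    On P v' G → On P v' K → False

/-- A polyhedral embedding: corners and linear data. -/
structure Sys (k : ℕ) (Φ Vt Z : Type) [Fintype Φ] [Fintype Vt] [AddCommGroup Z] [Module F2 Z] where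
  /-- the corners -/
  P : Cor Φ Vt
  pol : Pol P
  /-- the linear data -/
  D : Dat k Φ (Ch P) Z
  hs : ∀ e, D.s e = P.fc e.vx e.lo
  ht : ∀ e, D.t e = P.fc e.vx e.hi
  /-- the coordinate of a corner -/
  c : Vt → ℕ → (Z →ₗ[F2] F2)
  hc : ∀ e, D.a e = c e.vx e.lo + c e.vx e.hi
  /-- chords with the same two faces have the same coordinate -/
  par : ∀ e e', s(D.s e, D.t e) = s(D.s e', D.t e') → D.a e = D.a e'
  /-- no three by three faces with nine different common vertices and null rectangles -/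
  k33 : ∀ (f g : Fin 3 → Φ) (e : Fin 3 → Fin 3 → Ch P), (∀ i j, f i = f j → i = j) → (∀ i j, g i = g j → i = j) →
    (∀ i j, f i ≠ g j) → (∀ i j i' j', (e i j).vx = (e i' j').vx → i = i' ∧ j = j') →
    (∀ i j, s(D.s (e i j), D.t (e i j)) = s(f i, g j)) →
    (∀ i j i' j', D.a (e i j) + D.a (e i' j) + D.a (e i' j') + D.a (e i j') = 0) → False
  /-- three far apart closed walks of the same class, each touching a path in `mu`, are null -/
  touch : ∀ (mu : Finset (Ch P)), D.Adm mu → ∀ (N : ℕ) (q : ℕ → Φ) (e : ℕ → Ch P) (F : Fin 3 → Φ)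
    (l : Fin 3 → List (Ch P)) (α β : Fin 3 → ℕ),
    (∀ t, t < N → e t ∈ mu ∧ s(D.s (e t), D.t (e t)) = s(q t, q (t + 1))) →
    (∀ t t', t < N → t' < N → e t = e t' → t = t') →
    (∀ i, DW D.s D.t (F i) (F i) (l i)) →
    β 0 ≤ α 1 → β 1 ≤ α 2 → β 2 ≤ N →
    (∀ i, ∃ t, α i < t ∧ t < β i ∧ ∃ g ∈ l i, D.s g = q t ∨ D.t g = q t) →
    (∀ i, ∀ g ∈ l i, ∀ t, t ≤ N → t ≤ α i ∨ β i ≤ t → D.s g ≠ q t ∧ D.t g ≠ q t) →
    (∀ i, ∀ g ∈ l i, ∀ h ∈ mu, (D.s h = D.s g ∨ D.s h = D.t g ∨ D.t h = D.s g ∨ D.t h = D.t g ∨ h.vx = g.vx) →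
      ∃ t, α i ≤ t ∧ t < β i ∧ h = e t) →
    (∀ i j, i ≠ j → ∀ g ∈ l i, ∀ g' ∈ l j,
      g.vx ≠ g'.vx ∧ D.s g ≠ D.s g' ∧ D.s g ≠ D.t g' ∧ D.t g ≠ D.s g' ∧ D.t g ≠ D.t g') →
    ((l 0).map D.a).sum = ((l 1).map D.a).sum → ((l 1).map D.a).sum = ((l 2).map D.a).sum →
    ((l 0).map D.a).sum = 0

end Pool.Agent.EPH
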