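import Pool.Agent.BEO.Dat

/-!
# EPH: the linear data of an embedding

As `Pool/Agent/BEO/Dat.lean`, without a condition on short closed walks.
-/

set_option autoImplicit false

open Finset
open scoped Classical

namespace Pool.Agent.EPH

open Pool.Agent.BEO hiding Dat

/-- The linear data. -/
structure Dat (k : ℕ) (Φ E Z : Type) [Fintype Φ] [Fintype E] [AddCommGroup Z] [Module F2 Z] where
  /-- one face of an edge -/
  s : E → Φ
  /-- the other face of an edge -/
  t : E → Φ
  /-- boundary of a face -/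
  z : Φ → Z
  /-- coordinate -/
  a : E → Z →ₗ[F2] F2
  /-- the form -/
  J : Z →ₗ[F2] Z →ₗ[F2] F2
  symm : ∀ x y, J x y = J y x
  inc : ∀ e F, a e (z F) = (if s e = F then 1 else 0) + (if t e = F then 1 else 0)
  rad : ∀ x, (∀ y, J x y = 0) ↔ x ∈ Submodule.span F2 (Set.range z)
  sep : ∀ x, (∀ e, a e x = 0) → x = 0
  rk : Module.finrank F2 (LinearMap.range J) = k

namespace Dat

variable {k : ℕ} {Φ E Z : Type} [Fintype Φ] [Fintype E] [AddCommGroup Z] [Module F2 Z] (D : Dat k Φ E Z)

/-- the form of the twist along `lam` -/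
noncomputable def N (lam : Finset E) : Z →ₗ[F2] Z →ₗ[F2] F2 := D.J + ∑ e ∈ lam, (D.a e).smulRight (D.a e)

/-- the twist is orientable -/
def Adm (lam : Finset E) : Prop := ∀ x, D.N lam x x = 0

/-- its Euler genus -/
noncomputable def rkN (lam : Finset E) : ℕ := Module.finrank F2 (LinearMap.range (D.N lam))

/-- the graph of a set of edges of the dual graph -/
def gr (lam : Finset E) : SimpleGraph Φ where
  Adj F G := F ≠ G ∧ ∃ e ∈ lam, (D.s e = F ∧ D.t e = G) ∨ (D.s e = G ∧ D.t e = F)
  symm := ⟨by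
    rintro F G ⟨h, e, he, h1 | h1⟩
    · exact ⟨h.symm, e, he, Or.inr h1⟩
    · exact ⟨h.symm, e, he, Or.inl h1⟩⟩
  loopless := ⟨fun F h => h.1 rfl⟩

end Dat

end Pool.Agent.EPH
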