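import Pool.Agent.EPH.AMain
import Pool.Agent.AG.Main

/-!
# EPH-Fin: the main theorem for Euler genus at most `k`

The Euler genus is computed by `egA` (`AG/Main.lean`); then one of finitely many algorithms is used.
-/

set_option autoImplicit false

namespace Pool.Agent.EPH

open Turing Function N487b59b3 N68a2faeb Pool.Agent.Helper22 Pool.Agent.Helper6.WB Pool.Agent.Helper47.TR Computability
open Pool.Agent.BEO
open Pool.Agent.AG (egA egA_eq)
open Pool.Agent.Helper35.OG hiding F2 dg

private theorem fin_nE : FP fun l : Inp => nE l := by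
  have h1 : FP fun p : Inp × Pt => decide (p.2.1 ≤ p.2.2.1) && p.2.2.2 :=
    FP.and (FP.natLe (by fun_prop) (by fun_prop)) (by fun_prop)
  exact FP.length (fp_filt h1 (fp_fl FP.id))

private theorem fin_nV : FP fun l : Inp => nV l :=
  FP.length (fp_ddp (FP.map FP.fst (fp_fl FP.id)))

private theorem fin_egA : FP fun l : Inp => egA l :=
  fp_sub (FP.natAdd (FP.const 2) fin_nE) (FP.natAdd fin_nV (fp_nF FP.id (FP.const [])))

/-- choose the function with the number `egA l` -/
def pick (F : ℕ → Inp → ℕ) : ℕ → Inp → ℕ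
  | 0, l => F 0 l
  | k + 1, l => if decide (egA l = k + 1) then F (k + 1) l else pick F k l

private theorem pick_eq (F : ℕ → Inp → ℕ) (k : ℕ) (l : Inp) (h : egA l ≤ k) : pick F k l = F (egA l) l := by
  induction k with
  | zero =>
    have h0 : egA l = 0 := by omega
    rw [h0]
    rfl
  | succ k ih =>
    unfold pick
    by_cases h1 : egA l = k + 1
    · rw [if_pos (by simp [h1]), h1]
    · rw [if_neg (by simp [h1])]
      exact ih (by omega)

private theorem fp_pick (F : ℕ → Inp → ℕ) (hF : ∀ j, FP (F j)) (k : ℕ) : FP (pick F k) := by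
  induction k with
  | zero =>
    exact hF 0
  | succ k ih =>
    exact FP.ite (fp_eq fin_egA (FP.const (k + 1))) (hF (k + 1)) ih

/-- For every `k` the orientable genus of a connected graph is computed in polynomial time from a polyhedral map of
Euler genus at most `k`. -/
theorem final (k : ℕ) : ∃ f : Inp → ℕ, IsPolyTime f ∧ ∀ (n : ℕ) (G : SimpleGraph (Fin n)), G.Connected → 2 ≤ n →
    ∀ S : GMap G, S.eg ≤ k → Poly S → ∀ l : Inp, Codes S l → f l = orientableGenus G ∧
      ∃ M : GMap G, M.Orientable ∧ M.eg = 2 * (orientableGenus G : ℤ) := by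
  choose F hF h using main
  refine ⟨pick F k, ?_, ?_⟩
  · rw [isPolyTime_iff]
    exact fp_pick F (fun j => (isPolyTime_iff _).1 (hF j)) k
  · intro n G hG hn S hk hP l hl
    have h1 := egA_eq hl hG hn
    have h2 : egA l ≤ k := by omega
    obtain ⟨-, -, -, -, h6⟩ := (Pool.Agent.AG.main k).choose_spec.choose_spec.2.2 n G hG hn S hk l hl
    refine ⟨?_, h6⟩
    rw [pick_eq F k l h2]
    exact h (egA l) n G hG hn S h1.symm hP l hl

end Pool.Agent.EPH
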