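import Mathlib

/-!
# EPH-KRam: a monochromatic three by three block (Mathlib only)
-/

set_option autoImplicit false

open Finset
open scoped Classical

namespace Pool.Agent.EPH

private theorem kp {β : Type} (s : Finset β) (h : 3 ≤ s.card) :
    ∃ b : Fin 3 → β, (∀ i, b i ∈ s) ∧ ∀ i j, b i = b j → i = j :=
  ⟨fun i => (s.equivFin.symm (Fin.castLE h i) : β), fun i => (s.equivFin.symm _).2, fun i j hij => by
    have h1 := s.equivFin.symm.injective (Subtype.ext hij)
    exact Fin.castLE_injective h h1⟩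

theorem ram33 (c : ℕ) : ∃ q : ℕ, 3 ≤ q ∧ ∀ (X : Type) (col : Fin q → Fin q → X) (Sx : Finset X), Sx.card ≤ c →
    (∀ i j, col i j ∈ Sx) → ∃ (a b : Fin 3 → Fin q) (x : X), (∀ i j, a i = a j → i = j) ∧ (∀ i j, b i = b j → i = j) ∧
      ∀ i j, col (a i) (b j) = x := by
  obtain ⟨n, hn⟩ : ∃ n : ℕ, n = 2 * c + 1 := ⟨_, rfl⟩
  refine ⟨2 * n ^ 3 * c + n + 3, by omega, ?_⟩
  intro X col Sx hS hcol
  have hle : n ≤ 2 * n ^ 3 * c + n + 3 := by omega
  have h1 : ∀ j, ∃ (a : Fin 3 → Fin n) (x : X), x ∈ Sx ∧ (∀ i i', a i = a i' → i = i') ∧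
      ∀ i, col (Fin.castLE hle (a i)) j = x := by
    intro j
    obtain ⟨x, hx, hc⟩ := exists_lt_card_fiber_of_mul_lt_card_of_maps_to
      (f := fun i : Fin n => col (Fin.castLE hle i) j) (s := Finset.univ) (t := Sx) (n := 2)
      (fun i _ => hcol _ _) (by
        rw [Finset.card_univ, Fintype.card_fin]
        omega)
    obtain ⟨a, ha, hai⟩ := kp _ hc
    exact ⟨a, x, hx, hai, fun i => (mem_filter.1 (ha i)).2⟩
  choose A Xf hXf hAi hAc using h1
  obtain ⟨y, -, hc⟩ := exists_lt_card_fiber_of_mul_lt_card_of_maps_to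
    (f := fun j => (A j, Xf j)) (s := Finset.univ) (t := (Finset.univ : Finset (Fin 3 → Fin n)) ×ˢ Sx)
    (n := 2) (fun j _ => Finset.mem_product.2 ⟨Finset.mem_univ _, hXf j⟩) (by
      rw [Finset.card_product, Finset.card_univ, Finset.card_univ, Fintype.card_fin,
        Fintype.card_fun, Fintype.card_fin, Fintype.card_fin]
      have h2 : n ^ 3 * Sx.card ≤ n ^ 3 * c := Nat.mul_le_mul_left _ hS
      have h3 : 2 * n ^ 3 * c = n ^ 3 * c * 2 := by ring
      rw [h3]
      omega)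
  obtain ⟨b, hb, hbi⟩ := kp _ hc
  have hb' : ∀ j, A (b j) = y.1 ∧ Xf (b j) = y.2 := fun j => by
    have h4 := (mem_filter.1 (hb j)).2
    exact ⟨congrArg Prod.fst h4, congrArg Prod.snd h4⟩
  refine ⟨fun i => Fin.castLE hle (y.1 i), b, y.2, ?_, hbi, ?_⟩
  · intro i j hij
    have h5 := Fin.castLE_injective hle hij
    rw [← (hb' 0).1] at h5
    exact hAi _ _ _ h5
  · intro i j
    have h6 := hAc (b j) i
    rw [(hb' j).1, (hb' j).2] at h6
    exact h6

end Pool.Agent.EPH
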