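import Pool.Agent.EPH.WLin

/-! EPH-WPig: a run or two equal changes. -/

set_option autoImplicit false

open Finset
open scoped Classical

namespace Pool.Agent.EPH

private theorem wpig_chg {A : Type} (κ : ℕ → Option A) {i j : ℕ} (hi : κ i ≠ none)
    (h : ∃ l, i < l ∧ l ≤ j ∧ κ l ≠ none ∧ κ l ≠ κ i) :
    ∃ p r, ∃ u u' : A, i ≤ p ∧ p < r ∧ r ≤ j ∧ u ≠ u' ∧ κ p = some u ∧ κ r = some u' ∧
      ∀ k, p < k → k < r → κ k = none := by
  obtain ⟨l, hl, hmin⟩ : ∃ l, (i < l ∧ l ≤ j ∧ κ l ≠ none ∧ κ l ≠ κ i) ∧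
      ∀ m, m < l → ¬ (i < m ∧ m ≤ j ∧ κ m ≠ none ∧ κ m ≠ κ i) :=
    ⟨Nat.find h, Nat.find_spec h, fun m hm => Nat.find_min h hm⟩
  obtain ⟨hl1, hl2, hl3, hl4⟩ := hl
  have hne : ((range l).filter fun p => i ≤ p ∧ κ p ≠ none).Nonempty :=
    ⟨i, by rw [mem_filter, mem_range]; exact ⟨hl1, le_refl _, hi⟩⟩
  obtain ⟨p, hp, hmax⟩ : ∃ p ∈ ((range l).filter fun p => i ≤ p ∧ κ p ≠ none),
      ∀ m ∈ ((range l).filter fun p => i ≤ p ∧ κ p ≠ none), m ≤ p :=
    ⟨_, Finset.max'_mem _ hne, fun m hm => Finset.le_max' _ m hm⟩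
  rw [mem_filter, mem_range] at hp
  obtain ⟨hp1, hp2, hp3⟩ := hp
  have hpi : κ p = κ i := by
    by_contra hc
    have hip : i < p := by
      rcases Nat.lt_or_ge i p with h' | h'
      · exact h'
      · exact absurd (by rw [Nat.le_antisymm h' hp2]) hc
    exact hmin p hp1 ⟨hip, by omega, hp3, hc⟩
  obtain ⟨u, hu⟩ := Option.ne_none_iff_exists'.1 hp3
  obtain ⟨u', hu'⟩ := Option.ne_none_iff_exists'.1 hl3
  refine ⟨p, l, u, u', hp2, hp1, hl2, ?_, hu, hu', ?_⟩
  · rintro rfl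
    apply hl4
    rw [hu', ← hpi, hu]
  · intro k hk1 hk2
    by_contra hk3
    have := hmax k (by rw [mem_filter, mem_range]; exact ⟨hk2, by omega, hk3⟩)
    omega

private noncomputable def wcnt (X : Finset ℕ) (P : ℕ → Prop) : ℕ := (X.filter P).card

private theorem wcnt_key (X : Finset ℕ) (P P' : ℕ → Prop) (hP : ∀ x, P x → P' x)
    (hcard : wcnt X P = wcnt X P') : ∀ x ∈ X, P' x → P x := by
  intro x hx hxb
  have hsub : X.filter P ⊆ X.filter P' := by
    intro y hy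
    rw [mem_filter] at hy ⊢
    exact ⟨hy.1, hP y hy.2⟩
  have heq := Finset.eq_of_subset_of_card_le hsub (le_of_eq (show (X.filter P').card = _ from hcard.symm))
  have : x ∈ X.filter P := by
    rw [heq, mem_filter]
    exact ⟨hx, hxb⟩
  exact (mem_filter.1 this).2

theorem exists_run (q Q : ℕ) : ∃ N : ℕ, ∀ (A C : Type) [Fintype A] [Fintype C], Fintype.card A ≤ Q →
    Fintype.card C ≤ q → ∀ (d : ℕ) (κ : ℕ → Option A) (col : ℕ → C) (S : Finset ℕ),
    (∀ i ∈ S, i < d ∧ κ i ≠ none) → N < S.card →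
    (∃ i ∈ S, ∃ j ∈ S, i < j ∧ col i = col j ∧ ∀ l, i < l → l ≤ j → κ l = none ∨ κ l = κ i) ∨
    ∃ (i1 j1 i2 j2 : ℕ) (u u' : A), u ≠ u' ∧ i1 < j1 ∧ j1 < i2 ∧ i2 < j2 ∧ j2 < d ∧ κ i1 = some u ∧ κ j1 = some u' ∧
      κ i2 = some u ∧ κ j2 = some u' ∧ (∀ i, i1 < i → i < j1 → κ i = none) ∧ (∀ i, i2 < i → i < j2 → κ i = none) ∧
      pr κ i1 = pr κ i2 ∧ ∀ i, i < d → ∀ w, κ i = some w → ∃ t, t < d ∧ κ t = some w ∧ (t < i1 ∨ j2 < t) := by
  set M := (Q + 1) * (Q + 1) * 2 ^ Q * ((Q + 1) * (Q + 1)) + 1 with hM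
  refine ⟨M * (q + 1), ?_⟩
  intro A C _ _ hA hC d κ col S hS hN
  by_contra hcon
  rw [not_or] at hcon
  obtain ⟨hn1, hn2⟩ := hcon
  -- enumeration of S
  obtain ⟨e, he1, he2⟩ : ∃ e : ℕ → ℕ, (∀ k, k < S.card → e k ∈ S) ∧
      ∀ k l, k < l → l < S.card → e k < e l := by
    refine ⟨fun k => if h : k < S.card then S.orderEmbOfFin rfl ⟨k, h⟩ else 0, ?_, ?_⟩
    · intro k hk
      simp only [hk, dif_pos]
      exact Finset.orderEmbOfFin_mem S rfl _
    · intro k l hkl hl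
      have hk : k < S.card := by omega
      simp only [hk, hl, dif_pos]
      exact (S.orderEmbOfFin rfl).strictMono (Fin.mk_lt_mk.2 hkl)
  have he3 : ∀ k l, k ≤ l → l < S.card → e k ≤ e l := by
    intro k l hkl hl
    rcases Nat.lt_or_ge k l with h | h
    · exact (he2 k l h hl).le
    · rw [Nat.le_antisymm hkl h]
  have hblk : ∀ t, t < M → t * (q + 1) + q < S.card := by
    intro t ht
    have h1 : (t + 1) * (q + 1) ≤ M * (q + 1) := Nat.mul_le_mul_right _ ht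
    have h2 : (t + 1) * (q + 1) = t * (q + 1) + (q + 1) := by ring
    omega
  -- one change in every block
  have hchg : ∀ t, t < M → ∃ p r, ∃ u u' : A, e (t * (q + 1)) ≤ p ∧ p < r ∧
      r ≤ e (t * (q + 1) + q) ∧ u ≠ u' ∧ κ p = some u ∧ κ r = some u' ∧
      ∀ k, p < k → k < r → κ k = none := by
    intro t ht
    have hb := hblk t ht
    have hpig : ∃ a b : ℕ, a < b ∧ b ≤ q ∧ col (e (t * (q + 1) + a)) = col (e (t * (q + 1) + b)) := by
      obtain ⟨a, b, hab, hc⟩ := Fintype.exists_ne_map_eq_of_card_lt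
        (fun a : Fin (q + 1) => col (e (t * (q + 1) + a))) (by rw [Fintype.card_fin]; omega)
      rcases lt_trichotomy a b with h | h | h
      · exact ⟨a, b, h, by omega, hc⟩
      · exact absurd h hab
      · exact ⟨b, a, h, by omega, hc.symm⟩
    obtain ⟨a, b, hab, hbq, hc⟩ := hpig
    have hi := he1 (t * (q + 1) + a) (by omega)
    have hj := he1 (t * (q + 1) + b) (by omega)
    have hij := he2 (t * (q + 1) + a) (t * (q + 1) + b) (by omega) (by omega)
    have hl : ∃ l, e (t * (q + 1) + a) < l ∧ l ≤ e (t * (q + 1) + b) ∧ κ l ≠ none ∧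
        κ l ≠ κ (e (t * (q + 1) + a)) := by
      by_contra hno
      refine hn1 ⟨_, hi, _, hj, hij, hc, fun l hl1 hl2 => ?_⟩
      by_contra hl3
      rw [not_or] at hl3
      exact hno ⟨l, hl1, hl2, hl3.1, hl3.2⟩
    obtain ⟨p, r, u, u', h1, h2, h3, h4, h5, h6, h7⟩ := wpig_chg κ (hS _ hi).2 hl
    exact ⟨p, r, u, u', (he3 _ _ (by omega) (by omega)).trans h1, h2,
      h3.trans (he3 _ _ (by omega) (by omega)), h4, h5, h6, h7⟩
  have hA' : Nonempty A := by
    obtain ⟨p, r, u, -⟩ := hchg 0 (by omega)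
    exact ⟨u⟩
  choose! p r u u' h1 h2 h3 h4 h5 h6 h7 using hchg
  have hpr : ∀ t t', t < t' → t' < M → r t < p t' := by
    intro t t' htt ht'
    have ha := h3 t (by omega)
    have hb := h1 t' ht'
    have hc : t * (q + 1) + q < t' * (q + 1) := by
      have h8 : (t + 1) * (q + 1) ≤ t' * (q + 1) := Nat.mul_le_mul_right _ htt
      have h9 : (t + 1) * (q + 1) = t * (q + 1) + (q + 1) := by ring
      omega
    have hd := he2 _ _ hc (by have := hblk t' ht'; omega)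
    omega
  have hrd : ∀ t, t < M → r t < d := by
    intro t ht
    have ha := h3 t ht
    have hb := (hS _ (he1 _ (hblk t ht))).1
    omega
  -- special positions
  obtain ⟨sp, hsp⟩ : ∃ sp : A → ℕ, ∀ w, (∃ i, i < d ∧ κ i = some w) →
      sp w < d ∧ κ (sp w) = some w := by
    refine ⟨fun w => if h : ∃ i, i < d ∧ κ i = some w then h.choose else 0, ?_⟩
    intro w hw
    simp only [hw, dif_pos]
    exact hw.choose_spec
  have hX : (Finset.univ.image sp).card ≤ Q := Finset.card_image_le.trans hA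
  have hXle : ∀ P : ℕ → Prop, wcnt (Finset.univ.image sp) P < Q + 1 := fun P =>
    Nat.lt_succ_of_le ((Finset.card_filter_le _ _).trans hX)
  -- pigeonhole
  have hcardT : Fintype.card (Fin (Q + 1) × Fin (Q + 1) × (A → ZMod 2) × A × A) <
      Fintype.card (Fin M) := by
    rw [Fintype.card_prod, Fintype.card_prod, Fintype.card_prod, Fintype.card_prod,
      Fintype.card_fin, Fintype.card_fin, Fintype.card_fun, ZMod.card, hM]
    have e1 : Fintype.card A * Fintype.card A ≤ (Q + 1) * (Q + 1) :=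
      Nat.mul_le_mul (by omega) (by omega)
    have e2 : 2 ^ Fintype.card A ≤ 2 ^ Q := Nat.pow_le_pow_right (by omega) hA
    have e3 : 2 ^ Fintype.card A * (Fintype.card A * Fintype.card A) ≤
        2 ^ Q * ((Q + 1) * (Q + 1)) := Nat.mul_le_mul e2 e1
    have e4 : (Q + 1) * ((Q + 1) * (2 ^ Fintype.card A * (Fintype.card A * Fintype.card A))) ≤
        (Q + 1) * ((Q + 1) * (2 ^ Q * ((Q + 1) * (Q + 1)))) :=
      Nat.mul_le_mul_left _ (Nat.mul_le_mul_left _ e3)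
    have e5 : (Q + 1) * ((Q + 1) * (2 ^ Q * ((Q + 1) * (Q + 1)))) =
        (Q + 1) * (Q + 1) * 2 ^ Q * ((Q + 1) * (Q + 1)) := by ring
    omega
  have hpig : ∃ t t' : ℕ, t < t' ∧ t' < M ∧
      wcnt (Finset.univ.image sp) (fun x => x < p t) =
        wcnt (Finset.univ.image sp) (fun x => x < p t') ∧
      wcnt (Finset.univ.image sp) (fun x => x ≤ r t) =
        wcnt (Finset.univ.image sp) (fun x => x ≤ r t') ∧
      pr κ (p t) = pr κ (p t') ∧ u t = u t' ∧ u' t = u' t' := by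
    obtain ⟨a, b, hab, hc⟩ := Fintype.exists_ne_map_eq_of_card_lt
      (fun t : Fin M => ((⟨_, hXle fun x => x < p t⟩, ⟨_, hXle fun x => x ≤ r t⟩,
        pr κ (p t), u t, u' t) : Fin (Q + 1) × Fin (Q + 1) × (A → ZMod 2) × A × A)) hcardT
    simp only [Prod.mk.injEq, Fin.mk.injEq] at hc
    obtain ⟨c1, c2, c3, c4, c5⟩ := hc
    rcases lt_trichotomy a b with h | h | h
    · exact ⟨a, b, h, b.2, c1, c2, c3, c4, c5⟩
    · exact absurd h hab
    · exact ⟨b, a, h, a.2, c1.symm, c2.symm, c3.symm, c4.symm, c5.symm⟩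
  obtain ⟨t, t', htt, ht', c1, c2, c3, c4, c5⟩ := hpig
  have ht : t < M := by omega
  have hrp := hpr t t' htt ht'
  have hlt := h2 t ht
  have hlt' := h2 t' ht'
  refine hn2 ⟨p t, r t, p t', r t', u t, u' t, h4 t ht, hlt, hrp, hlt', hrd t' ht', h5 t ht,
    h6 t ht, ?_, ?_, h7 t ht, h7 t' ht', c3, ?_⟩
  · rw [c4]; exact h5 t' ht'
  · rw [c5]; exact h6 t' ht'
  · intro i hid w hw
    obtain ⟨hs1, hs2⟩ := hsp w ⟨i, hid, hw⟩
    refine ⟨sp w, hs1, hs2, ?_⟩
    by_contra hc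
    rw [not_or] at hc
    have hmem : sp w ∈ Finset.univ.image sp := Finset.mem_image_of_mem sp (Finset.mem_univ w)
    have k1 : sp w < p t' → sp w < p t :=
      wcnt_key _ (fun x => x < p t) (fun x => x < p t') (fun x hx => by omega) c1 (sp w) hmem
    have k2 : sp w ≤ r t' → sp w ≤ r t :=
      wcnt_key _ (fun x => x ≤ r t) (fun x => x ≤ r t') (fun x hx => by omega) c2 (sp w) hmem
    omega

end Pool.Agent.EPH
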