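import Pool.Agent.EPH.WDef

/-!
# EPH-WRed: reduction of the alphabet

The new letter of `a` is the set of the letters occurring before `d` which are related to `a`; letters without related
letters are dropped.
-/

set_option autoImplicit false

open Finset
open scoped Classical

namespace Pool.Agent.EPH

variable {A : Type} [Fintype A]

/-- the letters occurring before `d` which are related to `a` -/
noncomputable def ro (B : A → A → Prop) (d : ℕ) (κ : ℕ → Option A) (a : A) : Finset A :=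
  univ.filter fun b => B a b ∧ ∃ i, i < d ∧ κ i = some b

/-- the reduced word -/
noncomputable def redK (B : A → A → Prop) (d : ℕ) (κ : ℕ → Option A) (i : ℕ) : Option (Finset A) :=
  (κ i).bind fun a => if ro B d κ a = ∅ then none else some (ro B d κ a)

/-- the relation of the new letters -/
def redB (B : A → A → Prop) (d : ℕ) (κ : ℕ → Option A) (R R' : Finset A) : Prop :=
  ∃ a a', (∃ i, i < d ∧ κ i = some a) ∧ (∃ i, i < d ∧ κ i = some a') ∧ ro B d κ a = R ∧ ro B d κ a' = R' ∧ B a a'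

private theorem wr_mem (B : A → A → Prop) (d : ℕ) (κ : ℕ → Option A) (a b : A) :
    b ∈ ro B d κ a ↔ B a b ∧ ∃ i, i < d ∧ κ i = some b := by
  unfold ro
  rw [mem_filter]
  exact ⟨fun h => h.2, fun h => ⟨mem_univ _, h⟩⟩

private theorem wr_key {B : A → A → Prop} (hB : ∀ a b, B a b → B b a) (d : ℕ) (κ : ℕ → Option A) {a a' b b' : A}
    (ha : ∃ i, i < d ∧ κ i = some a) (hb' : ∃ i, i < d ∧ κ i = some b')
    (h1 : ro B d κ b = ro B d κ a) (h2 : ro B d κ b' = ro B d κ a') (h : B b b') : B a a' := by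
  have h3 : b' ∈ ro B d κ b := (wr_mem B d κ b b').2 ⟨h, hb'⟩
  rw [h1, wr_mem] at h3
  have h4 : a ∈ ro B d κ b' := (wr_mem B d κ b' a).2 ⟨hB _ _ h3.1, ha⟩
  rw [h2, wr_mem] at h4
  exact hB _ _ h4.1

private theorem wr_some (B : A → A → Prop) (d : ℕ) (κ : ℕ → Option A) (i : ℕ) (R : Finset A) :
    redK B d κ i = some R ↔ ∃ a, κ i = some a ∧ ro B d κ a ≠ ∅ ∧ ro B d κ a = R := by
  unfold redK
  cases h : κ i with
  | none => simp
  | some a =>
    rw [Option.bind_some]
    by_cases h1 : ro B d κ a = ∅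
    · rw [if_pos h1]
      constructor
      · intro h2
        exact absurd h2 (by simp)
      · rintro ⟨a', h2, h3, _⟩
        rw [Option.some.injEq] at h2
        rw [← h2] at h3
        exact absurd h1 h3
    · rw [if_neg h1, Option.some.injEq]
      constructor
      · intro h2
        exact ⟨a, rfl, h1, h2⟩
      · rintro ⟨a', h2, _, h3⟩
        rw [Option.some.injEq] at h2
        rwa [h2]

private theorem wr_of {B : A → A → Prop} (d : ℕ) (κ : ℕ → Option A) {i j : ℕ} (hj : j < d) {a b : A}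
    (hi : κ i = some a) (hjb : κ j = some b) (h : B a b) : redK B d κ i = some (ro B d κ a) := by
  rw [wr_some]
  refine ⟨a, hi, ?_, rfl⟩
  have h1 : b ∈ ro B d κ a := (wr_mem B d κ a b).2 ⟨h, j, hj, hjb⟩
  intro h2
  rw [h2] at h1
  exact absurd h1 (Finset.notMem_empty _)

theorem redB_symm {B : A → A → Prop} (hB : ∀ a b, B a b → B b a) (d : ℕ) (κ : ℕ → Option A) :
    ∀ R R', redB B d κ R R' → redB B d κ R' R := by
  rintro R R' ⟨a, a', ha, ha', h1, h2, h3⟩
  exact ⟨a', a, ha', ha, h2, h1, hB _ _ h3⟩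

/-- the relation of the letters at two positions is not changed -/
theorem rl_red {B : A → A → Prop} (hB : ∀ a b, B a b → B b a) (d : ℕ) (κ : ℕ → Option A) {i j : ℕ} (hi : i < d)
    (hj : j < d) : rl (redB B d κ) (redK B d κ) i j ↔ rl B κ i j := by
  constructor
  · rintro ⟨R, R', h1, h2, a0, b0, ha0, hb0, h3, h4, h5⟩
    rw [wr_some] at h1 h2
    obtain ⟨a, ha, _, ha1⟩ := h1
    obtain ⟨b, hb, _, hb1⟩ := h2
    exact ⟨a, b, ha, hb, wr_key hB d κ ⟨i, hi, ha⟩ hb0 (h3.trans ha1.symm) (h4.trans hb1.symm) h5⟩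
  · rintro ⟨a, b, ha, hb, h⟩
    exact ⟨_, _, wr_of d κ hj ha hb h, wr_of d κ hi hb ha (hB _ _ h), a, b, ⟨i, hi, ha⟩, ⟨j, hj, hb⟩, rfl, rfl, h⟩

/-- every new letter is related to a new letter -/
theorem red_ne {B : A → A → Prop} (hB : ∀ a b, B a b → B b a) (d : ℕ) (κ : ℕ → Option A) {i : ℕ} (hi : i < d)
    {R : Finset A} (h : redK B d κ i = some R) :
    ∃ j, j < d ∧ ∃ R', redK B d κ j = some R' ∧ redB B d κ R' R := by
  rw [wr_some] at h
  obtain ⟨a, ha, hne, rfl⟩ := h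
  obtain ⟨b, hb⟩ := Finset.nonempty_iff_ne_empty.2 hne
  rw [wr_mem] at hb
  obtain ⟨hab, j, hj, hjb⟩ := hb
  exact ⟨j, hj, _, wr_of d κ hi hjb ha (hB _ _ hab), b, a, ⟨j, hj, hjb⟩, ⟨i, hi, ha⟩, rfl, rfl, hB _ _ hab⟩

/-- different new letters are related to different new letters -/
theorem red_diff {B : A → A → Prop} (hB : ∀ a b, B a b → B b a) (d : ℕ) (κ : ℕ → Option A) {i i' : ℕ} (hi : i < d)
    (hi' : i' < d) {R R' : Finset A} (h : redK B d κ i = some R) (h' : redK B d κ i' = some R') (hne : R ≠ R') :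
    ∃ j, j < d ∧ ∃ X, redK B d κ j = some X ∧ ¬ (redB B d κ X R ↔ redB B d κ X R') := by
  have key : ∀ (i i' : ℕ) (a a' : A), i < d → κ i = some a → κ i' = some a' → i' < d → ∀ b, b ∈ ro B d κ a →
      b ∉ ro B d κ a' → ∃ j, j < d ∧ ∃ X, redK B d κ j = some X ∧ redB B d κ X (ro B d κ a) ∧
        ¬ redB B d κ X (ro B d κ a') := by
    intro i i' a a' hi ha ha' hi' b hb hb'
    rw [wr_mem] at hb
    obtain ⟨hab, j, hj, hjb⟩ := hb
    refine ⟨j, hj, _, wr_of d κ hi hjb ha (hB _ _ hab), ⟨b, a, ⟨j, hj, hjb⟩, ⟨i, hi, ha⟩, rfl, rfl, hB _ _ hab⟩, ?_⟩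
    rintro ⟨b0, a0, hb0, ha0, h1, h2, h3⟩
    apply hb'
    rw [wr_mem]
    exact ⟨hB _ _ (wr_key hB d κ ⟨j, hj, hjb⟩ ha0 h1 h2 h3), j, hj, hjb⟩
  rw [wr_some] at h h'
  obtain ⟨a, ha, hne1, rfl⟩ := h
  obtain ⟨a', ha', hne2, rfl⟩ := h'
  by_cases h1 : ro B d κ a ⊆ ro B d κ a'
  · have h2 : ¬ ro B d κ a' ⊆ ro B d κ a := fun h2 => hne (Finset.Subset.antisymm h1 h2)
    obtain ⟨b, hb, hb'⟩ := Finset.not_subset.1 h2
    obtain ⟨j, hj, X, h3, h4, h5⟩ := key i' i a' a hi' ha' ha hi b hb hb'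
    exact ⟨j, hj, X, h3, fun h6 => h5 (h6.2 h4)⟩
  · obtain ⟨b, hb, hb'⟩ := Finset.not_subset.1 h1
    obtain ⟨j, hj, X, h3, h4, h5⟩ := key i i' a a' hi ha ha' hi' b hb hb'
    exact ⟨j, hj, X, h3, fun h6 => h5 (h6.1 h4)⟩

/-- a position with a dropped letter is not related to any position -/
theorem rl_null {B : A → A → Prop} (hB : ∀ a b, B a b → B b a) (d : ℕ) (κ : ℕ → Option A) {i j : ℕ}
    (h : redK B d κ i = none) (hj : j < d) : ¬ rl B κ i j ∧ ¬ rl B κ j i := by
  have key : ∀ a b, κ i = some a → κ j = some b → ¬ B a b := by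
    intro a b ha hb hab
    rw [wr_of d κ hj ha hb hab] at h
    exact absurd h (by simp)
  constructor
  · rintro ⟨a, b, ha, hb, hab⟩
    exact key a b ha hb hab
  · rintro ⟨b, a, hb, ha, hab⟩
    exact key a b ha hb (hB _ _ hab)

/-- the four arc condition depends on the relation of the positions only -/
theorem four_congr {A A' : Type} {B : A → A → Prop} {B' : A' → A' → Prop} {d : ℕ} {κ : ℕ → Option A}
    {κ' : ℕ → Option A'} (h : ∀ i j, i < d → j < d → (rl B κ i j ↔ rl B' κ' i j)) : Four B d κ ↔ Four B' d κ' := by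
  have hcw : ∀ a b c f, b ≤ d → f ≤ d → cw B κ a b c f = cw B' κ' a b c f := by
    intro a b c f hb hf
    unfold cw
    congr 1
    refine Finset.filter_congr fun p hp => ?_
    rw [mem_product, mem_Ico, mem_Ico] at hp
    exact h p.1 p.2 (lt_of_lt_of_le hp.1.2 hb) (lt_of_lt_of_le hp.2.2 hf)
  unfold Four
  constructor
  · intro h1 l m n h2 h3 h4 h5
    rw [← hcw 0 l m n (by omega) (by omega), ← hcw l m n d (by omega) (by omega)]
    exact h1 l m n h2 h3 h4 h5
  · intro h1 l m n h2 h3 h4 h5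
    rw [hcw 0 l m n (by omega) (by omega), hcw l m n d (by omega) (by omega)]
    exact h1 l m n h2 h3 h4 h5

end Pool.Agent.EPH
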