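import Pool.Agent.EPH.WTwo
import Pool.Agent.EPH.WRun
import Pool.Agent.EPH.WPig
import Pool.Agent.EPH.WRed

/-!
# EPH-WFin: two twins can be erased
-/

set_option autoImplicit false

open Finset
open scoped Classical

namespace Pool.Agent.EPH

private theorem rl_er {A : Type} (B : A → A → Prop) (κ : ℕ → Option A) (i j p r : ℕ) :
    rl B (fun l => if l = i ∨ l = j then none else κ l) p r ↔ (p ≠ i ∧ p ≠ j ∧ r ≠ i ∧ r ≠ j) ∧ rl B κ p r := by
  have e : ∀ l, (fun l => if l = i ∨ l = j then none else κ l) l = if l = i ∨ l = j then none else κ l := fun _ => rfl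
  unfold rl
  constructor
  · rintro ⟨a, b, h1, h2, h3⟩
    rw [e] at h1 h2
    by_cases hp : p = i ∨ p = j
    · rw [if_pos hp] at h1
      cases h1
    · by_cases hr : r = i ∨ r = j
      · rw [if_pos hr] at h2
        cases h2
      · rw [if_neg hp] at h1
        rw [if_neg hr] at h2
        push Not at hp hr
        exact ⟨⟨hp.1, hp.2, hr.1, hr.2⟩, a, b, h1, h2, h3⟩
  · rintro ⟨⟨h4, h5, h6, h7⟩, a, b, h1, h2, h3⟩
    refine ⟨a, b, ?_, ?_, h3⟩
    · rw [e, if_neg (by tauto)]
      exact h1
    · rw [e, if_neg (by tauto)]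
      exact h2

theorem vertex_erase (q : ℕ) : ∃ N : ℕ, ∀ (A : Type) [Fintype A], Fintype.card A ≤ q → ∀ (B : A → A → Prop),
    (∀ a b, B a b → B b a) → (∀ a, ¬ B a a) → ∀ (d : ℕ) (κ : ℕ → Option A), Four B d κ →
    ∀ S : Finset ℕ, (∀ i ∈ S, i < d ∧ κ i ≠ none) → N < S.card →
    ∃ i ∈ S, ∃ j ∈ S, i ≠ j ∧ κ i = κ j ∧ Four B d (fun l => if l = i ∨ l = j then none else κ l) := by
  obtain ⟨N0, hN0⟩ := exists_run (q + 1) (2 ^ q)
  refine ⟨N0 + (q + 1), ?_⟩
  intro A _ hA B hB _ d κ hF S hS hN
  have hFr : Four (redB B d κ) d (redK B d κ) := (four_congr fun i j hi hj => rl_red hB d κ hi hj).2 hF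
  have hO : Fintype.card (Option A) ≤ q + 1 := by
    rw [Fintype.card_option]
    omega
  by_cases h0 : q + 1 < (S.filter fun i => redK B d κ i = none).card
  · obtain ⟨i, hi, j, hj, hij, hk⟩ := Finset.exists_ne_map_eq_of_card_lt_of_maps_to
      (s := S.filter fun i => redK B d κ i = none) (t := (univ : Finset (Option A))) (f := κ)
      (by rw [Finset.card_univ]; omega) (fun i _ => Finset.mem_coe.2 (mem_univ _))
    rw [mem_filter] at hi hj
    refine ⟨i, hi.1, j, hj.1, hij, hk, ?_⟩
    refine (four_congr fun p r hp hr => ?_).1 hF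
    rw [rl_er]
    constructor
    · intro h
      refine ⟨⟨?_, ?_, ?_, ?_⟩, h⟩
      · rintro rfl
        exact (rl_null hB d κ hi.2 hr).1 h
      · rintro rfl
        exact (rl_null hB d κ hj.2 hr).1 h
      · rintro rfl
        exact (rl_null hB d κ hi.2 hp).2 h
      · rintro rfl
        exact (rl_null hB d κ hj.2 hp).2 h
    · exact fun h => h.2
  · have hc := Finset.card_filter_add_card_filter_not (s := S) (fun i => redK B d κ i = none)
    have hF2 : Fintype.card (Finset A) ≤ 2 ^ q := by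
      rw [Fintype.card_finset]
      exact Nat.pow_le_pow_right (by norm_num) hA
    rcases hN0 (Finset A) (Option A) hF2 hO d (redK B d κ) κ (S.filter fun i => ¬ redK B d κ i = none)
      (fun i hi => ⟨(hS i (mem_filter.1 hi).1).1, (mem_filter.1 hi).2⟩) (by omega) with
      ⟨i, hi, j, hj, hij, hcol, hrun⟩ | ⟨i1, j1, i2, j2, u, u', hne, h12, h23, h34, hd, k1, k2, k3, k4, g1, g2, hP, occ⟩
    · rw [mem_filter] at hi hj
      have hjd := (hS j hj.1).1
      obtain ⟨u, hu⟩ := Option.ne_none_iff_exists'.1 hi.2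
      have hju : redK B d κ j = some u := by
        rcases hrun j hij le_rfl with h | h
        · exact absurd h hj.2
        · rw [h, hu]
      have key := erase_run hFr hij hjd hu hju (fun l h1 h2 => by
        rcases hrun l h1 h2.le with h | h
        · exact Or.inl h
        · right
          rw [h, hu])
      refine ⟨i, hi.1, j, hj.1, hij.ne, hcol, ?_⟩
      refine (four_congr fun p r hp hr => ?_).1 key
      rw [rl_er, rl_er, rl_red hB d κ hp hr]
    · have hi1 : i1 < d := by omega
      have hj1 : j1 < d := by omega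
      exact (no_two (redB_symm hB d κ) hFr h12 h23 h34 hd k1 k2 k3 k4 g1 g2 hP occ
        (red_ne hB d κ hi1 k1) (red_ne hB d κ hj1 k2) (red_diff hB d κ hi1 hj1 k1 k2 hne)).elim

end Pool.Agent.EPH
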