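import Mathlib

/-!
# EPH-KRow: a large block contains a q by q block with different symbols or a constant block (Mathlib only)
-/

set_option autoImplicit false

open Finset
open scoped Classical

namespace Pool.Agent.EPH

private theorem kr_pick {β : Type} (q : ℕ) (s : Finset β) (h : q ≤ s.card) :
    ∃ b : Fin q → β, (∀ i, b i ∈ s) ∧ ∀ i j, b i = b j → i = j :=
  ⟨fun i => (s.equivFin.symm (Fin.castLE h i) : β), fun i => (s.equivFin.symm _).2, fun i j hij => by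
    have h1 := s.equivFin.symm.injective (Subtype.ext hij)
    exact Fin.castLE_injective h h1⟩

/-- one row -/
private theorem kr_step {β X : Type} (f : β → X) (J : Finset β) (K : ℕ) (hK : 1 ≤ K) (hJ : K ^ 2 ≤ J.card) :
    ∃ J' ⊆ J, K ≤ J'.card ∧ ((∀ j ∈ J', ∀ j' ∈ J', f j = f j' → j = j') ∨ ∃ x, ∀ j ∈ J', f j = x) := by
  rcases le_total K (J.image f).card with h | h
  · have h1 : ∀ y : X, ∃ j : β, y ∈ J.image f → j ∈ J ∧ f j = y := by
      intro y
      by_cases hy : y ∈ J.image f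
      · obtain ⟨j, hj, hjy⟩ := mem_image.1 hy
        exact ⟨j, fun _ => ⟨hj, hjy⟩⟩
      · have hne : J.Nonempty := by
          rw [← card_pos]
          have : 1 ≤ K ^ 2 := Nat.one_le_pow _ _ hK
          omega
        obtain ⟨j, _⟩ := hne
        exact ⟨j, fun h => absurd h hy⟩
    choose g hg using h1
    refine ⟨(J.image f).image g, ?_, ?_, Or.inl ?_⟩
    · intro j hj
      obtain ⟨y, hy, rfl⟩ := mem_image.1 hj
      exact (hg y hy).1
    · rw [card_image_of_injOn]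
      · exact h
      · intro y hy y' hy' hyy
        have h1 := (hg y hy).2
        have h2 := (hg y' hy').2
        rw [← h1, hyy, h2]
    · intro j hj j' hj' hjj
      obtain ⟨y, hy, rfl⟩ := mem_image.1 hj
      obtain ⟨y', hy', rfl⟩ := mem_image.1 hj'
      rw [(hg y hy).2, (hg y' hy').2] at hjj
      rw [hjj]
  · have hne : (J.image f).Nonempty := by
      rw [image_nonempty, ← card_pos]
      have : 1 ≤ K ^ 2 := Nat.one_le_pow _ _ hK
      omega
    obtain ⟨y, _, hy⟩ := exists_le_card_fiber_of_mul_le_card_of_maps_to (f := f) (s := J) (t := J.image f)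
      (n := K) (fun a ha => mem_image_of_mem f ha) hne (by
        calc (J.image f).card * K ≤ K * K := Nat.mul_le_mul_right K h
          _ = K ^ 2 := by ring
          _ ≤ J.card := hJ)
    refine ⟨J.filter (fun x => f x = y), filter_subset _ _, hy, Or.inr ⟨y, fun j hj => (mem_filter.1 hj).2⟩⟩

/-- all rows -/
private theorem kr_all {α β X : Type} (w : α → β → X) (M : ℕ) (hM : 1 ≤ M) (R : Finset α) :
    ∀ J : Finset β, M ^ (2 ^ R.card) ≤ J.card →
      ∃ J' ⊆ J, M ≤ J'.card ∧ ∀ i ∈ R, (∀ j ∈ J', ∀ j' ∈ J', w i j = w i j' → j = j') ∨ ∃ x, ∀ j ∈ J', w i j = x := by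
  induction R using Finset.induction_on with
  | empty =>
    intro J hJ
    refine ⟨J, Subset.rfl, ?_, ?_⟩
    · rw [card_empty, pow_zero, pow_one] at hJ
      exact hJ
    · intro i hi
      exact absurd hi (notMem_empty i)
  | insert a R ha ih =>
    intro J hJ
    rw [card_insert_of_notMem ha, pow_succ, pow_mul] at hJ
    obtain ⟨J1, hJ1, hc1, h1⟩ := kr_step (w a) J (M ^ (2 ^ R.card)) (Nat.one_le_pow _ _ hM) hJ
    obtain ⟨J2, hJ2, hc2, h2⟩ := ih J1 hc1
    refine ⟨J2, hJ2.trans hJ1, hc2, fun i hi => ?_⟩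
    rcases mem_insert.1 hi with rfl | hi
    · rcases h1 with h1 | ⟨x, h1⟩
      · exact Or.inl fun j hj j' hj' h => h1 j (hJ2 hj) j' (hJ2 hj') h
      · exact Or.inr ⟨x, fun j hj => h1 j (hJ2 hj)⟩
    · exact h2 i hi

/-- `q` injective rows -/
private theorem kr_inj {α β X : Type} (q : ℕ) (F : α → X → Prop) (w : α → β → X)
    (I : Finset α) (J : Finset β) (hw : ∀ i ∈ I, ∀ j ∈ J, F i (w i j))
    (hF : ∀ i ∈ I, ∀ i' ∈ I, i ≠ i' → ∀ x y z, x ≠ y → x ≠ z → y ≠ z → F i x → F i y → F i z → F i' x → F i' y → F i' z →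
      False) (a : Fin q → α) (haI : ∀ i, a i ∈ I) (hainj : ∀ i j, a i = a j → i = j)
    (hrow : ∀ i, ∀ j ∈ J, ∀ j' ∈ J, w (a i) j = w (a i) j' → j = j')
    (hJ : q + 2 * q ^ 2 + 3 ≤ J.card) :
    ∃ b : Fin q → β, (∀ i, b i ∈ J) ∧ (∀ i i', b i = b i' → i = i') ∧
      ∀ i j i' j', w (a i) (b j) = w (a i') (b j') → i = i' ∧ j = j' := by
  set bad : Fin q × Fin q → Finset β := fun p =>
    J.filter (fun j => p.1 ≠ p.2 ∧ F (a p.2) (w (a p.1) j)) with hbad
  have h1 : ∀ p, (bad p).card ≤ 2 := by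
    intro p
    by_contra hcon
    push Not at hcon
    obtain ⟨b, hb, hbi⟩ := kr_pick 3 (bad p) hcon
    have hb' : ∀ i, b i ∈ J ∧ p.1 ≠ p.2 ∧ F (a p.2) (w (a p.1) (b i)) := fun i => mem_filter.1 (hb i)
    have hne : a p.1 ≠ a p.2 := fun h => (hb' 0).2.1 (hainj _ _ h)
    have hd : ∀ i j, i ≠ j → w (a p.1) (b i) ≠ w (a p.1) (b j) := fun i j hij h =>
      hij (hbi i j (hrow p.1 _ (hb' i).1 _ (hb' j).1 h))
    exact hF (a p.1) (haI _) (a p.2) (haI _) hne _ _ _ (hd 0 1 (by decide)) (hd 0 2 (by decide))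
      (hd 1 2 (by decide)) (hw _ (haI _) _ (hb' 0).1) (hw _ (haI _) _ (hb' 1).1) (hw _ (haI _) _ (hb' 2).1)
      (hb' 0).2.2 (hb' 1).2.2 (hb' 2).2.2
  have h2 : (Finset.univ.biUnion bad).card ≤ 2 * q ^ 2 := by
    have h3 := card_biUnion_le_card_mul (Finset.univ : Finset (Fin q × Fin q)) bad 2 (fun p _ => h1 p)
    rw [Finset.card_univ, Fintype.card_prod, Fintype.card_fin] at h3
    refine h3.trans (le_of_eq ?_)
    ring
  have h3 : q ≤ (J \ Finset.univ.biUnion bad).card := by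
    have h4 := le_card_sdiff (Finset.univ.biUnion bad) J
    omega
  obtain ⟨b, hb, hbi⟩ := kr_pick q _ h3
  have hbJ : ∀ i, b i ∈ J := fun i => (mem_sdiff.1 (hb i)).1
  refine ⟨b, hbJ, hbi, ?_⟩
  intro i j i' j' h
  by_cases hii : i = i'
  · subst hii
    exact ⟨rfl, hbi _ _ (hrow i _ (hbJ j) _ (hbJ j') h)⟩
  · exfalso
    refine (mem_sdiff.1 (hb j)).2 (mem_biUnion.2 ⟨(i, i'), mem_univ _, mem_filter.2 ⟨hbJ j, hii, ?_⟩⟩)
    show F (a i') (w (a i) (b j))
    rw [h]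
    exact hw _ (haI _) _ (hbJ j')

theorem block (q r : ℕ) : ∃ N : ℕ, ∀ (α β X : Type) (F : α → X → Prop) (G : β → X → Prop) (w : α → β → X)
    (I : Finset α) (J : Finset β), (∀ i ∈ I, ∀ j ∈ J, F i (w i j) ∧ G j (w i j)) →
    (∀ i ∈ I, ∀ i' ∈ I, i ≠ i' → ∀ x y z, x ≠ y → x ≠ z → y ≠ z → F i x → F i y → F i z → F i' x → F i' y → F i' z →
      False) →
    (∀ x y, x ≠ y → ∀ j1 ∈ J, ∀ j2 ∈ J, ∀ j3 ∈ J, j1 ≠ j2 → j1 ≠ j3 → j2 ≠ j3 → G j1 x → G j2 x → G j3 x →
      G j1 y → G j2 y → G j3 y → False) →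
    N ≤ I.card → N ≤ J.card →
    (∃ (a : Fin q → α) (b : Fin q → β), (∀ i, a i ∈ I) ∧ (∀ i, b i ∈ J) ∧ (∀ i i', a i = a i' → i = i') ∧
      (∀ i i', b i = b i' → i = i') ∧ ∀ i j i' j', w (a i) (b j) = w (a i') (b j') → i = i' ∧ j = j') ∨
    ∃ x, ∃ I' ⊆ I, ∃ J' ⊆ J, r ≤ I'.card ∧ r ≤ J'.card ∧ (∀ i ∈ I', F i x) ∧ ∀ j ∈ J', G j x := by
  refine ⟨max (r + q) ((max r (q + 2 * q ^ 2 + 3)) ^ (2 ^ (r + q))), ?_⟩
  intro α β X F G w I J hw hF hG hI hJ
  obtain ⟨R, hRI, hRc⟩ := exists_subset_card_eq (le_trans (le_max_left _ _) hI)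
  have hM1 : 1 ≤ max r (q + 2 * q ^ 2 + 3) := le_trans (by omega) (le_max_right r _)
  obtain ⟨J', hJ', hc, hrow⟩ := kr_all w (max r (q + 2 * q ^ 2 + 3)) hM1 R J (by
    rw [hRc]
    exact le_trans (le_max_right _ _) hJ)
  have hc21 : q + 2 * q ^ 2 + 3 ≤ J'.card := le_trans (le_max_right _ _) hc
  have hcr : r ≤ J'.card := le_trans (le_max_left _ _) hc
  set A := R.filter (fun i => ∀ j ∈ J', ∀ j' ∈ J', w i j = w i j' → j = j') with hA
  set C := R.filter (fun i => ¬ ∀ j ∈ J', ∀ j' ∈ J', w i j = w i j' → j = j') with hC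
  have hAC : A.card + C.card = R.card := card_filter_add_card_filter_not _
  rcases le_or_gt q A.card with h3 | h3
  · left
    obtain ⟨a, ha, hai⟩ := kr_pick q A h3
    have haR : ∀ i, a i ∈ R := fun i => (mem_filter.1 (ha i)).1
    obtain ⟨b, hb1, hb2, hb3⟩ := kr_inj q F w I J' (fun i hi j hj => (hw i hi j (hJ' hj)).1) hF a
      (fun i => hRI (haR i)) hai (fun i => (mem_filter.1 (ha i)).2) hc21
    exact ⟨a, b, fun i => hRI (haR i), fun i => hJ' (hb1 i), hai, hb2, hb3⟩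
  · right
    have hCr : r + 1 ≤ C.card := by omega
    have hCne : C.Nonempty := card_pos.1 (by omega)
    obtain ⟨i0, hi0⟩ := hCne
    have hconst : ∀ i ∈ C, ∃ x, ∀ j ∈ J', w i j = x := by
      intro i hi
      have h := mem_filter.1 hi
      exact (hrow i h.1).resolve_left h.2
    obtain ⟨x, hx⟩ := hconst i0 hi0
    have hCI : ∀ i ∈ C, i ∈ I := fun i hi => hRI (mem_filter.1 hi).1
    have hGx : ∀ j ∈ J', G j x := by
      intro j hj
      rw [← hx j hj]
      exact (hw i0 (hCI i0 hi0) j (hJ' hj)).2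
    refine ⟨x, C, fun i hi => hCI i hi, J', hJ', by omega, hcr, ?_, hGx⟩
    intro i hi
    obtain ⟨y, hy⟩ := hconst i hi
    obtain ⟨b, hb, hbi⟩ := kr_pick 3 J' (le_trans (by omega) hc21)
    have hGy : ∀ j ∈ J', G j y := by
      intro j hj
      rw [← hy j hj]
      exact (hw i (hCI i hi) j (hJ' hj)).2
    have hxy : x = y := by
      by_contra hne
      exact hG x y hne (b 0) (hJ' (hb 0)) (b 1) (hJ' (hb 1)) (b 2) (hJ' (hb 2))
        (fun h => absurd (hbi _ _ h) (by decide)) (fun h => absurd (hbi _ _ h) (by decide))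
        (fun h => absurd (hbi _ _ h) (by decide)) (hGx _ (hb 0)) (hGx _ (hb 1)) (hGx _ (hb 2))
        (hGy _ (hb 0)) (hGy _ (hb 1)) (hGy _ (hb 2))
    rw [hxy, ← hy (b 0) (hb 0)]
    exact (hw i (hCI i hi) _ (hJ' (hb 0))).1

end Pool.Agent.EPH
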