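import Pool.Agent.EPH.XCfgA
import Pool.Agent.EPH.WDef

/-!
# EPH-KWrd: the four arc condition in terms of the faces at the vertex
-/

set_option autoImplicit false

open Finset
open scoped Classical

namespace Pool.Agent.EPH

open Pool.Agent.BEO hiding Cfg Frame

variable {k : ℕ} {Φ Vt Z : Type} [Fintype Φ] [Fintype Vt] [AddCommGroup Z] [Module F2 Z]

variable (S : Sys k Φ Vt Z)

theorem cnt_gr (lam : Finset (Ch S.P)) (v : Vt) (a b c f : ℕ) (hf : f ≤ S.P.d v) (hbc : b < c)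
    (hgap : 0 < a ∨ f < S.P.d v) :
    cnt lam v a b c f = ((Ico a b ×ˢ Ico c f).filter fun p => (S.D.gr lam).Adj (S.P.fc v p.1) (S.P.fc v p.2)).card := by
  unfold cnt
  refine card_bij (fun e _ => (e.lo, e.hi)) ?_ ?_ ?_
  · intro e he
    obtain ⟨hel, hv, h1, h2, h3, h4⟩ := mem_filter.1 he
    refine mem_filter.2 ⟨mem_product.2 ⟨mem_Ico.2 ⟨h1, h2⟩, mem_Ico.2 ⟨h3, h4⟩⟩, ?_⟩
    rw [← SimpleGraph.mem_edgeSet, gr_mem]
    refine ⟨e, hel, ?_⟩
    rw [S.hs, S.ht, hv]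
  · intro e he e' he' hee
    obtain ⟨-, hv, -⟩ := mem_filter.1 he
    obtain ⟨-, hv', -⟩ := mem_filter.1 he'
    obtain ⟨⟨w, i, j⟩, h⟩ := e
    obtain ⟨⟨w', i', j'⟩, h'⟩ := e'
    obtain rfl : w = v := hv
    obtain rfl : w' = w := hv'
    obtain ⟨h1, h2⟩ := Prod.mk.inj hee
    obtain rfl : i = i' := Fin.ext h1
    obtain rfl : j = j' := Fin.ext h2
    rfl
  · rintro ⟨i, j⟩ hij
    obtain ⟨hp, hadj⟩ := mem_filter.1 hij
    rw [mem_product, mem_Ico, mem_Ico] at hp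
    obtain ⟨⟨h1, h2⟩, h3, h4⟩ := hp
    change a ≤ i at h1
    change i < b at h2
    change c ≤ j at h3
    change j < f at h4
    have hne : S.P.fc v i ≠ S.P.fc v j := hadj.ne
    obtain ⟨e, hel, he⟩ := (gr_mem S lam s(S.P.fc v i, S.P.fc v j)).1 hadj
    rw [S.hs, S.ht] at he
    have hOn1 : On S.P e.vx (S.P.fc e.vx e.lo) := ⟨e.lo, e.1.2.1.2, rfl⟩
    have hOn2 : On S.P e.vx (S.P.fc e.vx e.hi) := ⟨e.hi, e.1.2.2.2, rfl⟩
    have hlo : e.lo < S.P.d e.vx := e.1.2.1.2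
    have hhi : e.hi < S.P.d e.vx := e.1.2.2.2
    have hlt : e.lo < e.hi := e.2
    have hOn : On S.P e.vx (S.P.fc v i) ∧ On S.P e.vx (S.P.fc v j) := by
      rcases Sym2.eq_iff.1 he with ⟨h5, h6⟩ | ⟨h5, h6⟩
      · rw [← h5, ← h6]
        exact ⟨hOn1, hOn2⟩
      · rw [← h5, ← h6]
        exact ⟨hOn2, hOn1⟩
    have hv : e.vx = v := by
      by_contra hvne
      have h7 := S.pol.two v e.vx _ _ (Ne.symm hvne) hne ⟨i, by omega, rfl⟩ ⟨j, by omega, rfl⟩ hOn.1 hOn.2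
        i j (by omega) (by omega) rfl rfl
      unfold Nxt at h7
      omega
    rw [hv] at he hlo hhi
    rcases Sym2.eq_iff.1 he with ⟨h5, h6⟩ | ⟨h5, h6⟩
    · have h8 := S.P.inj v _ _ hlo (by omega) h5
      have h9 := S.P.inj v _ _ hhi (by omega) h6
      refine ⟨e, mem_filter.2 ⟨hel, hv, ?_, ?_, ?_, ?_⟩, ?_⟩
      · omega
      · omega
      · omega
      · omega
      · show (e.lo, e.hi) = (i, j)
        rw [h8, h9]
    · have h8 := S.P.inj v _ _ hlo (by omega) h5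
      have h9 := S.P.inj v _ _ hhi (by omega) h6
      omega

/-- the condition at `v` as a condition for a word `κ` with a relation `B` on its letters -/
theorem realAt_iff {A : Type} (lam : Finset (Ch S.P)) (v : Vt) (B : A → A → Prop) (κ : ℕ → Option A)
    (h : ∀ i j, i < S.P.d v → j < S.P.d v → ((S.D.gr lam).Adj (S.P.fc v i) (S.P.fc v j) ↔ rl B κ i j)) :
    RealAt S.P lam v ↔ Four B (S.P.d v) κ := by
  have key : ∀ a b c f, f ≤ S.P.d v → b < c → (0 < a ∨ f < S.P.d v) → c ≤ S.P.d v →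
      cnt lam v a b c f = cw B κ a b c f := by
    intro a b c f hf hbc hgap hc
    rw [cnt_gr S lam v a b c f hf hbc hgap]
    unfold cw
    congr 1
    ext ⟨i, j⟩
    rw [mem_filter, mem_filter]
    refine and_congr_right fun hp => ?_
    rw [mem_product, mem_Ico, mem_Ico] at hp
    obtain ⟨⟨h1, h2⟩, h3, h4⟩ := hp
    change i < b at h2
    change j < f at h4
    exact h i j (by omega) (by omega)
  constructor
  · intro hR l m n h1 h2 h3 h4
    have := hR l m n h1 h2 h3 h4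
    rwa [key 0 l m n h4.le h2 (Or.inr h4) (by omega), key l m n _ le_rfl h3 (Or.inl h1) h4.le] at this
  · intro hR l m n h1 h2 h3 h4
    have := hR l m n h1 h2 h3 h4
    rwa [← key 0 l m n h4.le h2 (Or.inr h4) (by omega), ← key l m n _ le_rfl h3 (Or.inl h1) h4.le] at this

end Pool.Agent.EPH
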