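import Pool.Agent.EPH.LRot
import Pool.Agent.EPH.LDef

/-!
# EPH-LCor: the corners of a polyhedral map
-/

set_option autoImplicit false

open Finset
open scoped Classical

namespace Pool.Agent.EPH

open Pool.Agent.BEO
open Pool.Agent.Helper35.OG hiding F2 dg

variable {V : Type} {G : SimpleGraph V} [Fintype V]

theorem cf_face_inj (S : GMap G) (hP : Poly S) {b : V → Flag G} (hb : IsBase b) (v : V) {i j : ℕ}
    (hi : i < (nb G v).card) (hj : j < (nb G v).card) (h : S.face (cf S b v i) = S.face (cf S b v j)) : i = j := by
  rcases hP.one (cf S b v i) (cf S b v j) ((cf_fst S hb v i).trans (cf_fst S hb v j).symm) h with h1 | h1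
  · exact (cf_inj S hb v hj hi h1).symm
  · rw [nxt_cf] at h1
    exact absurd h1 (cf_ne_side S b v j (i + 1))

/-- the corners of a polyhedral map -/
noncomputable def corS (S : GMap G) (hP : Poly S) (b : V → Flag G) (hb : IsBase b) : Cor S.Face V where
  d v := (nb G v).card
  fc v i := S.face (cf S b v i)
  inj v _ _ hi hj h := cf_face_inj S hP hb v hi hj h

/-- the face on the other side of a dart -/
theorem face_side_cf (S : GMap G) (b : V → Flag G) (v : V) (i : ℕ) :
    S.face (side (cf S b v (i + 1))) = S.face (cf S b v i) := by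
  rw [← nxt_cf, face_nxt]

end Pool.Agent.EPH
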