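import Pool.Agent.EPH.LTw

/-!
# EPH-LEvc: a walk crosses the path an even number of times

PLAN. `A F := ∃ g ∈ l, F = S.face (cf S b g.vx g.lo) ∨ F = S.face (cf S b g.vx g.hi)`; `h1` holds for `l`, and `h2` for `l'` by `hsp`. `ζ` from
`exists_zeta`. (1) `clsL S l' ζ = 0`: every chord `g'` of `l'` has the value 0: `zeta_far` at `g'.vx` (no chord of `l` there, faces not in
`A`). (2) `frm S ζ ζ = clsL S l ζ = clsL S l' ζ = 0` (`frm_zeta`, `hcls`). (3) by `hm.adm`: `∑ h ∈ mu, (cc .. h.lo + cc .. h.hi) ζ = 0`.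
(4) for `h ∈ mu` which is not `e t` with `α ≤ t < β` the value is 0: `zeta_far` (by `ht.near` no chord of `l` is at `h.vx` and the faces
of `h` are not in `A`). (5) for `α ≤ t < β`, `h = e t`: no chord of `l'` is at `(e t).vx`: otherwise `ht'.near` gives `e t = e t'` with
`α' ≤ t' < β'`, so `t = t'` (`hm.inj`), contradicting `hd`. `zeta_near`: the value is `K t + K (t + 1)` where `K t := if A (q t) then 1
else κ (ed r)` for any flag `r` on `q t` (`hm.face`, both orders): for `α ≤ t ≤ β` and `q t` not in `A` the colouring is constant on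
`q t` (`face_const`: `hit S l r = 0`, `hit S l' r = 0` for `r` on `q t` by `hit_ne`, as `q t` is no face of `l` resp. of `l'` by `ht'.face`:
`t ≤ α'` or `β' ≤ t` by `hd`). Choose a flag `r t` on `q t` for every `t ≤ N` (`Quot.exists_rep`). (6) the sum over `mu` is the sum over the
image of `Ico α β` under the injective `e`: `∑ t ∈ Ico α β, (K t + K (t + 1)) = K α + K β` (`x + x = 0`, `Finset.sum_Ico_consecutive` or
induction), and `q α`, `q β` are not in `A` (`ht.face`).
-/

set_option autoImplicit false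

open Finset
open scoped Classical

namespace Pool.Agent.EPH

open Pool.Agent.BEO
open Pool.Agent.Helper35.OG hiding F2 dg

variable {V : Type} {G : SimpleGraph V} [Fintype V]

variable {S : GMap G} {hP : Poly S} {b : V → Flag G} {hb : IsBase b}

private theorem ev_list (l : List (Ch (corS S hP b hb))) (ζ : cyc G)
    (h : ∀ e ∈ l, (cc S b e.vx e.lo + cc S b e.vx e.hi) ζ = 0) : clsL S l ζ = 0 := by
  unfold clsL
  induction l with
  | nil => rfl
  | cons a l ih =>
    rw [List.map_cons, List.sum_cons, LinearMap.add_apply, h a List.mem_cons_self,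
      ih fun e he => h e (List.mem_cons_of_mem _ he), add_zero]

private theorem ev_tel (f : ℕ → F2) (a c : ℕ) (h : a ≤ c) : ∑ t ∈ Ico a c, (f t + f (t + 1)) = f a + f c := by
  have h2 : ∀ x : F2, x + x = 0 := by decide
  induction c, h using Nat.le_induction with
  | base => rw [Ico_self, sum_empty, h2]
  | succ c hc ih =>
    rw [sum_Ico_succ_top hc, ih]
    have h3 : ∀ x y z : F2, x + y + (y + z) = x + z := by decide
    exact h3 _ _ _

theorem even_cross {mu : Finset (Ch (corS S hP b hb))} {N : ℕ} {q : ℕ → S.Face} {e : ℕ → Ch (corS S hP b hb)}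
    (hm : PM S mu N q e) {l l' : List (Ch (corS S hP b hb))} {α β α' β' : ℕ} (ht : TW S mu N q e l α β)
    (ht' : TW S mu N q e l' α' β') (hd : β ≤ α' ∨ β' ≤ α) (hsp : SP S l l') (hcls : clsL S l = clsL S l')
    (κ : G.edgeSet → F2) (hκ : ∀ q, κ (ed q) + κ (ed (S.nxt q)) = hit S l q + hit S l' q) (p p' : Flag G)
    (hp : S.face p = q α) (hp' : S.face p' = q β) : κ (ed p) = κ (ed p') := by
  obtain ⟨A, hA⟩ : ∃ A : S.Face → Prop, ∀ F, A F ↔
      ∃ g ∈ l, F = S.face (cf S b g.vx g.lo) ∨ F = S.face (cf S b g.vx g.hi) := ⟨_, fun _ => Iff.rfl⟩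
  have h1 : ∀ e ∈ l, A (S.face (cf S b e.vx e.lo)) ∧ A (S.face (cf S b e.vx e.hi)) := fun e he =>
    ⟨(hA _).2 ⟨e, he, Or.inl rfl⟩, (hA _).2 ⟨e, he, Or.inr rfl⟩⟩
  have h2 : ∀ e ∈ l', ¬ A (S.face (cf S b e.vx e.lo)) ∧ ¬ A (S.face (cf S b e.vx e.hi)) := by
    intro e' he'
    constructor
    · intro h
      obtain ⟨g, hg, h3 | h3⟩ := (hA _).1 h
      · exact hsp.ll g hg e' he' h3.symm
      · exact hsp.hl g hg e' he' h3.symm
    · intro h
      obtain ⟨g, hg, h3 | h3⟩ := (hA _).1 h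
      · exact hsp.lh g hg e' he' h3.symm
      · exact hsp.hh g hg e' he' h3.symm
  obtain ⟨ζ, hζ⟩ := exists_zeta S l l' κ hκ A h1 h2
  have e1 : clsL S l' ζ = 0 := ev_list l' ζ fun g hg =>
    zeta_far S l l' κ hκ A h1 h2 ζ hζ g.vx (fun g' hg' => hsp.vx g' hg' g hg) g.lo g.hi (h2 g hg).1 (h2 g hg).2
  have e3 : ∑ h ∈ mu, (cc S b h.vx h.lo + cc S b h.vx h.hi) ζ = 0 := by
    rw [← hm.adm ζ, frm_zeta S l l' κ hκ A h1 h2 ζ hζ ζ, hcls, e1]
  have e4 : ∀ h ∈ mu, h ∉ (Ico α β).image e → (cc S b h.vx h.lo + cc S b h.vx h.hi) ζ = 0 := by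
    intro h hh hn
    have hn' : ∀ g ∈ l, ¬ (S.face (cf S b h.vx h.lo) = S.face (cf S b g.vx g.lo) ∨
        S.face (cf S b h.vx h.lo) = S.face (cf S b g.vx g.hi) ∨ S.face (cf S b h.vx h.hi) = S.face (cf S b g.vx g.lo) ∨
        S.face (cf S b h.vx h.hi) = S.face (cf S b g.vx g.hi) ∨ h.vx = g.vx) := by
      intro g hg hc
      obtain ⟨t, a1, a2, a3⟩ := ht.near g hg h hh hc
      exact hn (mem_image.2 ⟨t, mem_Ico.2 ⟨a1, a2⟩, a3.symm⟩)
    refine zeta_far S l l' κ hκ A h1 h2 ζ hζ h.vx (fun g hg hc => hn' g hg ?_) h.lo h.hi (fun hc => ?_) (fun hc => ?_)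
    · exact Or.inr (Or.inr (Or.inr (Or.inr hc.symm)))
    · obtain ⟨g, hg, a | a⟩ := (hA _).1 hc
      · exact hn' g hg (Or.inl a)
      · exact hn' g hg (Or.inr (Or.inl a))
    · obtain ⟨g, hg, a | a⟩ := (hA _).1 hc
      · exact hn' g hg (Or.inr (Or.inr (Or.inl a)))
      · exact hn' g hg (Or.inr (Or.inr (Or.inr (Or.inl a))))
  have hr : ∀ F : S.Face, ∃ r : Flag G, S.face r = F := fun F => Quot.exists_rep F
  choose r hr using hr
  -- the value at a face of the path
  have hK : ∀ t, α ≤ t → t ≤ β → ∀ x : Flag G, S.face x = q t →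
      (if A (S.face x) then 1 else κ (ed x)) = if A (q t) then 1 else κ (ed (r (q t))) := by
    intro t t1 t2 x hx
    rw [hx]
    by_cases hAt : A (q t)
    · rw [if_pos hAt, if_pos hAt]
    · rw [if_neg hAt, if_neg hAt]
      refine face_const S κ (q t) (fun y hy => ?_) hx (hr _)
      rw [hκ y]
      have z1 : hit S l y = 0 := by
        by_contra hc
        obtain ⟨g, hg, -, a⟩ := hit_ne S l y hc
        rw [hy] at a
        exact hAt ((hA _).2 ⟨g, hg, a⟩)
      have z2 : hit S l' y = 0 := by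
        by_contra hc
        obtain ⟨g, hg, -, a⟩ := hit_ne S l' y hc
        rw [hy] at a
        have h3 := ht'.face g hg t (t2.trans ht.le) (by
          rcases hd with hd | hd
          · exact Or.inl (t2.trans hd)
          · exact Or.inr (hd.trans t1))
        rcases a with a | a
        · exact h3.1 a.symm
        · exact h3.2 a.symm
      rw [z1, z2, add_zero]
  have e5 : ∀ t ∈ Ico α β, (cc S b (e t).vx (e t).lo + cc S b (e t).vx (e t).hi) ζ =
      (if A (q t) then 1 else κ (ed (r (q t)))) + (if A (q (t + 1)) then 1 else κ (ed (r (q (t + 1))))) := by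
    intro t htm
    obtain ⟨t1, t2⟩ := mem_Ico.1 htm
    have htN : t < N := lt_of_lt_of_le t2 ht.le
    rw [zeta_near S l l' κ hκ A h1 h2 ζ hζ (e t).vx (fun g hg hc => ?_) (e t).lo (e t).hi]
    · rcases Sym2.eq_iff.1 (hm.face t htN) with ⟨a1, a2⟩ | ⟨a1, a2⟩
      · rw [hK t t1 t2.le _ a1, hK (t + 1) (by omega) t2 _ a2]
      · rw [hK (t + 1) (by omega) t2 _ a1, hK t t1 t2.le _ a2, add_comm]
    · obtain ⟨t', b1, b2, b3⟩ := ht'.near g hg (e t) (hm.mem t htN) (Or.inr (Or.inr (Or.inr (Or.inr hc.symm))))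
      have h3 := hm.inj t t' htN (lt_of_lt_of_le b2 ht'.le) b3
      omega
  have hsub : (Ico α β).image e ⊆ mu := by
    intro h hh
    obtain ⟨t, htm, rfl⟩ := mem_image.1 hh
    exact hm.mem t (lt_of_lt_of_le (mem_Ico.1 htm).2 ht.le)
  rw [← sum_subset hsub e4, sum_image, sum_congr rfl e5,
    ev_tel (fun t => if A (q t) then 1 else κ (ed (r (q t)))) α β ht.lt.le] at e3
  · have nA : ∀ t, t ≤ N → t ≤ α ∨ β ≤ t → ¬ A (q t) := by
      intro t h3 h4 hc
      obtain ⟨g, hg, a | a⟩ := (hA _).1 hc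
      · exact (ht.face g hg t h3 h4).1 a.symm
      · exact (ht.face g hg t h3 h4).2 a.symm
    have n1 := nA α (ht.lt.le.trans ht.le) (Or.inl le_rfl)
    have n2 := nA β ht.le (Or.inr le_rfl)
    have k1 := hK α le_rfl ht.lt.le p hp
    have k2 := hK β ht.lt.le le_rfl p' hp'
    rw [hp] at k1
    rw [hp'] at k2
    beta_reduce at e3
    rw [← k1, ← k2, if_neg n1, if_neg n2] at e3
    have h3 : ∀ x y : F2, x + y = 0 → x = y := by decide
    exact h3 _ _ e3
  · intro t htm t' htm' h3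
    exact hm.inj t t' (lt_of_lt_of_le (mem_Ico.1 htm).2 ht.le) (lt_of_lt_of_le (mem_Ico.1 htm').2 ht.le) h3

end Pool.Agent.EPH
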