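import Pool.Agent.EPH.LCol
import Pool.Agent.EPH.LCor

/-!
# EPH-LHit: corners hit by a list of chords

The colourings are those of `Pool/Agent/EPH/LRect.lean` (complete proof for rectangles; reuse its code: `lr_two`, `hσ1`, `hσ2`,
`hval`, `hmain`, `lr_vertex`, `lr_face`). `hit_cf`: `cf_face_inj`. `hit_zero`, `hit_cc`: exchange the sum over the list with the
others (induction on `l` with `hit_cons`, `clsL_cons`): a chord `e` contributes `1 + 1 = 0` at `v = e.vx`, resp.
`cc S b e.vx e.lo z + cc S b e.vx e.hi z` (`lr_two`). `chg_all`: every flag is `cf S b v m` or `side (cf S b v m)` (`cf_cover`,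
`nxt_cf`, `nxt_side_cf`, `cf_period`), as `hmain` in LRect; both sides do not change under `side` resp. are equal for the two
flags of a corner (`hN`). `cyc_zero`: `wd_cyc` in `Pool/Agent/EAD/LWid.lean`. `vert_const`, `face_const`: `lr_vertex`, `lr_face` in
LRect.
-/

set_option autoImplicit false

open Finset
open scoped Classical

namespace Pool.Agent.EPH

open Pool.Agent.BEO
open Pool.Agent.Helper35.OG hiding F2 dg

variable {V : Type} {G : SimpleGraph V} [Fintype V]

/-- number (modulo 2) of the ends of the chords of `l` at the corner of `q` -/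
noncomputable def hit (S : GMap G) {hP : Poly S} {b : V → Flag G} {hb : IsBase b} (l : List (Ch (corS S hP b hb)))
    (q : Flag G) : F2 :=
  (l.map fun e => if q.1.fst = e.vx ∧ (S.face q = S.face (cf S b e.vx e.lo) ∨ S.face q = S.face (cf S b e.vx e.hi))
    then (1 : F2) else 0).sum

/-- the class of a list of chords -/
noncomputable def clsL (S : GMap G) {hP : Poly S} {b : V → Flag G} {hb : IsBase b} (l : List (Ch (corS S hP b hb))) :
    cyc G →ₗ[F2] F2 :=
  (l.map fun e => cc S b e.vx e.lo + cc S b e.vx e.hi).sum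

variable (S : GMap G) {hP : Poly S} {b : V → Flag G} {hb : IsBase b} (l l' : List (Ch (corS S hP b hb)))

theorem hit_append (q : Flag G) : hit S (l ++ l') q = hit S l q + hit S l' q := by
  unfold hit
  rw [List.map_append, List.sum_append]

theorem clsL_append : clsL S (l ++ l') = clsL S l + clsL S l' := by
  unfold clsL
  rw [List.map_append, List.sum_append]

theorem hit_nxt (q : Flag G) : hit S l (S.nxt q) = hit S l q := by
  unfold hit
  rw [S.nxt_fst, face_nxt]

theorem hit_ne (q : Flag G) (h : hit S l q ≠ 0) : ∃ e ∈ l, q.1.fst = e.vx ∧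
    (S.face q = S.face (cf S b e.vx e.lo) ∨ S.face q = S.face (cf S b e.vx e.hi)) := by
  by_contra hcon
  push Not at hcon
  apply h
  unfold hit
  apply List.sum_eq_zero
  intro x hx
  obtain ⟨e, he, rfl⟩ := List.mem_map.1 hx
  rw [if_neg]
  rintro ⟨h1, h2 | h2⟩
  · exact (hcon e he h1).1 h2
  · exact (hcon e he h1).2 h2

private theorem lh_add_self (x : F2) : x + x = 0 := CharTwo.add_self_eq_zero x

private theorem lh_two (d m n : ℕ) (hm : m < d) (hn : n < d) (hmn : m ≠ n) (φ : ℕ → F2) :
    ∑ i ∈ range d, (if i = m ∨ i = n then (1 : F2) else 0) * φ i = φ m + φ n := by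
  have h1 : ∀ i ∈ range d, (if i = m ∨ i = n then (1 : F2) else 0) * φ i =
      (if i = m then φ i else 0) + (if i = n then φ i else 0) := by
    intro i _
    by_cases h : i = m
    · rw [if_pos (Or.inl h), if_pos h, if_neg (by omega), one_mul, add_zero]
    · by_cases h' : i = n
      · rw [if_pos (Or.inr h'), if_neg h, if_pos h', one_mul, zero_add]
      · rw [if_neg (by omega), if_neg h, if_neg h', zero_mul, add_zero]
  rw [Finset.sum_congr rfl h1, Finset.sum_add_distrib, Finset.sum_ite_eq', Finset.sum_ite_eq',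
    if_pos (mem_range.2 hm), if_pos (mem_range.2 hn)]

private theorem lh_sum {α : Type} (s : Finset α) {β : Type} (l : List β) (w : β → α → F2) :
    ∑ i ∈ s, (l.map fun e => w e i).sum = (l.map fun e => ∑ i ∈ s, w e i).sum := by
  induction l with
  | nil => simp
  | cons a l ih => simp only [List.map_cons, List.sum_cons, sum_add_distrib, ih]

theorem hit_cf (v : V) (m : ℕ) (hm : m < (nb G v).card) : hit S l (cf S b v m) =
    (l.map fun e => if v = e.vx ∧ (m = e.lo ∨ m = e.hi) then (1 : F2) else 0).sum := by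
  unfold hit
  congr 1
  refine List.map_congr_left fun e _ => ?_
  rw [cf_fst S hb v m]
  by_cases hv : v = e.vx
  · subst hv
    have hlo : e.lo < (nb G e.vx).card := e.1.2.1.2
    have hhi : e.hi < (nb G e.vx).card := e.1.2.2.2
    have i1 : S.face (cf S b e.vx m) = S.face (cf S b e.vx e.lo) ↔ m = e.lo :=
      ⟨fun h => cf_face_inj S hP hb e.vx hm hlo h, fun h => by rw [h]⟩
    have i2 : S.face (cf S b e.vx m) = S.face (cf S b e.vx e.hi) ↔ m = e.hi :=
      ⟨fun h => cf_face_inj S hP hb e.vx hm hhi h, fun h => by rw [h]⟩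
    exact if_congr (and_congr Iff.rfl (or_congr i1 i2)) rfl rfl
  · rw [if_neg fun h => hv h.1, if_neg fun h => hv h.1]

private theorem lh_one (e : Ch (corS S hP b hb)) (v : V) (φ : ℕ → F2) :
    ∑ i ∈ range (nb G v).card, (if v = e.vx ∧ (i = e.lo ∨ i = e.hi) then (1 : F2) else 0) * φ i =
      if v = e.vx then φ e.lo + φ e.hi else 0 := by
  by_cases hv : v = e.vx
  · subst hv
    rw [if_pos rfl]
    have hlt : e.lo < e.hi := e.2
    have h1 := lh_two (nb G e.vx).card e.lo e.hi e.1.2.1.2 e.1.2.2.2 hlt.ne φ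
    rw [← h1]
    refine sum_congr rfl fun i _ => ?_
    simp only [true_and]
  · rw [if_neg hv]
    refine sum_eq_zero fun i _ => ?_
    rw [if_neg fun h => hv h.1, zero_mul]

theorem hit_zero (v : V) : ∑ i ∈ range (nb G v).card, hit S l (cf S b v i) = 0 := by
  rw [sum_congr rfl fun i hi => hit_cf S l v i (mem_range.1 hi),
    lh_sum (range (nb G v).card) l fun (e : Ch (corS S hP b hb)) i =>
      if v = e.vx ∧ (i = e.lo ∨ i = e.hi) then (1 : F2) else 0]
  apply List.sum_eq_zero
  intro x hx
  obtain ⟨e, _, rfl⟩ := List.mem_map.1 hx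
  have h1 := lh_one S e v fun _ => 1
  simp only [mul_one] at h1
  rw [h1, lh_add_self, ite_self]

theorem hit_cc (z : cyc G) : ∑ v, ∑ i ∈ range (nb G v).card, hit S l (cf S b v i) * cc S b v i z = clsL S l z := by
  have h1 : ∀ v, ∑ i ∈ range (nb G v).card, hit S l (cf S b v i) * cc S b v i z =
      (l.map fun e => if v = e.vx then cc S b v e.lo z + cc S b v e.hi z else 0).sum := by
    intro v
    rw [sum_congr rfl fun i hi => by rw [hit_cf S l v i (mem_range.1 hi), ← List.sum_map_mul_right],
      lh_sum (range (nb G v).card) l fun (e : Ch (corS S hP b hb)) i =>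
        (if v = e.vx ∧ (i = e.lo ∨ i = e.hi) then (1 : F2) else 0) * cc S b v i z]
    congr 1
    refine List.map_congr_left fun e _ => ?_
    exact lh_one S e v fun i => cc S b v i z
  rw [sum_congr rfl fun v _ => h1 v, lh_sum univ l fun (e : Ch (corS S hP b hb)) v =>
    if v = e.vx then cc S b v e.lo z + cc S b v e.hi z else 0]
  unfold clsL
  induction l with
  | nil => rfl
  | cons a l ih =>
    rw [List.map_cons, List.map_cons, List.sum_cons, List.sum_cons, LinearMap.add_apply, ih, sum_ite_eq',
      if_pos (mem_univ _)]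
    · rfl
    · intro v
      rw [sum_congr rfl fun i hi => by rw [hit_cf S l v i (mem_range.1 hi), ← List.sum_map_mul_right],
        lh_sum (range (nb G v).card) l fun (e : Ch (corS S hP b hb)) i =>
          (if v = e.vx ∧ (i = e.lo ∨ i = e.hi) then (1 : F2) else 0) * cc S b v i z]
      congr 1
      refine List.map_congr_left fun e _ => ?_
      exact lh_one S e v fun i => cc S b v i z

theorem chg_all (hb : IsBase b) (κ : G.edgeSet → F2) (h : Flag G → F2) (hN : ∀ q, h (S.nxt q) = h q)
    (h1 : ∀ v i, i < (nb G v).card → κ (ed (cf S b v i)) + κ (ed (cf S b v (i + 1))) = h (cf S b v i)) (q : Flag G) :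
    κ (ed q) + κ (ed (S.nxt q)) = h q := by
  obtain ⟨m, hm, hq | hq⟩ := cf_cover S hb q.1.fst q rfl
  · have e1 : h q = h (cf S b q.1.fst m) := congrArg h hq
    rw [e1, ← h1 q.1.fst m hm]
    conv_lhs => rw [hq]
    rw [nxt_cf, ed_side]
  · obtain ⟨m', hm', hmm⟩ : ∃ m', m' < (nb G q.1.fst).card ∧ cf S b q.1.fst m = cf S b q.1.fst (m' + 1) := by
      rcases Nat.eq_zero_or_pos m with h0 | h0
      · refine ⟨(nb G q.1.fst).card - 1, by omega, ?_⟩
        rw [h0, show (nb G q.1.fst).card - 1 + 1 = 0 + (nb G q.1.fst).card by omega, cf_period S hb]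
      · exact ⟨m - 1, by omega, by rw [Nat.sub_add_cancel h0]⟩
    rw [hmm] at hq
    have hn : S.nxt q = cf S b q.1.fst m' := by
      conv_lhs => rw [hq]
      exact nxt_side_cf S b q.1.fst m'
    have he : ed q = ed (cf S b q.1.fst (m' + 1)) := by
      conv_lhs => rw [hq]
      rfl
    rw [← hN q, hn, ← h1 q.1.fst m' hm', he, add_comm]

theorem cyc_zero (hb : IsBase b) (v : V) (z : cyc G) : ∑ t ∈ Icc 1 (nb G v).card, z.1 (ed (cf S b v t)) = 0 := by
  have h1 : ∑ t ∈ range (nb G v).card, z.1 (ed (cf S b v t)) = 0 := by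
    rw [← z.2 v]
    refine sum_bij (fun t _ => (cf S b v t).1) ?_ ?_ ?_ ?_
    · intro t _
      exact mem_filter.2 ⟨mem_univ _, cf_fst S hb v t⟩
    · intro t ht t' ht' h
      exact ed_cf_inj S hb v (mem_range.1 ht) (mem_range.1 ht') h
    · intro δ hδ
      obtain ⟨t, ht, h⟩ := cf_cover S hb v (δ, true) (mem_filter.1 hδ).2
      refine ⟨t, mem_range.2 ht, ?_⟩
      rcases h with h | h
      · rw [← h]
      · have h2 := congrArg Prod.fst h
        exact h2.symm
    · intro t _
      rfl
  obtain ⟨d, hd⟩ : ∃ d, d = (nb G v).card := ⟨_, rfl⟩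
  rw [← hd] at h1 ⊢
  have hper : cf S b v d = cf S b v 0 := by
    have h2 := cf_period S hb v 0
    rw [Nat.zero_add, ← hd] at h2
    exact h2
  have h3 : ∀ n, ∑ t ∈ Icc 1 n, z.1 (ed (cf S b v t)) + z.1 (ed (cf S b v 0)) =
      ∑ t ∈ range (n + 1), z.1 (ed (cf S b v t)) := by
    intro n
    induction n with
    | zero => simp
    | succ n ih =>
      rw [sum_range_succ, ← ih, sum_Icc_succ_top (by omega)]
      ring
  have h4 := h3 d
  rw [sum_range_succ, h1, zero_add, hper] at h4
  exact add_right_cancel (h4.trans (zero_add _).symm)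

/-- a function of the edges without changes at a vertex -/
theorem vert_const (κ : G.edgeSet → F2) (v : V) (h : ∀ q : Flag G, q.1.fst = v → κ (ed q) + κ (ed (S.nxt q)) = 0)
    {p q : Flag G} (hp : p.1.fst = v) (hq : q.1.fst = v) : κ (ed p) = κ (ed q) := by
  have h1 := vertex_const S (fun q : Flag G => if q.1.fst = v then κ (ed q) else 0) (fun p => by
    rw [S.nxt_fst]
    by_cases hv : p.1.fst = v
    · rw [if_pos hv, if_pos hv]
      have h2 := h p hv
      have h3 := lh_add_self (κ (ed p))
      exact (add_left_cancel (h3.trans h2.symm)).symm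
    · rw [if_neg hv, if_neg hv]) (fun p => rfl) (hp.trans hq.symm)
  beta_reduce at h1
  rwa [if_pos hp, if_pos hq] at h1

/-- a function of the edges without changes on a face -/
theorem face_const (κ : G.edgeSet → F2) (F : S.Face) (h : ∀ q : Flag G, S.face q = F → κ (ed q) + κ (ed (S.nxt q)) = 0)
    {p q : Flag G} (hp : S.face p = F) (hq : S.face q = F) : κ (ed p) = κ (ed q) := by
  have h0 : Relation.EqvGen (fun p q : Flag G => q = S.nxt p ∨ q = across p) p q :=
    Quot.eqvGen_exact (hp.trans hq.symm)
  have h1 := eqvGen_eq (fun q : Flag G => if S.face q = F then κ (ed q) else 0) (fun x y hxy => by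
    rcases hxy with hxy | hxy
    · rw [hxy, face_nxt]
      by_cases hv : S.face x = F
      · rw [if_pos hv, if_pos hv]
        have h2 := h x hv
        have h3 := lh_add_self (κ (ed x))
        exact add_left_cancel (h3.trans h2.symm)
      · rw [if_neg hv, if_neg hv]
    · rw [hxy, face_across, ed_across]) h0
  beta_reduce at h1
  rwa [if_pos hp, if_pos hq] at h1

end Pool.Agent.EPH
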