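import Pool.Agent.EPH.LHit

/-!
# EPH-LNul: a list of chords is null iff its hits are the changes of a colouring

`null_of_colour`: for `z : cyc G`: `clsL S l z = ∑ v, ∑ i ∈ range d, (κ_i + κ_(i+1)) * c_i` with `κ_i := κ (ed (cf S b v i))`,
`c_i := cc S b v i z` (`hit_cc`). As `c_(i+1) = c_i + y_(i+1)`, `y_t := z.1 (ed (cf S b v t))` (`Finset.sum_Icc_succ_top`), and `x + x = 0`, this is
`∑ v, (κ_0 * c_0 + κ_d * c_d + ∑ i ∈ range d, κ_(i+1) * y_(i+1))` (induction on `d`), `c_0 = 0`, `c_d = 0` (`cyc_zero`), and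
`∑ i ∈ range d, κ_(i+1) * y_(i+1) = ∑ i ∈ range d, κ_i * y_i` (`cf_period`: `κ_d = κ_0`, `y_d = y_0`). The sum over all vertices is
`∑ x : G.Dart, κ (ed (x, true)) * z.1 (ed (x, true))` (`sum_darts`, `LCol.lean`; `ed` depends only on the dart), which is 0 because
`sum_edges` (BEO/DLf) groups the darts in pairs with the same edge.
-/

set_option autoImplicit false

open Finset
open scoped Classical

namespace Pool.Agent.EPH

open Pool.Agent.BEO
open Pool.Agent.Helper35.OG hiding F2 dg

variable {V : Type} {G : SimpleGraph V} [Fintype V]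

variable (S : GMap G) {hP : Poly S} {b : V → Flag G} {hb : IsBase b} (l : List (Ch (corS S hP b hb)))

theorem hit_colour (h : clsL S l = 0) : ∃ κ : G.edgeSet → F2, ∀ q, κ (ed q) + κ (ed (S.nxt q)) = hit S l q := by
  obtain ⟨κ, hκ⟩ := colour S hb (fun v i => hit S l (cf S b v i)) (fun v => hit_zero S l v) (fun z => by
    rw [hit_cc, h]
    rfl)
  exact ⟨κ, chg_all S hb κ (hit S l) (hit_nxt S l) hκ⟩

private theorem ln_abel (k c y : ℕ → F2) (hc : ∀ i, c (i + 1) = c i + y (i + 1)) (n : ℕ) :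
    ∑ i ∈ range n, (k i + k (i + 1)) * c i = k 0 * c 0 + k n * c n + ∑ i ∈ range n, k (i + 1) * y (i + 1) := by
  have h2 : ∀ x : F2, x + x = 0 := CharTwo.add_self_eq_zero
  induction n with
  | zero => rw [sum_range_zero, sum_range_zero, h2, add_zero]
  | succ n ih =>
    rw [sum_range_succ, sum_range_succ, ih, hc n]
    linear_combination h2 (k n * c n) - h2 (k (n + 1) * y (n + 1))

theorem null_of_colour (κ : G.edgeSet → F2) (h : ∀ q, κ (ed q) + κ (ed (S.nxt q)) = hit S l q) : clsL S l = 0 := by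
  have h2 : ∀ x : F2, x + x = 0 := CharTwo.add_self_eq_zero
  apply LinearMap.ext
  intro z
  rw [← hit_cc, LinearMap.zero_apply]
  have hedd : ∀ q : Flag G, ed (q.1, true) = ed q := by
    rintro ⟨d, s⟩
    rfl
  have h1 : ∀ v, ∑ i ∈ range (nb G v).card, hit S l (cf S b v i) * cc S b v i z =
      ∑ t ∈ range (nb G v).card, κ (ed ((cf S b v t).1, true)) * z.1 (ed ((cf S b v t).1, true)) := by
    intro v
    have a1 : ∀ i, hit S l (cf S b v i) = κ (ed (cf S b v i)) + κ (ed (cf S b v (i + 1))) := by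
      intro i
      rw [← h, nxt_cf, ed_side]
    have a2 : ∀ i, cc S b v (i + 1) z = cc S b v i z + z.1 (ed (cf S b v (i + 1))) := by
      intro i
      show ∑ t ∈ Icc 1 (i + 1), z.1 (ed (cf S b v t)) = ∑ t ∈ Icc 1 i, z.1 (ed (cf S b v t)) + _
      rw [Finset.sum_Icc_succ_top (by omega)]
    have a3 : cc S b v 0 z = 0 := by
      show ∑ t ∈ Icc 1 0, z.1 (ed (cf S b v t)) = 0
      rfl
    have a4 : cc S b v (nb G v).card z = 0 := cyc_zero S hb v z
    have a5 := ln_abel (fun i => κ (ed (cf S b v i))) (fun i => cc S b v i z) (fun i => z.1 (ed (cf S b v i)))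
      a2 (nb G v).card
    beta_reduce at a5
    rw [a3, a4, mul_zero, mul_zero, add_zero, zero_add] at a5
    rw [sum_congr rfl fun i _ => by rw [a1 i], a5]
    have a6 : cf S b v (nb G v).card = cf S b v 0 := by
      have a7 := cf_period S hb v 0
      rwa [zero_add] at a7
    have a8 := sum_range_succ (fun i => κ (ed (cf S b v i)) * z.1 (ed (cf S b v i))) (nb G v).card
    rw [sum_range_succ', a6] at a8
    have a9 := add_right_cancel a8
    rw [a9]
    refine sum_congr rfl fun t _ => ?_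
    rw [hedd]
  rw [sum_congr rfl fun v _ => h1 v, ← sum_darts S hb fun x => κ (ed (x, true)) * z.1 (ed (x, true)), sum_edges]
  refine sum_eq_zero fun e _ => ?_
  have e3 : ed ((rp e).1, true) = e := (hedd _).trans (ed_rp e)
  have e4 : ed ((rp e).1.symm, true) = e := ((hedd (across (rp e))).trans (ed_across _)).trans (ed_rp e)
  rw [e3, e4, h2]

end Pool.Agent.EPH
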