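import Pool.Agent.EPH.LEvc

/-!
# EPH-LOut: the colouring is zero outside the windows

PLAN. Strong induction on `t`. `t = 0`: `h0`. If `t = β`: `α < β` is outside both windows (`α ≤ α`; `β ≤ α'` gives `α ≤ α'`, or
`β' ≤ α`), so `κ = 0` on `q α` and `even_cross` (choose a flag on `q α`, `Quot.exists_rep`) gives `κ = 0` on `q β`. If `t = β'`: the same
with `l'` and `l` exchanged (`hsp.symm`, `add_comm`). Otherwise `t - 1` is outside both windows too, and `e (t - 1)` with
`t - 1 < α` or `β ≤ t - 1`, and the same for `α', β'`: no chord of `l` or `l'` is at the vertex of `e (t - 1)` (`ht.near`,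
`hm.inj`), and `q (t - 1)`, `q t` are not faces of `l`, `l'` (`ht.face`); so the colouring has no changes at this vertex and on
these faces (`hit_ne`), `step_const`.
-/

set_option autoImplicit false

open Finset
open scoped Classical

namespace Pool.Agent.EPH

open Pool.Agent.BEO
open Pool.Agent.Helper35.OG hiding F2 dg

variable {V : Type} {G : SimpleGraph V} [Fintype V]

variable {S : GMap G} {hP : Poly S} {b : V → Flag G} {hb : IsBase b}

/-- one step of the path outside the windows -/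
private theorem lo_step {mu : Finset (Ch (corS S hP b hb))} {N : ℕ} {q : ℕ → S.Face} {e : ℕ → Ch (corS S hP b hb)}
    (hm : PM S mu N q e) {l l' : List (Ch (corS S hP b hb))} {α β α' β' : ℕ} (ht : TW S mu N q e l α β)
    (ht' : TW S mu N q e l' α' β') (κ : G.edgeSet → F2)
    (hκ : ∀ q, κ (ed q) + κ (ed (S.nxt q)) = hit S l q + hit S l' q) (t : ℕ) (h1 : t < N) (h2 : t < α ∨ β ≤ t)
    (h3 : t < α' ∨ β' ≤ t) (p p' : Flag G) (hp : S.face p = q t) (hp' : S.face p' = q (t + 1)) :
    κ (ed p) = κ (ed p') := by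
  have n1 : ∀ g ∈ l, (e t).vx ≠ g.vx := by
    intro g hg hc
    obtain ⟨t', b1, b2, b3⟩ := ht.near g hg (e t) (hm.mem t h1) (Or.inr (Or.inr (Or.inr (Or.inr hc))))
    have := hm.inj t t' h1 (lt_of_lt_of_le b2 ht.le) b3
    omega
  have n1' : ∀ g ∈ l', (e t).vx ≠ g.vx := by
    intro g hg hc
    obtain ⟨t', b1, b2, b3⟩ := ht'.near g hg (e t) (hm.mem t h1) (Or.inr (Or.inr (Or.inr (Or.inr hc))))
    have := hm.inj t t' h1 (lt_of_lt_of_le b2 ht'.le) b3
    omega
  -- faces of the path near `t` are not hit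
  have n2 : ∀ t', t' = t ∨ t' = t + 1 → ∀ y : Flag G, S.face y = q t' → κ (ed y) + κ (ed (S.nxt y)) = 0 := by
    intro t' htt y hy
    rw [hκ y]
    have z1 : hit S l y = 0 := by
      by_contra hc
      obtain ⟨g, hg, -, a⟩ := hit_ne S l y hc
      rw [hy] at a
      have h4 := ht.face g hg t' (by omega) (by omega)
      rcases a with a | a
      · exact h4.1 a.symm
      · exact h4.2 a.symm
    have z2 : hit S l' y = 0 := by
      by_contra hc
      obtain ⟨g, hg, -, a⟩ := hit_ne S l' y hc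
      rw [hy] at a
      have h4 := ht'.face g hg t' (by omega) (by omega)
      rcases a with a | a
      · exact h4.1 a.symm
      · exact h4.2 a.symm
    rw [z1, z2, add_zero]
  have n3 : ∀ y : Flag G, y.1.fst = (e t).vx → κ (ed y) + κ (ed (S.nxt y)) = 0 := by
    intro y hy
    rw [hκ y]
    have z1 : hit S l y = 0 := by
      by_contra hc
      obtain ⟨g, hg, a, -⟩ := hit_ne S l y hc
      exact n1 g hg (hy.symm.trans a)
    have z2 : hit S l' y = 0 := by
      by_contra hc
      obtain ⟨g, hg, a, -⟩ := hit_ne S l' y hc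
      exact n1' g hg (hy.symm.trans a)
    rw [z1, z2, add_zero]
  rcases Sym2.eq_iff.1 (hm.face t h1) with ⟨a1, a2⟩ | ⟨a1, a2⟩
  · exact step_const (e t) κ n3 (fun y hy => n2 t (Or.inl rfl) y (hy.trans a1))
      (fun y hy => n2 (t + 1) (Or.inr rfl) y (hy.trans a2)) p p'
      ⟨e t, List.mem_singleton.2 rfl, Or.inr (Or.inl (hp.trans a1.symm))⟩
      ⟨e t, List.mem_singleton.2 rfl, Or.inr (Or.inr (hp'.trans a2.symm))⟩
  · exact step_const (e t) κ n3 (fun y hy => n2 (t + 1) (Or.inr rfl) y (hy.trans a1))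
      (fun y hy => n2 t (Or.inl rfl) y (hy.trans a2)) p p'
      ⟨e t, List.mem_singleton.2 rfl, Or.inr (Or.inr (hp.trans a2.symm))⟩
      ⟨e t, List.mem_singleton.2 rfl, Or.inr (Or.inl (hp'.trans a1.symm))⟩

theorem outside_zero {mu : Finset (Ch (corS S hP b hb))} {N : ℕ} {q : ℕ → S.Face} {e : ℕ → Ch (corS S hP b hb)}
    (hm : PM S mu N q e) {l l' : List (Ch (corS S hP b hb))} {α β α' β' : ℕ} (ht : TW S mu N q e l α β)
    (ht' : TW S mu N q e l' α' β') (hd : β ≤ α' ∨ β' ≤ α) (hsp : SP S l l') (hcls : clsL S l = clsL S l')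
    (κ : G.edgeSet → F2) (hκ : ∀ q, κ (ed q) + κ (ed (S.nxt q)) = hit S l q + hit S l' q)
    (h0 : ∀ p, S.face p = q 0 → κ (ed p) = 0) (t : ℕ) (h1 : t ≤ N) (h2 : t ≤ α ∨ β ≤ t) (h3 : t ≤ α' ∨ β' ≤ t)
    (p : Flag G) (hp : S.face p = q t) : κ (ed p) = 0 := by
  have hlt := ht.lt
  have hlt' := ht'.lt
  have hr : ∀ F : S.Face, ∃ r : Flag G, S.face r = F := fun F => Quot.exists_rep F
  induction t using Nat.strong_induction_on generalizing p with
  | _ t ih =>
    rcases Nat.eq_zero_or_pos t with h4 | h4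
    · rw [h4] at hp
      exact h0 p hp
    by_cases h5 : t = β
    · subst h5
      obtain ⟨r, hr1⟩ := hr (q α)
      rw [← even_cross hm ht ht' hd hsp hcls κ hκ r p hr1 hp]
      exact ih α hlt (by omega) (Or.inl le_rfl) (by omega) r hr1
    by_cases h6 : t = β'
    · subst h6
      obtain ⟨r, hr1⟩ := hr (q α')
      rw [← even_cross hm ht' ht hd.symm hsp.symm hcls.symm κ (fun y => (hκ y).trans (add_comm _ _)) r p hr1 hp]
      exact ih α' hlt' (by omega) (by omega) (Or.inl le_rfl) r hr1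
    obtain ⟨s, rfl⟩ : ∃ s, t = s + 1 := ⟨t - 1, by omega⟩
    obtain ⟨r, hr1⟩ := hr (q s)
    rw [← lo_step hm ht ht' κ hκ s (by omega) (by omega) (by omega) r p hr1 hp]
    exact ih s (by omega) (by omega) (by omega) (by omega) r hr1

end Pool.Agent.EPH
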