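import Pool.Agent.EPH.LHit

/-!
# EPH-LPar: chords with the same two faces

`corner_val`: let `r` be a flag at `v` and `i, j < d v` the corners with `face (cf v i) = face r`, `face (cf v j) = face (side r)`. Then
`cc S b v i z + cc S b v j z = z.1 (ed r)`. Proof: `r = cf S b v m` or `r = side (cf S b v m)` with `m < d` (`cf_cover`); the faces
of `cf S b v m` and of `side (cf S b v m) = S.nxt (cf S b v (m - 1))` are those of the corners `m` and `m - 1` (modulo `d`; `face_side_cf`,
`cf_period`), so `{i, j} = {m, m - 1}` resp. `{0, d - 1}` if `m = 0` (`cf_face_inj`); for `m ≥ 1` `cc v m z = cc v (m - 1) z + z.1 (ed (cf v m))`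
(`Finset.sum_Icc_succ_top`); for `m = 0`: `cc v 0 z = 0` and `cc v (d - 1) z = z.1 (ed (cf v 0))` because the sum over `Icc 1 d` is 0
(`cyc_zero`) and `cf v d = cf v 0` (`cf_period`); `x + x = 0`. `par_ch`: let `v := e.vx`, `v' := e'.vx`. If `v = v'` the corners are the same
(`cf_face_inj`), so both sides are equal (in the exchanged case use `add_comm`; compare `e.lo < e.hi`). If `v ≠ v'`: `hP.two` with
`p := cf S b v e.lo`, `q := cf S b v e.hi` and the flags `p', q'` of `e'` with the same faces (in the right order) gives `r` at `v` with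
`r.1.snd = v'`, `face r = face p`, `face (side r) = face q`. `corner_val` at `v` for `r` and at `v'` for `across r` (`ed_across`, `face_across`,
`side (across r) = across (side r)` by `rfl`, `(across r).1.fst = r.1.snd` by `rfl`).
-/

set_option autoImplicit false

open Finset
open scoped Classical

namespace Pool.Agent.EPH

open Pool.Agent.BEO
open Pool.Agent.Helper35.OG hiding F2 dg

variable {V : Type} {G : SimpleGraph V} [Fintype V]

variable {S : GMap G} {hP : Poly S} {b : V → Flag G} {hb : IsBase b}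

private theorem lp_self (x : F2) : x + x = 0 := CharTwo.add_self_eq_zero x

private theorem lp_cc (z : cyc G) (v : V) (t : ℕ) : cc S b v (t + 1) z = cc S b v t z + z.1 (ed (cf S b v (t + 1))) := by
  show ∑ t ∈ Icc 1 (t + 1), z.1 (ed (cf S b v t)) = ∑ t ∈ Icc 1 t, z.1 (ed (cf S b v t)) + _
  rw [Finset.sum_Icc_succ_top (by omega)]

/-- the other corner at a dart -/
private theorem lp_prev (z : cyc G) (v : V) (m : ℕ) (hm : m < (nb G v).card) (hb : IsBase b) :
    ∃ p, p < (nb G v).card ∧ S.face (side (cf S b v m)) = S.face (cf S b v p) ∧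
      cc S b v m z + cc S b v p z = z.1 (ed (cf S b v m)) := by
  rcases Nat.eq_zero_or_pos m with h0 | h0
  · refine ⟨(nb G v).card - 1, by omega, ?_, ?_⟩
    · rw [← face_side_cf S b v ((nb G v).card - 1), show (nb G v).card - 1 + 1 = 0 + (nb G v).card by omega,
        cf_period S hb, h0]
    · have h1 := lp_cc (S := S) (b := b) z v ((nb G v).card - 1)
      rw [show (nb G v).card - 1 + 1 = (nb G v).card by omega] at h1
      have h2 : cc S b v (nb G v).card z = 0 := cyc_zero S hb v z
      have h3 : cf S b v (nb G v).card = cf S b v 0 := by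
        have a7 := cf_period S hb v 0
        rwa [zero_add] at a7
      have h4 : cc S b v 0 z = 0 := by
        show ∑ t ∈ Icc 1 0, z.1 (ed (cf S b v t)) = 0
        rfl
      rw [h2, h3] at h1
      rw [h0, h4]
      linear_combination h1 + lp_self (cc S b v ((nb G v).card - 1) z)
  · obtain ⟨p, rfl⟩ := Nat.exists_eq_succ_of_ne_zero h0.ne'
    refine ⟨p, by omega, face_side_cf S b v p, ?_⟩
    rw [Nat.succ_eq_add_one, lp_cc]
    linear_combination lp_self (cc S b v p z)

theorem corner_val (z : cyc G) (v : V) (r : Flag G) (hr : r.1.fst = v) (i j : ℕ) (hi : i < (nb G v).card)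
    (hj : j < (nb G v).card) (h1 : S.face (cf S b v i) = S.face r) (h2 : S.face (cf S b v j) = S.face (side r))
    (hP : Poly S) (hb : IsBase b) : cc S b v i z + cc S b v j z = z.1 (ed r) := by
  obtain ⟨m, hm, h | h⟩ := cf_cover S hb v r hr
  · obtain ⟨p, hp, e1, e2⟩ := lp_prev (S := S) z v m hm hb
    rw [h] at h1 h2
    rw [cf_face_inj S hP hb v hi hm h1, cf_face_inj S hP hb v hj hp (h2.trans e1), e2, h]
  · obtain ⟨p, hp, e1, e2⟩ := lp_prev (S := S) z v m hm hb
    rw [h] at h1 h2
    rw [side_side] at h2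
    rw [cf_face_inj S hP hb v hi hp (h1.trans e1), cf_face_inj S hP hb v hj hm h2, add_comm, e2, h, ed_side]

/-- the same for two different vertices -/
private theorem lp_two (z : cyc G) (v v' : V) (hv : v ≠ v') (i j i' j' : ℕ) (hi : i < (nb G v).card)
    (hj : j < (nb G v).card) (hi' : i' < (nb G v').card) (hj' : j' < (nb G v').card) (hij : i ≠ j)
    (h1 : S.face (cf S b v i) = S.face (cf S b v' i')) (h2 : S.face (cf S b v j) = S.face (cf S b v' j'))
    (hP : Poly S) (hb : IsBase b) : cc S b v i z + cc S b v j z = cc S b v' i' z + cc S b v' j' z := by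
  obtain ⟨r, r1, r2, r3, r4⟩ := hP.two (cf S b v i) (cf S b v j) (cf S b v' i') (cf S b v' j')
    ((cf_fst S hb v i).trans (cf_fst S hb v j).symm) ((cf_fst S hb v' i').trans (cf_fst S hb v' j').symm)
    (by rw [cf_fst S hb, cf_fst S hb]; exact hv) h1 h2 (fun h => hij (cf_face_inj S hP hb v hi hj h))
  rw [cf_fst S hb] at r1 r2
  have e1 := corner_val (S := S) z v r r1 i j hi hj r3.symm r4.symm hP hb
  have e2 := corner_val (S := S) z v' (across r) r2 i' j' hi' hj' (by rw [face_across, r3, h1]) (by
    have h3 : side (across r) = across (side r) := rfl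
    rw [h3, face_across, r4, h2]) hP hb
  rw [e1, e2, ed_across]

theorem par_ch (e e' : Ch (corS S hP b hb)) (h : s(S.face (cf S b e.vx e.lo), S.face (cf S b e.vx e.hi)) =
    s(S.face (cf S b e'.vx e'.lo), S.face (cf S b e'.vx e'.hi))) :
    cc S b e.vx e.lo + cc S b e.vx e.hi = cc S b e'.vx e'.lo + cc S b e'.vx e'.hi := by
  have hlo : e.lo < (nb G e.vx).card := e.1.2.1.2
  have hhi : e.hi < (nb G e.vx).card := e.1.2.2.2
  have hlo' : e'.lo < (nb G e'.vx).card := e'.1.2.1.2
  have hhi' : e'.hi < (nb G e'.vx).card := e'.1.2.2.2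
  have hlt : e.lo < e.hi := e.2
  have hlt' : e'.lo < e'.hi := e'.2
  generalize e.vx = v at *
  generalize e.lo = i at *
  generalize e.hi = j at *
  generalize e'.vx = v' at *
  generalize e'.lo = i' at *
  generalize e'.hi = j' at *
  by_cases hv : v = v'
  · subst hv
    rcases Sym2.eq_iff.1 h with ⟨h1, h2⟩ | ⟨h1, h2⟩
    · rw [cf_face_inj S hP hb v hlo hlo' h1, cf_face_inj S hP hb v hhi hhi' h2]
    · rw [cf_face_inj S hP hb v hlo hhi' h1, cf_face_inj S hP hb v hhi hlo' h2, add_comm]
  · apply LinearMap.ext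
    intro z
    rcases Sym2.eq_iff.1 h with ⟨h1, h2⟩ | ⟨h1, h2⟩
    · exact lp_two z v v' hv i j i' j' hlo hhi hlo' hhi' hlt.ne h1 h2 hP hb
    · exact (lp_two z v v' hv i j j' i' hlo hhi hhi' hlo' hlt.ne h1 h2 hP hb).trans (add_comm _ _)

end Pool.Agent.EPH
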