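import Pool.Agent.EPH.LCor

/-!
# EPH-LPol: two faces and their common vertices

Two faces with two common vertices are the two sides of the edge joining them (`Poly.two`), so they have neighbouring
corners at both vertices and no third common vertex; two vertices have at most two common faces.
-/

set_option autoImplicit false

open Finset
open scoped Classical

namespace Pool.Agent.EPH

open Pool.Agent.BEO
open Pool.Agent.Helper35.OG hiding F2 dg

variable {V : Type} {G : SimpleGraph V} [Fintype V]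

private theorem lpol_flag (S : GMap G) (hP : Poly S) {b : V → Flag G} (hb : IsBase b) (v : V) (i : ℕ) (r : Flag G)
    (hr : r.1.fst = v) (h : S.face r = S.face (cf S b v i)) : r = cf S b v i ∨ r = side (cf S b v (i + 1)) := by
  rcases hP.one (cf S b v i) r ((cf_fst S hb v i).trans hr.symm) h.symm with h1 | h1
  · exact Or.inl h1
  · rw [nxt_cf] at h1
    exact Or.inr h1

private theorem lpol_succ (S : GMap G) (hP : Poly S) {b : V → Flag G} (hb : IsBase b) (v : V) {i j : ℕ}
    (hi : i < (nb G v).card) (hj : j < (nb G v).card) (h : S.face (cf S b v (i + 1)) = S.face (cf S b v j)) :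
    i + 1 = j ∨ (j = 0 ∧ i + 1 = (nb G v).card) := by
  rcases Nat.lt_or_ge (i + 1) (nb G v).card with h1 | h1
  · exact Or.inl (cf_face_inj S hP hb v h1 hj h)
  · right
    have h2 : i + 1 = 0 + (nb G v).card := by omega
    rw [h2, cf_period S hb] at h
    have h3 := cf_face_inj S hP hb v (deg_pos hb v) hj h
    exact ⟨h3.symm, by omega⟩

private theorem lpol_edge (S : GMap G) (hP : Poly S) {b : V → Flag G} (hb : IsBase b) {v v' : V} {F K : S.Face}
    (hv : v ≠ v') (hF : F ≠ K) (h1 : On (corS S hP b hb) v F) (h2 : On (corS S hP b hb) v K)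
    (h3 : On (corS S hP b hb) v' F) (h4 : On (corS S hP b hb) v' K) :
    ∃ r : Flag G, r.1.fst = v ∧ r.1.snd = v' ∧ S.face r = F ∧ S.face (side r) = K := by
  obtain ⟨i, hi, rfl⟩ := h1
  obtain ⟨j, hj, rfl⟩ := h2
  obtain ⟨i', hi', h3⟩ := h3
  obtain ⟨j', hj', h4⟩ := h4
  obtain ⟨r, hr1, hr2, hr3, hr4⟩ := hP.two (cf S b v i) (cf S b v j) (cf S b v' i') (cf S b v' j')
    ((cf_fst S hb v i).trans (cf_fst S hb v j).symm) ((cf_fst S hb v' i').trans (cf_fst S hb v' j').symm)
    (by rw [cf_fst S hb, cf_fst S hb]; exact hv) h3.symm h4.symm hF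
  exact ⟨r, hr1.trans (cf_fst S hb v i), hr2.trans (cf_fst S hb v' i'), hr3, hr4⟩

theorem on_face (S : GMap G) (hP : Poly S) {b : V → Flag G} (hb : IsBase b) (q : Flag G) :
    On (corS S hP b hb) q.1.fst (S.face q) := by
  obtain ⟨i, hi, h | h⟩ := cf_cover S hb q.1.fst q rfl
  · exact ⟨i, hi, (congrArg S.face h).symm⟩
  · rcases Nat.eq_zero_or_pos i with h0 | h0
    · have hd := deg_pos hb q.1.fst
      refine ⟨(nb G q.1.fst).card - 1, Nat.sub_lt hd one_pos, ?_⟩
      rw [h0, ← cf_period S hb] at h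
      have h1 : 0 + (nb G q.1.fst).card = (nb G q.1.fst).card - 1 + 1 := by omega
      rw [h1] at h
      exact ((congrArg S.face h).trans (face_side_cf S b _ _)).symm
    · obtain ⟨i', rfl⟩ := Nat.exists_eq_succ_of_ne_zero h0.ne'
      exact ⟨i', Nat.lt_of_succ_lt hi, ((congrArg S.face h).trans (face_side_cf S b _ _)).symm⟩

theorem pol_two (S : GMap G) (hP : Poly S) {b : V → Flag G} (hb : IsBase b) (v v' : V) (F K : S.Face) (hv : v ≠ v')
    (hF : F ≠ K) (h1 : On (corS S hP b hb) v F) (h2 : On (corS S hP b hb) v K) (h3 : On (corS S hP b hb) v' F)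
    (h4 : On (corS S hP b hb) v' K) (i j : ℕ) (hi : i < (corS S hP b hb).d v) (hj : j < (corS S hP b hb).d v)
    (h5 : (corS S hP b hb).fc v i = F) (h6 : (corS S hP b hb).fc v j = K) : Nxt (corS S hP b hb) v i j := by
  obtain ⟨r, hr1, hr2, hr3, hr4⟩ := lpol_edge S hP hb hv hF h1 h2 h3 h4
  have hi' : i < (nb G v).card := hi
  have hj' : j < (nb G v).card := hj
  have h5' : S.face (cf S b v i) = F := h5
  have h6' : S.face (cf S b v j) = K := h6
  rcases lpol_flag S hP hb v i r hr1 (hr3.trans h5'.symm) with h7 | h7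
  · rcases lpol_flag S hP hb v j (side r) hr1 (hr4.trans h6'.symm) with h8 | h8
    · rw [h7] at h8
      exact absurd h8.symm (cf_ne_side S b v j i)
    · rw [h7] at h8
      have h9 : cf S b v i = cf S b v (j + 1) := by
        have h10 := congrArg side h8
        rwa [side_side, side_side] at h10
      rcases lpol_succ S hP hb v hj' hi' (congrArg S.face h9.symm) with h11 | h11
      · exact Or.inr (Or.inl h11)
      · exact Or.inr (Or.inr (Or.inl h11))
  · rw [h7, side_side] at hr4
    rcases lpol_succ S hP hb v hi' hj' (hr4.trans h6'.symm) with h11 | h11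
    · exact Or.inl h11
    · exact Or.inr (Or.inr (Or.inr h11))

theorem pol_three (S : GMap G) (hP : Poly S) {b : V → Flag G} (hb : IsBase b) (v v' v'' : V) (F K : S.Face)
    (hv : v ≠ v') (hv' : v ≠ v'') (hv'' : v' ≠ v'') (hF : F ≠ K)
    (h1 : On (corS S hP b hb) v F) (h2 : On (corS S hP b hb) v K) (h3 : On (corS S hP b hb) v' F)
    (h4 : On (corS S hP b hb) v' K) (h5 : On (corS S hP b hb) v'' F) (h6 : On (corS S hP b hb) v'' K) : False := by
  obtain ⟨r, hr1, hr2, hr3, hr4⟩ := lpol_edge S hP hb hv hF h1 h2 h3 h4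
  obtain ⟨r', hr1', hr2', hr3', hr4'⟩ := lpol_edge S hP hb hv' hF h1 h2 h5 h6
  have hne : r.1.snd ≠ r'.1.snd := by
    rw [hr2, hr2']
    exact hv''
  have h7 : r' = S.nxt r := by
    rcases hP.one r r' (hr1.trans hr1'.symm) (hr3.trans hr3'.symm) with h | h
    · rw [h] at hne
      exact absurd rfl hne
    · exact h
  have h8 : side r' = S.nxt (side r) := by
    rcases hP.one (side r) (side r') (hr1.trans hr1'.symm) (hr4.trans hr4'.symm) with h | h
    · have h9 : r' = r := by
        have h10 := congrArg side h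
        rwa [side_side, side_side] at h10
      rw [h9] at hne
      exact absurd rfl hne
    · exact h
  have h9 : (rot S)^[2] r = (rot S)^[0] r := by
    show side (S.nxt (side (S.nxt r))) = r
    rw [← h7, h8, S.nxt_nxt, side_side]
  have h10 := hP.deg r.1.fst
  have h11 := (rot_orbit S r).2.1 2 0 (by omega) (by omega) h9
  omega

theorem pol_nbr (S : GMap G) (hP : Poly S) {b : V → Flag G} (hb : IsBase b) (v : V) (i j : ℕ)
    (hi : i < (corS S hP b hb).d v) (hj : j < (corS S hP b hb).d v) (hij : i ≠ j) (h : Nxt (corS S hP b hb) v i j) :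
    ∃ v', v' ≠ v ∧ On (corS S hP b hb) v' ((corS S hP b hb).fc v i) ∧
      On (corS S hP b hb) v' ((corS S hP b hb).fc v j) := by
  have key : ∀ i j : ℕ, i < (nb G v).card → j < (nb G v).card → cf S b v j = cf S b v (i + 1) →
      ∃ v', v' ≠ v ∧ On (corS S hP b hb) v' (S.face (cf S b v i)) ∧ On (corS S hP b hb) v' (S.face (cf S b v j)) := by
    intro i j hi hj h1
    refine ⟨(cf S b v j).1.snd, ?_, ?_, ?_⟩
    · have h2 := (cf S b v j).1.adj.ne'
      rwa [cf_fst S hb] at h2
    · have h2 := on_face S hP hb (across (side (cf S b v j)))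
      rw [face_across, h1, face_side_cf] at h2
      rw [h1]
      exact h2
    · have h2 := on_face S hP hb (across (cf S b v j))
      rw [face_across] at h2
      exact h2
  have hper : ∀ i j : ℕ, j = 0 → i + 1 = (nb G v).card → cf S b v j = cf S b v (i + 1) := by
    intro i j h1 h2
    rw [h1, h2, ← cf_period S hb, zero_add]
  rcases h with h | h | h | h
  · exact key i j hi hj (by rw [h])
  · obtain ⟨v', h1, h2, h3⟩ := key j i hj hi (by rw [h])
    exact ⟨v', h1, h3, h2⟩
  · obtain ⟨v', h1, h2, h3⟩ := key j i hj hi (hper j i h.1 h.2)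
    exact ⟨v', h1, h3, h2⟩
  · exact key i j hi hj (hper i j h.1 h.2)

theorem pol_faces (S : GMap G) (hP : Poly S) {b : V → Flag G} (hb : IsBase b) (v v' : V) (F K L : S.Face)
    (hv : v ≠ v') (h1 : F ≠ K) (h2 : F ≠ L) (h3 : K ≠ L)
    (h4 : On (corS S hP b hb) v F) (h5 : On (corS S hP b hb) v K) (h6 : On (corS S hP b hb) v L)
    (h7 : On (corS S hP b hb) v' F) (h8 : On (corS S hP b hb) v' K) (h9 : On (corS S hP b hb) v' L) : False := by
  obtain ⟨r, hr1, hr2, hr3, hr4⟩ := lpol_edge S hP hb hv h1 h4 h5 h7 h8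
  obtain ⟨r', hr1', hr2', hr3', hr4'⟩ := lpol_edge S hP hb hv h2 h4 h6 h7 h9
  have hd : r.1 = r'.1 := by
    apply SimpleGraph.Dart.ext
    exact Prod.ext (hr1.trans hr1'.symm) (hr2.trans hr2'.symm)
  rcases Bool.eq_or_eq_not r.2 r'.2 with h | h
  · have h10 : r = r' := Prod.ext hd h
    rw [h10] at hr4
    exact h3 (hr4.symm.trans hr4')
  · have h10 : r = side r' := Prod.ext hd h
    rw [h10] at hr3
    exact h2 (hr3.symm.trans hr4')

end Pool.Agent.EPH
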