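import Pool.Agent.EPH.LPol
import Pool.Agent.EPH.LK33
import Pool.Agent.EPH.LTch
import Pool.Agent.EPH.LPar
import Pool.Agent.EPH.DtB
import Pool.Agent.BEO.MkD

/-!
# EPH-LSys: the system of a polyhedral map
-/

set_option autoImplicit false

open Finset
open scoped Classical

namespace Pool.Agent.EPH

open Pool.Agent.BEO
open Pool.Agent.Helper35.OG hiding F2 dg

variable {V : Type} {G : SimpleGraph V} [Fintype V]

theorem polS (S : GMap G) (hP : Poly S) (b : V → Flag G) (hb : IsBase b) :
    Pol (corS S hP b hb) where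
  two v v' F K hv hF h1 h2 h3 h4 i j hi hj h5 h6 := pol_two S hP hb v v' F K hv hF h1 h2 h3 h4 i j hi hj h5 h6
  three v v' v'' F K hv hv' hv'' hF h1 h2 h3 h4 h5 h6 := pol_three S hP hb v v' v'' F K hv hv' hv'' hF h1 h2 h3 h4 h5 h6
  nbr v i j hi hj hij h := pol_nbr S hP hb v i j hi hj hij h
  faces v v' F K L hv h1 h2 h3 h4 h5 h6 h7 h8 h9 := pol_faces S hP hb v v' F K L hv h1 h2 h3 h4 h5 h6 h7 h8 h9

/-- the value of a corner functional at the boundary of a face -/
theorem cc_bd (S : GMap G) (b : V → Flag G) (v : V) (i : ℕ) (F : S.Face) :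
    cc S b v i (bdF S F) = (if S.face (cf S b v i) = F then 1 else 0) + (if S.face (cf S b v 0) = F then 1 else 0) := by
  have h2 : ∀ x : F2, x + x = 0 := by decide
  have key : ∀ i : ℕ, ∑ t ∈ Icc 1 i, (bdF S F).1 (ed (cf S b v t)) =
      (if S.face (cf S b v i) = F then 1 else 0) + (if S.face (cf S b v 0) = F then 1 else 0) := by
    intro i
    induction i with
    | zero => simp [h2]
    | succ i ih =>
      rw [Finset.sum_Icc_succ_top (by omega), ih, bdF_eq, face_side_cf]
      have h3 : ∀ x y z : F2, x + y + (z + x) = z + y := by decide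
      exact h3 _ _ _
  exact key i

/-- a cycle is determined by the chords around the edges -/
theorem cc_sep (S : GMap G) (hP : Poly S) (b : V → Flag G) (hb : IsBase b) (z : cyc G)
    (h : ∀ e : Ch (corS S hP b hb), (cc S b e.vx e.lo + cc S b e.vx e.hi) z = 0) : z = 0 := by
  have h2 : ∀ x : F2, x + x = 0 := by decide
  have key : ∀ v i, i + 1 < (nb G v).card → z.1 (ed (cf S b v (i + 1))) = 0 := by
    intro v i hi
    have h3 := h ⟨⟨v, (⟨i, Nat.lt_of_succ_lt hi⟩, ⟨i + 1, hi⟩)⟩, Nat.lt_succ_self i⟩
    have h4 : cc S b v i z + cc S b v (i + 1) z = 0 := h3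
    have h5 : cc S b v (i + 1) z = cc S b v i z + z.1 (ed (cf S b v (i + 1))) := by
      show ∑ t ∈ Icc 1 (i + 1), z.1 (ed (cf S b v t)) = ∑ t ∈ Icc 1 i, z.1 (ed (cf S b v t)) + _
      rw [Finset.sum_Icc_succ_top (by omega)]
    rw [h5, ← add_assoc, h2, zero_add] at h4
    exact h4
  apply Subtype.ext
  funext e
  obtain ⟨p, rfl⟩ := ed_surj e
  show z.1 (ed p) = 0
  obtain ⟨i, hi, h3⟩ := cf_cover S hb p.1.fst p rfl
  have h4 : ed p = ed (cf S b p.1.fst i) := by
    rcases h3 with h3 | h3
    · exact congrArg ed h3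
    · exact (congrArg ed h3).trans (ed_side _)
  rw [h4]
  rcases Nat.eq_zero_or_pos i with h0 | h0
  · -- the first dart: the other end is not the base dart, or use the sum at the vertex
    subst h0
    have h5 := z.2 p.1.fst
    have h6 : ∑ d ∈ univ.filter (fun d : G.Dart => d.fst = p.1.fst), z.1 (ed (d, true)) =
        z.1 (ed (cf S b p.1.fst 0)) := by
      rw [Finset.sum_eq_single (cf S b p.1.fst 0).1]
      · rfl
      · intro d hd hne
        rw [mem_filter] at hd
        obtain ⟨j, hj, h7⟩ := cf_cover S hb p.1.fst (d, true) hd.2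
        have h8 : ed ((d, true) : Flag G) = ed (cf S b p.1.fst j) := by
          rcases h7 with h7 | h7
          · exact congrArg ed h7
          · exact (congrArg ed h7).trans (ed_side _)
        have h9 : d = (cf S b p.1.fst j).1 := by
          rcases h7 with h7 | h7
          · exact congrArg Prod.fst h7
          · exact congrArg Prod.fst h7
        rw [h8]
        rcases Nat.eq_zero_or_pos j with h10 | h10
        · rw [h10] at h9
          exact absurd h9 hne
        · obtain ⟨j', rfl⟩ := Nat.exists_eq_succ_of_ne_zero h10.ne'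
          exact key _ _ hj
      · intro h7
        exfalso
        apply h7
        rw [mem_filter]
        exact ⟨mem_univ _, cf_fst S hb p.1.fst 0⟩
    rw [← h6]
    exact h5
  · obtain ⟨i', rfl⟩ := Nat.exists_eq_succ_of_ne_zero h0.ne'
    exact key _ _ hi

/-- the linear data of a polyhedral map -/
noncomputable def mkDt [Nontrivial V] (S : GMap G) (hG : G.Connected) (k : ℕ) (hk : S.eg = k) (hP : Poly S)
    (b : V → Flag G) (hb : IsBase b) : Dat k S.Face (Ch (corS S hP b hb)) (cyc G) :=
    { s := fun e => S.face (cf S b e.vx e.lo)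
      t := fun e => S.face (cf S b e.vx e.hi)
      z := bdF S
      a := fun e => cc S b e.vx e.lo + cc S b e.vx e.hi
      J := frm S
      symm := frm_symm S
      inc := by
        intro e F
        rw [LinearMap.add_apply, cc_bd, cc_bd]
        have h3 : ∀ x y z : F2, x + y + (z + y) = x + z := by decide
        exact h3 _ _ _
      rad := frm_rad S
      sep := cc_sep S hP b hb
      rk := by
        have h := frm_rank hG S
        rw [hk] at h
        exact_mod_cast h }

/-- the linear form of an admissible set -/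
theorem adm_sum [Nontrivial V] (S : GMap G) (hG : G.Connected) (k : ℕ) (hk : S.eg = k) (hP : Poly S)
    (b : V → Flag G) (hb : IsBase b) (mu : Finset (Ch (corS S hP b hb))) (h : (mkDt S hG k hk hP b hb).Adm mu)
    (z : cyc G) : frm S z z = ∑ e ∈ mu, (cc S b e.vx e.lo + cc S b e.vx e.hi) z := by
  have h1 := h z
  rw [Dat.N_apply] at h1
  have h2 : ∀ x y : F2, x + y = 0 → x = y := by decide
  have h3 : ∀ x : F2, x * x = x := by decide
  refine (h2 _ _ h1).trans (Finset.sum_congr rfl fun e _ => ?_)
  exact h3 _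

/-- the system of a polyhedral map -/
noncomputable def mkSys [Nontrivial V] (S : GMap G) (hG : G.Connected) (k : ℕ) (hk : S.eg = k) (hP : Poly S)
    (b : V → Flag G) (hb : IsBase b) : Sys k S.Face V (cyc G) where
  P := corS S hP b hb
  pol := polS S hP b hb
  D := mkDt S hG k hk hP b hb
  hs _ := rfl
  ht _ := rfl
  c := cc S b
  hc _ := rfl
  par e e' h := par_ch e e' h
  k33 f g e hf hg hfg hw he hN := k33_ch hG S hP hb f g e hf hg hfg hw he fun i j i' j' => hN i j i' j'
  touch := by
    intro mu hmu N q e F l α β h1 h2 h3 h4 h5 h6 h7 h8 h9 h10 h11 h12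
    have hlt : ∀ i, α i < β i := fun i => by
      obtain ⟨t, ht1, ht2, -⟩ := h7 i
      omega
    have hle : ∀ i, β i ≤ N := by
      intro i
      have a1 := hlt 1
      have a2 := hlt 2
      fin_cases i
      · show β 0 ≤ N
        omega
      · show β 1 ≤ N
        omega
      · exact h6
    exact touch_null ⟨adm_sum S hG k hk hP b hb mu hmu, fun t ht => (h1 t ht).1, fun t ht => (h1 t ht).2, h2⟩ F l α β h3
      (fun i => ⟨hlt i, hle i, h8 i, h9 i⟩) h4 h5 h7
      (fun i j hij => ⟨fun g hg g' hg' => (h10 i j hij g hg g' hg').1, fun g hg g' hg' => (h10 i j hij g hg g' hg').2.1,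
        fun g hg g' hg' => (h10 i j hij g hg g' hg').2.2.1, fun g hg g' hg' => (h10 i j hij g hg g' hg').2.2.2.1,
        fun g hg g' hg' => (h10 i j hij g hg g' hg').2.2.2.2⟩) h11 h12

end Pool.Agent.EPH
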