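import Pool.Agent.EPH.LHit

/-!
# EPH-LZet: the boundary of the faces of a walk on one side

PLAN. `ζ e := (1 + κ e) * ((if A (S.face (rp e)) then 1 else 0) + (if A (S.face (side (rp e))) then 1 else 0))`; for a flag `q` with
`ed q = e` the two faces of `q` and `side q` are those of `rp e` in some order (`q` is `rp e`, `side (rp e)`, `across (rp e)` or
`side (across (rp e))`: same dart or the reversed one, `face_across`; compare `bdF_eq` in BEO). Cycle condition at `v`: the sum
over the darts at `v` is a sum over `t ∈ range d` (as `sum_zero` in `Pool/Agent/EPH/LFrm.lean`, with `sum_darts`) of `(1 + κ_t) * (χ_t + χ_(t-1))`,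
`κ_t := κ (ed (cf S b v t))`, `χ_t := if A (S.face (cf S b v t)) then 1 else 0`, `face_side_cf` (`t - 1` modulo `d`: `cf_period`); reindex:
`∑ t, χ_t * ((1 + κ_t) + (1 + κ_(t+1))) = ∑ t, χ_t * (hit S l + hit S l') (cf S b v t)` (`hκ`, `nxt_cf`, `ed_side`). `hit S l' q = 0` if
`A (S.face q)` (`hit_ne`, `h2`), and `hit S l q = 0` if not (`hit_ne`, `h1`): so the sum is `∑ t, hit S l (cf S b v t) = 0` (`hit_zero`).
-/

set_option autoImplicit false

open Finset
open scoped Classical

namespace Pool.Agent.EPH

open Pool.Agent.BEO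
open Pool.Agent.Helper35.OG hiding F2 dg

variable {V : Type} {G : SimpleGraph V} [Fintype V]

private noncomputable def xphi (S : GMap G) (A : S.Face → Prop) (p : Flag G) : F2 :=
  (if A (S.face p) then 1 else 0) + (if A (S.face (side p)) then 1 else 0)

omit [Fintype V] in
private theorem xphi_side (S : GMap G) (A : S.Face → Prop) (p : Flag G) : xphi S A (side p) = xphi S A p := by
  unfold xphi
  rw [side_side, add_comm]

omit [Fintype V] in
private theorem xphi_across (S : GMap G) (A : S.Face → Prop) (p : Flag G) : xphi S A (across p) = xphi S A p := by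
  have h : side (across p) = across (side p) := rfl
  unfold xphi
  rw [h, face_across, face_across]

omit [Fintype V] in
private theorem xphi_ed (S : GMap G) (A : S.Face → Prop) {p q : Flag G} (h : ed p = ed q) :
    xphi S A p = xphi S A q := by
  have h1 : p.1.edge = q.1.edge := congrArg Subtype.val h
  obtain ⟨d, s⟩ := p
  obtain ⟨d', s'⟩ := q
  rcases SimpleGraph.dart_edge_eq_iff d d' |>.1 h1 with h2 | h2
  · subst h2
    by_cases hs : s = s'
    · rw [hs]
    · have h3 : (d, s) = side (d, s') := by
        cases s <;> cases s' <;> simp_all [side]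
      rw [h3, xphi_side]
  · subst h2
    by_cases hs : s = s'
    · have h3 : (d'.symm, s) = side (across (d', s')) := by
        cases s <;> cases s' <;> simp_all [side, across]
      rw [h3, xphi_side, xphi_across]
    · have h3 : (d'.symm, s) = across (d', s') := by
        cases s <;> cases s' <;> simp_all [across]
      rw [h3, xphi_across]

private theorem xz_shift (f : ℕ → F2) (d : ℕ) (h : f d = f 0) : ∑ t ∈ range d, f t = ∑ t ∈ range d, f (t + 1) := by
  have h1 := sum_range_succ f d
  rw [sum_range_succ', h] at h1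
  exact (add_right_cancel h1).symm

theorem exists_zeta (S : GMap G) {hP : Poly S} {b : V → Flag G} {hb : IsBase b} (l l' : List (Ch (corS S hP b hb)))
    (κ : G.edgeSet → F2) (hκ : ∀ q, κ (ed q) + κ (ed (S.nxt q)) = hit S l q + hit S l' q) (A : S.Face → Prop)
    (h1 : ∀ e ∈ l, A (S.face (cf S b e.vx e.lo)) ∧ A (S.face (cf S b e.vx e.hi)))
    (h2 : ∀ e ∈ l', ¬ A (S.face (cf S b e.vx e.lo)) ∧ ¬ A (S.face (cf S b e.vx e.hi))) :
    ∃ ζ : cyc G, ∀ q, ζ.1 (ed q) =
      (1 + κ (ed q)) * ((if A (S.face q) then 1 else 0) + (if A (S.face (side q)) then 1 else 0)) := by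
  have h0 : ∀ x : F2, x + x = 0 := CharTwo.add_self_eq_zero
  obtain ⟨ζ0, hζ0⟩ : ∃ ζ0 : G.edgeSet → F2, ∀ e, ζ0 e = (1 + κ e) * xphi S A (rp e) := ⟨_, fun _ => rfl⟩
  have hval : ∀ q : Flag G, ζ0 (ed q) = (1 + κ (ed q)) * xphi S A q := fun q => by
    rw [hζ0, xphi_ed S A (ed_rp (ed q))]
  have hedd : ∀ q : Flag G, ed (q.1, true) = ed q := by
    rintro ⟨d, s⟩
    rfl
  have hmem : ζ0 ∈ cyc G := by
    intro v
    have g1 := sum_darts S hb (fun x => if x.fst = v then ζ0 (ed (x, true)) else 0)
    rw [← Finset.sum_filter] at g1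
    refine g1.trans ?_
    rw [Finset.sum_eq_single v]
    · have g2 : ∀ t, (if (cf S b v t).1.fst = v then ζ0 (ed ((cf S b v t).1, true)) else 0) =
          (1 + κ (ed (cf S b v t))) * xphi S A (cf S b v t) := by
        intro t
        rw [if_pos (cf_fst S hb v t), hedd, hval]
      rw [sum_congr rfl fun t _ => g2 t]
      have hper : cf S b v (nb G v).card = cf S b v 0 := by
        have a7 := cf_period S hb v 0
        rwa [zero_add] at a7
      rw [xz_shift (fun t => (1 + κ (ed (cf S b v t))) * xphi S A (cf S b v t)) (nb G v).card (by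
        beta_reduce
        rw [hper])]
      beta_reduce
      have g3 : ∀ t, (1 + κ (ed (cf S b v (t + 1)))) * xphi S A (cf S b v (t + 1)) =
          (1 + κ (ed (cf S b v (t + 1)))) * (if A (S.face (cf S b v (t + 1))) then 1 else 0) +
            (1 + κ (ed (cf S b v (t + 1)))) * (if A (S.face (cf S b v t)) then 1 else 0) := by
        intro t
        unfold xphi
        rw [face_side_cf, mul_add]
      rw [sum_congr rfl fun t _ => g3 t, sum_add_distrib,
        ← xz_shift (fun t => (1 + κ (ed (cf S b v t))) * (if A (S.face (cf S b v t)) then 1 else 0)) (nb G v).card (by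
          beta_reduce
          rw [hper]), ← sum_add_distrib]
      refine Eq.trans ?_ (hit_zero S l v)
      refine sum_congr rfl fun t _ => ?_
      have g4 := hκ (cf S b v t)
      rw [nxt_cf, ed_side] at g4
      by_cases h3 : A (S.face (cf S b v t))
      · have z2 : hit S l' (cf S b v t) = 0 := by
          by_contra hc
          obtain ⟨g, hg, -, a | a⟩ := hit_ne S l' _ hc
          · exact (h2 g hg).1 (a ▸ h3)
          · exact (h2 g hg).2 (a ▸ h3)
        rw [z2, add_zero] at g4
        rw [← g4, if_pos h3]
        linear_combination h0 1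
      · have z1 : hit S l (cf S b v t) = 0 := by
          by_contra hc
          obtain ⟨g, hg, -, a | a⟩ := hit_ne S l _ hc
          · exact h3 (a ▸ (h1 g hg).1)
          · exact h3 (a ▸ (h1 g hg).2)
        rw [z1, if_neg h3, mul_zero, mul_zero, add_zero]
    · intro w _ hw
      refine sum_eq_zero fun t _ => ?_
      rw [if_neg]
      rw [cf_fst S hb w t]
      exact hw
    · intro h
      exact absurd (mem_univ v) h
  exact ⟨⟨ζ0, hmem⟩, fun q => hval q⟩

end Pool.Agent.EPH
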