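import Pool.Agent.EPH.LHit
import Pool.Agent.EPH.LFrm

/-!
# EPH-LZfr: the form at the boundary of the faces of a walk

PLAN. `χ q := if A (S.face q) then 1 else 0`. Let `M v t := ∑ i ∈ range t, hit S l (cf S b v i)` and `g : G.Dart → F2` with
`g (cf S b v t).1 = M v t` for `t < d v` (`lcol_fun` in `Pool/Agent/EPH/LCol.lean`). `L q := (1 + κ (ed q)) * χ q + g q.1`. `IsL S ζ.1 L`: sides:
`L q + L (side q) = ζ.1 (ed q)` (`g` is the same). `L (S.nxt q) = L q`: `χ` is the same (`face_nxt`), `κ (ed (S.nxt q)) + κ (ed q) =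
hit S l q + hit S l' q`, and `χ q * (hit S l q + hit S l' q) = hit S l q` (`hit_ne`, `h1`, `h2`); and `g (S.nxt q).1 + g q.1 = hit S l q`: for
`q = cf S b v t`, `S.nxt q = side (cf S b v (t + 1))`: `M v (t + 1) = M v t + hit S l q`, for `t + 1 = d` use `hit_zero` and `cf_period`;
for `q = side (cf S b v t)` use `S.nxt q` instead of `q` (`nxt_nxt`, `hit_nxt`). `frm_eq`: `frm S ζ z' = ∑ e, dL L e * z'.1 e`, and
`dL L e = L (rp e) + L (across (rp e)) = g (rp e).1 + g (rp e).1.symm` (`face_across`, `ed_across`). By `sum_edges`, `sum_darts` (as at the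
end of `frm_isMk` in `LFrm.lean`) this is `∑ v, ∑ t ∈ range d, M v t * z'.1 (ed (cf S b v t)) = ∑ v, ∑ i ∈ range d, hit S l (cf S b v i) *
cc S b v i z'` (`lcol_abel0` in LCol) `= clsL S l z'` (`hit_cc`).
-/

set_option autoImplicit false

open Finset
open scoped Classical

namespace Pool.Agent.EPH

open Pool.Agent.BEO
open Pool.Agent.Helper35.OG hiding F2 dg

variable {V : Type} {G : SimpleGraph V} [Fintype V]

private theorem lz_abel (σ y : ℕ → F2) (n : ℕ) :
    ∑ i ∈ range n, σ i * ∑ t ∈ Icc 1 i, y t =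
      (∑ i ∈ range n, σ i) * ∑ t ∈ Icc 1 n, y t - ∑ t ∈ range (n + 1), (∑ i ∈ range t, σ i) * y t := by
  induction n with
  | zero => simp
  | succ n ih =>
    rw [Finset.sum_range_succ, ih, Finset.sum_range_succ (fun t => (∑ i ∈ range t, σ i) * y t) (n + 1),
      Finset.sum_range_succ σ n, Finset.sum_Icc_succ_top (by omega)]
    ring

private theorem lz_abel0 (σ y : ℕ → F2) (n : ℕ) (h : ∑ i ∈ range n, σ i = 0) :
    ∑ i ∈ range n, σ i * ∑ t ∈ Icc 1 i, y t = ∑ t ∈ range n, (∑ i ∈ range t, σ i) * y t := by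
  rw [lz_abel, h, Finset.sum_range_succ, h, zero_mul, zero_mul, add_zero, zero_sub, CharTwo.neg_eq]

private theorem lz_index (S : GMap G) {b : V → Flag G} (hb : IsBase b) (x : G.Dart) :
    ∃ t, t < (nb G x.fst).card ∧ (cf S b x.fst t).1 = x := by
  obtain ⟨i, hi, h⟩ := cf_cover S hb x.fst (x, true) rfl
  refine ⟨i, hi, ?_⟩
  rcases h with h | h
  · rw [← h]
  · exact (congrArg Prod.fst h).symm

private theorem lz_fun (S : GMap G) {b : V → Flag G} (hb : IsBase b) (K : V → ℕ → F2) :
    ∃ g : G.Dart → F2, ∀ v t, t < (nb G v).card → g (cf S b v t).1 = K v t := by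
  choose tx h1 h2 using lz_index S hb
  refine ⟨fun x => K x.fst (tx x), fun v t ht => ?_⟩
  have hx : (cf S b v t).1.fst = v := cf_fst S hb v t
  generalize hxx : (cf S b v t).1 = x at hx ⊢
  have h3 := h1 x
  have h4 := h2 x
  rw [hx] at h3 h4
  show K x.fst (tx x) = K v t
  rw [hx, ed_cf_inj S hb v h3 ht (h4.trans hxx.symm)]

theorem frm_zeta (S : GMap G) {hP : Poly S} {b : V → Flag G} {hb : IsBase b} (l l' : List (Ch (corS S hP b hb)))
    (κ : G.edgeSet → F2) (hκ : ∀ q, κ (ed q) + κ (ed (S.nxt q)) = hit S l q + hit S l' q) (A : S.Face → Prop)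
    (h1 : ∀ e ∈ l, A (S.face (cf S b e.vx e.lo)) ∧ A (S.face (cf S b e.vx e.hi)))
    (h2 : ∀ e ∈ l', ¬ A (S.face (cf S b e.vx e.lo)) ∧ ¬ A (S.face (cf S b e.vx e.hi)))
    (ζ : cyc G) (hζ : ∀ q, ζ.1 (ed q) =
      (1 + κ (ed q)) * ((if A (S.face q) then 1 else 0) + (if A (S.face (side q)) then 1 else 0))) (z' : cyc G) :
    frm S ζ z' = clsL S l z' := by
  obtain ⟨g, hg⟩ := lz_fun S hb (fun v t => ∑ i ∈ range t, hit S l (cf S b v i))
  obtain ⟨χ, hχ⟩ : ∃ χ : Flag G → F2, χ = fun q => if A (S.face q) then 1 else 0 := ⟨_, rfl⟩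
  obtain ⟨L, hL⟩ : ∃ L : Flag G → F2, L = fun q => (1 + κ (ed q)) * χ q + g q.1 := ⟨_, rfl⟩
  have hχn : ∀ q, χ (S.nxt q) = χ q := by
    intro q
    rw [hχ]
    show (if A (S.face (S.nxt q)) then (1 : F2) else 0) = if A (S.face q) then 1 else 0
    rw [face_nxt]
  have hχa : ∀ q, χ (across q) = χ q := by
    intro q
    rw [hχ]
    show (if A (S.face (across q)) then (1 : F2) else 0) = if A (S.face q) then 1 else 0
    rw [face_across]
  have hχl : ∀ q, (hit S l q + hit S l' q) * χ q = hit S l q := by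
    intro q
    have e1 : hit S l q * χ q = hit S l q := by
      by_cases h : hit S l q = 0
      · rw [h, zero_mul]
      · obtain ⟨e, he, -, h3⟩ := hit_ne S l q h
        have h4 : χ q = 1 := by
          rw [hχ]
          show (if A (S.face q) then (1 : F2) else 0) = 1
          rw [if_pos]
          rcases h3 with h3 | h3
          · rw [h3]
            exact (h1 e he).1
          · rw [h3]
            exact (h1 e he).2
        rw [h4, mul_one]
    have e2 : hit S l' q * χ q = 0 := by
      by_cases h : hit S l' q = 0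
      · rw [h, zero_mul]
      · obtain ⟨e, he, -, h3⟩ := hit_ne S l' q h
        have h4 : χ q = 0 := by
          rw [hχ]
          show (if A (S.face q) then (1 : F2) else 0) = 0
          rw [if_neg]
          rcases h3 with h3 | h3
          · rw [h3]
            exact (h2 e he).1
          · rw [h3]
            exact (h2 e he).2
        rw [h4, mul_zero]
    rw [add_mul, e1, e2, add_zero]
  have hcfn : ∀ v t, t < (nb G v).card → g (S.nxt (cf S b v t)).1 + g (cf S b v t).1 =
      hit S l (cf S b v t) := by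
    intro v t ht
    have h3 : (S.nxt (cf S b v t)).1 = (cf S b v (t + 1)).1 := by
      rw [nxt_cf]
      rfl
    have h4 : (∑ i ∈ range t, hit S l (cf S b v i)) + ∑ i ∈ range t, hit S l (cf S b v i) = 0 :=
      CharTwo.add_self_eq_zero _
    rw [h3, hg v t ht]
    rcases Nat.lt_or_ge (t + 1) (nb G v).card with h | h
    · rw [hg v (t + 1) h]
      rw [Finset.sum_range_succ]
      linear_combination h4
    · have h5 : t + 1 = (nb G v).card := by omega
      have h6 : cf S b v (t + 1) = cf S b v 0 := by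
        rw [h5]
        have h7 := cf_period S hb v 0
        rwa [zero_add] at h7
      rw [h6, hg v 0 (by omega)]
      have h7 := hit_zero S l v
      rw [← h5, Finset.sum_range_succ] at h7
      have h8 : hit S l (cf S b v t) + hit S l (cf S b v t) = 0 := CharTwo.add_self_eq_zero _
      rw [Finset.range_zero, Finset.sum_empty, zero_add]
      linear_combination h7 - h8
  have hgn : ∀ q, g (S.nxt q).1 + g q.1 = hit S l q := by
    intro q
    obtain ⟨x, hx, h | h⟩ := cf_cover S hb q.1.fst q rfl
    · rw [h]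
      have := hcfn q.1.fst x hx
      exact this
    · obtain ⟨y, hy, h3⟩ : ∃ y, y < (nb G q.1.fst).card ∧ q = S.nxt (cf S b q.1.fst y) := by
        rcases Nat.eq_zero_or_pos x with h0 | h0
        · refine ⟨(nb G q.1.fst).card - 1, by omega, ?_⟩
          rw [nxt_cf]
          have h4 : (nb G q.1.fst).card - 1 + 1 = 0 + (nb G q.1.fst).card := by omega
          rw [h4, cf_period S hb]
          rw [h0] at h
          exact h
        · refine ⟨x - 1, by omega, ?_⟩
          rw [nxt_cf]
          have h4 : x - 1 + 1 = x := by omega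
          rw [h4]
          exact h
      have h5 := hcfn q.1.fst y hy
      have h6 : S.nxt q = cf S b q.1.fst y := by
        have h7 := congrArg S.nxt h3
        rwa [S.nxt_nxt] at h7
      rw [← h3, ← h6, hit_nxt] at h5
      rw [add_comm]
      exact h5
  have hIs : IsL S ζ.1 L := by
    refine ⟨fun q => ?_, fun q => ?_⟩
    · rw [hL]
      show (1 + κ (ed (S.nxt q))) * χ (S.nxt q) + g (S.nxt q).1 = (1 + κ (ed q)) * χ q + g q.1
      rw [hχn]
      have h3 := hκ q
      have h4 := hχl q
      have h5 := hgn q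
      have h6 : κ (ed q) + κ (ed q) = 0 := CharTwo.add_self_eq_zero _
      have h7 : g q.1 + g q.1 = 0 := CharTwo.add_self_eq_zero _
      have h8 : hit S l q + hit S l q = 0 := CharTwo.add_self_eq_zero _
      linear_combination χ q * h3 + h4 + h5 - χ q * h6 - h7 + h8
    · rw [hζ q, hL]
      show (1 + κ (ed q)) * χ q + g q.1 + ((1 + κ (ed (side q))) * χ (side q) + g (side q).1) = _
      have h3 : g (side q).1 = g q.1 := rfl
      have h4 : g q.1 + g q.1 = 0 := CharTwo.add_self_eq_zero _
      rw [ed_side, h3, hχ]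
      beta_reduce
      linear_combination h4
  rw [frm_eq S ζ z' hIs]
  have h3 := hit_cc S l z'
  have h4 : ∀ v, ∑ i ∈ range (nb G v).card, hit S l (cf S b v i) * cc S b v i z' =
      ∑ t ∈ range (nb G v).card, g (cf S b v t).1 * z'.1 (ed ((cf S b v t).1, true)) := by
    intro v
    have h5 := lz_abel0 (fun i => hit S l (cf S b v i)) (fun t => z'.1 (ed (cf S b v t))) _ (hit_zero S l v)
    refine Eq.trans h5 (Finset.sum_congr rfl fun t ht => ?_)
    rw [hg v t (mem_range.1 ht)]
    rfl
  rw [Finset.sum_congr rfl fun v _ => h4 v, ← sum_darts S hb (fun x => g x * z'.1 (ed (x, true))), sum_edges] at h3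
  rw [← h3]
  refine Finset.sum_congr rfl fun e _ => ?_
  have h6 : ed ((rp e).1, true) = e := (ed_rp e)
  have h7 : ed ((rp e).1.symm, true) = e := by
    have h8 := ed_across ((rp e).1, false)
    have h9 : across ((rp e).1, false) = ((rp e).1.symm, true) := rfl
    rw [h9] at h8
    rw [h8]
    exact ed_rp e
  have h10 : dL L e = g (rp e).1 + g (rp e).1.symm := by
    unfold dL
    rw [hL]
    show (1 + κ (ed (rp e))) * χ (rp e) + g (rp e).1 +
      ((1 + κ (ed (across (rp e)))) * χ (across (rp e)) + g (rp e).1.symm) = _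
    rw [ed_across, hχa]
    have h11 : (1 + κ (ed (rp e))) * χ (rp e) + (1 + κ (ed (rp e))) * χ (rp e) = 0 :=
      CharTwo.add_self_eq_zero _
    linear_combination h11
  rw [h6, h7, h10, add_mul]

end Pool.Agent.EPH
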