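import Pool.Agent.EPH.LNul
import Pool.Agent.EPH.LZet
import Pool.Agent.EPH.LZfr
import Pool.Agent.EPH.LZva

/-!
# EPH-LTw: walks touching a path (definitions), constant colourings

`zone_const`: induction on the walk: all flags at the vertex or on one of the two faces of a chord `g` have the same value of
`κ`: `vert_const` at `g.vx`, `face_const` on the two faces (the flag `cf S b g.vx g.lo` is at `g.vx` and on the first face, `cf S b g.vx
g.hi` is on the second face); consecutive chords have a common face. Claim by induction on `DW`: for every flag `p` in the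
zone of `l` and every flag `r` on the first face `F`: `κ (ed p) = κ (ed r)` (if `l` is not empty the face `F` is in the zone; in the
induction step the flags of the middle face `K` are in the zone of the first chord). `step_const`: the same for one chord.
-/

set_option autoImplicit false

open Finset
open scoped Classical

namespace Pool.Agent.EPH

open Pool.Agent.BEO
open Pool.Agent.Helper35.OG hiding F2 dg

variable {V : Type} {G : SimpleGraph V} [Fintype V]

variable {S : GMap G} {hP : Poly S} {b : V → Flag G} {hb : IsBase b}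

/-- the path `q 0, ..., q N` of faces with the chords `e t` in `mu` -/
structure PM (S : GMap G) {hP : Poly S} {b : V → Flag G} {hb : IsBase b} (mu : Finset (Ch (corS S hP b hb))) (N : ℕ)
    (q : ℕ → S.Face) (e : ℕ → Ch (corS S hP b hb)) : Prop where
  adm : ∀ z : cyc G, frm S z z = ∑ h ∈ mu, (cc S b h.vx h.lo + cc S b h.vx h.hi) z
  mem : ∀ t, t < N → e t ∈ mu
  face : ∀ t, t < N → s(S.face (cf S b (e t).vx (e t).lo), S.face (cf S b (e t).vx (e t).hi)) = s(q t, q (t + 1))
  inj : ∀ t t', t < N → t' < N → e t = e t' → t = t'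

/-- the list `l` meets the path only between `α` and `β` -/
structure TW (S : GMap G) {hP : Poly S} {b : V → Flag G} {hb : IsBase b} (mu : Finset (Ch (corS S hP b hb))) (N : ℕ)
    (q : ℕ → S.Face) (e : ℕ → Ch (corS S hP b hb)) (l : List (Ch (corS S hP b hb))) (α β : ℕ) : Prop where
  lt : α < β
  le : β ≤ N
  face : ∀ g ∈ l, ∀ t, t ≤ N → t ≤ α ∨ β ≤ t → S.face (cf S b g.vx g.lo) ≠ q t ∧ S.face (cf S b g.vx g.hi) ≠ q t
  near : ∀ g ∈ l, ∀ h ∈ mu, (S.face (cf S b h.vx h.lo) = S.face (cf S b g.vx g.lo) ∨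
    S.face (cf S b h.vx h.lo) = S.face (cf S b g.vx g.hi) ∨ S.face (cf S b h.vx h.hi) = S.face (cf S b g.vx g.lo) ∨
    S.face (cf S b h.vx h.hi) = S.face (cf S b g.vx g.hi) ∨ h.vx = g.vx) → ∃ t, α ≤ t ∧ t < β ∧ h = e t

/-- the lists `l` and `l'` have no common vertices or faces -/
structure SP (S : GMap G) {hP : Poly S} {b : V → Flag G} {hb : IsBase b} (l l' : List (Ch (corS S hP b hb))) : Prop where
  vx : ∀ g ∈ l, ∀ g' ∈ l', g.vx ≠ g'.vx
  ll : ∀ g ∈ l, ∀ g' ∈ l', S.face (cf S b g.vx g.lo) ≠ S.face (cf S b g'.vx g'.lo)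
  lh : ∀ g ∈ l, ∀ g' ∈ l', S.face (cf S b g.vx g.lo) ≠ S.face (cf S b g'.vx g'.hi)
  hl : ∀ g ∈ l, ∀ g' ∈ l', S.face (cf S b g.vx g.hi) ≠ S.face (cf S b g'.vx g'.lo)
  hh : ∀ g ∈ l, ∀ g' ∈ l', S.face (cf S b g.vx g.hi) ≠ S.face (cf S b g'.vx g'.hi)

/-- the flag `p` is at a vertex or on a face of `l` -/
def Zn (S : GMap G) {hP : Poly S} {b : V → Flag G} {hb : IsBase b} (l : List (Ch (corS S hP b hb))) (p : Flag G) : Prop :=
  ∃ g ∈ l, p.1.fst = g.vx ∨ S.face p = S.face (cf S b g.vx g.lo) ∨ S.face p = S.face (cf S b g.vx g.hi)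

theorem SP.symm {l l' : List (Ch (corS S hP b hb))} (h : SP S l l') : SP S l' l :=
  ⟨fun g hg g' hg' => (h.vx g' hg' g hg).symm, fun g hg g' hg' => (h.ll g' hg' g hg).symm,
    fun g hg g' hg' => (h.hl g' hg' g hg).symm, fun g hg g' hg' => (h.lh g' hg' g hg).symm,
    fun g hg g' hg' => (h.hh g' hg' g hg).symm⟩

theorem step_const (g : Ch (corS S hP b hb)) (κ : G.edgeSet → F2) (h1 : ∀ q : Flag G, q.1.fst = g.vx →
    κ (ed q) + κ (ed (S.nxt q)) = 0) (h2 : ∀ q : Flag G, S.face q = S.face (cf S b g.vx g.lo) →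
    κ (ed q) + κ (ed (S.nxt q)) = 0) (h3 : ∀ q : Flag G, S.face q = S.face (cf S b g.vx g.hi) →
    κ (ed q) + κ (ed (S.nxt q)) = 0) (p q : Flag G) (hp : Zn S [g] p) (hq : Zn S [g] q) : κ (ed p) = κ (ed q) := by
  have key : ∀ y : Flag G, Zn S [g] y → κ (ed y) = κ (ed (cf S b g.vx g.lo)) := by
    intro y hy
    obtain ⟨g', hg', h⟩ := hy
    rw [List.mem_singleton] at hg'
    subst hg'
    have e1 : κ (ed (cf S b g'.vx g'.hi)) = κ (ed (cf S b g'.vx g'.lo)) :=
      vert_const S κ g'.vx h1 (cf_fst S hb _ _) (cf_fst S hb _ _)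
    rcases h with h | h | h
    · exact vert_const S κ g'.vx h1 h (cf_fst S hb _ _)
    · exact face_const S κ _ h2 h rfl
    · exact (face_const S κ _ h3 h rfl).trans e1
  rw [key p hp, key q hq]

/-- a colouring is constant on a walk which it does not cross -/
theorem zone_const {F H : S.Face} {l : List (Ch (corS S hP b hb))}
    (hl : DW (fun e : Ch (corS S hP b hb) => S.face (cf S b e.vx e.lo))
      (fun e : Ch (corS S hP b hb) => S.face (cf S b e.vx e.hi)) F H l) (κ : G.edgeSet → F2)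
    (h0 : ∀ q, Zn S l q → κ (ed q) + κ (ed (S.nxt q)) = 0) (p q : Flag G) (hp : Zn S l p) (hq : Zn S l q) :
    κ (ed p) = κ (ed q) := by
  have h2 : ∀ x : F2, x + x = 0 := by decide
  have key : ∀ (F H : S.Face) (l : List (Ch (corS S hP b hb))),
      DW (fun e : Ch (corS S hP b hb) => S.face (cf S b e.vx e.lo))
        (fun e : Ch (corS S hP b hb) => S.face (cf S b e.vx e.hi)) F H l →
      (∀ q, Zn S l q → κ (ed q) + κ (ed (S.nxt q)) = 0) → ∀ p r : Flag G, Zn S l p → S.face r = F →
      κ (ed p) = κ (ed r) := by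
    intro F H l hl
    induction hl with
    | nil F =>
      rintro _ p r ⟨g, hg, _⟩
      exact absurd hg List.not_mem_nil
    | cons F K H g l he _ ih =>
      intro h0 p r hp hr
      have hz : ∀ y, Zn S [g] y → Zn S (g :: l) y := by
        rintro y ⟨g', hg', h⟩
        rw [List.mem_singleton] at hg'
        subst hg'
        exact ⟨g', List.mem_cons_self, h⟩
      have s1 := step_const g κ (fun y hy => h0 y (hz y ⟨g, List.mem_singleton.2 rfl, Or.inl hy⟩))
        (fun y hy => h0 y (hz y ⟨g, List.mem_singleton.2 rfl, Or.inr (Or.inl hy)⟩))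
        (fun y hy => h0 y (hz y ⟨g, List.mem_singleton.2 rfl, Or.inr (Or.inr hy)⟩))
      have hrz : Zn S [g] r := by
        rcases he with ⟨h1, _⟩ | ⟨_, h1⟩
        · exact ⟨g, List.mem_singleton.2 rfl, Or.inr (Or.inl (hr.trans h1.symm))⟩
        · exact ⟨g, List.mem_singleton.2 rfl, Or.inr (Or.inr (hr.trans h1.symm))⟩
      obtain ⟨g', hg', h⟩ := hp
      rcases List.mem_cons.1 hg' with rfl | hg'
      · exact s1 p r ⟨g', List.mem_singleton.2 rfl, h⟩ hrz
      · obtain ⟨y, hy⟩ : ∃ y : Flag G, S.face y = K := Quot.exists_rep K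
        have hyz : Zn S [g] y := by
          rcases he with ⟨_, h1⟩ | ⟨h1, _⟩
          · exact ⟨g, List.mem_singleton.2 rfl, Or.inr (Or.inr (hy.trans h1.symm))⟩
          · exact ⟨g, List.mem_singleton.2 rfl, Or.inr (Or.inl (hy.trans h1.symm))⟩
        have i1 := ih (fun x hx => h0 x (by
          obtain ⟨g2, hg2, h3⟩ := hx
          exact ⟨g2, List.mem_cons_of_mem _ hg2, h3⟩)) p y ⟨g', hg', h⟩ hy
        exact i1.trans (s1 y r hyz hrz)
  obtain ⟨r, hr⟩ : ∃ r : Flag G, S.face r = F := Quot.exists_rep F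
  rw [key F H l hl h0 p r hp hr, key F H l hl h0 q r hq hr]

end Pool.Agent.EPH
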