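import Pool.Agent.BEO.MkD
import Pool.Agent.EPH.Defs

/-!
# EPH: polyhedral maps, the corners at a vertex

`b v` is a flag at `v` (the base flag). The corner `i` at `v` is the corner of the flag `cf S b v i = rot^i (b v)`; the
flag `cf S b v (i + 1)` is the flag on the other side of the dart between the corners `i` and `i + 1`.
-/

set_option autoImplicit false

open Finset
open scoped Classical

namespace Pool.Agent.EPH

open Pool.Agent.BEO
open Pool.Agent.Helper35.OG hiding F2 dg

variable {V : Type} {G : SimpleGraph V}

/-- From the corner of `p` to the next corner: the flag of the other dart of the corner, on its other side. -/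
def rot (S : GMap G) (p : Flag G) : Flag G := side (S.nxt p)

/-- All degrees are at least three, every face has at most one corner at every vertex, and two faces with two common
vertices are the two sides of the edge joining them. -/
structure Poly [Fintype V] (S : GMap G) : Prop where
  deg : ∀ v, 3 ≤ (nb G v).card
  one : ∀ p q : Flag G, p.1.fst = q.1.fst → S.face p = S.face q → q = p ∨ q = S.nxt p
  two : ∀ p q p' q' : Flag G, p.1.fst = q.1.fst → p'.1.fst = q'.1.fst → p.1.fst ≠ p'.1.fst →
    S.face p = S.face p' → S.face q = S.face q' → S.face p ≠ S.face q →
    ∃ r : Flag G, r.1.fst = p.1.fst ∧ r.1.snd = p'.1.fst ∧ S.face r = S.face p ∧ S.face (side r) = S.face q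

/-- the flag of the `i`-th corner at `v` -/
def cf (S : GMap G) (b : V → Flag G) (v : V) (i : ℕ) : Flag G := (rot S)^[i] (b v)

/-- every base flag is at its vertex -/
def IsBase (b : V → Flag G) : Prop := ∀ v, (b v).1.fst = v

/-- the functional of a corner: the elements of a cycle between the corners `0` and `i` at `v` -/
noncomputable def cc [Fintype V] (S : GMap G) (b : V → Flag G) (v : V) (i : ℕ) : cyc G →ₗ[F2] F2 where
  toFun z := ∑ t ∈ Icc 1 i, z.1 (ed (cf S b v t))
  map_add' x y := by
    simp only [Submodule.coe_add, Pi.add_apply, Finset.sum_add_distrib]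
  map_smul' r x := by
    simp only [Submodule.coe_smul, Pi.smul_apply, smul_eq_mul, RingHom.id_apply, Finset.mul_sum]

end Pool.Agent.EPH
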