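import Pool.Agent.EPH.NWt
import Pool.Agent.EPH.DtR

/-!
# EPH-NExt: extremal realizable sets exist
-/

set_option autoImplicit false

open Finset
open scoped Classical

namespace Pool.Agent.EPH

open Pool.Agent.BEO hiding Cfg Frame

variable {k : ℕ} {Φ Vt Z : Type} [Fintype Φ] [Fintype Vt] [AddCommGroup Z] [Module F2 Z] [Module.Finite F2 Z]

theorem exists_ext (S : Sys k Φ Vt Z) : ∃ lam mu, Ext S lam mu := by
  obtain ⟨lam₂, h₂⟩ := S.D.exists_adm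
  obtain ⟨lam₁, hr₁, h₁, -⟩ := rematch S lam₂ h₂
  obtain ⟨lam₀, h₀, hmin₀⟩ := exists_min_image
    ((univ : Finset (Finset (Ch S.P))).filter fun lam => Real S.P lam ∧ S.D.Adm lam) S.D.rkN
    ⟨lam₁, mem_filter.2 ⟨mem_univ _, hr₁, h₁⟩⟩
  obtain ⟨-, hr₀, ha₀⟩ := mem_filter.1 h₀
  obtain ⟨lam₃, h₃, hmin₃⟩ := exists_min_image
    ((univ : Finset (Finset (Ch S.P))).filter fun lam => Real S.P lam ∧ S.D.Adm lam ∧ S.D.rkN lam ≤ S.D.rkN lam₀)
    (act S) ⟨lam₀, mem_filter.2 ⟨mem_univ _, hr₀, ha₀, le_rfl⟩⟩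
  obtain ⟨-, hr₃, ha₃, hk₃⟩ := mem_filter.1 h₃
  obtain ⟨lam, hl, hmin⟩ := exists_min_image
    ((univ : Finset (Finset (Ch S.P))).filter fun lam => Real S.P lam ∧ S.D.Adm lam ∧
      S.D.rkN lam ≤ S.D.rkN lam₀ ∧ act S lam ≤ act S lam₃)
    Finset.card ⟨lam₃, mem_filter.2 ⟨mem_univ _, hr₃, ha₃, hk₃, le_rfl⟩⟩
  obtain ⟨-, hr, ha, hk, hc⟩ := mem_filter.1 hl
  obtain ⟨mu, hm, hminm⟩ := exists_min_image (lam.powerset.filter fun lam => S.D.Adm lam) Finset.card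
    ⟨lam, mem_filter.2 ⟨mem_powerset.2 (Subset.refl lam), ha⟩⟩
  obtain ⟨hms, ham⟩ := mem_filter.1 hm
  refine ⟨lam, mu, ?_⟩
  constructor
  · exact hr
  · exact ha
  · intro lam' hr' ha'
    exact hk.trans (hmin₀ lam' (mem_filter.2 ⟨mem_univ _, hr', ha'⟩))
  · intro lam' hr' ha' hk'
    exact hc.trans (hmin₃ lam' (mem_filter.2 ⟨mem_univ _, hr', ha', hk'.trans hk⟩))
  · intro lam' hr' ha' hk' hc'
    exact hmin lam' (mem_filter.2 ⟨mem_univ _, hr', ha', hk'.trans hk, hc'.trans hc⟩)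
  · exact mem_powerset.1 hms
  · exact ham
  · intro mu' hs' ha'
    exact hminm mu' (mem_filter.2 ⟨mem_powerset.2 hs', ha'⟩)

theorem opt_le (S : Sys k Φ Vt Z) {lam mu : Finset (Ch S.P)} (h : Ext S lam mu) (nu : Finset (Ch S.P))
    (hn : S.D.Adm nu) : S.D.rkN lam ≤ k + nu.card := by
  obtain ⟨nu', hr, ha, hc⟩ := rematch S nu hn
  exact (h.opt nu' hr ha).trans ((S.D.rkN_le nu').trans (Nat.add_le_add_left hc _))

end Pool.Agent.EPH
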