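import Pool.Agent.EPH.ExtD
import Pool.Agent.EPH.CodeD

/-!
# EPH-NHf: half chords of a list of chords (definitions)
-/

set_option autoImplicit false

open Finset
open scoped Classical

namespace Pool.Agent.EPH

open Pool.Agent.BEO

variable {k : ℕ} {Φ Vt Z : Type} [Fintype Φ] [Fintype Vt] [AddCommGroup Z] [Module F2 Z]

/-- vertex of a half chord `(i, false)` (first corner) or `(i, true)` (second corner) of the list `l` -/
def hfV {P : Cor Φ Vt} (l : List (Ch P)) (x : Fin l.length × Bool) : Vt := (l.get x.1).vx

/-- its corner -/
def hfC {P : Cor Φ Vt} (l : List (Ch P)) (x : Fin l.length × Bool) : ℕ :=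
  if x.2 then (l.get x.1).hi else (l.get x.1).lo

/-- its face -/
def hfF (S : Sys k Φ Vt Z) (l : List (Ch S.P)) (x : Fin l.length × Bool) : Φ :=
  if x.2 then S.D.t (l.get x.1) else S.D.s (l.get x.1)

/-- sets of half chords which are even at all vertices and faces and null-homologous -/
noncomputable def Cd (S : Sys k Φ Vt Z) (l : List (Ch S.P)) : Submodule F2 (Fin l.length × Bool → F2) where
  carrier := {x | (∀ v, ∑ h, (if hfV l h = v then x h else 0) = 0) ∧ (∀ F, ∑ h, (if hfF S l h = F then x h else 0) = 0) ∧
    ∑ h, x h • S.c (hfV l h) (hfC l h) = 0}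
  add_mem' := by
    rintro x y ⟨h1, h2, h3⟩ ⟨h4, h5, h6⟩
    refine ⟨fun v => ?_, fun F => ?_, ?_⟩
    · have e : ∀ h, (if hfV l h = v then (x + y) h else 0) =
          (if hfV l h = v then x h else 0) + (if hfV l h = v then y h else 0) := by
        intro h
        split_ifs <;> simp
      simp only [e, Finset.sum_add_distrib]
      rw [h1 v, h4 v, add_zero]
    · have e : ∀ h, (if hfF S l h = F then (x + y) h else 0) =
          (if hfF S l h = F then x h else 0) + (if hfF S l h = F then y h else 0) := by
        intro h
        split_ifs <;> simp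
      simp only [e, Finset.sum_add_distrib]
      rw [h2 F, h5 F, add_zero]
    · simp only [Pi.add_apply, add_smul, Finset.sum_add_distrib]
      rw [h3, h6, add_zero]
  zero_mem' := by
    refine ⟨fun v => ?_, fun F => ?_, ?_⟩ <;> simp
  smul_mem' := by
    rintro r x ⟨h1, h2, h3⟩
    refine ⟨fun v => ?_, fun F => ?_, ?_⟩
    · have e : ∀ h, (if hfV l h = v then (r • x) h else 0) = r * (if hfV l h = v then x h else 0) := by
        intro h
        split_ifs <;> simp
      simp only [e, ← Finset.mul_sum]
      rw [h1 v, mul_zero]
    · have e : ∀ h, (if hfF S l h = F then (r • x) h else 0) = r * (if hfF S l h = F then x h else 0) := by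
        intro h
        split_ifs <;> simp
      simp only [e, ← Finset.mul_sum]
      rw [h2 F, mul_zero]
    · simp only [Pi.smul_apply, smul_eq_mul, mul_smul, ← Finset.smul_sum]
      rw [h3, smul_zero]

end Pool.Agent.EPH
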