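import Pool.Agent.EPH.NReal
import Pool.Agent.EPH.XCfgB

/-!
# EPH-NPar: no parallel chords

Two chords with the same two faces are at different vertices, hence short, and both can be deleted.
-/

set_option autoImplicit false

open Finset
open scoped Classical

namespace Pool.Agent.EPH

open Pool.Agent.BEO hiding Cfg Frame

variable {k : ℕ} {Φ Vt Z : Type} [Fintype Φ] [Fintype Vt] [AddCommGroup Z] [Module F2 Z]

private theorem np_ext {P : Cor Φ Vt} {e e' : Ch P} (h1 : e.vx = e'.vx) (h2 : e.lo = e'.lo)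
    (h3 : e.hi = e'.hi) : e = e' := by
  obtain ⟨⟨v, i, j⟩, h⟩ := e
  obtain ⟨⟨v', i', j'⟩, h'⟩ := e'
  have h1' : v = v' := h1
  subst h1'
  have h2' : i = i' := Fin.ext h2
  have h3' : j = j' := Fin.ext h3
  subst h2'
  subst h3'
  rfl

private theorem np_f2 (y : F2) : y + y = 0 := by
  revert y
  decide

private theorem np_vx {S : Sys k Φ Vt Z} {e e' : Ch S.P} (hne : e ≠ e')
    (hh : s(S.D.s e, S.D.t e) = s(S.D.s e', S.D.t e')) : e.vx ≠ e'.vx := by
  intro hv
  have hl1 : e.lo < S.P.d e.vx := e.1.2.1.2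
  have hl2 : e.hi < S.P.d e.vx := e.1.2.2.2
  have hl3 : e'.lo < S.P.d e.vx := by
    rw [hv]
    exact e'.1.2.1.2
  have hl4 : e'.hi < S.P.d e.vx := by
    rw [hv]
    exact e'.1.2.2.2
  have hlt : e.lo < e.hi := e.2
  have hlt' : e'.lo < e'.hi := e'.2
  rw [S.hs, S.ht, S.hs, S.ht, ← hv] at hh
  rcases Sym2.eq_iff.1 hh with ⟨h1, h2⟩ | ⟨h1, h2⟩
  · exact hne (np_ext hv (S.P.inj _ _ _ hl1 hl3 h1) (S.P.inj _ _ _ hl2 hl4 h2))
  · have h3 := S.P.inj _ _ _ hl1 hl4 h1
    have h4 := S.P.inj _ _ _ hl2 hl3 h2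
    omega

private theorem np_short {S : Sys k Φ Vt Z} {e e' : Ch S.P} (hv : e.vx ≠ e'.vx)
    (hh : s(S.D.s e, S.D.t e) = s(S.D.s e', S.D.t e')) : ¬ e.Long := by
  have h1 : On S.P e.vx (S.D.s e) := ⟨e.lo, e.1.2.1.2, (S.hs e).symm⟩
  have h2 : On S.P e.vx (S.D.t e) := ⟨e.hi, e.1.2.2.2, (S.ht e).symm⟩
  have h3 : On S.P e'.vx (S.D.s e') := ⟨e'.lo, e'.1.2.1.2, (S.hs e').symm⟩
  have h4 : On S.P e'.vx (S.D.t e') := ⟨e'.hi, e'.1.2.2.2, (S.ht e').symm⟩
  have h5 : On S.P e'.vx (S.D.s e) ∧ On S.P e'.vx (S.D.t e) := by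
    rcases Sym2.eq_iff.1 hh with ⟨h6, h7⟩ | ⟨h6, h7⟩
    · rw [h6, h7]
      exact ⟨h3, h4⟩
    · rw [h6, h7]
      exact ⟨h4, h3⟩
  intro hL
  exact hL (S.pol.two e.vx e'.vx _ _ hv (s_ne_t S e) h1 h2 h5.1 h5.2 e.lo e.hi e.1.2.1.2 e.1.2.2.2
    (S.hs e).symm (S.ht e).symm)

theorem noPar {S : Sys k Φ Vt Z} {lam mu : Finset (Ch S.P)} (h : Ext S lam mu) : NoPar S lam := by
  intro e he e' he' hh
  by_contra hne
  have hv := np_vx hne hh
  have hsh : ¬ e.Long := np_short hv hh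
  have hsh' : ¬ e'.Long := np_short hv.symm hh.symm
  have haa : S.D.a e = S.D.a e' := by
    rw [← cl_eq, ← cl_eq, hh]
  have he'' : e' ∈ lam.erase e := Finset.mem_erase.mpr ⟨Ne.symm hne, he'⟩
  have hN : S.D.N ((lam.erase e).erase e') = S.D.N lam := by
    unfold Dat.N
    rw [← Finset.add_sum_erase lam _ he, ← Finset.add_sum_erase (lam.erase e) _ he'', haa]
    ext x y
    simp only [LinearMap.add_apply]
    have h1 := np_f2 (((S.D.a e').smulRight (S.D.a e') x) y)
    linear_combination (-1) * h1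
  have hsub : (lam.erase e).erase e' ⊆ lam :=
    (Finset.erase_subset _ _).trans (Finset.erase_subset _ _)
  have h1 := h.small ((lam.erase e).erase e') (by
      rw [real_iff]
      intro v
      refine realAt_congr (lam := lam) ?_ ((real_iff _ _).1 h.real v)
      intro f _ hf
      rw [Finset.mem_erase, Finset.mem_erase]
      constructor
      · intro h2
        refine ⟨?_, ?_, h2⟩
        · rintro rfl
          exact hsh' hf
        · rintro rfl
          exact hsh hf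
      · exact fun h2 => h2.2.2) (by
      intro x
      rw [hN]
      exact h.adm x) (by
      unfold Dat.rkN
      rw [hN]) (by
      unfold act
      refine Finset.card_le_card ?_
      intro v hv
      unfold vs at hv ⊢
      rw [Finset.mem_filter] at hv ⊢
      obtain ⟨h2, u, h3, f, hf, h4⟩ := hv
      exact ⟨h2, u, h3, f, hsub hf, h4⟩)
  have h2 := Finset.card_erase_lt_of_mem he
  have h3 := Finset.card_erase_lt_of_mem he''
  omega

end Pool.Agent.EPH
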