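import Pool.Agent.EPH.ExtD

/-!
# EPH-NReal: only the long chords matter; stars

The chords counted by the four arc condition are long; a set of chords all of whose long chords at `v` have a common end
satisfies the condition at `v`.
-/

set_option autoImplicit false

open Finset
open scoped Classical

namespace Pool.Agent.EPH

open Pool.Agent.BEO

variable {Φ Vt : Type} [Fintype Vt]

theorem real_iff (P : Cor Φ Vt) (lam : Finset (Ch P)) : Real P lam ↔ ∀ v, RealAt P lam v := Iff.rfl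

private theorem nr_cnt {P : Cor Φ Vt} {lam lam' : Finset (Ch P)} {v : Vt} {a b c f : ℕ}
    (hlong : ∀ e : Ch P, e.vx = v → a ≤ e.lo → e.lo < b → c ≤ e.hi → e.hi < f → e.Long)
    (h : ∀ e : Ch P, e.vx = v → e.Long → (e ∈ lam ↔ e ∈ lam')) :
    cnt lam v a b c f = cnt lam' v a b c f := by
  unfold cnt
  refine congrArg Finset.card ?_
  ext e
  simp only [Finset.mem_filter]
  constructor
  · rintro ⟨he, h1, h2, h3, h4, h5⟩
    exact ⟨(h e h1 (hlong e h1 h2 h3 h4 h5)).1 he, h1, h2, h3, h4, h5⟩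
  · rintro ⟨he, h1, h2, h3, h4, h5⟩
    exact ⟨(h e h1 (hlong e h1 h2 h3 h4 h5)).2 he, h1, h2, h3, h4, h5⟩

private theorem nr_long1 {P : Cor Φ Vt} {v : Vt} {l m n : ℕ} (hlm : l < m)
    (hn : n < P.d v) (e : Ch P) (h1 : e.vx = v) (h3 : e.lo < l) (h4 : m ≤ e.hi) (h5 : e.hi < n) :
    e.Long := by
  intro h
  rw [h1] at h
  unfold Nxt at h
  omega

private theorem nr_long2 {P : Cor Φ Vt} {l m n : ℕ} (hl : 0 < l) (hmn : m < n)
    (e : Ch P) (h2 : l ≤ e.lo) (h3 : e.lo < m) (h4 : n ≤ e.hi) :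
    e.Long := by
  intro h
  unfold Nxt at h
  omega

/-- only the long chords matter -/
theorem realAt_congr {P : Cor Φ Vt} {lam lam' : Finset (Ch P)} {v : Vt}
    (h : ∀ e : Ch P, e.vx = v → e.Long → (e ∈ lam ↔ e ∈ lam')) (h1 : RealAt P lam v) : RealAt P lam' v := by
  intro l m n hl hlm hmn hn h2
  apply h1 l m n hl hlm hmn hn
  rw [nr_cnt (lam := lam) (lam' := lam') (fun e e1 _ e3 e4 e5 => nr_long1 hlm hn e e1 e3 e4 e5) h,
    nr_cnt (lam := lam) (lam' := lam') (fun e _ e2 e3 e4 _ => nr_long2 hl hmn e e2 e3 e4) h]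
  exact h2

/-- a star -/
theorem realAt_star {P : Cor Φ Vt} {lam : Finset (Ch P)} {v : Vt} (j : ℕ)
    (h : ∀ e ∈ lam, e.vx = v → e.Long → e.lo = j ∨ e.hi = j) : RealAt P lam v := by
  intro l m n hl hlm hmn hn h2
  obtain ⟨e, he⟩ := Finset.card_pos.1 (show 0 < (lam.filter fun e => e.vx = v ∧ 0 ≤ e.lo ∧
    e.lo < l ∧ m ≤ e.hi ∧ e.hi < n).card from h2.1.pos)
  obtain ⟨e', he'⟩ := Finset.card_pos.1 (show 0 < (lam.filter fun e => e.vx = v ∧ l ≤ e.lo ∧
    e.lo < m ∧ n ≤ e.hi ∧ e.hi < P.d v).card from h2.2.pos)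
  rw [Finset.mem_filter] at he he'
  obtain ⟨a0, a1, a2, a3, a4, a5⟩ := he
  obtain ⟨b0, b1, b2, b3, b4, b5⟩ := he'
  have h3 := h e a0 a1 (nr_long1 hlm hn e a1 a3 a4 a5)
  have h4 := h e' b0 b1 (nr_long2 hl hmn e' b2 b3 b4)
  omega

end Pool.Agent.EPH
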