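import Pool.Agent.EPH.WLin

/-!
# EPH-WCyc: the four arc condition for arbitrary cuts
-/

set_option autoImplicit false

open Finset
open scoped Classical

namespace Pool.Agent.EPH

variable {A : Type} [Fintype A]

private theorem self_add (x : A → ZMod 2) : x + x = 0 := by
  funext a
  exact CharTwo.add_self_eq_zero _

private theorem odd_iff (n : ℕ) : Odd n ↔ (n : ZMod 2) ≠ 0 := by
  rw [← ZMod.natCast_eq_one_iff_odd]
  constructor
  · intro h
    rw [h]
    decide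
  · intro h
    generalize (n : ZMod 2) = x at h
    revert x
    decide

theorem four_iff (B : A → A → Prop) (d : ℕ) (κ : ℕ → Option A) : Four B d κ ↔ ∀ l m n, l ≤ m → m ≤ n → n ≤ d →
    bt B (pr κ l) (pr κ n + pr κ m) = 0 ∨ bt B (pr κ m + pr κ l) (pr κ d + pr κ n) = 0 := by
  have key : ∀ l m n, l ≤ m → m ≤ n → n ≤ d → ((¬ (Odd (cw B κ 0 l m n) ∧ Odd (cw B κ l m n d))) ↔
      (bt B (pr κ l) (pr κ n + pr κ m) = 0 ∨ bt B (pr κ m + pr κ l) (pr κ d + pr κ n) = 0)) := by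
    intro l m n h1 h2 h3
    rw [odd_iff, odd_iff, cw_bt B κ (Nat.zero_le l) h2, cw_bt B κ h1 h3, pr_zero, add_zero]
    constructor
    · intro h
      by_contra hc
      rw [not_or] at hc
      exact h hc
    · rintro (h | h) ⟨h4, h5⟩
      · exact h4 h
      · exact h5 h
  constructor
  · intro h l m n h1 h2 h3
    rcases Nat.eq_zero_or_pos l with h4 | h4
    · left
      rw [h4, pr_zero, bt_zero_left]
    rcases h1.lt_or_eq with h5 | h5
    swap
    · right
      rw [h5, self_add, bt_zero_left]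
    rcases h2.lt_or_eq with h6 | h6
    swap
    · left
      rw [h6, self_add, bt_zero_right]
    rcases h3.lt_or_eq with h7 | h7
    swap
    · right
      rw [h7, self_add, bt_zero_right]
    exact (key l m n h1 h2 h3).1 (h l m n h4 h5 h6 h7)
  · intro h l m n _ h1 h2 h3
    exact (key l m n h1.le h2.le h3.le).2 (h l m n h1.le h2.le h3.le)

private theorem fid1 (p q : A → ZMod 2) : q = p + (q + p) := by
  funext x
  exact (by decide : ∀ u v : ZMod 2, v = u + (v + u)) (p x) (q x)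

private theorem fid2 (p q r : A → ZMod 2) : r + p = (q + p) + (r + q) := by
  funext x
  exact (by decide : ∀ u v w : ZMod 2, w + u = (v + u) + (w + v)) (p x) (q x) (r x)

private theorem five : ∀ x02 x03 x13 x14 x24 : ZMod 2, (x03 + x13 = 0 ∨ x24 = 0) → (x03 = 0 ∨ x14 + x24 = 0) →
    (x02 + x03 = 0 ∨ x14 = 0) → (x02 = 0 ∨ x13 + x14 = 0) → (x13 = 0 ∨ x24 + x02 = 0) := by
  decide

theorem four_cyc {B : A → A → Prop} (hB : ∀ a b, B a b → B b a) {d : ℕ} {κ : ℕ → Option A} (h : Four B d κ)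
    {a b c e : ℕ} (h1 : a ≤ b) (h2 : b ≤ c) (h3 : c ≤ e) (h4 : e ≤ d) :
    bt B (pr κ b + pr κ a) (pr κ e + pr κ c) = 0 ∨ bt B (pr κ c + pr κ b) (pr κ d + pr κ e + pr κ a) = 0 := by
  rw [four_iff] at h
  have c1 := h b c e h2 h3 h4
  have c2 := h a c e (h1.trans h2) h3 h4
  have c3 := h a b e h1 (h2.trans h3) h4
  have c4 := h a b c h1 h2 (h3.trans h4)
  generalize pr κ a = pa at *
  generalize pr κ b = pb at *
  generalize pr κ c = pc at *
  generalize pr κ e = pe at *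
  generalize pr κ d = pd at *
  obtain ⟨X1, hX1⟩ : ∃ X1, X1 = pb + pa := ⟨_, rfl⟩
  obtain ⟨X2, hX2⟩ : ∃ X2, X2 = pc + pb := ⟨_, rfl⟩
  obtain ⟨X3, hX3⟩ : ∃ X3, X3 = pe + pc := ⟨_, rfl⟩
  obtain ⟨X4, hX4⟩ : ∃ X4, X4 = pd + pe := ⟨_, rfl⟩
  have e1 : pb = pa + X1 := by
    rw [hX1]
    exact fid1 _ _
  have e2 : pc + pa = X1 + X2 := by
    rw [hX1, hX2]
    exact fid2 _ _ _
  have e3 : pe + pb = X2 + X3 := by
    rw [hX2, hX3]
    exact fid2 _ _ _
  have e4 : pd + pc = X3 + X4 := by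
    rw [hX3, hX4]
    exact fid2 _ _ _
  rw [← hX3, ← hX4, ← hX2] at c1
  rw [← hX3, ← hX4, e2] at c2
  rw [← hX1, ← hX4, e3] at c3
  rw [← hX1, ← hX2, e4] at c4
  rw [← hX1, ← hX2, ← hX3, ← hX4]
  rw [e1] at c1
  simp only [bt_add_left, bt_add_right] at c1 c2 c3 c4 ⊢
  rw [bt_symm B hB X2 pa]
  exact five _ _ _ _ _ c1 c2 c3 c4

end Pool.Agent.EPH
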