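import Pool.Agent.EPH.WDef

/-!
# EPH-WLin: the counts of the four arc condition as values of a form over F2
-/

set_option autoImplicit false

open Finset
open scoped Classical

namespace Pool.Agent.EPH

variable {A : Type} [Fintype A]

/-- the numbers of the letters before `c`, modulo 2 -/
noncomputable def pr (κ : ℕ → Option A) (c : ℕ) : A → ZMod 2 := fun a =>
  (((range c).filter fun i => κ i = some a).card : ZMod 2)

/-- the form of `B` -/
noncomputable def bt (B : A → A → Prop) (x y : A → ZMod 2) : ZMod 2 :=
  ∑ a, ∑ b, x a * y b * (if B a b then 1 else 0)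

theorem bt_add_left (B : A → A → Prop) (x x' y : A → ZMod 2) : bt B (x + x') y = bt B x y + bt B x' y := by
  unfold bt
  rw [← Finset.sum_add_distrib]
  refine Finset.sum_congr rfl fun a _ => ?_
  rw [← Finset.sum_add_distrib]
  refine Finset.sum_congr rfl fun b _ => ?_
  rw [Pi.add_apply]
  ring

theorem bt_add_right (B : A → A → Prop) (x y y' : A → ZMod 2) : bt B x (y + y') = bt B x y + bt B x y' := by
  unfold bt
  rw [← Finset.sum_add_distrib]
  refine Finset.sum_congr rfl fun a _ => ?_
  rw [← Finset.sum_add_distrib]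
  refine Finset.sum_congr rfl fun b _ => ?_
  rw [Pi.add_apply]
  ring

theorem bt_zero_left (B : A → A → Prop) (y : A → ZMod 2) : bt B 0 y = 0 := by
  unfold bt
  simp

theorem bt_zero_right (B : A → A → Prop) (x : A → ZMod 2) : bt B x 0 = 0 := by
  unfold bt
  simp

theorem bt_symm (B : A → A → Prop) (hB : ∀ a b, B a b → B b a) (x y : A → ZMod 2) : bt B x y = bt B y x := by
  unfold bt
  rw [Finset.sum_comm]
  refine Finset.sum_congr rfl fun a _ => Finset.sum_congr rfl fun b _ => ?_
  have h : B b a ↔ B a b := ⟨hB b a, hB a b⟩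
  by_cases h1 : B a b
  · rw [if_pos h1, if_pos (h.2 h1)]
    ring
  · rw [if_neg h1, if_neg (fun h2 => h1 (h.1 h2))]
    ring

theorem bt_single (B : A → A → Prop) (a b : A) :
    bt B (Pi.single a 1) (Pi.single b 1) = if B a b then 1 else 0 := by
  unfold bt
  rw [Finset.sum_eq_single a]
  · rw [Finset.sum_eq_single b]
    · rw [Pi.single_eq_same, Pi.single_eq_same, one_mul, one_mul]
    · intro b' _ hb'
      rw [Pi.single_eq_of_ne hb']
      ring
    · intro h
      exact absurd (Finset.mem_univ _) h
  · intro a' _ ha'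
    refine Finset.sum_eq_zero fun b' _ => ?_
    rw [Pi.single_eq_of_ne ha']
    ring
  · intro h
    exact absurd (Finset.mem_univ _) h

theorem pr_zero (κ : ℕ → Option A) : pr κ 0 = 0 := by
  funext a
  simp [pr]

private theorem pr_succ (κ : ℕ → Option A) (c : ℕ) (a : A) :
    pr κ (c + 1) a = pr κ c a + (if κ c = some a then 1 else 0) := by
  unfold pr
  rw [Finset.range_add_one, Finset.filter_insert]
  by_cases h : κ c = some a
  · rw [if_pos h, if_pos h, Finset.card_insert_of_notMem (by simp), Nat.cast_add, Nat.cast_one]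
  · rw [if_neg h, if_neg h, add_zero]

theorem pr_some (κ : ℕ → Option A) {c : ℕ} {a : A} (h : κ c = some a) : pr κ (c + 1) = pr κ c + Pi.single a 1 := by
  funext b
  rw [pr_succ, Pi.add_apply, h]
  by_cases hb : b = a
  · rw [hb, Pi.single_eq_same, if_pos rfl]
  · rw [Pi.single_eq_of_ne hb, if_neg (fun h1 => hb (Option.some.inj h1).symm)]

theorem pr_none (κ : ℕ → Option A) {c c' : ℕ} (hc : c ≤ c') (h : ∀ i, c ≤ i → i < c' → κ i = none) :
    pr κ c' = pr κ c := by
  induction c', hc using Nat.le_induction with
  | base => rfl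
  | succ m hm ih =>
    rw [← ih (fun i h1 h2 => h i h1 (by omega))]
    funext a
    rw [pr_succ, h m hm (by omega)]
    simp

private theorem pr_diff (κ : ℕ → Option A) {a b : ℕ} (h : a ≤ b) (x : A) :
    pr κ b x + pr κ a x = ∑ i ∈ Ico a b, (if κ i = some x then (1 : ZMod 2) else 0) := by
  induction b, h using Nat.le_induction with
  | base =>
    rw [Finset.Ico_self, Finset.sum_empty]
    exact CharTwo.add_self_eq_zero _
  | succ m hm ih =>
    rw [pr_succ, Finset.sum_Ico_succ_top hm, ← ih]
    ring

private theorem rl_sum (B : A → A → Prop) (κ : ℕ → Option A) (i j : ℕ) :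
    (if rl B κ i j then (1 : ZMod 2) else 0) = ∑ x, ∑ y, (if κ i = some x then (1 : ZMod 2) else 0) *
      (if κ j = some y then (1 : ZMod 2) else 0) * (if B x y then 1 else 0) := by
  rcases hi : κ i with _ | u
  · rw [if_neg (by rintro ⟨a, b, h1, -⟩; rw [hi] at h1; cases h1)]
    simp
  · rcases hj : κ j with _ | v
    · rw [if_neg (by rintro ⟨a, b, -, h1, -⟩; rw [hj] at h1; cases h1)]
      simp
    · have h0 : rl B κ i j ↔ B u v := by
        constructor
        · rintro ⟨a, b, h1, h2, h3⟩
          rw [hi] at h1
          rw [hj] at h2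
          cases h1
          cases h2
          exact h3
        · intro h
          exact ⟨u, v, hi, hj, h⟩
      rw [Finset.sum_eq_single u]
      · rw [Finset.sum_eq_single v]
        · by_cases h : B u v
          · rw [if_pos (h0.2 h), if_pos rfl, if_pos rfl, if_pos h]
            ring
          · rw [if_neg (fun h1 => h (h0.1 h1)), if_neg h]
            ring
        · intro y _ hy
          rw [if_neg (fun h1 : some v = some y => hy (Option.some.inj h1).symm)]
          ring
        · intro h
          exact absurd (Finset.mem_univ _) h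
      · intro x _ hx
        refine Finset.sum_eq_zero fun y _ => ?_
        rw [if_neg (fun h1 : some u = some x => hx (Option.some.inj h1).symm)]
        ring
      · intro h
        exact absurd (Finset.mem_univ _) h

theorem cw_bt (B : A → A → Prop) (κ : ℕ → Option A) {a b c f : ℕ} (h : a ≤ b) (h' : c ≤ f) :
    (cw B κ a b c f : ZMod 2) = bt B (pr κ b + pr κ a) (pr κ f + pr κ c) := by
  unfold cw bt
  rw [Finset.card_filter, Nat.cast_sum, Finset.sum_product]
  have h1 : ∀ i j : ℕ, ((if rl B κ i j then 1 else 0 : ℕ) : ZMod 2) = ∑ x, ∑ y,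
      (if κ i = some x then (1 : ZMod 2) else 0) * (if κ j = some y then (1 : ZMod 2) else 0) *
        (if B x y then 1 else 0) := by
    intro i j
    rw [← rl_sum]
    push_cast
    rfl
  simp only [h1]
  have h2 : ∀ x y : A, (pr κ b + pr κ a) x * (pr κ f + pr κ c) y * (if B x y then (1 : ZMod 2) else 0) =
      ∑ i ∈ Ico a b, ∑ j ∈ Ico c f, (if κ i = some x then (1 : ZMod 2) else 0) *
        (if κ j = some y then (1 : ZMod 2) else 0) * (if B x y then 1 else 0) := by
    intro x y
    rw [Pi.add_apply, Pi.add_apply, pr_diff κ h, pr_diff κ h', Finset.sum_mul_sum, Finset.sum_mul]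
    refine Finset.sum_congr rfl fun i _ => ?_
    rw [Finset.sum_mul]
  simp only [h2]
  rw [Finset.sum_congr rfl fun i _ => Finset.sum_comm, Finset.sum_comm]
  refine Finset.sum_congr rfl fun x _ => ?_
  rw [Finset.sum_congr rfl fun i _ => Finset.sum_comm, Finset.sum_comm]

end Pool.Agent.EPH
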