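import Pool.Agent.EPH.XDel
import Pool.Agent.EPH.DPriv
import Pool.Agent.EPH.XCfgA

/-!
# EPH-XCol: private good positions have only one face
-/

set_option autoImplicit false

open Finset
open scoped Classical

namespace Pool.Agent.EPH

open Pool.Agent.BEO hiding Cfg Frame

variable {k : ℕ} {Φ Vt Z : Type} [Fintype Φ] [Fintype Vt] [AddCommGroup Z] [Module F2 Z] [Module.Finite F2 Z]

variable {S : Sys k Φ Vt Z} {lam mu : Finset (Ch S.P)}

private theorem star_of (T : Finset Φ) (x : Φ) (v : Vt)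
    (h : ∀ e ∈ delF S lam T, e.vx = v → e.Long → S.D.s e = x ∨ S.D.t e = x) :
    RealAt S.P (delF S lam T) v := by
  by_cases hx : ∃ i₀, i₀ < S.P.d v ∧ S.P.fc v i₀ = x
  · obtain ⟨i₀, hi, he⟩ := hx
    refine realAt_star i₀ (fun e h1 h2 h3 => ?_)
    have h5 := h e h1 h2 h3
    subst h2
    rcases h5 with h4 | h4
    · left
      rw [S.hs] at h4
      exact S.P.inj _ _ _ e.1.2.1.2 hi (h4.trans he.symm)
    · right
      rw [S.ht] at h4
      exact S.P.inj _ _ _ e.1.2.2.2 hi (h4.trans he.symm)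
  · refine realAt_star 0 (fun e h1 h2 h3 => ?_)
    exfalso
    apply hx
    have h5 := h e h1 h2 h3
    subst h2
    rcases h5 with h4 | h4
    · rw [S.hs] at h4
      exact ⟨_, e.1.2.1.2, h4⟩
    · rw [S.ht] at h4
      exact ⟨_, e.1.2.2.2, h4⟩

private theorem on_s (e : Ch S.P) : On S.P e.vx (S.D.s e) := ⟨e.lo, e.1.2.1.2, (S.hs e).symm⟩

private theorem on_t (e : Ch S.P) : On S.P e.vx (S.D.t e) := ⟨e.hi, e.1.2.2.2, (S.ht e).symm⟩

private theorem adj_st (e : Ch S.P) (he : e ∈ lam) : (S.D.gr lam).Adj (S.D.s e) (S.D.t e) :=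
  ⟨s_ne_t S e, e, he, Or.inl ⟨rfl, rfl⟩⟩

/-- the chords at `v` when a face `y` of the twins and a face `u` of the next ones are there -/
private theorem real_of (T A B : Finset Φ) (x : Φ) (v : Vt) (y u : Φ) (hTA : ∀ w ∈ A, w ∉ T → w = x)
    (hy : On S.P v y) (hu : On S.P v u)
    (hp : ∀ w ∈ vs (S.D.gr lam), (w = y ∨ (RG S.P).Adj w y) → (w = u ∨ (RG S.P).Adj w u) → w ∈ A ∨ w ∈ B)
    (_hA : ∀ a ∈ A, ∀ b ∈ A, ¬ (S.D.gr lam).Adj a b) (hB : ∀ a ∈ B, ∀ b ∈ B, ¬ (S.D.gr lam).Adj a b) :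
    RealAt S.P (delF S lam T) v := by
  refine star_of T x v (fun e h1 h2 _ => ?_)
  obtain ⟨he, hs, ht⟩ := mem_filter.1 h1
  have hadj := adj_st e he
  have key : ∀ w, On S.P v w → w ∈ vs (S.D.gr lam) → w ∈ A ∨ w ∈ B := by
    intro w hw hw'
    refine hp w hw' ?_ ?_
    · by_cases hwy : w = y
      · exact Or.inl hwy
      · exact Or.inr ⟨hwy, v, hw, hy⟩
    · by_cases hwu : w = u
      · exact Or.inl hwu
      · exact Or.inr ⟨hwu, v, hw, hu⟩
  have k1 := key (S.D.s e) (h2 ▸ on_s e) (mem_filter.2 ⟨mem_univ _, _, hadj⟩)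
  have k2 := key (S.D.t e) (h2 ▸ on_t e) (mem_filter.2 ⟨mem_univ _, _, hadj.symm⟩)
  rcases k1 with k1 | k1
  · exact Or.inl (hTA _ k1 hs)
  · rcases k2 with k2 | k2
    · exact Or.inr (hTA _ k2 ht)
    · exact absurd hadj (hB _ k1 _ k2)

private theorem lc_of_nul {x y u0 : Φ}
    (hnul : ∀ w : (RG S.P).Walk x x, w.length ≤ 4 → (w.edges.map (cl S)).sum = 0)
    (hx : (S.D.gr lam).Adj x u0) (hy : (S.D.gr lam).Adj y u0) : LC S lam y x := by
  refine ⟨cl S s(y, u0) + cl S s(x, u0), ?_⟩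
  intro e he e' he' u h1 h2
  have a1 : (S.D.gr lam).Adj y u := by
    have h3 := (gr_mem S lam s(y, u)).2 ⟨e, he, h1⟩
    rwa [SimpleGraph.mem_edgeSet] at h3
  have a2 : (S.D.gr lam).Adj x u := by
    have h3 := (gr_mem S lam s(x, u)).2 ⟨e', he', h2⟩
    rwa [SimpleGraph.mem_edgeSet] at h3
  have h := hnul (SimpleGraph.Walk.cons (gr_le S lam a2) (SimpleGraph.Walk.cons (gr_le S lam a1.symm)
    (SimpleGraph.Walk.cons (gr_le S lam hy) (SimpleGraph.Walk.cons (gr_le S lam hx.symm) SimpleGraph.Walk.nil))))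
    (by simp)
  simp only [SimpleGraph.Walk.edges_cons, SimpleGraph.Walk.edges_nil, List.map_cons, List.map_nil,
    List.sum_cons, List.sum_nil, add_zero] at h
  rw [Sym2.eq_swap (a := u) (b := y), Sym2.eq_swap (a := u0) (b := x), ← h1, ← h2, cl_eq, cl_eq] at h
  have h2' : ∀ p q r : F2, p + (q + r) = 0 → q + p = r := by decide
  refine LinearMap.ext fun z => ?_
  have h3 := LinearMap.congr_fun h z
  simp only [LinearMap.add_apply, LinearMap.zero_apply] at h3 ⊢
  exact h2' _ _ _ h3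

theorem tw_single (h : Ext S lam mu) (c : Cfg k Φ (Z →ₗ[F2] F2)) (hL : c.L = S.D.gr lam) (hM : c.M = S.D.gr mu)
    (hR : c.R = RG S.P) (hca : c.a = cl S) {C : ℕ} (f : Frame C c) (j : Fin f.m) (i : ℕ) (g0 : f.Good j (i - 1)) (g : f.Good j i)
    (g1 : f.Good j (i + 1)) (p0 : f.Priv j (i - 1)) (p : f.Priv j i) : f.tw j i = {f.x j i} := by
  have hok := (g i (by omega) (by omega)).ok
  have hlo := hok.lo
  have hhi := hok.hi
  have hself := mem_tw_self f j i
  have hodd := odd_tw f j i g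
  have hi1 : i - 1 + 1 = i := by omega
  have hmt : ∀ w, w ∈ f.tw j i ↔ ∀ u, c.L.Adj w u ↔ c.L.Adj (f.x j i) u := by
    intro w
    unfold Frame.tw
    rw [mem_filter]
    exact ⟨fun h => h.2, fun h => ⟨mem_univ _, h⟩⟩
  by_contra hne
  have hTA : ∀ w ∈ f.tw j i, w ∉ (f.tw j i).erase (f.x j i) → w = f.x j i := by
    intro w hw hw'
    by_contra h1
    exact hw' (mem_erase.2 ⟨h1, hw⟩)
  have hex : ∃ y, y ∈ (f.tw j i).erase (f.x j i) := by
    by_contra h1
    push Not at h1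
    apply hne
    ext w
    rw [mem_singleton]
    constructor
    · intro hw
      exact hTA w hw (h1 w)
    · rintro rfl
      exact hself
  obtain ⟨y0, hy0⟩ := hex
  refine del_contra h (f.x j i) ((f.tw j i).erase (f.x j i)) ?_ ⟨y0, hy0, ?_⟩ ?_ ?_ ?_
  · rw [card_erase_of_mem hself]
    exact Nat.Odd.sub_odd hodd odd_one
  · rw [← hL]
    refine mem_filter.2 ⟨mem_univ _, f.x j (i + 1), ?_⟩
    rw [(hmt y0).1 (mem_of_mem_erase hy0)]
    exact adj_next f j i (by omega) (by omega)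
  · intro y hy u
    rw [← hL]
    exact (hmt y).1 (mem_of_mem_erase hy) u
  · intro y hy
    have hnx := adj_next f j i (by omega) (by omega)
    refine lc_of_nul (u0 := f.x j (i + 1)) ?_ ?_ ?_
    · rw [← hR, ← hca]
      exact hok.nul
    · rw [← hL]
      exact hnx
    · rw [← hL]
      exact ((hmt y).1 (mem_of_mem_erase hy) _).2 hnx
  · intro v _
    by_cases hch : ∃ e ∈ lam, e.vx = v ∧ ∃ y ∈ (f.tw j i).erase (f.x j i), S.D.s e = y ∨ S.D.t e = y
    · obtain ⟨e, he, hev, y, hy, hye⟩ := hch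
      have hadj := adj_st e he
      obtain ⟨u, hu, hou, hoy⟩ : ∃ u, c.L.Adj y u ∧ On S.P v u ∧ On S.P v y := by
        rw [hL]
        rcases hye with hye | hye
        · exact ⟨S.D.t e, hye ▸ hadj, hev ▸ on_t e, hye ▸ hev ▸ on_s e⟩
        · exact ⟨S.D.s e, hye ▸ hadj.symm, hev ▸ on_s e, hye ▸ hev ▸ on_t e⟩
      have hyt := mem_of_mem_erase hy
      rw [(hmt y).1 hyt, nb_good f j i g i (by omega) (by omega)] at hu
      rcases hu with hu | hu
      · refine real_of _ (f.tw j i) (f.tw j (i - 1)) (f.x j i) v y u hTA hoy hou ?_ ?_ ?_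
        · intro w hw h1 h2
          rw [← hL] at hw
          rw [← hR] at h1 h2
          unfold Frame.Priv at p0
          rw [hi1] at p0
          exact (p0 u hu y hyt w hw h2 h1).symm
        · rw [← hL]
          exact fun a ha b hb => tw_indep f j i a b ha hb
        · rw [← hL]
          exact fun a ha b hb => tw_indep f j (i - 1) a b ha hb
      · refine real_of _ (f.tw j i) (f.tw j (i + 1)) (f.x j i) v y u hTA hoy hou ?_ ?_ ?_
        · intro w hw h1 h2
          rw [← hL] at hw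
          rw [← hR] at h1 h2
          exact p y hyt u hu w hw h1 h2
        · rw [← hL]
          exact fun a ha b hb => tw_indep f j i a b ha hb
        · rw [← hL]
          exact fun a ha b hb => tw_indep f j (i + 1) a b ha hb
    · refine realAt_congr (fun e hev _ => ?_) (h.real v)
      constructor
      · intro he
        refine mem_filter.2 ⟨he, fun h1 => ?_, fun h1 => ?_⟩
        · exact hch ⟨e, he, hev, _, h1, Or.inl rfl⟩
        · exact hch ⟨e, he, hev, _, h1, Or.inr rfl⟩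
      · intro he
        exact (mem_filter.1 he).1

end Pool.Agent.EPH
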