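import Pool.Agent.EPH.YRest
import Pool.Agent.EPH.YDef

/-!
# EPH-YBad: few bad chords

The bad chords outside `mu` are counted by `card_rest`, those in `mu` by Lemma F.
-/

set_option autoImplicit false

open Finset
open scoped Classical

namespace Pool.Agent.EPH

open Pool.Agent.BEO hiding Cfg Frame

variable {Φ Vt : Type}

private theorem yb_mv {P : Cor Φ Vt} (mu : Finset (Ch P)) (v : Vt) :
    mv mu.toList v = (mu.filter fun e => e.vx = v).card := by
  have h1 : (mu.filter fun e => e.vx = v).card = Multiset.card (Multiset.filter (fun e => e.vx = v) mu.val) := rfl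
  rw [h1, ← Multiset.countP_eq_card_filter, ← Finset.coe_toList, Multiset.coe_countP]
  rfl

private theorem yb_one {k : ℕ} {Z : Type} [Fintype Φ] [Fintype Vt] [AddCommGroup Z] [Module F2 Z]
    (S : Sys k Φ Vt Z) (lam mu : Finset (Ch S.P)) (hs : mu ⊆ lam) (v : Vt) :
    (((badC S lam mu) ∩ mu).filter fun e => e.vx = v).card ≤
      2 * ((mu.filter fun e => e.vx = v).card - 1) + ((lam \ mu).filter fun e => e.vx = v).card := by
  rcases Finset.eq_empty_or_nonempty (((badC S lam mu) ∩ mu).filter fun e => e.vx = v) with h0 | ⟨e, he⟩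
  · rw [h0, Finset.card_empty]
    exact Nat.zero_le _
  · obtain ⟨he1, hev⟩ := Finset.mem_filter.1 he
    obtain ⟨heb, hem⟩ := Finset.mem_inter.1 he1
    have hle : (((badC S lam mu) ∩ mu).filter fun e => e.vx = v).card ≤ (mu.filter fun e => e.vx = v).card := by
      apply Finset.card_le_card
      intro x hx
      obtain ⟨h1, h2⟩ := Finset.mem_filter.1 hx
      exact Finset.mem_filter.2 ⟨(Finset.mem_inter.1 h1).2, h2⟩
    unfold badC at heb
    obtain ⟨_, hor⟩ := Finset.mem_filter.1 heb
    rcases hor with hor | ⟨e', he', hne, hv'⟩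
    · exact absurd hem hor
    · have hvv : e'.vx = v := hv'.trans hev
      by_cases hm : e' ∈ mu
      · have h2 : 1 < (mu.filter fun e => e.vx = v).card := by
          rw [Finset.one_lt_card]
          exact ⟨e', Finset.mem_filter.2 ⟨hm, hvv⟩, e, Finset.mem_filter.2 ⟨hem, hev⟩, hne⟩
        omega
      · have h3 : 0 < ((lam \ mu).filter fun e => e.vx = v).card :=
          Finset.card_pos.2 ⟨e', Finset.mem_filter.2 ⟨Finset.mem_sdiff.2 ⟨he', hm⟩, hvv⟩⟩
        omega

theorem card_badC (k : ℕ) : ∃ C : ℕ, ∀ (Φ Vt Z : Type) [Fintype Φ] [Fintype Vt] [AddCommGroup Z] [Module F2 Z]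
    [Module.Finite F2 Z] (S : Sys k Φ Vt Z) (lam mu : Finset (Ch S.P)), Ext S lam mu → (badC S lam mu).card ≤ C := by
  obtain ⟨C, hC⟩ := card_rest k
  refine ⟨106 * k + 2 * C, ?_⟩
  intro Φ Vt Z _ _ _ _ _ S lam mu h
  have hrest := hC Φ Vt Z S lam mu h
  have hF := lemF h mu.toList 0 (Finset.sum_map_toList mu S.D.a) (by rw [Finset.length_toList]; omega)
  have h1 : ((badC S lam mu) \ mu).card ≤ (lam \ mu).card := by
    apply Finset.card_le_card
    intro x hx
    obtain ⟨h1, h2⟩ := Finset.mem_sdiff.1 hx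
    exact Finset.mem_sdiff.2 ⟨(Finset.mem_filter.1 h1).1, h2⟩
  have h2 : (badC S lam mu).card = ((badC S lam mu) \ mu).card + ((badC S lam mu) ∩ mu).card := by
    rw [Finset.card_sdiff_add_card_inter]
  have h3 : ((badC S lam mu) ∩ mu).card =
      ∑ v : Vt, (((badC S lam mu) ∩ mu).filter fun e => e.vx = v).card :=
    Finset.card_eq_sum_card_fiberwise fun x _ => Finset.mem_coe.2 (Finset.mem_univ _)
  have h4 : (lam \ mu).card = ∑ v : Vt, ((lam \ mu).filter fun e => e.vx = v).card :=
    Finset.card_eq_sum_card_fiberwise fun x _ => Finset.mem_coe.2 (Finset.mem_univ _)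
  have h5 : ∑ v : Vt, (((badC S lam mu) ∩ mu).filter fun e => e.vx = v).card ≤
      ∑ v : Vt, (2 * ((mu.filter fun e => e.vx = v).card - 1) + ((lam \ mu).filter fun e => e.vx = v).card) :=
    Finset.sum_le_sum fun v _ => yb_one S lam mu h.sub v
  rw [Finset.sum_add_distrib, ← Finset.mul_sum, ← h4, ← h3] at h5
  have h6 : ∑ v : Vt, (mv mu.toList v - 1) = ∑ v : Vt, ((mu.filter fun e => e.vx = v).card - 1) :=
    Finset.sum_congr rfl fun v _ => by rw [yb_mv]
  rw [h6] at hF
  omega

end Pool.Agent.EPH
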