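import Pool.Agent.EPH.YRest
import Pool.Agent.EPH.YDef
import Pool.Agent.EPH.XCfgA

/-!
# EPH-YDeg: the faces of degree at least three have bounded total degree

PLAN. `dgF S lam F = dgF S mu F + dgF S (lam \ mu) F`, `dgF S mu F = mf S mu.toList F` (`s_ne_t`) is even (`ev_of_adm
h.admM`). Let `a := dgF S mu F`, `r := dgF S (lam \ mu) F`, `a + r > 2`. If `r = 0` then `a ≥ 4` and
`a ≤ 4 * (a / 2 - 1)`; if `r ≥ 1` then `a ≤ 4 * (a / 2 - 1) + 2 * r`. So `a + r ≤ 4 * (a / 2 - 1) + 3 * r`. Sum: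
`lemF' h mu.toList 0` and `∑ F, dgF S (lam \ mu) F = 2 * (lam \ mu).card` (`card_rest`).
-/

set_option autoImplicit false

open Finset
open scoped Classical

namespace Pool.Agent.EPH

open Pool.Agent.BEO hiding Cfg Frame

private theorem yd_sum {k : ℕ} {Φ Vt Z : Type} [Fintype Φ] [Fintype Vt] [AddCommGroup Z] [Module F2 Z]
    (S : Sys k Φ Vt Z) (ν : Finset (Ch S.P)) (F : Φ) :
    dgF S ν F = ∑ e ∈ ν, ((if S.D.s e = F then 1 else 0) + (if S.D.t e = F then 1 else 0)) := by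
  unfold dgF
  rw [card_filter]
  refine sum_congr rfl fun e _ => ?_
  have h := s_ne_t S e
  by_cases h1 : S.D.s e = F
  · have h2 : ¬ S.D.t e = F := fun h' => h (h1.trans h'.symm)
    rw [if_pos h1, if_neg h2, if_pos (Or.inl h1)]
  · by_cases h2 : S.D.t e = F
    · rw [if_neg h1, if_pos h2, if_pos (Or.inr h2)]
    · rw [if_neg h1, if_neg h2, if_neg (by rintro (h3 | h3); exacts [h1 h3, h2 h3])]

private theorem yd_even {k : ℕ} {Φ Vt Z : Type} [Fintype Φ] [Fintype Vt] [AddCommGroup Z] [Module F2 Z]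
    (S : Sys k Φ Vt Z) (ν : Finset (Ch S.P)) (h : S.D.Adm ν) (F : Φ) : Even (dgF S ν F) := by
  have h1 := S.D.ev_of_adm ν h F
  rw [← ZMod.natCast_eq_zero_iff_even, yd_sum, Nat.cast_sum, ← h1]
  refine sum_congr rfl fun e _ => ?_
  rw [Nat.cast_add, Nat.cast_ite, Nat.cast_ite, Nat.cast_one, Nat.cast_zero]

private theorem yd_tot {k : ℕ} {Φ Vt Z : Type} [Fintype Φ] [Fintype Vt] [AddCommGroup Z] [Module F2 Z]
    (S : Sys k Φ Vt Z) (ν : Finset (Ch S.P)) : ∑ F, dgF S ν F = 2 * ν.card := by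
  simp only [yd_sum]
  rw [sum_comm]
  have h : ∀ e ∈ ν, ∑ F, ((if S.D.s e = F then 1 else 0) + (if S.D.t e = F then 1 else 0)) = 2 := by
    intro e _
    rw [sum_add_distrib, sum_ite_eq, sum_ite_eq, if_pos (mem_univ _), if_pos (mem_univ _)]
  rw [sum_congr rfl h, sum_const, smul_eq_mul, mul_comm]

private theorem yd_count {α : Type} (ν : Finset α) (p : α → Prop) :
    (ν.toList.countP fun e => decide (p e)) = (ν.filter p).card := by
  rw [← Multiset.coe_countP, Finset.coe_toList, Multiset.countP_eq_card_filter]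
  rfl

private theorem yd_mf {k : ℕ} {Φ Vt Z : Type} [Fintype Φ] [Fintype Vt] [AddCommGroup Z] [Module F2 Z]
    (S : Sys k Φ Vt Z) (ν : Finset (Ch S.P)) (F : Φ) : mf S ν.toList F = dgF S ν F := by
  unfold mf
  rw [yd_count, yd_count, yd_sum, sum_add_distrib, card_filter, card_filter]

theorem card_deg (k : ℕ) : ∃ C : ℕ, ∀ (Φ Vt Z : Type) [Fintype Φ] [Fintype Vt] [AddCommGroup Z] [Module F2 Z]
    [Module.Finite F2 Z] (S : Sys k Φ Vt Z) (lam mu : Finset (Ch S.P)), Ext S lam mu →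
    ∑ F ∈ univ.filter (fun F => 2 < dgF S lam F), dgF S lam F ≤ C := by
  obtain ⟨C, hC⟩ := card_rest k
  refine ⟨4 * (k + 4 * (13 * k + 0)) + 3 * (2 * C), ?_⟩
  intro Φ Vt Z _ _ _ _ _ S lam mu h
  have h1 := lemF' h mu.toList 0 (Finset.sum_map_toList mu S.D.a) (by rw [length_toList]; omega)
  have h2 := yd_tot S (lam \ mu)
  have h3 := hC Φ Vt Z S lam mu h
  have hsplit : ∀ F, dgF S lam F = dgF S mu F + dgF S (lam \ mu) F := by
    intro F
    rw [yd_sum, yd_sum, yd_sum, add_comm, sum_sdiff h.sub]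
  have key : ∀ F ∈ univ.filter (fun F => 2 < dgF S lam F),
      dgF S lam F ≤ 4 * (mf S mu.toList F / 2 - 1) + 3 * dgF S (lam \ mu) F := by
    intro F hF
    have hF' := (mem_filter.1 hF).2
    rw [yd_mf]
    obtain ⟨m, hm⟩ := yd_even S mu h.admM F
    rw [hsplit F] at hF' ⊢
    rw [hm] at hF' ⊢
    omega
  calc ∑ F ∈ univ.filter (fun F => 2 < dgF S lam F), dgF S lam F
      ≤ ∑ F ∈ univ.filter (fun F => 2 < dgF S lam F),
          (4 * (mf S mu.toList F / 2 - 1) + 3 * dgF S (lam \ mu) F) := sum_le_sum key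
    _ ≤ ∑ F, (4 * (mf S mu.toList F / 2 - 1) + 3 * dgF S (lam \ mu) F) :=
        sum_le_sum_of_subset (filter_subset _ _)
    _ = 4 * ∑ F, (mf S mu.toList F / 2 - 1) + 3 * ∑ F, dgF S (lam \ mu) F := by
        rw [sum_add_distrib, ← mul_sum, ← mul_sum]
    _ ≤ 4 * (k + 4 * (13 * k + 0)) + 3 * (2 * C) := by
        rw [h2]
        omega

/-- the degrees are even -/
theorem dg_even {k : ℕ} {Φ Vt Z : Type} [Fintype Φ] [Fintype Vt] [AddCommGroup Z] [Module F2 Z] [Module.Finite F2 Z]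
    {S : Sys k Φ Vt Z} {lam mu : Finset (Ch S.P)} (h : Ext S lam mu) (F : Φ) : Even (dgF S lam F) := by
  exact yd_even S lam h.adm F

end Pool.Agent.EPH
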