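import Pool.Agent.EPH.ExtS
import Pool.Agent.EPH.DtB
import Pool.Agent.BEO.LinK

/-!
# EPH-YFew: at most `k` disjoint even subsets of `mu`

A linear dependence between the classes would give a smaller admissible set.
-/

set_option autoImplicit false

open Finset
open scoped Classical

namespace Pool.Agent.EPH

open Pool.Agent.BEO

variable {k : ℕ} {Φ Vt Z : Type} [Fintype Φ] [Fintype Vt] [AddCommGroup Z] [Module F2 Z] [Module.Finite F2 Z]

variable {S : Sys k Φ Vt Z} {lam mu : Finset (Ch S.P)}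

theorem few (h : Ext S lam mu) (Q : Finset (Finset (Ch S.P)))
    (h1 : ∀ q ∈ Q, q ⊆ mu ∧ q.Nonempty ∧ Ev S.D.s S.D.t q) (h2 : ∀ q ∈ Q, ∀ q' ∈ Q, q ≠ q' → Disjoint q q') :
    Q.card ≤ k := by
  by_contra hc
  push Not at hc
  have hH : ∀ q ∈ Q, ∑ e ∈ q, S.D.a e ∈ S.D.H := by
    intro q hq F
    rw [LinearMap.sum_apply]
    exact (S.D.ev_iff q).1 (h1 q hq).2.2 F
  obtain ⟨g, hg0, -, hg⟩ := exists_ker (P := Q) (T := Empty) S.D.H inferInstance k
    (S.D.finrank_H).le (fun _ t => t.elim) (fun q => ∑ e ∈ q.1, S.D.a e)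
    (by rw [Fintype.card_eq_zero, zero_add, Fintype.card_coe]; exact hc)
    (fun g _ => Submodule.sum_mem _ fun q _ => Submodule.smul_mem _ _ (hH q.1 q.2))
  have hf2 : ∀ x : ZMod 2, x = 0 ∨ x = 1 := by decide
  set nu : Finset (Ch S.P) := (univ.filter fun q : Q => g q = 1).biUnion fun q => q.1 with hnu
  have hsum : ∑ e ∈ nu, S.D.a e = 0 := by
    rw [hnu, sum_biUnion]
    · rw [← hg, sum_filter]
      refine sum_congr rfl fun q _ => ?_
      rcases hf2 (g q) with h3 | h3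
      · rw [h3, if_neg (by decide), zero_smul]
      · rw [h3, if_pos rfl, one_smul]
    · intro q _ q' _ hqq
      exact h2 q.1 q.2 q'.1 q'.2 fun h3 => hqq (Subtype.ext h3)
  have hsub : nu ⊆ mu := by
    intro e he
    rw [hnu, mem_biUnion] at he
    obtain ⟨q, -, hq⟩ := he
    exact (h1 q.1 q.2).1 hq
  have hne : nu.Nonempty := by
    obtain ⟨q, hq⟩ : ∃ q, g q ≠ 0 := by
      by_contra hcon
      push Not at hcon
      exact hg0 (funext hcon)
    obtain ⟨e, he⟩ := (h1 q.1 q.2).2.1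
    refine ⟨e, ?_⟩
    rw [hnu, mem_biUnion]
    exact ⟨q, mem_filter.2 ⟨mem_univ _, (hf2 (g q)).resolve_left hq⟩, he⟩
  have hcls : ∑ e ∈ mu, S.D.a e = ∑ e ∈ mu \ nu, S.D.a e := by
    rw [← sum_sdiff hsub, hsum, add_zero]
  have hadm : S.D.Adm (mu \ nu) := (S.D.adm_iff _ _ hcls).1 h.admM
  have h3 := h.smallM (mu \ nu) (sdiff_subset.trans h.sub) hadm
  have h4 := card_lt_card (sdiff_ssubset hsub hne)
  omega

end Pool.Agent.EPH
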