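import Mathlib

/-!
# EPH-YGr: disjoint pairs in a graph of maximal degree two (Mathlib only)

PLAN. Let `Pm` be a set of pairs with the two properties of maximal size, and `U` the set of the components of its
pairs (`U.card ≤ 2 * Pm.card`). Let `i` be outside `U`. Either `i ∉ Gd` (at most `Cb`), or `i ∈ Gd` and all `j` with
`J i j` are not in `Gd` (each `j ∉ Gd` is such for at most 2 values of `i`, by symmetry and `deg`; at most `2 * Cb`), or
`i ∈ Gd` has `J i j` with `j ∈ Gd`: then `j ∈ U` by maximality (add the pair `(i, j)`), and every `j ∈ U` is such for at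
most 2 values of `i`: at most `4 * Pm.card`. Total `Fintype.card ι ≤ 2 Pm + Cb + 2 Cb + 4 Pm`.
-/

set_option autoImplicit false

open Finset
open scoped Classical

namespace Pool.Agent.EPH

theorem pairs {ι : Type} [Fintype ι] (J : ι → ι → Prop) (hs : ∀ i j, J i j → J j i) (hi : ∀ i, ¬ J i i)
    (deg : ∀ i, (univ.filter fun j => J i j).card ≤ 2) (Gd : Finset ι) (h : ∀ i ∈ Gd, ∃ j, J i j) (Cb : ℕ)
    (hb : (univ \ Gd).card ≤ Cb) : ∃ Pm : Finset (ι × ι), (∀ p ∈ Pm, J p.1 p.2 ∧ p.1 ∈ Gd ∧ p.2 ∈ Gd) ∧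
      (∀ p ∈ Pm, ∀ q ∈ Pm, p ≠ q → p.1 ≠ q.1 ∧ p.1 ≠ q.2 ∧ p.2 ≠ q.1 ∧ p.2 ≠ q.2) ∧
      Fintype.card ι ≤ 6 * Pm.card + 3 * Cb := by
  obtain ⟨Q, hQ⟩ : ∃ Q : Finset (ι × ι) → Prop, Q = fun Pm => (∀ p ∈ Pm, J p.1 p.2 ∧ p.1 ∈ Gd ∧ p.2 ∈ Gd) ∧
    (∀ p ∈ Pm, ∀ q ∈ Pm, p ≠ q → p.1 ≠ q.1 ∧ p.1 ≠ q.2 ∧ p.2 ≠ q.1 ∧ p.2 ≠ q.2) := ⟨_, rfl⟩
  have hne : (univ.filter Q).Nonempty := by
    refine ⟨∅, mem_filter.2 ⟨mem_univ _, ?_⟩⟩
    rw [hQ]
    exact ⟨fun p hp => absurd hp (notMem_empty p), fun p hp => absurd hp (notMem_empty p)⟩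
  obtain ⟨Pm, hPm, hmax⟩ := exists_max_image (univ.filter Q) card hne
  have hPQ : Q Pm := (mem_filter.1 hPm).2
  have hPQ' := hPQ
  rw [hQ] at hPQ'
  obtain ⟨h1, h2⟩ := hPQ'
  refine ⟨Pm, h1, h2, ?_⟩
  obtain ⟨U, hU⟩ : ∃ U, U = Pm.image Prod.fst ∪ Pm.image Prod.snd := ⟨_, rfl⟩
  have hUc : U.card ≤ 2 * Pm.card := by
    rw [hU]
    have := card_union_le (Pm.image Prod.fst) (Pm.image Prod.snd)
    have h3 := card_image_le (s := Pm) (f := Prod.fst)
    have h4 := card_image_le (s := Pm) (f := Prod.snd)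
    omega
  have hU1 : ∀ x, x ∉ U → ∀ q ∈ Pm, x ≠ q.1 ∧ x ≠ q.2 := by
    intro x hx q hq
    rw [hU, mem_union, not_or] at hx
    exact ⟨fun h5 => hx.1 (mem_image.2 ⟨q, hq, h5.symm⟩), fun h5 => hx.2 (mem_image.2 ⟨q, hq, h5.symm⟩)⟩
  have hcov : (univ : Finset ι) ⊆ (U ∪ (univ \ Gd)) ∪ ((univ \ Gd).biUnion (fun j => univ.filter fun i => J j i) ∪
      U.biUnion (fun j => univ.filter fun i => J j i)) := by
    intro i _
    rw [mem_union, mem_union, mem_union]
    by_cases hiU : i ∈ U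
    · exact Or.inl (Or.inl hiU)
    by_cases hiG : i ∈ Gd
    · right
      obtain ⟨j, hj⟩ := h i hiG
      by_cases hjG : j ∈ Gd
      · right
        refine mem_biUnion.2 ⟨j, ?_, mem_filter.2 ⟨mem_univ _, hs i j hj⟩⟩
        by_contra hjU
        have hnot : (i, j) ∉ Pm := fun h3 => (hU1 i hiU _ h3).1 rfl
        have h3 : Q (insert (i, j) Pm) := by
          rw [hQ]
          refine ⟨?_, ?_⟩
          · intro p hp
            rcases mem_insert.1 hp with rfl | hp
            · exact ⟨hj, hiG, hjG⟩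
            · exact h1 p hp
          · intro p hp q hq hpq
            rcases mem_insert.1 hp with rfl | hp'
            · rcases mem_insert.1 hq with rfl | hq'
              · exact absurd rfl hpq
              · exact ⟨(hU1 i hiU q hq').1, (hU1 i hiU q hq').2, (hU1 j hjU q hq').1, (hU1 j hjU q hq').2⟩
            · rcases mem_insert.1 hq with rfl | hq'
              · exact ⟨(hU1 i hiU p hp').1.symm, (hU1 j hjU p hp').1.symm, (hU1 i hiU p hp').2.symm,
                  (hU1 j hjU p hp').2.symm⟩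
              · exact h2 p hp' q hq' hpq
        have h4 := hmax _ (mem_filter.2 ⟨mem_univ _, h3⟩)
        rw [card_insert_of_notMem hnot] at h4
        omega
      · left
        exact mem_biUnion.2 ⟨j, mem_sdiff.2 ⟨mem_univ _, hjG⟩, mem_filter.2 ⟨mem_univ _, hs i j hj⟩⟩
    · exact Or.inl (Or.inr (mem_sdiff.2 ⟨mem_univ _, hiG⟩))
  have hc := card_le_card hcov
  rw [card_univ] at hc
  have h3 := card_union_le (U ∪ (univ \ Gd)) ((univ \ Gd).biUnion (fun j => univ.filter fun i => J j i) ∪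
      U.biUnion (fun j => univ.filter fun i => J j i))
  have h4 := card_union_le U (univ \ Gd)
  have h5 := card_union_le ((univ \ Gd).biUnion (fun j => univ.filter fun i => J j i))
    (U.biUnion (fun j => univ.filter fun i => J j i))
  have h6 := card_biUnion_le_card_mul (univ \ Gd) (fun j => univ.filter fun i => J j i) 2 (fun j _ => deg j)
  have h7 := card_biUnion_le_card_mul U (fun j => univ.filter fun i => J j i) 2 (fun j _ => deg j)
  omega

end Pool.Agent.EPH
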